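import Pool.Agent.Ef.WN

/-! MP_13664e_an (ELFR), module BS: bounded sequence entropy by counting. -/

set_option autoImplicit false

namespace Pool.Agent.Ef

open MeasureTheory Filter Topology Pool.Agent.Sar
open scoped ComplexConjugate

/-- points which agree in a long window are close -/
private theorem BS_sep {X A : Type*} [MetricSpace X] [CompactSpace X] (T : X ≃ₜ X) {L : ℕ → ℕ}
    {ph : ℕ → X → ℕ} (hP : Ph T L ph) (hc : ∀ k, Continuous (ph k)) [TopologicalSpace A]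
    [DiscreteTopology A] {s : X → A} (hs : Continuous s)
    (hsep : ∀ x x' : X, (∀ k, ph k x = ph k x') → (∀ n : ℕ, s ((⇑T)^[n] x) = s ((⇑T)^[n] x')) →
      (∀ n : ℕ, s ((⇑T.symm)^[n] x) = s ((⇑T.symm)^[n] x')) → x = x') {δ : ℝ} (hδ : 0 < δ) :
    ∃ N : ℕ, ∀ x x' : X, ph N x = ph N x' → (∀ i ≤ N, s ((⇑T)^[i] x) = s ((⇑T)^[i] x')) →
      (∀ i ≤ N, s ((⇑T.symm)^[i] x) = s ((⇑T.symm)^[i] x')) → dist x x' < δ := by
  by_contra hcon
  push Not at hcon
  have hC1 : ∀ N, IsClosed {z : X × X | ph N z.1 = ph N z.2} := fun N =>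
    isClosed_eq ((hc N).comp continuous_fst) ((hc N).comp continuous_snd)
  have hC2 : ∀ N, IsClosed {z : X × X | ∀ i ≤ N, s ((⇑T)^[i] z.1) = s ((⇑T)^[i] z.2)} := by
    intro N
    simp only [Set.ofPred_forall]
    exact isClosed_iInter fun i => isClosed_iInter fun _ =>
      isClosed_eq (hs.comp ((T.continuous.iterate i).comp continuous_fst))
        (hs.comp ((T.continuous.iterate i).comp continuous_snd))
  have hC3 : ∀ N, IsClosed {z : X × X | ∀ i ≤ N,
      s ((⇑T.symm)^[i] z.1) = s ((⇑T.symm)^[i] z.2)} := by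
    intro N
    simp only [Set.ofPred_forall]
    exact isClosed_iInter fun i => isClosed_iInter fun _ =>
      isClosed_eq (hs.comp ((T.symm.continuous.iterate i).comp continuous_fst))
        (hs.comp ((T.symm.continuous.iterate i).comp continuous_snd))
  have hC4 : IsClosed {z : X × X | δ ≤ dist z.1 z.2} :=
    isClosed_le continuous_const continuous_dist
  set C : ℕ → Set (X × X) := fun N => {z : X × X | ph N z.1 = ph N z.2} ∩
    ({z : X × X | ∀ i ≤ N, s ((⇑T)^[i] z.1) = s ((⇑T)^[i] z.2)} ∩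
    ({z : X × X | ∀ i ≤ N, s ((⇑T.symm)^[i] z.1) = s ((⇑T.symm)^[i] z.2)} ∩
    {z : X × X | δ ≤ dist z.1 z.2})) with hC
  have hCc : ∀ N, IsClosed (C N) := fun N => (hC1 N).inter ((hC2 N).inter ((hC3 N).inter hC4))
  have hmono : ∀ N, C (N + 1) ⊆ C N := by
    rintro N z ⟨h1, h2, h3, h4⟩
    refine ⟨?_, fun i hi => h2 i (by omega), fun i hi => h3 i (by omega), h4⟩
    show ph N z.1 = ph N z.2
    rw [hP.comp N z.1, hP.comp N z.2]
    have h1' : ph (N + 1) z.1 = ph (N + 1) z.2 := h1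
    rw [h1']
  have hne : ∀ N, (C N).Nonempty := by
    intro N
    obtain ⟨x, x', h1, h2, h3, h4⟩ := hcon N
    exact ⟨(x, x'), h1, h2, h3, h4⟩
  obtain ⟨z, hz⟩ := IsCompact.nonempty_iInter_of_sequence_nonempty_isCompact_isClosed C hmono hne
    (hCc 0).isCompact hCc
  rw [Set.mem_iInter] at hz
  have hzz : z.1 = z.2 := hsep z.1 z.2 (fun k => (hz k).1) (fun n => (hz n).2.1 n le_rfl)
    (fun n => (hz n).2.2.1 n le_rfl)
  have h4 : δ ≤ dist z.1 z.2 := (hz 0).2.2.2
  rw [hzz, dist_self] at h4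
  linarith

/-- the base point of `y` -/
private def BS_b {X : Type*} [TopologicalSpace X] (T : X ≃ₜ X) (p : ℕ) (y : X) : X :=
  (⇑T.symm)^[p] y

private theorem BS_iter {X : Type*} [TopologicalSpace X] (T : X ≃ₜ X) (p : ℕ) (y : X) :
    (⇑T)^[p] ((⇑T.symm)^[p] y) = y :=
  (Function.LeftInverse.iterate T.apply_symm_apply p) y

private theorem BS_iter' {X : Type*} [TopologicalSpace X] (T : X ≃ₜ X) (p : ℕ) (y : X) :
    (⇑T.symm)^[p] ((⇑T)^[p] y) = y :=
  (Function.LeftInverse.iterate T.symm_apply_apply p) y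

private theorem BS_zero {X : Type*} [TopologicalSpace X] {T : X ≃ₜ X} {L : ℕ → ℕ}
    {ph : ℕ → X → ℕ} (hP : Ph T L ph) (k : ℕ) (y : X) : ph k (BS_b T (ph k y) y) = 0 := by
  have h1 := hP.iter k (ph k y) (BS_b T (ph k y) y)
  have h2 := hP.lt k y
  have h3 := hP.lt k (BS_b T (ph k y) y)
  rw [show (⇑T)^[ph k y] (BS_b T (ph k y) y) = y from BS_iter T _ y] at h1
  generalize ph k (BS_b T (ph k y) y) = u at h1 h3
  generalize ph k y = v at h1 h2
  by_contra hu
  rcases Nat.lt_or_ge (u + v) (L k) with h | h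
  · rw [Nat.mod_eq_of_lt h] at h1
    omega
  · rw [Nat.mod_eq_sub_mod h, Nat.mod_eq_of_lt (by omega)] at h1
    omega

private theorem BS_zero1 {X : Type*} [TopologicalSpace X] {T : X ≃ₜ X} {L : ℕ → ℕ}
    {ph : ℕ → X → ℕ} (hP : Ph T L ph) {k : ℕ} {z : X} (hz : ph k z = 0) :
    ph k ((⇑T)^[L k] z) = 0 := by
  rw [hP.iter, hz, zero_add, Nat.mod_self]

private theorem BS_zero2 {X : Type*} [TopologicalSpace X] {T : X ≃ₜ X} {L : ℕ → ℕ}
    {ph : ℕ → X → ℕ} (hP : Ph T L ph) {k : ℕ} {z : X} (hz : ph k z = 0) :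
    ph k ((⇑T.symm)^[L k] z) = 0 := by
  have h1 := hP.iter k (L k) ((⇑T.symm)^[L k] z)
  rw [BS_iter, Nat.add_mod_right, Nat.mod_eq_of_lt (hP.lt k _), hz] at h1
  exact h1.symm

/-- the word at `z` -/
private def BS_w {X A : Type*} (T : X → X) (s : X → A) (l : ℕ) (z : X) : Fin l → A :=
  fun r => s (T^[r] z)

private theorem BS_window {X A : Type*} [TopologicalSpace X] {T : X ≃ₜ X} {s : X → A} {l N p : ℕ}
    (hN : N < l) (hp : p < l) {y y' : X}
    (h0 : BS_w T s l (BS_b T p y) = BS_w T s l (BS_b T p y'))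
    (h1 : BS_w T s l ((⇑T)^[l] (BS_b T p y)) = BS_w T s l ((⇑T)^[l] (BS_b T p y')))
    (h2 : BS_w T s l ((⇑T.symm)^[l] (BS_b T p y)) =
      BS_w T s l ((⇑T.symm)^[l] (BS_b T p y'))) :
    (∀ i ≤ N, s ((⇑T)^[i] y) = s ((⇑T)^[i] y')) ∧
      ∀ i ≤ N, s ((⇑T.symm)^[i] y) = s ((⇑T.symm)^[i] y') := by
  have e0 : ∀ r < l, s ((⇑T)^[r] (BS_b T p y)) = s ((⇑T)^[r] (BS_b T p y')) := fun r hr =>
    congrFun h0 ⟨r, hr⟩
  have e1 : ∀ r < l, s ((⇑T)^[r] ((⇑T)^[l] (BS_b T p y))) =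
      s ((⇑T)^[r] ((⇑T)^[l] (BS_b T p y'))) := fun r hr => congrFun h1 ⟨r, hr⟩
  have e2 : ∀ r < l, s ((⇑T)^[r] ((⇑T.symm)^[l] (BS_b T p y))) =
      s ((⇑T)^[r] ((⇑T.symm)^[l] (BS_b T p y'))) := fun r hr => congrFun h2 ⟨r, hr⟩
  have hy : ∀ z : X, z = (⇑T)^[p] (BS_b T p z) := fun z => (BS_iter T p z).symm
  constructor
  · intro i hi
    have f1 : ∀ z : X, (⇑T)^[i] z = (⇑T)^[i + p] (BS_b T p z) := by
      intro z
      conv_lhs => rw [hy z]
      rw [← Function.iterate_add_apply]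
    rw [f1 y, f1 y']
    rcases Nat.lt_or_ge (i + p) l with h | h
    · exact e0 _ h
    · obtain ⟨r, hr⟩ := Nat.exists_eq_add_of_le h
      rw [hr, Nat.add_comm l r, Function.iterate_add_apply, Function.iterate_add_apply]
      exact e1 r (by omega)
  · intro i hi
    rcases Nat.lt_or_ge p i with h | h
    · obtain ⟨r, rfl⟩ := Nat.exists_eq_add_of_le h.le
      have hrl : r ≤ l := by omega
      have f1 : ∀ z : X, (⇑T.symm)^[p + r] z = (⇑T)^[l - r] ((⇑T.symm)^[l] (BS_b T p z)) := by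
        intro z
        conv_rhs => rw [show l = (l - r) + r by omega]
        rw [Function.iterate_add_apply (⇑T.symm) (l - r) r]
        rw [show l - r + r - r = l - r by omega]
        rw [BS_iter T (l - r)]
        rw [add_comm p r, Function.iterate_add_apply]
        rfl
      rw [f1 y, f1 y']
      exact e2 _ (by omega)
    · obtain ⟨r, hr⟩ := Nat.exists_eq_add_of_le h
      have f1 : ∀ z : X, (⇑T.symm)^[i] z = (⇑T)^[r] (BS_b T p z) := by
        intro z
        unfold BS_b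
        rw [hr, Nat.add_comm i r, Function.iterate_add_apply, BS_iter]
      rw [f1 y, f1 y']
      exact e0 _ (by omega)

/-- the bound for the covering numbers -/
private theorem BS_cov {X A : Type*} [MetricSpace X] [CompactSpace X] (T : X ≃ₜ X) {L : ℕ → ℕ}
    {ph : ℕ → X → ℕ} (hP : Ph T L ph) {s : X → A} {δ : ℝ} {k N : ℕ} (hNL : N < L k)
    (hN : ∀ x x' : X, ph k x = ph k x' → (∀ i ≤ N, s ((⇑T)^[i] x) = s ((⇑T)^[i] x')) →
      (∀ i ≤ N, s ((⇑T.symm)^[i] x) = s ((⇑T.symm)^[i] x')) → dist x x' < δ) {m : ℕ}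
    {W : Finset (Fin (L k) → A)} (hWm : W.card ≤ m)
    (hW : ∀ x, ph k x = 0 → (fun r : Fin (L k) => s ((⇑T)^[r] x)) ∈ W)
    {c : ℕ} (U : Fin c → Set X) (hU : ∀ x, ∃ j, Metric.ball x δ ⊆ U j) (a : ℕ → ℕ) (n : ℕ) :
    covNum T a U n ≤ L k * (m ^ 3) ^ n := by
  classical
  unfold covNum
  rcases isEmpty_or_nonempty X with hX | hX
  · have h0 : (0 : ℕ) ∈ {c' | ∃ W : Finset (Fin n → Fin c), W.card = c' ∧
        ∀ x, ∃ w ∈ W, ∀ i : Fin n, (⇑T)^[a i] x ∈ U (w i)} :=
      ⟨∅, rfl, fun x => (hX.false x).elim⟩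
    exact (Nat.sInf_le h0).trans (Nat.zero_le _)
  choose J hJ using hU
  let b : X → X := fun y => BS_b T (ph k y) y
  have hb0 : ∀ y, ph k (b y) = 0 := fun y => BS_zero hP k y
  let c1 : X → W × W × W := fun y => (⟨BS_w T s (L k) (b y), hW _ (hb0 y)⟩,
    ⟨BS_w T s (L k) ((⇑T)^[L k] (b y)), hW _ (BS_zero1 hP (hb0 y))⟩,
    ⟨BS_w T s (L k) ((⇑T.symm)^[L k] (b y)), hW _ (BS_zero2 hP (hb0 y))⟩)
  have hc1 : ∀ y y', ph k y = ph k y' → c1 y = c1 y' → dist y y' < δ := by
    intro y y' hp hcc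
    have e0 : BS_w T s (L k) (BS_b T (ph k y) y) = BS_w T s (L k) (BS_b T (ph k y') y') :=
      congrArg (fun t : W × W × W => (t.1 : Fin (L k) → A)) hcc
    have e1 : BS_w T s (L k) ((⇑T)^[L k] (BS_b T (ph k y) y)) =
        BS_w T s (L k) ((⇑T)^[L k] (BS_b T (ph k y') y')) :=
      congrArg (fun t : W × W × W => (t.2.1 : Fin (L k) → A)) hcc
    have e2 : BS_w T s (L k) ((⇑T.symm)^[L k] (BS_b T (ph k y) y)) =
        BS_w T s (L k) ((⇑T.symm)^[L k] (BS_b T (ph k y') y')) :=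
      congrArg (fun t : W × W × W => (t.2.2 : Fin (L k) → A)) hcc
    rw [← hp] at e0 e1 e2
    obtain ⟨w1, w2⟩ := BS_window hNL (hP.lt k y) e0 e1 e2
    exact hN y y' hp w1 w2
  let nm : X → Fin (L k) × (Fin n → W × W × W) := fun x =>
    (⟨ph k x, hP.lt k x⟩, fun i => c1 ((⇑T)^[a i] x))
  let rep : Fin (L k) × (Fin n → W × W × W) → X := fun ν =>
    if h : ∃ x, nm x = ν then h.choose else Classical.arbitrary X
  have hrep : ∀ x, nm (rep (nm x)) = nm x := by
    intro x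
    have h : ∃ x', nm x' = nm x := ⟨x, rfl⟩
    show nm (if h : ∃ x', nm x' = nm x then h.choose else Classical.arbitrary X) = nm x
    rw [dif_pos h]
    exact h.choose_spec
  let g : Fin (L k) × (Fin n → W × W × W) → (Fin n → Fin c) := fun ν i => J ((⇑T)^[a i] (rep ν))
  have hcard : (Finset.univ.image g).card ≤ L k * (m ^ 3) ^ n := by
    refine Finset.card_image_le.trans ?_
    rw [Finset.card_univ, Fintype.card_prod, Fintype.card_fin, Fintype.card_fun, Fintype.card_fin,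
      Fintype.card_prod, Fintype.card_prod, Fintype.card_coe]
    refine Nat.mul_le_mul_left _ (Nat.pow_le_pow_left ?_ n)
    calc W.card * (W.card * W.card) = W.card ^ 3 := by ring
      _ ≤ m ^ 3 := Nat.pow_le_pow_left hWm 3
  have hmem : (Finset.univ.image g).card ∈ {c' | ∃ W : Finset (Fin n → Fin c), W.card = c' ∧
      ∀ x, ∃ w ∈ W, ∀ i : Fin n, (⇑T)^[a i] x ∈ U (w i)} := by
    refine ⟨Finset.univ.image g, rfl, fun x => ?_⟩
    refine ⟨g (nm x), Finset.mem_image_of_mem g (Finset.mem_univ _), fun i => ?_⟩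
    have h1 := hrep x
    have h2 : ph k (rep (nm x)) = ph k x := by
      have := congrArg (fun t : Fin (L k) × (Fin n → W × W × W) => (t.1 : ℕ)) h1
      exact this
    have h3 : c1 ((⇑T)^[a i] (rep (nm x))) = c1 ((⇑T)^[a i] x) := by
      have := congrArg (fun t : Fin (L k) × (Fin n → W × W × W) => t.2 i) h1
      exact this
    have h4 : ph k ((⇑T)^[a i] (rep (nm x))) = ph k ((⇑T)^[a i] x) := by
      rw [hP.iter, hP.iter, h2]
    have h5 := hc1 _ _ h4 h3
    refine hJ ((⇑T)^[a i] (rep (nm x))) ?_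
    rw [Metric.mem_ball, dist_comm]
    exact h5
  exact (Nat.sInf_le hmem).trans hcard

/-- For a finite open cover `U` there are `k`, `w` with `L k > 2 w` such that `ph k x` and
`s (T^i x)`, `|i| ≤ w`, determine an index `j` with `x ∈ U j` (compactness; the cells are clopen and
separate the points). Given `ph k x`, the window at time `a i` lies in two consecutive `L k`-blocks
(three at most), so there are at most `m^3` possibilities: `covNum T a U n ≤ L k * m^(3 n)`. -/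
theorem BS {X A : Type*} [MetricSpace X] [CompactSpace X] (T : X ≃ₜ X) {L : ℕ → ℕ}
    {ph : ℕ → X → ℕ} (hP : Ph T L ph) (hc : ∀ k, Continuous (ph k)) [TopologicalSpace A]
    [DiscreteTopology A] {s : X → A} (hs : Continuous s)
    (hsep : ∀ x x' : X, (∀ k, ph k x = ph k x') → (∀ n : ℕ, s ((⇑T)^[n] x) = s ((⇑T)^[n] x')) →
      (∀ n : ℕ, s ((⇑T.symm)^[n] x) = s ((⇑T.symm)^[n] x')) → x = x') {m : ℕ}
    (hW : Wds T L ph s m) : BddSeqEnt T := by
  refine ⟨3 * Real.log ((m : ℝ) + 1), ?_⟩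
  intro a _ _ c U hUo hUc
  obtain ⟨δ, hδ, hball⟩ := lebesgue_number_lemma_of_metric (s := (Set.univ : Set X))
    isCompact_univ hUo (by rw [hUc])
  obtain ⟨N, hN⟩ := BS_sep T hP hc hs hsep hδ
  obtain ⟨k, hk1, hk2⟩ := ((hP.lim.eventually_gt_atTop N).and (eventually_ge_atTop N)).exists
  obtain ⟨W, hWm, hWW⟩ := hW k
  have hcov : ∀ n, covNum T a U n ≤ L k * (m ^ 3) ^ n := by
    intro n
    refine BS_cov T hP hk1 ?_ hWm hWW U (fun x => hball x (Set.mem_univ x)) a n
    intro x x' hp h1 h2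
    refine hN x x' ?_ h1 h2
    rw [hP.comp_le hk2 x, hP.comp_le hk2 x', hp]
  have hm1 : (1 : ℝ) ≤ (m : ℝ) + 1 := by
    have : (0 : ℝ) ≤ m := Nat.cast_nonneg m
    linarith
  have hlm : 0 ≤ Real.log ((m : ℝ) + 1) := Real.log_nonneg hm1
  have hL1 : (1 : ℝ) ≤ L k := by exact_mod_cast hP.pos k
  have hlL : 0 ≤ Real.log (L k) := Real.log_nonneg hL1
  have hbound : ∀ n : ℕ, Real.log (covNum T a U n) / n ≤
      Real.log (L k) * (1 / (n : ℝ)) + 3 * Real.log ((m : ℝ) + 1) := by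
    intro n
    rcases Nat.eq_zero_or_pos n with h0 | h0
    · subst h0
      simp only [Nat.cast_zero, div_zero, mul_zero, zero_add]
      positivity
    have hn : (0 : ℝ) < n := by exact_mod_cast h0
    have h1 : Real.log (covNum T a U n) ≤ Real.log (L k) + 3 * Real.log ((m : ℝ) + 1) * n := by
      rcases Nat.eq_zero_or_pos (covNum T a U n) with h | h
      · rw [h, Nat.cast_zero, Real.log_zero]
        positivity
      · have h2 : ((covNum T a U n : ℕ) : ℝ) ≤ L k * (((m : ℝ) + 1) ^ 3) ^ n := by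
          have h3 : ((covNum T a U n : ℕ) : ℝ) ≤ L k * ((m : ℝ) ^ 3) ^ n := by
            exact_mod_cast hcov n
          refine h3.trans ?_
          refine mul_le_mul_of_nonneg_left ?_ (by linarith)
          refine pow_le_pow_left₀ (by positivity) ?_ n
          exact pow_le_pow_left₀ (Nat.cast_nonneg m) (by linarith) 3
        have h4 := Real.log_le_log (by exact_mod_cast h) h2
        rw [Real.log_mul (by positivity) (by positivity), Real.log_pow, Real.log_pow] at h4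
        push_cast at h4
        linarith
    rw [div_le_iff₀ hn]
    refine h1.trans (le_of_eq ?_)
    field_simp
  have hlim : Tendsto (fun n : ℕ => (((Real.log (L k) * (1 / (n : ℝ)) +
      3 * Real.log ((m : ℝ) + 1)) : ℝ) : EReal)) atTop
      (𝓝 (((3 * Real.log ((m : ℝ) + 1)) : ℝ) : EReal)) := by
    refine (continuous_coe_real_ereal.tendsto _).comp ?_
    have h1 : Tendsto (fun n : ℕ => Real.log (L k) * (1 / (n : ℝ)) +
        3 * Real.log ((m : ℝ) + 1)) atTop (𝓝 (Real.log (L k) * 0 + 3 * Real.log ((m : ℝ) + 1))) :=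
      (tendsto_one_div_atTop_nhds_zero_nat.const_mul _).add tendsto_const_nhds
    rwa [mul_zero, zero_add] at h1
  rw [← hlim.limsup_eq]
  refine limsup_le_limsup (Eventually.of_forall fun n => ?_)
  exact EReal.coe_le_coe_iff.2 (hbound n)

end Pool.Agent.Ef
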