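import Pool.Agent.Ef.Defs

/-! MP_13664e_an (ELFR), module CL: correlations along the orbit and on `ZMod (L k)`. -/

set_option autoImplicit false

namespace Pool.Agent.Ef

open Filter Topology
open scoped ComplexConjugate

private theorem CL_range {n : ℕ} [NeZero n] (D : ZMod n → ℝ) :
    ∑ i ∈ Finset.range n, D (i : ZMod n) = ∑ z, D z := by
  apply Finset.sum_nbij' (fun i : ℕ => (i : ZMod n)) (fun z : ZMod n => z.val)
  · intro i _
    exact Finset.mem_univ _
  · intro z _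
    exact Finset.mem_range.2 (ZMod.val_lt z)
  · intro i hi
    exact ZMod.val_natCast_of_lt (Finset.mem_range.1 hi)
  · intro z _
    exact ZMod.natCast_zmod_val z
  · intro i _
    rfl

private theorem CL_mul {n : ℕ} [NeZero n] (D : ZMod n → ℝ) (M : ℕ) :
    ∑ i ∈ Finset.range (n * M), D (i : ZMod n) = M * ∑ z, D z := by
  induction M with
  | zero => simp
  | succ M ih =>
    rw [Nat.mul_succ, Finset.sum_range_add, ih]
    have h1 : ∑ i ∈ Finset.range n, D ((n * M + i : ℕ) : ZMod n) =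
        ∑ i ∈ Finset.range n, D (i : ZMod n) := by
      apply Finset.sum_congr rfl
      intro i _
      congr 1
      push_cast
      rw [ZMod.natCast_self, zero_mul, zero_add]
    rw [h1, CL_range]
    push_cast
    ring

private theorem CL_per {n : ℕ} [NeZero n] (D : ZMod n → ℝ) (hD : ∀ z, 0 ≤ D z) (N : ℕ) :
    ∑ i ∈ Finset.Icc 1 N, D (i : ZMod n) ≤ (N + n) * avr D := by
  have hn : 0 < n := Nat.pos_of_ne_zero (NeZero.ne n)
  have hn' : (0 : ℝ) < n := Nat.cast_pos.2 hn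
  have h1 : ∑ i ∈ Finset.Icc 1 N, D (i : ZMod n) ≤
      ∑ i ∈ Finset.range (n * (N / n + 1)), D (i : ZMod n) := by
    apply Finset.sum_le_sum_of_subset_of_nonneg
    · intro i hi
      have h2 := (Finset.mem_Icc.1 hi).2
      have h3 := Nat.lt_mul_div_succ N hn
      exact Finset.mem_range.2 (by omega)
    · intro i _ _
      exact hD _
  refine h1.trans ?_
  rw [CL_mul]
  unfold avr
  have h2 : ((N / n : ℕ) : ℝ) ≤ (N : ℝ) / n := Nat.cast_div_le
  have h3 : 0 ≤ ∑ z, D z := Finset.sum_nonneg fun z _ => hD z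
  calc (((N / n + 1 : ℕ) : ℝ)) * ∑ z, D z ≤ ((N : ℝ) / n + 1) * ∑ z, D z := by
        apply mul_le_mul_of_nonneg_right _ h3
        push_cast
        linarith
    _ = (N + n) * ((n : ℝ)⁻¹ * ∑ z, D z) := by field_simp

/-- the density of the bad classes -/
private theorem CL_bad {n : ℕ} [NeZero n] {p : ℕ} (hp : Nat.Coprime p n) (ξ : ZMod n) (w : ℕ) :
    (((Finset.univ : Finset (ZMod n)).filter
      (fun z => n < (ξ + (p : ZMod n) * z).val + w)).card : ℝ) ≤ w := by
  have h0 : ((Finset.univ : Finset (ZMod n)).filter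
      (fun z => n < (ξ + (p : ZMod n) * z).val + w)).card ≤ (Finset.Ico (n - w) n).card := by
    apply Finset.card_le_card_of_injOn (fun z : ZMod n => (ξ + (p : ZMod n) * z).val)
    · intro z hz
      have h2 := (Finset.mem_filter.1 (Finset.mem_coe.1 hz)).2
      have h3 := ZMod.val_lt (ξ + (p : ZMod n) * z)
      rw [Finset.coe_Ico, Set.mem_Ico]
      dsimp only
      omega
    · intro a _ b _ hab
      have h1 := ZMod.val_injective n hab
      have h2 : (p : ZMod n) * a = (p : ZMod n) * b := add_left_cancel h1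
      have h3 : IsUnit (p : ZMod n) := (ZMod.isUnit_iff_coprime p n).2 hp
      exact h3.mul_left_cancel h2
  rw [Nat.card_Ico] at h0
  have h1 : ((Finset.univ : Finset (ZMod n)).filter
      (fun z => n < (ξ + (p : ZMod n) * z).val + w)).card ≤ w := by omega
  exact Nat.cast_le.2 h1

/-- an orbit piece inside a block follows a name -/
private theorem CL_name {X : Type*} {T : X → X} {L : ℕ → ℕ} {ph : ℕ → X → ℕ} (hP : Ph T L ph)
    {m k : ℕ} [NeZero (L k)] {G : X → ℂ} {y : Fin m → X} (hy : Nm T L ph y G k)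
    {p : ℕ} (hp0 : 1 ≤ p) {J : ℕ} (x : X) {i : ℕ} (hi : L k ≤ i)
    (h : ((ph k x : ZMod (L k)) + (p : ZMod (L k)) * (i : ZMod (L k))).val + p * J ≤ L k) :
    ∃ c, ∀ j < J, G (T^[p * (i + j)] x) = lf T G (y c)
      ((ph k x : ZMod (L k)) + (p : ZMod (L k)) * ((i : ZMod (L k)) + (j : ZMod (L k)))) := by
  set r := ((ph k x : ZMod (L k)) + (p : ZMod (L k)) * (i : ZMod (L k))).val with hr
  have hr' : r = (ph k x + p * i) % L k := by
    rw [hr, ← ZMod.val_natCast]
    push_cast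
    rfl
  have hrn : r < L k := ZMod.val_lt _
  have hpi : i ≤ p * i := Nat.le_mul_of_pos_left i hp0
  have h1 : ph k (T^[p * i - r] x) = 0 := by
    rw [hP.iter]
    have h2 : ph k x + (p * i - r) = ph k x + p * i - r := by omega
    rw [h2, hr']
    exact Nat.mod_eq_zero_of_dvd (Nat.dvd_sub_mod _)
  obtain ⟨c, hc⟩ := hy.ex _ h1
  refine ⟨c, fun j hj => ?_⟩
  have hpj : p * j < p * J := Nat.mul_lt_mul_of_pos_left hj hp0
  have h2 : r + p * j < L k := by omega
  have h3 := hc (r + p * j) h2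
  rw [← Function.iterate_add_apply] at h3
  have h4 : r + p * j + (p * i - r) = p * (i + j) := by
    rw [mul_add]
    omega
  rw [h4] at h3
  rw [h3]
  unfold lf
  congr 2
  have h5 : ((ph k x : ZMod (L k)) + (p : ZMod (L k)) * ((i : ZMod (L k)) + (j : ZMod (L k)))).val
      = (ph k x + p * (i + j)) % L k := by
    rw [← ZMod.val_natCast]
    push_cast
    rfl
  rw [h5, mul_add, ← add_assoc, Nat.add_mod, ← hr', ← Nat.mod_eq_of_lt hrn, ← Nat.add_mod,
    Nat.mod_eq_of_lt hrn, Nat.mod_eq_of_lt h2]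

private theorem CL_tel (f : ℕ → ℂ) (N : ℕ) :
    ∑ i ∈ Finset.Icc 1 N, f (i + 1) - ∑ i ∈ Finset.Icc 1 N, f i = f (N + 1) - f 1 := by
  induction N with
  | zero => simp
  | succ N ih =>
    rw [Finset.sum_Icc_succ_top (by omega), Finset.sum_Icc_succ_top (by omega)]
    linear_combination ih

private theorem CL_sh {f : ℕ → ℂ} (hf : ∀ i, ‖f i‖ ≤ 4) (N j : ℕ) :
    ‖∑ i ∈ Finset.Icc 1 N, f i - ∑ i ∈ Finset.Icc 1 N, f (i + j)‖ ≤ 8 * j := by
  induction j with
  | zero => simp
  | succ j ih =>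
    have h1 := CL_tel (fun i => f (i + j)) N
    have h2 : ∑ i ∈ Finset.Icc 1 N, f i - ∑ i ∈ Finset.Icc 1 N, f (i + (j + 1)) =
        (∑ i ∈ Finset.Icc 1 N, f i - ∑ i ∈ Finset.Icc 1 N, f (i + j)) -
          (f (N + 1 + j) - f (1 + j)) := by
      have h3 : ∑ i ∈ Finset.Icc 1 N, f (i + (j + 1)) = ∑ i ∈ Finset.Icc 1 N, f (i + 1 + j) := by
        apply Finset.sum_congr rfl
        intro i _
        congr 1
        omega
      rw [h3]
      linear_combination -h1
    rw [h2]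
    have h4 : ‖f (N + 1 + j) - f (1 + j)‖ ≤ 8 := by
      refine (norm_sub_le _ _).trans ?_
      have := hf (N + 1 + j)
      have := hf (1 + j)
      linarith
    refine (norm_sub_le _ _).trans ?_
    push_cast
    linarith

private theorem CL_win {f : ℕ → ℂ} (hf : ∀ i, ‖f i‖ ≤ 4) (N : ℕ) {J : ℕ} (hJ : 1 ≤ J) :
    ‖∑ i ∈ Finset.Icc 1 N, f i‖ ≤
      ∑ i ∈ Finset.Icc 1 N, ‖(J : ℂ)⁻¹ * ∑ j ∈ Finset.range J, f (i + j)‖ + 8 * J := by
  have hJ0 : (J : ℂ) ≠ 0 := Nat.cast_ne_zero.2 (by omega)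
  have hJ1 : (0 : ℝ) < J := Nat.cast_pos.2 hJ
  have h1 : ∑ i ∈ Finset.Icc 1 N, f i =
      ∑ i ∈ Finset.Icc 1 N, (J : ℂ)⁻¹ * ∑ j ∈ Finset.range J, f (i + j) +
      (J : ℂ)⁻¹ * ∑ j ∈ Finset.range J,
        (∑ i ∈ Finset.Icc 1 N, f i - ∑ i ∈ Finset.Icc 1 N, f (i + j)) := by
    rw [← Finset.mul_sum, Finset.sum_comm, Finset.sum_sub_distrib, Finset.sum_const,
      Finset.card_range, nsmul_eq_mul]
    field_simp
    ring
  have h2 : ‖(J : ℂ)⁻¹ * ∑ j ∈ Finset.range J,
        (∑ i ∈ Finset.Icc 1 N, f i - ∑ i ∈ Finset.Icc 1 N, f (i + j))‖ ≤ 8 * J := by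
    rw [norm_mul, norm_inv, Complex.norm_natCast]
    have h3 : ‖∑ j ∈ Finset.range J,
        (∑ i ∈ Finset.Icc 1 N, f i - ∑ i ∈ Finset.Icc 1 N, f (i + j))‖ ≤ J * (8 * J) := by
      refine (norm_sum_le _ _).trans ?_
      calc ∑ j ∈ Finset.range J,
          ‖∑ i ∈ Finset.Icc 1 N, f i - ∑ i ∈ Finset.Icc 1 N, f (i + j)‖
          ≤ ∑ j ∈ Finset.range J, (8 * J : ℝ) := by
            apply Finset.sum_le_sum
            intro j hj
            have h4 : (j : ℝ) ≤ J := Nat.cast_le.2 (Finset.mem_range.1 hj).le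
            have h5 := CL_sh hf N j
            linarith
        _ = J * (8 * J) := by rw [Finset.sum_const, Finset.card_range, nsmul_eq_mul]
    calc (J : ℝ)⁻¹ * ‖∑ j ∈ Finset.range J,
        (∑ i ∈ Finset.Icc 1 N, f i - ∑ i ∈ Finset.Icc 1 N, f (i + j))‖ ≤
        (J : ℝ)⁻¹ * (J * (8 * J)) := mul_le_mul_of_nonneg_left h3 (by positivity)
      _ = 8 * J := by field_simp
  rw [h1]
  refine (norm_add_le _ _).trans (add_le_add (norm_sum_le _ _) h2)

/-- `n = L k`, `xi = ph k x`. Average over windows `i, …, i+J-1` (error `O(J/N)`). For `i ≥ n` with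
`(xi + p i mod n) + p J ≤ n` and `(xi + p' i mod n) + p' J ≤ n` both orbit pieces stay in one block of
length `n`, hence follow names `c`, `c'`, and the window average is bounded by the sum over ALL
`c, c'`. The other `i` lie in at most `p J + p' J` classes modulo `n` (`p`, `p'` are units) and cost
`4` each. Everything depends on `i` modulo `n` only, let `N → ∞`. -/
theorem CL {X : Type*} {T : X → X} {L : ℕ → ℕ} {ph : ℕ → X → ℕ} (hP : Ph T L ph) {m k : ℕ}
    [NeZero (L k)] {G : X → ℂ} (hG : ∀ x, ‖G x‖ ≤ 2) {y : Fin m → X} (hy : Nm T L ph y G k)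
    {p p' : ℕ} (hp : Nat.Coprime p (L k)) (hp' : Nat.Coprime p' (L k)) (hp0 : 1 ≤ p)
    (hp0' : 1 ≤ p') {J : ℕ} (hJ : 1 ≤ J) (x : X) {ε : ℝ} (hε : 0 < ε) :
    ∀ᶠ N : ℕ in atTop, ‖(N : ℂ)⁻¹ * ∑ i ∈ Finset.Icc 1 N,
        G (T^[p * i] x) * conj (G (T^[p' * i] x))‖ ≤
      ∑ c, ∑ c', avr (fun z : ZMod (L k) => ‖(J : ℂ)⁻¹ * ∑ j ∈ Finset.range J,
        lf T G (y c) ((ph k x : ZMod (L k)) + (p : ZMod (L k)) * (z + (j : ZMod (L k)))) *
        conj (lf T G (y c')
          ((ph k x : ZMod (L k)) + (p' : ZMod (L k)) * (z + (j : ZMod (L k)))))‖) +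
      4 * ((p : ℝ) + p') * J / L k + ε := by
  have hn : 0 < L k := Nat.pos_of_ne_zero (NeZero.ne _)
  have hn' : (0 : ℝ) < L k := Nat.cast_pos.2 hn
  have hJ1 : (0 : ℝ) < J := Nat.cast_pos.2 hJ
  set a : ℕ → ℂ := fun i => G (T^[p * i] x) * conj (G (T^[p' * i] x)) with ha
  have ha4 : ∀ i, ‖a i‖ ≤ 4 := by
    intro i
    rw [ha]
    dsimp only
    rw [norm_mul, Complex.norm_conj]
    calc ‖G (T^[p * i] x)‖ * ‖G (T^[p' * i] x)‖ ≤ 2 * 2 :=
          mul_le_mul (hG _) (hG _) (norm_nonneg _) (by norm_num)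
      _ = 4 := by norm_num
  set W : Fin m → Fin m → ZMod (L k) → ℝ := fun c c' z =>
    ‖(J : ℂ)⁻¹ * ∑ j ∈ Finset.range J,
        lf T G (y c) ((ph k x : ZMod (L k)) + (p : ZMod (L k)) * (z + (j : ZMod (L k)))) *
        conj (lf T G (y c')
          ((ph k x : ZMod (L k)) + (p' : ZMod (L k)) * (z + (j : ZMod (L k)))))‖ with hW
  have hW0 : ∀ c c' z, 0 ≤ W c c' z := fun c c' z => norm_nonneg _
  have hS0 : ∀ z, 0 ≤ ∑ c, ∑ c', W c c' z := fun z =>
    Finset.sum_nonneg fun c _ => Finset.sum_nonneg fun c' _ => hW0 c c' z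
  set D : ZMod (L k) → ℝ := fun z => (∑ c, ∑ c', W c c' z) +
    (if L k < ((ph k x : ZMod (L k)) + (p : ZMod (L k)) * z).val + p * J then (4 : ℝ) else 0) +
    (if L k < ((ph k x : ZMod (L k)) + (p' : ZMod (L k)) * z).val + p' * J then (4 : ℝ) else 0)
    with hD
  have hD0 : ∀ z, 0 ≤ D z := by
    intro z
    rw [hD]
    dsimp only
    have := hS0 z
    split_ifs <;> linarith
  have hB4 : ∀ i, ‖(J : ℂ)⁻¹ * ∑ j ∈ Finset.range J, a (i + j)‖ ≤ 4 := by
    intro i
    rw [norm_mul, norm_inv, Complex.norm_natCast]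
    have h1 : ‖∑ j ∈ Finset.range J, a (i + j)‖ ≤ J * 4 := by
      refine (norm_sum_le _ _).trans ?_
      calc ∑ j ∈ Finset.range J, ‖a (i + j)‖ ≤ ∑ j ∈ Finset.range J, (4 : ℝ) :=
            Finset.sum_le_sum fun j _ => ha4 _
        _ = J * 4 := by rw [Finset.sum_const, Finset.card_range, nsmul_eq_mul]
    calc (J : ℝ)⁻¹ * ‖∑ j ∈ Finset.range J, a (i + j)‖ ≤ (J : ℝ)⁻¹ * (J * 4) :=
          mul_le_mul_of_nonneg_left h1 (by positivity)
      _ = 4 := by field_simp
  have hBD : ∀ i, L k ≤ i → ‖(J : ℂ)⁻¹ * ∑ j ∈ Finset.range J, a (i + j)‖ ≤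
      D (i : ZMod (L k)) := by
    intro i hi
    by_cases h1 : L k < ((ph k x : ZMod (L k)) + (p : ZMod (L k)) * (i : ZMod (L k))).val + p * J
    · refine (hB4 i).trans ?_
      rw [hD]
      dsimp only
      rw [if_pos h1]
      have := hS0 (i : ZMod (L k))
      split_ifs <;> linarith
    by_cases h2 : L k < ((ph k x : ZMod (L k)) + (p' : ZMod (L k)) * (i : ZMod (L k))).val +
        p' * J
    · refine (hB4 i).trans ?_
      rw [hD]
      dsimp only
      rw [if_pos h2, if_neg h1]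
      have := hS0 (i : ZMod (L k))
      linarith
    obtain ⟨c, hc⟩ := CL_name hP hy hp0 x hi (not_lt.1 h1)
    obtain ⟨c', hc'⟩ := CL_name hP hy hp0' x hi (not_lt.1 h2)
    have h3 : ‖(J : ℂ)⁻¹ * ∑ j ∈ Finset.range J, a (i + j)‖ = W c c' (i : ZMod (L k)) := by
      rw [hW, ha]
      dsimp only
      congr 2
      apply Finset.sum_congr rfl
      intro j hj
      rw [hc j (Finset.mem_range.1 hj), hc' j (Finset.mem_range.1 hj)]
    rw [h3, hD]
    dsimp only
    rw [if_neg h1, if_neg h2, add_zero, add_zero]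
    calc W c c' (i : ZMod (L k)) ≤ ∑ c', W c c' (i : ZMod (L k)) :=
          Finset.single_le_sum (f := fun c' => W c c' (i : ZMod (L k)))
            (fun b _ => hW0 c b _) (Finset.mem_univ c')
      _ ≤ ∑ c, ∑ c', W c c' (i : ZMod (L k)) :=
          Finset.single_le_sum (f := fun c => ∑ c', W c c' (i : ZMod (L k)))
            (fun b _ => Finset.sum_nonneg fun b' _ => hW0 b b' _) (Finset.mem_univ c)
  have hbad : ∀ p : ℕ, Nat.Coprime p (L k) → avr (fun z : ZMod (L k) =>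
      if L k < ((ph k x : ZMod (L k)) + (p : ZMod (L k)) * z).val + p * J then (4 : ℝ) else 0) ≤
      4 * p * J / L k := by
    intro p hp
    unfold avr
    rw [← Finset.sum_filter, Finset.sum_const, nsmul_eq_mul, inv_mul_eq_div]
    apply div_le_div_of_nonneg_right _ hn'.le
    have := CL_bad hp (ph k x : ZMod (L k)) (p * J)
    push_cast at this
    linarith
  have hDle : avr D ≤ ∑ c, ∑ c', avr (W c c') + 4 * ((p : ℝ) + p') * J / L k := by
    have h1 : avr D = (∑ c, ∑ c', avr (W c c')) + avr (fun z : ZMod (L k) =>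
        if L k < ((ph k x : ZMod (L k)) + (p : ZMod (L k)) * z).val + p * J then (4 : ℝ) else 0) +
        avr (fun z : ZMod (L k) =>
        if L k < ((ph k x : ZMod (L k)) + (p' : ZMod (L k)) * z).val + p' * J then (4 : ℝ)
          else 0) := by
      rw [hD]
      unfold avr
      rw [Finset.sum_add_distrib, Finset.sum_add_distrib, mul_add, mul_add]
      congr 2
      rw [Finset.sum_comm, Finset.mul_sum]
      apply Finset.sum_congr rfl
      intro c _
      rw [Finset.sum_comm, Finset.mul_sum]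
    rw [h1]
    have h2 := hbad p hp
    have h3 := hbad p' hp'
    have h4 : 4 * ((p : ℝ) + p') * J / L k = 4 * p * J / L k + 4 * p' * J / L k := by
      rw [← add_div]
      ring
    rw [h4]
    linarith
  have hav0 : 0 ≤ avr D := by
    unfold avr
    exact mul_nonneg (by positivity) (Finset.sum_nonneg fun z _ => hD0 z)
  have hlim : Tendsto (fun N : ℕ => (L k * avr D + 4 * L k + 8 * J) / (N : ℝ)) atTop (𝓝 0) :=
    tendsto_const_div_atTop_nhds_zero_nat _
  filter_upwards [hlim.eventually_le_const hε, eventually_ge_atTop 1] with N hN hN1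
  have hN0 : (0 : ℝ) < N := Nat.cast_pos.2 hN1
  rw [norm_mul, norm_inv, Complex.norm_natCast]
  have h1 : ‖∑ i ∈ Finset.Icc 1 N, a i‖ ≤ (N + L k) * avr D + 4 * L k + 8 * J := by
    refine (CL_win ha4 N hJ).trans ?_
    have h2 : ∑ i ∈ Finset.Icc 1 N, ‖(J : ℂ)⁻¹ * ∑ j ∈ Finset.range J, a (i + j)‖ ≤
        ∑ i ∈ Finset.Icc 1 N, (D (i : ZMod (L k)) + if i < L k then (4 : ℝ) else 0) := by
      apply Finset.sum_le_sum
      intro i _
      by_cases h3 : i < L k
      · rw [if_pos h3]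
        have := hB4 i
        have := hD0 (i : ZMod (L k))
        linarith
      · rw [if_neg h3, add_zero]
        exact hBD i (not_lt.1 h3)
    have h3 : ∑ i ∈ Finset.Icc 1 N, (if i < L k then (4 : ℝ) else 0) ≤ 4 * L k := by
      rw [← Finset.sum_filter, Finset.sum_const, nsmul_eq_mul]
      have h4 : ((Finset.Icc 1 N).filter (fun i => i < L k)).card ≤ (Finset.range (L k)).card :=
        Finset.card_le_card fun i hi => Finset.mem_range.2 (Finset.mem_filter.1 hi).2
      rw [Finset.card_range] at h4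
      have h5 : (((Finset.Icc 1 N).filter (fun i => i < L k)).card : ℝ) ≤ L k :=
        Nat.cast_le.2 h4
      linarith
    rw [Finset.sum_add_distrib] at h2
    have h4 := CL_per D hD0 N
    linarith
  calc (N : ℝ)⁻¹ * ‖∑ i ∈ Finset.Icc 1 N, a i‖
      ≤ (N : ℝ)⁻¹ * ((N + L k) * avr D + 4 * L k + 8 * J) :=
        mul_le_mul_of_nonneg_left h1 (by positivity)
    _ = avr D + (L k * avr D + 4 * L k + 8 * J) / (N : ℝ) := by
        field_simp
        ring
    _ ≤ _ := by linarith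

end Pool.Agent.Ef
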