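import Pool.Agent.Sar.P1
import Pool.Agent.Sar.K3
import Pool.Agent.Sar.N1
import Pool.Agent.Sar.N2
import Pool.Agent.Sar.N3
import Pool.Agent.Sar.B0
import Pool.Agent.Sar.S2
import Pool.Agent.Sar.S3

/-!
# MP_13664e_an, second theorem (odometer phases, finitely many words): common definitions
-/

set_option autoImplicit false

namespace Pool.Agent.Ef

open MeasureTheory ProbabilityTheory Filter Topology Pool.Agent.Sar
open scoped ENNReal ComplexConjugate

/-- odometer phases: `ph k x < L k` grows by one modulo `L k` along `T`; the phases are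
compatible; `L 0 ∣ L 1 ∣ …`, `L k → ∞`. -/
structure Ph {X : Type*} (T : X → X) (L : ℕ → ℕ) (ph : ℕ → X → ℕ) : Prop where
  pos : ∀ k, 1 ≤ L k
  dvd : ∀ k, L k ∣ L (k + 1)
  lim : Tendsto L atTop atTop
  lt : ∀ k x, ph k x < L k
  step : ∀ k x, ph k (T x) = (ph k x + 1) % L k
  comp : ∀ k x, ph k x = ph (k + 1) x % L k

/-- the points `y b` (all of phase zero at level `k`) give all names of `F` at level `k`: whenever
`ph k x = 0` the values `F (T^r x)`, `r < L k`, are those of some `y b`. -/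
structure Nm {X : Type*} (T : X → X) (L : ℕ → ℕ) (ph : ℕ → X → ℕ) {m : ℕ} (y : Fin m → X)
    (F : X → ℂ) (k : ℕ) : Prop where
  zero : ∀ b, ph k (y b) = 0
  ex : ∀ x, ph k x = 0 → ∃ b, ∀ r < L k, F (T^[r] x) = F (T^[r] (y b))

/-- average over `ZMod n`, complex valued -/
noncomputable def av {n : ℕ} [NeZero n] (F : ZMod n → ℂ) : ℂ := (n : ℂ)⁻¹ * ∑ z, F z

/-- average over `ZMod n`, real valued -/
noncomputable def avr {n : ℕ} [NeZero n] (F : ZMod n → ℝ) : ℝ := (n : ℝ)⁻¹ * ∑ z, F z

/-- the values of `F` along the orbit of `y`, as a function on `ZMod n` -/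
def lf {X : Type*} {n : ℕ} (T : X → X) (F : X → ℂ) (y : X) (z : ZMod n) : ℂ := F (T^[z.val] y)

/-- block property: on every block of length `q` (a residue class interval) `H` is one of the
functions `f b` of the residue modulo `q`. -/
def BlkN {n q m : ℕ} (hq : q ∣ n) (f : Fin m → ZMod q → ℂ) (H : ZMod n → ℂ) : Prop :=
  ∀ z : ZMod n, ∃ b : Fin m, ∀ r : ℕ, z.val % q + r < q →
    H (z + (r : ZMod n)) = f b (ZMod.castHom hq (ZMod q) (z + (r : ZMod n)))

/-- sum over the labels of the autocorrelation -/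
noncomputable def wd {q m : ℕ} (f : Fin m → ZMod q → ℂ) (d : ℕ) (z : ZMod q) : ℂ :=
  ∑ b, f b z * conj (f b (z + (d : ZMod q)))

/-- quadruple correlation -/
noncomputable def Qd {n : ℕ} [NeZero n] (H : ZMod n → ℂ) (a t : ZMod n) : ℂ :=
  av fun z => conj (H z) * H (z + a) * H (z + t) * conj (H (z + a + t))

/-- mean square of the short averages of the quadruple products, summed over the four labels -/
noncomputable def Sq {Q m : ℕ} [NeZero Q] (f : Fin m → ZMod Q → ℂ) (M : ℕ) (a t : ZMod Q) : ℝ :=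
  avr fun z => ∑ b : Fin 4 → Fin m, ‖(M : ℂ)⁻¹ * ∑ i ∈ Finset.range M,
    conj (f (b 0) (z + (i : ZMod Q))) * f (b 1) (z + a + (i : ZMod Q)) *
      f (b 2) (z + t + (i : ZMod Q)) * conj (f (b 3) (z + a + t + (i : ZMod Q)))‖ ^ 2

/-- the component of `F` measurable with respect to the phase at level `k` -/
noncomputable def pc {X : Type*} [MeasurableSpace X] (ν : Measure X) (L : ℕ → ℕ)
    (ph : ℕ → X → ℕ) (F : X → ℂ) (k : ℕ) (x : X) : ℂ :=
  (L k : ℂ) * ∫ z in {z | ph k z = ph k x}, F z ∂ν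

/-- the standing assumptions on the system: `ν` is the only invariant probability measure, the
phases are continuous and every eigenvalue is an `L k`-th root of unity for some `k`. -/
structure Sys {X : Type*} [TopologicalSpace X] [MeasurableSpace X] (ν : Measure X) (T : X ≃ₜ X)
    (L : ℕ → ℕ) (ph : ℕ → X → ℕ) : Prop where
  inv : ν.map T = ν
  ue : ∀ κ : Measure X, IsProbabilityMeasure κ → κ.map T = κ → κ = ν
  phs : Ph T L ph
  cont : ∀ k, Continuous (ph k)
  ev : ∀ l ∈ EV ν T, ∃ k, l ^ L k = 1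

section basic

variable {X : Type*} {T : X → X} {L : ℕ → ℕ} {ph : ℕ → X → ℕ}

theorem Ph.dvd_le (hP : Ph T L ph) {j k : ℕ} (h : j ≤ k) : L j ∣ L k := by
  induction k, h using Nat.le_induction with
  | base => exact dvd_rfl
  | succ k _ ih => exact ih.trans (hP.dvd k)

theorem Ph.comp_le (hP : Ph T L ph) {j k : ℕ} (h : j ≤ k) (x : X) :
    ph j x = ph k x % L j := by
  induction k, h using Nat.le_induction with
  | base => exact (Nat.mod_eq_of_lt (hP.lt j x)).symm
  | succ k hk ih => rw [ih, hP.comp k x, Nat.mod_mod_of_dvd _ (hP.dvd_le hk)]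

theorem Ph.iter (hP : Ph T L ph) (k n : ℕ) (x : X) :
    ph k (T^[n] x) = (ph k x + n) % L k := by
  induction n with
  | zero => exact (Nat.mod_eq_of_lt (hP.lt k x)).symm
  | succ n ih =>
    rw [Function.iterate_succ_apply', hP.step, ih, Nat.mod_add_mod, add_assoc]

theorem Ph.neZero (hP : Ph T L ph) (k : ℕ) : NeZero (L k) := ⟨by have := hP.pos k; omega⟩

end basic

end Pool.Agent.Ef
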