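import Pool.Agent.Ef.Defs
import Pool.Agent.Sar.E0
import Pool.Agent.Sar.UE

/-! MP_13664e_an (ELFR), module UU: uniform convergence of Birkhoff averages; the unique invariant
measure is ergodic. -/

set_option autoImplicit false

namespace Pool.Agent.Ef

open MeasureTheory ProbabilityTheory Filter Topology Pool.Agent.Sar
open scoped ENNReal ComplexConjugate

variable {X : Type*} [MetricSpace X] [CompactSpace X] [mX : MeasurableSpace X] [BorelSpace X]
  {ν : Measure X} [IsProbabilityMeasure ν]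

private noncomputable def UU_emp (z : ℕ → X) (N : ℕ) : Measure X :=
  ((N + 1 : ℕ) : ℝ≥0∞)⁻¹ • ∑ n ∈ Finset.range (N + 1), Measure.dirac (z n)

private theorem UU_prob (z : ℕ → X) (N : ℕ) : IsProbabilityMeasure (UU_emp z N) := by
  constructor
  unfold UU_emp
  simp only [Measure.smul_apply, Measure.finsetSum_apply, smul_eq_mul]
  simp only [Measure.dirac_apply_of_mem (Set.mem_univ _), Finset.sum_const, Finset.card_range,
    nsmul_eq_mul, mul_one]
  exact ENNReal.inv_mul_cancel (by simp) (ENNReal.natCast_ne_top _)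

private theorem UU_int (z : ℕ → X) (N : ℕ) (g : C(X, ℂ)) :
    ∫ w, g w ∂(UU_emp z N) = ((N + 1 : ℕ) : ℂ)⁻¹ * ∑ n ∈ Finset.range (N + 1), g (z n) := by
  unfold UU_emp
  rw [integral_smul_measure, integral_finsetSum_measure]
  · simp only [integral_dirac]
    rw [ENNReal.toReal_inv, ENNReal.toReal_natCast, Complex.real_smul]
    push_cast
    rfl
  · intro n _
    exact integrable_dirac (by simp)

private theorem UU_ext {μ κ : Measure X} [IsFiniteMeasure μ]
    [IsFiniteMeasure κ] (h : ∀ g : C(X, ℂ), ∫ y, g y ∂μ = ∫ y, g y ∂κ) : μ = κ := by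
  refine ext_of_forall_integral_eq_of_IsFiniteMeasure fun f => ?_
  have h1 := h ⟨fun y => ((f y : ℝ) : ℂ), Complex.continuous_ofReal.comp f.continuous⟩
  simp only [ContinuousMap.coe_mk] at h1
  rw [integral_complex_ofReal, integral_complex_ofReal] at h1
  exact_mod_cast h1

private theorem UU_sum (T : X ≃ₜ X) (f : C(X, ℂ)) (x : X) (N : ℕ) :
    ∑ n ∈ Finset.range N, f ((⇑T)^[n] x) + (f ((⇑T)^[N] x) - f x) =
      ∑ n ∈ Finset.range N, f (T ((⇑T)^[n] x)) := by
  induction N with
  | zero => simp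
  | succ N ih =>
    rw [Finset.sum_range_succ, Finset.sum_range_succ, ← ih, ← Function.iterate_succ_apply' (⇑T)]
    ring

/-- By contradiction: points `x_N` with average `≥ τ` away from `∫ V`; the limit along an ultrafilter
of the averages of `g` at `x_N` is an invariant positive functional (as in Sar.E0, Sar.UE), hence
the integral for `ν`. -/
theorem UU (T : X ≃ₜ X)
    (hU : ∀ κ : Measure X, IsProbabilityMeasure κ → κ.map T = κ → κ = ν) (V : C(X, ℂ)) {τ : ℝ}
    (hτ : 0 < τ) : ∃ N0 : ℕ, ∀ N ≥ N0, ∀ x : X,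
      ‖(N : ℂ)⁻¹ * ∑ n ∈ Finset.range N, V ((⇑T)^[n] x) - ∫ z, V z ∂ν‖ ≤ τ := by
  by_contra hcon
  push Not at hcon
  have hcon' : ∀ j : ℕ, ∃ N x, j + 1 ≤ N + 1 ∧
      τ < ‖((N + 1 : ℕ) : ℂ)⁻¹ * ∑ n ∈ Finset.range (N + 1), V ((⇑T)^[n] x) - ∫ z, V z ∂ν‖ := by
    intro j
    obtain ⟨N, hN, x, hx⟩ := hcon (j + 1)
    have h1 : N - 1 + 1 = N := by omega
    exact ⟨N - 1, x, by omega, by rw [h1]; exact hx⟩
  choose N x hN hx using hcon'
  have hNlim : Tendsto (fun j => ((N j + 1 : ℕ) : ℝ)) atTop atTop := by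
    refine tendsto_natCast_atTop_atTop.comp (tendsto_atTop_mono (f := fun j : ℕ => j) (fun j => ?_)
      tendsto_id)
    have := hN j
    omega
  let P : ℕ → ProbabilityMeasure X := fun j =>
    ⟨UU_emp (fun n => (⇑T)^[n] (x j)) (N j), UU_prob _ _⟩
  let U : Ultrafilter ℕ := Ultrafilter.of atTop
  have hUle : (U : Filter ℕ) ≤ atTop := Ultrafilter.of_le atTop
  obtain ⟨ρ, -, hρ⟩ := (isCompact_univ (X := ProbabilityMeasure X)).ultrafilter_le_nhds
    (U.map P) (by simp)
  have hT : Tendsto P (U : Filter ℕ) (𝓝 ρ) := hρ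
  have hconv : ∀ g : C(X, ℂ), Tendsto (fun j : ℕ => ((N j + 1 : ℕ) : ℂ)⁻¹ *
      ∑ n ∈ Finset.range (N j + 1), g ((⇑T)^[n] (x j))) U (𝓝 (∫ z, g z ∂(ρ : Measure X))) := by
    intro g
    rw [ProbabilityMeasure.tendsto_iff_forall_integral_rclike_tendsto ℂ] at hT
    have h1 := hT (BoundedContinuousFunction.mkOfCompact g)
    simp only [BoundedContinuousFunction.mkOfCompact_apply] at h1
    exact h1.congr fun j => UU_int _ _ g
  have hinv : (ρ : Measure X).map T = ρ := by
    have hmT : IsProbabilityMeasure ((ρ : Measure X).map T) :=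
      Measure.isProbabilityMeasure_map T.continuous.measurable.aemeasurable
    refine UU_ext fun f => ?_
    rw [integral_map T.continuous.measurable.aemeasurable
      f.continuous.measurable.aestronglyMeasurable]
    have h1 := hconv (f.comp ⟨T, T.continuous⟩)
    simp only [ContinuousMap.comp_apply, ContinuousMap.coe_mk] at h1
    have h2 := hconv f
    have hsmall : Tendsto (fun j : ℕ => ((N j + 1 : ℕ) : ℂ)⁻¹ *
        (f ((⇑T)^[N j + 1] (x j)) - f (x j))) U (𝓝 0) := by
      have h0 : Tendsto (fun j : ℕ => (((N j + 1 : ℕ) : ℝ))⁻¹ * (2 * ‖f‖)) atTop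
          (𝓝 (0 * (2 * ‖f‖))) := (tendsto_inv_atTop_zero.comp hNlim).mul_const _
      rw [zero_mul] at h0
      refine squeeze_zero_norm (fun j => ?_) (h0.mono_left hUle)
      rw [norm_mul, norm_inv, Complex.norm_natCast]
      refine mul_le_mul_of_nonneg_left ?_ (by positivity)
      refine (norm_sub_le _ _).trans ?_
      have h1 := f.norm_coe_le_norm ((⇑T)^[N j + 1] (x j))
      have h2 := f.norm_coe_le_norm (x j)
      linarith
    have h3 := h2.add hsmall
    rw [add_zero] at h3
    refine tendsto_nhds_unique h1 (h3.congr fun j => ?_)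
    rw [← mul_add, UU_sum]
  have hρν : (ρ : Measure X) = ν := hU _ inferInstance hinv
  have h1 := hconv V
  rw [hρν] at h1
  have h2 : Tendsto (fun j : ℕ => ‖((N j + 1 : ℕ) : ℂ)⁻¹ *
      ∑ n ∈ Finset.range (N j + 1), V ((⇑T)^[n] (x j)) - ∫ z, V z ∂ν‖) U (𝓝 0) := by
    have := (h1.sub_const (∫ z, V z ∂ν)).norm
    rwa [sub_self, norm_zero] at this
  have h3 := ge_of_tendsto h2 (Eventually.of_forall fun j => (hx j).le)
  linarith

/-- an invariant set `A` with `0 < ν A < 1` would give the invariant probability `ν(· | A)` -/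
theorem ue_ergodic (T : X ≃ₜ X) (hi : ν.map T = ν)
    (hU : ∀ κ : Measure X, IsProbabilityMeasure κ → κ.map T = κ → κ = ν) : Ergodic T ν := by
  have hTm : Measurable (⇑T) := T.continuous.measurable
  refine ⟨⟨hTm, hi⟩, ⟨fun s hs hTs => ?_⟩⟩
  rw [eventuallyConst_set']
  by_cases h0 : ν s = 0
  · left
    exact ae_eq_empty.2 h0
  · right
    have hp : IsProbabilityMeasure (ν[|s]) := cond_isProbabilityMeasure h0
    have hinv : (ν[|s]).map T = ν[|s] := by
      ext B hB
      rw [Measure.map_apply hTm hB, cond_apply hs, cond_apply hs]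
      congr 1
      have h1 : s ∩ (⇑T) ⁻¹' B = (⇑T) ⁻¹' (s ∩ B) := by
        rw [Set.preimage_inter, hTs]
      rw [h1, ← Measure.map_apply hTm (hs.inter hB), hi]
    have h1 := hU _ hp hinv
    rw [ae_eq_univ]
    have h2 : ν[|s] sᶜ = 0 := by
      rw [cond_apply hs, Set.inter_compl_self, measure_empty, mul_zero]
    rw [h1] at h2
    exact h2

end Pool.Agent.Ef
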