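import Pool.Agent.Ef.Defs
import Pool.Agent.Ef.UU
import Pool.Agent.Sar.K2b

/-! MP_13664e_an (ELFR), module FK: the phase components converge to the conditional expectation on
the Kronecker sigma-algebra. -/

set_option autoImplicit false
set_option linter.unusedSectionVars false
set_option linter.unusedVariables false

namespace Pool.Agent.Ef

open MeasureTheory ProbabilityTheory Filter Topology Pool.Agent.Sar
open scoped ENNReal ComplexConjugate

variable {X : Type*} [MetricSpace X] [CompactSpace X] [mX : MeasurableSpace X] [BorelSpace X]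
  {ν : Measure X} [IsProbabilityMeasure ν] {T : X ≃ₜ X} {L : ℕ → ℕ} {ph : ℕ → X → ℕ}

omit [CompactSpace X] [IsProbabilityMeasure ν] in
private theorem FK_meas (hS : Sys ν T L ph) (k : ℕ) : Measurable (ph k) :=
  (hS.cont k).measurable

omit [CompactSpace X] [IsProbabilityMeasure ν] in
private theorem FK_mset (hS : Sys ν T L ph) (k r : ℕ) : MeasurableSet {x | ph k x = r} :=
  FK_meas hS k (measurableSet_singleton r)

omit [CompactSpace X] [IsProbabilityMeasure ν] in
private theorem FK_mp (hS : Sys ν T L ph) : MeasurePreserving T ν ν :=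
  ⟨T.continuous.measurable, hS.inv⟩

omit [CompactSpace X] [IsProbabilityMeasure ν] in
private theorem FK_shift (hS : Sys ν T L ph) (k : ℕ) {r : ℕ} (hr : r < L k) :
    ν {x | ph k x = (r + 1) % L k} = ν {x | ph k x = r} := by
  rw [← (FK_mp hS).measure_preimage (FK_mset hS k _).nullMeasurableSet]
  congr 1
  ext x
  simp only [Set.mem_preimage, Set.mem_ofPred_eq, hS.phs.step]
  have h1 := hS.phs.lt k x
  constructor
  · intro h
    have h2 : (ph k x + 1) ≡ (r + 1) [MOD L k] := h
    have h3 : ph k x ≡ r [MOD L k] := Nat.ModEq.add_right_cancel' 1 h2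
    exact Nat.ModEq.eq_of_lt_of_lt h3 h1 hr
  · intro h
    rw [h]

/-- the phases are equidistributed -/
theorem FK_mass (hS : Sys ν T L ph) (k : ℕ) {r : ℕ} (hr : r < L k) :
    (ν {x | ph k x = r}).toReal = (L k : ℝ)⁻¹ := by
  have h1 : ∀ s, s < L k → ν {x | ph k x = s} = ν {x | ph k x = 0} := by
    intro s
    induction s with
    | zero => intro _; rfl
    | succ s ih =>
      intro hs
      have h2 := FK_shift hS k (r := s) (by omega)
      rw [Nat.mod_eq_of_lt hs] at h2
      rw [h2, ih (by omega)]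
  have h2 : ∑ s ∈ Finset.range (L k), ν {x | ph k x = s} = 1 := by
    rw [← measure_biUnion_finset]
    · have h3 : (⋃ b ∈ Finset.range (L k), {x | ph k x = b}) = Set.univ := by
        ext x
        simp only [Set.mem_iUnion, Set.mem_ofPred_eq, Finset.mem_range, Set.mem_univ, iff_true]
        exact ⟨ph k x, hS.phs.lt k x, rfl⟩
      rw [h3, measure_univ]
    · intro a _ b _ hab
      refine Set.disjoint_left.2 fun x hx hx' => hab ?_
      simp only [Set.mem_ofPred_eq] at hx hx'
      rw [← hx, ← hx']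
    · intro b _
      exact FK_mset hS k b
  rw [Finset.sum_congr rfl fun s hs => h1 s (Finset.mem_range.1 hs), Finset.sum_const,
    Finset.card_range, nsmul_eq_mul, ← h1 r hr] at h2
  have h3 := congrArg ENNReal.toReal h2
  rw [ENNReal.toReal_mul, ENNReal.toReal_natCast, ENNReal.toReal_one] at h3
  exact eq_inv_of_mul_eq_one_right h3

omit [CompactSpace X] [IsProbabilityMeasure ν] in
private theorem FK_unit {n : ℕ} (hn : 1 ≤ n) {l : ℂ} (hl : l ^ n = 1) : ‖l‖ = 1 := by
  have h1 := congrArg norm hl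
  rw [norm_pow, norm_one] at h1
  exact (pow_eq_one_iff_of_nonneg (norm_nonneg _) (by omega)).1 h1

/-- the root of unity characters of the phase are eigenfunctions (everywhere) -/
theorem FK_eig (hS : Sys ν T L ph) {k : ℕ} {l : ℂ} (hl : l ^ L k = 1) :
    IsEig ν T l (fun x => l ^ ph k x) ∧ ∀ x, l ^ ph k (T x) = l * l ^ ph k x := by
  have h1 : ∀ x, l ^ ph k (T x) = l * l ^ ph k x := by
    intro x
    rw [hS.phs.step, ← pow_succ']
    conv_rhs => rw [← Nat.mod_add_div (ph k x + 1) (L k), pow_add, pow_mul, hl, one_pow, mul_one]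
  refine ⟨⟨?_, fun x => ?_, Filter.Eventually.of_forall h1⟩, h1⟩
  · exact (measurable_of_countable (fun n : ℕ => l ^ n)).comp (FK_meas hS k)
  · rw [norm_pow, FK_unit (hS.phs.pos k) hl, one_pow]

theorem FK_cont (hS : Sys ν T L ph) (F : X → ℂ) (k : ℕ) : Continuous (pc ν L ph F k) := by
  have h1 : pc ν L ph F k =
      (fun r : ℕ => (L k : ℂ) * ∫ z in {z | ph k z = r}, F z ∂ν) ∘ ph k := rfl
  rw [h1]
  exact continuous_of_discreteTopology.comp (hS.cont k)

theorem FK_bd (hS : Sys ν T L ph) {F : X → ℂ} (hF : Measurable F) {B : ℝ} (hB : ∀ x, ‖F x‖ ≤ B)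
    (k : ℕ) (x : X) : ‖pc ν L ph F k x‖ ≤ B := by
  unfold pc
  have h1 : ‖∫ z in {z | ph k z = ph k x}, F z ∂ν‖ ≤ B * ν.real {z | ph k z = ph k x} :=
    norm_setIntegral_le_of_norm_le_const (measure_lt_top _ _) fun z _ => hB z
  have h2 : ν.real {z | ph k z = ph k x} = (L k : ℝ)⁻¹ := FK_mass hS k (hS.phs.lt k x)
  rw [h2] at h1
  rw [norm_mul, Complex.norm_natCast]
  have hL : (0 : ℝ) < L k := by exact_mod_cast hS.phs.pos k
  calc (L k : ℝ) * ‖∫ z in {z | ph k z = ph k x}, F z ∂ν‖ ≤ L k * (B * (L k : ℝ)⁻¹) := by gcongr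
    _ = B := by field_simp

omit [CompactSpace X] [IsProbabilityMeasure ν] in
private theorem FK_ort {n : ℕ} (hn : 1 ≤ n) {a b : ℕ} (ha : a < n) (hb : b < n) :
    ∑ l ∈ Polynomial.nthRootsFinset n (1 : ℂ), conj (l ^ a) * l ^ b =
      if a = b then (n : ℂ) else 0 := by
  have hne : NeZero n := ⟨by omega⟩
  have hz := Complex.isPrimitiveRoot_exp n (by omega)
  set ζ : ℂ := Complex.exp (2 * Real.pi * Complex.I / n) with hζ
  have h1 : Polynomial.nthRootsFinset n (1 : ℂ) = (Finset.range n).image (fun i => ζ ^ i) := by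
    ext l
    rw [Polynomial.mem_nthRootsFinset (by omega), Finset.mem_image]
    constructor
    · intro h
      obtain ⟨i, hi, rfl⟩ := hz.eq_pow_of_pow_eq_one h
      exact ⟨i, Finset.mem_range.2 hi, rfl⟩
    · rintro ⟨i, -, rfl⟩
      rw [← pow_mul, mul_comm, pow_mul, hz.pow_eq_one, one_pow]
  rw [h1, Finset.sum_image (fun i hi j hj h => hz.pow_inj (Finset.mem_range.1 hi)
    (Finset.mem_range.1 hj) h)]
  have hζn : ‖ζ‖ = 1 := FK_unit hn hz.pow_eq_one
  have hcz : conj ζ * ζ = 1 := by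
    rw [mul_comm, Complex.mul_conj', hζn]
    norm_num
  have h2 : ∀ i, conj ((ζ ^ i) ^ a) * (ζ ^ i) ^ b = (conj ζ ^ a * ζ ^ b) ^ i := by
    intro i
    rw [map_pow, map_pow, mul_pow, ← pow_mul, ← pow_mul, ← pow_mul, ← pow_mul, mul_comm i a,
      mul_comm i b]
  simp_rw [h2]
  split_ifs with hab
  · subst hab
    rw [← mul_pow, hcz, one_pow]
    simp
  · set q : ℂ := conj ζ ^ a * ζ ^ b with hq
    have hqn : q ^ n = 1 := by
      rw [hq, mul_pow, ← pow_mul, ← pow_mul, mul_comm a n, mul_comm b n, pow_mul, pow_mul,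
        ← map_pow, hz.pow_eq_one, map_one, one_pow, one_pow, mul_one]
    have hq1 : q ≠ 1 := by
      intro h
      apply hab
      have h3 : ζ ^ a = ζ ^ b := by
        have h4 : ζ ^ a * (conj ζ ^ a * ζ ^ b) = ζ ^ b := by
          rw [← mul_assoc, ← mul_pow, mul_comm ζ, hcz, one_pow, one_mul]
        rw [← hq, h, mul_one] at h4
        exact h4
      exact hz.pow_inj ha hb h3
    rw [geom_sum_eq hq1, hqn, sub_self, zero_div]

/-- Fourier expansion of the phase component (over the finite set of `L k`-th roots of unity) -/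
theorem FK_exp (hS : Sys ν T L ph) {F : X → ℂ} (hF : BM F) (k : ℕ) (x : X) :
    pc ν L ph F k x = ∑ l ∈ Polynomial.nthRootsFinset (L k) (1 : ℂ),
      (∫ z, F z * conj (l ^ ph k z) ∂ν) * l ^ ph k x := by
  have hint : ∀ l ∈ Polynomial.nthRootsFinset (L k) (1 : ℂ),
      Integrable (fun z => F z * conj (l ^ ph k z) * l ^ ph k x) ν := by
    intro l hl
    rw [Polynomial.mem_nthRootsFinset (hS.phs.pos k)] at hl
    have h1 := (FK_eig hS hl).1
    exact (K2b_int (K2b_mul hF (K2b_conj ⟨h1.meas, 1, fun y => (h1.norm y).le⟩))).mul_const _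
  have h1 : ∀ z, (∑ l ∈ Polynomial.nthRootsFinset (L k) (1 : ℂ),
      F z * conj (l ^ ph k z) * l ^ ph k x) =
      (L k : ℂ) * ({z | ph k z = ph k x}.indicator F z) := by
    intro z
    have h2 := FK_ort (hS.phs.pos k) (hS.phs.lt k z) (hS.phs.lt k x)
    simp_rw [mul_assoc]
    rw [← Finset.mul_sum, h2]
    by_cases hz : ph k z = ph k x
    · rw [if_pos hz, Set.indicator_of_mem (show z ∈ {z | ph k z = ph k x} from hz), mul_comm]
    · rw [if_neg hz, Set.indicator_of_notMem (show z ∉ {z | ph k z = ph k x} from hz), mul_zero,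
        mul_zero]
  unfold pc
  rw [← integral_indicator (FK_mset hS k _), ← integral_const_mul]
  simp_rw [← h1]
  rw [integral_finsetSum _ hint]
  refine Finset.sum_congr rfl fun l _ => ?_
  rw [integral_mul_const]

/-- `l ^ ph k` is a unimodular multiple of the chosen eigenfunction -/
private theorem FK_c (hS : Sys ν T L ph) {k : ℕ} {l : ℂ} (hl : l ^ L k = 1) :
    l ∈ EV ν T ∧ ∃ c : ℂ, ‖c‖ = 1 ∧ ∀ᵐ x ∂ν, l ^ ph k x = c * eg ν T l x := by
  have h1 := (FK_eig hS hl).1
  have hev : l ∈ EV ν T := ⟨_, h1⟩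
  exact ⟨hev, eig_unique (ue_ergodic T hS.inv hS.ue) h1 (eg_spec hev)⟩

private theorem FK_fc' {F : X → ℂ} {k : ℕ} {l c : ℂ}
    (hc : ∀ᵐ x ∂ν, l ^ ph k x = c * eg ν T l x) :
    ∫ z, F z * conj (l ^ ph k z) ∂ν = fc ν T F l * conj c := by
  unfold fc
  rw [← integral_mul_const]
  refine integral_congr_ae ?_
  filter_upwards [hc] with x hx
  rw [hx, map_mul]
  ring

/-- every eigenfunction coefficient is, up to a unimodular constant, a coefficient with respect to
`l ^ ph k` -/
theorem FK_fc (hS : Sys ν T L ph) {F : X → ℂ} (hF : BM F) {k : ℕ} {l : ℂ} (hl : l ^ L k = 1) :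
    ‖∫ z, F z * conj (l ^ ph k z) ∂ν‖ = ‖fc ν T F l‖ := by
  obtain ⟨-, c, hc, hce⟩ := FK_c hS hl
  rw [FK_fc' hce, norm_mul, RCLike.norm_conj, hc, mul_one]

/-- Sar.Kr_dense, fc_cex; all eigenvalues are `L k`-th roots of unity for some `k` -/
theorem FK [Nonempty X] (hS : Sys ν T L ph) {F : X → ℂ} (hF : BM F) :
    Tendsto (fun k => ∫ x, ‖cex ν T F x - pc ν L ph F k x‖ ^ 2 ∂ν) atTop (𝓝 0) := by
  have hE : Ergodic T ν := ue_ergodic T hS.inv hS.ue
  have hT := hE.toMeasurePreserving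
  rw [Metric.tendsto_atTop]
  intro ε hε
  obtain ⟨Λ, hΛ, hΛ'⟩ := Kr_dense hE (cex_Kr (T := T) hF) (cex_BM hF).bdd
    (ε := ε / 2) (by positivity)
  have h1 : ∀ l ∈ Λ, ∃ k, l ^ L k = 1 := fun l hl => hS.ev l (hΛ hl)
  have h2 : ∃ k0, ∀ k ≥ k0, ∀ l ∈ Λ, l ^ L k = 1 := by
    have h3 : ∀ s : Finset ℂ, (∀ l ∈ s, ∃ k, l ^ L k = 1) →
        ∃ k0, ∀ k ≥ k0, ∀ l ∈ s, l ^ L k = 1 := by
      classical
      intro s
      induction s using Finset.induction_on with
      | empty => intro _; exact ⟨0, fun k _ l hl => by simp at hl⟩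
      | insert a s ha ih =>
        intro h
        obtain ⟨k1, hk1⟩ := ih fun l hl => h l (Finset.mem_insert_of_mem hl)
        obtain ⟨k2, hk2⟩ := h a (Finset.mem_insert_self _ _)
        refine ⟨max k1 k2, fun k hk l hl => ?_⟩
        rcases Finset.mem_insert.1 hl with rfl | hl
        · obtain ⟨m, hm⟩ := hS.phs.dvd_le ((le_max_right k1 k2).trans hk)
          rw [hm, pow_mul, hk2, one_pow]
        · exact hk1 k ((le_max_left k1 k2).trans hk) l hl
    exact h3 Λ h1
  obtain ⟨k0, hk0⟩ := h2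
  refine ⟨k0, fun k hk => ?_⟩
  have hroot : ∀ l ∈ Polynomial.nthRootsFinset (L k) (1 : ℂ), l ^ L k = 1 := fun l hl =>
    (Polynomial.mem_nthRootsFinset (hS.phs.pos k) 1).1 hl
  have h4 := hΛ' (Polynomial.nthRootsFinset (L k) (1 : ℂ)) (fun l hl =>
    (Polynomial.mem_nthRootsFinset (hS.phs.pos k) 1).2 (hk0 k hk l hl))
    (fun l hl => (FK_c hS (hroot l hl)).1)
  have h5 : ∀ᵐ x ∂ν, pc ν L ph F k x = ∑ l ∈ Polynomial.nthRootsFinset (L k) (1 : ℂ),
      fc ν T (cex ν T F) l * eg ν T l x := by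
    have h6 : ∀ᵐ x ∂ν, ∀ l ∈ Polynomial.nthRootsFinset (L k) (1 : ℂ),
        (∫ z, F z * conj (l ^ ph k z) ∂ν) * l ^ ph k x =
          fc ν T (cex ν T F) l * eg ν T l x := by
      rw [Filter.eventually_all_finset]
      intro l hl
      obtain ⟨hev, c, hc, hce⟩ := FK_c hS (hroot l hl)
      filter_upwards [hce] with x hx
      rw [FK_fc' hce, hx, fc_cex hT hF hev]
      have h7 : conj c * c = 1 := by
        rw [mul_comm, Complex.mul_conj', hc]
        norm_num
      calc fc ν T F l * conj c * (c * eg ν T l x)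
          = (conj c * c) * (fc ν T F l * eg ν T l x) := by ring
        _ = _ := by rw [h7, one_mul]
    filter_upwards [h6] with x hx
    rw [FK_exp hS hF]
    exact Finset.sum_congr rfl hx
  have h8 : ∫ x, ‖cex ν T F x - pc ν L ph F k x‖ ^ 2 ∂ν ≤ ε / 2 := by
    refine le_trans (le_of_eq ?_) h4
    refine integral_congr_ae ?_
    filter_upwards [h5] with x hx
    rw [hx]
  rw [Real.dist_eq, sub_zero, abs_of_nonneg (integral_nonneg fun x => by positivity)]
  linarith

end Pool.Agent.Ef
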