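import Pool.Agent.Ef.Defs

/-! MP_13664e_an (ELFR), module GG: choice of the slowly varying weight. -/

set_option autoImplicit false

namespace Pool.Agent.Ef

open Filter Topology
open scoped ComplexConjugate

private theorem GG_unit (w : ℂ) : ∃ s : ℂ, ‖s‖ ≤ 1 ∧ w * s = (‖w‖ : ℂ) := by
  by_cases h : w = 0
  · exact ⟨0, by simp, by simp [h]⟩
  · refine ⟨conj w / (‖w‖ : ℂ), ?_, ?_⟩
    · rw [norm_div, Complex.norm_conj, Complex.norm_real, norm_norm, div_self]
      exact norm_ne_zero_iff.mpr h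
    · have h1 : (‖w‖ : ℂ) ≠ 0 := by
        exact_mod_cast norm_ne_zero_iff.mpr h
      rw [mul_div_assoc', Complex.mul_conj, div_eq_iff h1, Complex.normSq_eq_norm_sq]
      push_cast
      ring

/-- `g z = (1/J) ∑_{j<J} s (z - j)` where `s z * S z = |S z|`, `|s z| = 1`,
`S z = (1/J) ∑_{j<J} P (z+j) conj (P' (z+j))`. -/
theorem GG {n : ℕ} [NeZero n] (P P' : ZMod n → ℂ) {J : ℕ} (hJ : 1 ≤ J) :
    ∃ g : ZMod n → ℂ, (∀ z, ‖g z‖ ≤ 1) ∧ (∀ z, ‖g (z + 1) - g z‖ ≤ 2 / J) ∧
      avr (fun z => ‖(J : ℂ)⁻¹ * ∑ j ∈ Finset.range J,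
        P (z + (j : ZMod n)) * conj (P' (z + (j : ZMod n)))‖) =
      ‖av (fun z => P z * conj (P' z) * g z)‖ := by
  classical
  set S : ZMod n → ℂ := fun z => (J : ℂ)⁻¹ * ∑ j ∈ Finset.range J,
        P (z + (j : ZMod n)) * conj (P' (z + (j : ZMod n))) with hS
  choose s hs1 hs2 using fun z => GG_unit (S z)
  have hJ0 : (0 : ℝ) < J := by exact_mod_cast hJ
  have hJn : ‖(J : ℂ)⁻¹‖ = (J : ℝ)⁻¹ := by
    rw [norm_inv, Complex.norm_natCast]
  refine ⟨fun z => (J : ℂ)⁻¹ * ∑ j ∈ Finset.range J, s (z - (j : ZMod n)), ?_, ?_, ?_⟩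
  · intro z
    rw [norm_mul, hJn]
    have h1 : ‖∑ j ∈ Finset.range J, s (z - (j : ZMod n))‖ ≤ J := by
      refine (norm_sum_le _ _).trans ?_
      refine (Finset.sum_le_card_nsmul _ _ 1 fun j _ => hs1 _).trans ?_
      simp
    calc (J : ℝ)⁻¹ * ‖∑ j ∈ Finset.range J, s (z - (j : ZMod n))‖
        ≤ (J : ℝ)⁻¹ * J := mul_le_mul_of_nonneg_left h1 (by positivity)
      _ = 1 := inv_mul_cancel₀ hJ0.ne'
  · intro z
    rw [← mul_sub, norm_mul, hJn]
    obtain ⟨K, rfl⟩ : ∃ K, J = K + 1 := ⟨J - 1, by omega⟩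
    have h1 : ∑ j ∈ Finset.range (K + 1), s (z + 1 - (j : ZMod n)) -
        ∑ j ∈ Finset.range (K + 1), s (z - (j : ZMod n)) = s (z + 1) - s (z - (K : ZMod n)) := by
      rw [Finset.sum_range_succ', Finset.sum_range_succ]
      have h2 : ∀ j ∈ Finset.range K, s (z + 1 - ((j + 1 : ℕ) : ZMod n)) =
          s (z - (j : ZMod n)) := by
        intro j _
        congr 1
        push_cast
        ring
      rw [Finset.sum_congr rfl h2]
      simp only [Nat.cast_zero, sub_zero]
      ring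
    rw [h1]
    have h3 : ‖s (z + 1) - s (z - (K : ZMod n))‖ ≤ 2 := by
      refine (norm_sub_le _ _).trans ?_
      have := hs1 (z + 1)
      have := hs1 (z - (K : ZMod n))
      linarith
    rw [div_eq_inv_mul]
    exact mul_le_mul_of_nonneg_left h3 (by positivity)
  · have h1 : av (fun z => P z * conj (P' z) *
        ((J : ℂ)⁻¹ * ∑ j ∈ Finset.range J, s (z - (j : ZMod n)))) =
        ((avr (fun z => ‖S z‖) : ℝ) : ℂ) := by
      unfold av avr
      push_cast
      congr 1
      have h2 : ∀ z : ZMod n, ((‖S z‖ : ℝ) : ℂ) = S z * s z := fun z => (hs2 z).symm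
      simp_rw [h2]
      calc ∑ z : ZMod n, P z * conj (P' z) *
            ((J : ℂ)⁻¹ * ∑ j ∈ Finset.range J, s (z - (j : ZMod n)))
          = ∑ j ∈ Finset.range J, ∑ z : ZMod n,
              (J : ℂ)⁻¹ * (P z * conj (P' z) * s (z - (j : ZMod n))) := by
            rw [Finset.sum_comm]
            refine Finset.sum_congr rfl fun z _ => ?_
            rw [← Finset.mul_sum, ← Finset.mul_sum]
            ring
        _ = ∑ j ∈ Finset.range J, ∑ z : ZMod n,
              (J : ℂ)⁻¹ * (P (z + (j : ZMod n)) * conj (P' (z + (j : ZMod n))) * s z) := by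
            refine Finset.sum_congr rfl fun j _ => ?_
            refine (Fintype.sum_equiv (Equiv.addRight (j : ZMod n)) _ _ fun z => ?_).symm
            simp [Equiv.coe_addRight]
        _ = ∑ z : ZMod n, S z * s z := by
            rw [Finset.sum_comm]
            refine Finset.sum_congr rfl fun z _ => ?_
            rw [hS]
            simp only
            rw [← Finset.mul_sum, mul_assoc, Finset.sum_mul]
    rw [h1, Complex.norm_real, Real.norm_of_nonneg]
    unfold avr
    exact mul_nonneg (by positivity) (Finset.sum_nonneg fun z _ => norm_nonneg _)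

end Pool.Agent.Ef
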