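import Pool.Agent.Ef.Defs

/-! MP_13664e_an (ELFR), module MR: functions of the phase are orthogonal to the Moebius
function. -/

set_option autoImplicit false

namespace Pool.Agent.Ef

open Filter Topology Pool.Agent.Sar
open scoped ComplexConjugate

private theorem MR_ind {q : ℕ} {ω : ℂ} (hω : IsPrimitiveRoot ω q) (m : ℕ) :
    ∑ j ∈ Finset.range q, (ω ^ j) ^ m = if q ∣ m then (q : ℂ) else 0 := by
  have h1 : ∀ j ∈ Finset.range q, (ω ^ j) ^ m = (ω ^ m) ^ j := by
    intro j _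
    rw [← pow_mul, ← pow_mul, mul_comm]
  rw [Finset.sum_congr rfl h1]
  split_ifs with h
  · rw [(hω.pow_eq_one_iff_dvd m).2 h]
    simp
  · have h2 : ω ^ m ≠ 1 := fun h3 => h ((hω.pow_eq_one_iff_dvd m).1 h3)
    have h3 := geom_sum_mul (ω ^ m) q
    rw [← pow_mul, mul_comm m q, pow_mul, hω.pow_eq_one, one_pow, sub_self] at h3
    rcases mul_eq_zero.1 h3 with h4 | h4
    · exact h4
    · exact absurd (sub_eq_zero.1 h4) h2

/-- `n ↦ ψ (ph k (T^n x))` is `L k`-periodic, a combination of `z^n`, `z^(L k) = 1` (Sar.mu_root) -/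
theorem MR (hmu : Pool.Agent.BGG.SWmu) {X : Type*} {T : X → X} {L : ℕ → ℕ} {ph : ℕ → X → ℕ}
    (hP : Ph T L ph) (k : ℕ) (ψ : ℕ → ℂ) (x : X) :
    Tendsto (fun N : ℕ => (N : ℂ)⁻¹ * ∑ n ∈ Finset.Icc 1 N,
      ψ (ph k (T^[n] x)) * ((ArithmeticFunction.moebius n : ℤ) : ℂ)) atTop (𝓝 0) := by
  set q := L k with hq
  have hq1 : 1 ≤ q := hP.pos k
  have hq0 : (q : ℂ) ≠ 0 := by exact_mod_cast (by omega : q ≠ 0)
  set ω := Complex.exp (2 * Real.pi * Complex.I / q) with hωd
  have hω : IsPrimitiveRoot ω q := Complex.isPrimitiveRoot_exp q (by omega)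
  have h1 : ∀ n : ℕ, ψ (ph k (T^[n] x)) = ∑ c ∈ Finset.range q, ∑ j ∈ Finset.range q,
      (ψ c * (q : ℂ)⁻¹ * (ω ^ j) ^ (ph k x + (q - c))) * (ω ^ j) ^ n := by
    intro n
    rw [hP.iter, ← hq]
    have h2 : ∀ c ∈ Finset.range q, ∑ j ∈ Finset.range q,
        (ψ c * (q : ℂ)⁻¹ * (ω ^ j) ^ (ph k x + (q - c))) * (ω ^ j) ^ n =
        if (ph k x + n) % q = c then ψ c else 0 := by
      intro c hc
      have hc' := Finset.mem_range.1 hc
      have h3 : ∀ j ∈ Finset.range q,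
          (ψ c * (q : ℂ)⁻¹ * (ω ^ j) ^ (ph k x + (q - c))) * (ω ^ j) ^ n =
          (ψ c * (q : ℂ)⁻¹) * (ω ^ j) ^ (ph k x + (q - c) + n) := by
        intro j _
        rw [pow_add _ (ph k x + (q - c)) n]
        ring
      rw [Finset.sum_congr rfl h3, ← Finset.mul_sum, MR_ind hω]
      have h4 : q ∣ ph k x + (q - c) + n ↔ (ph k x + n) % q = c := by
        have h5 : ph k x + (q - c) + n + c = ph k x + n + q := by omega
        constructor
        · intro h6
          have h7 : (ph k x + n + q) % q = c % q := by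
            rw [← h5, Nat.add_mod, Nat.mod_eq_zero_of_dvd h6, zero_add, Nat.mod_mod]
          rw [Nat.add_mod_right, Nat.mod_eq_of_lt hc'] at h7
          exact h7
        · intro h6
          have h7 : (ph k x + n + q) % q = c := by rw [Nat.add_mod_right, h6]
          have h8 : q ∣ (ph k x + n + q) - c := by
            have h9 := Nat.dvd_sub_mod (n := q) (ph k x + n + q)
            rwa [h7] at h9
          have h9 : (ph k x + n + q) - c = ph k x + (q - c) + n := by omega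
          rwa [h9] at h8
      by_cases h6 : (ph k x + n) % q = c
      · rw [if_pos (h4.2 h6), if_pos h6, mul_assoc, inv_mul_cancel₀ hq0, mul_one]
      · rw [if_neg fun h => h6 (h4.1 h), if_neg h6, mul_zero]
    rw [Finset.sum_congr rfl h2, Finset.sum_ite_eq, if_pos]
    exact Finset.mem_range.2 (Nat.mod_lt _ hq1)
  have h2 : ∀ N : ℕ, (N : ℂ)⁻¹ * ∑ n ∈ Finset.Icc 1 N,
      ψ (ph k (T^[n] x)) * ((ArithmeticFunction.moebius n : ℤ) : ℂ) =
      ∑ c ∈ Finset.range q, ∑ j ∈ Finset.range q,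
        (ψ c * (q : ℂ)⁻¹ * (ω ^ j) ^ (ph k x + (q - c))) *
          ((N : ℂ)⁻¹ * ∑ n ∈ Finset.Icc 1 N,
            (ω ^ j) ^ n * ((ArithmeticFunction.moebius n : ℤ) : ℂ)) := by
    intro N
    have h3 : ∀ n ∈ Finset.Icc 1 N,
        ψ (ph k (T^[n] x)) * ((ArithmeticFunction.moebius n : ℤ) : ℂ) =
        ∑ c ∈ Finset.range q, ∑ j ∈ Finset.range q,
          (ψ c * (q : ℂ)⁻¹ * (ω ^ j) ^ (ph k x + (q - c))) *
            ((ω ^ j) ^ n * ((ArithmeticFunction.moebius n : ℤ) : ℂ)) := by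
      intro n _
      rw [h1 n, Finset.sum_mul]
      refine Finset.sum_congr rfl fun c _ => ?_
      rw [Finset.sum_mul]
      refine Finset.sum_congr rfl fun j _ => ?_
      ring
    rw [Finset.sum_congr rfl h3, Finset.sum_comm, Finset.mul_sum]
    refine Finset.sum_congr rfl fun c _ => ?_
    rw [Finset.sum_comm, Finset.mul_sum]
    refine Finset.sum_congr rfl fun j _ => ?_
    rw [← Finset.mul_sum]
    ring
  have h3 : Tendsto (fun N : ℕ => ∑ c ∈ Finset.range q, ∑ j ∈ Finset.range q,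
        (ψ c * (q : ℂ)⁻¹ * (ω ^ j) ^ (ph k x + (q - c))) *
          ((N : ℂ)⁻¹ * ∑ n ∈ Finset.Icc 1 N,
            (ω ^ j) ^ n * ((ArithmeticFunction.moebius n : ℤ) : ℂ))) atTop
      (𝓝 (∑ c ∈ Finset.range q, ∑ j ∈ Finset.range q,
        (ψ c * (q : ℂ)⁻¹ * (ω ^ j) ^ (ph k x + (q - c))) * 0)) := by
    refine tendsto_finsetSum _ fun c _ => tendsto_finsetSum _ fun j _ => Tendsto.const_mul _ ?_
    refine mu_root hmu hq1 ?_
    rw [← pow_mul, mul_comm, pow_mul, hω.pow_eq_one, one_pow]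
  simp only [mul_zero, Finset.sum_const_zero] at h3
  exact h3.congr fun N => (h2 N).symm

end Pool.Agent.Ef
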