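import Pool.Agent.Ef.R1

/-! MP_13664e_an (ELFR), module MW: Fourier coefficients of the label autocorrelation. -/

set_option autoImplicit false

namespace Pool.Agent.Ef

open Filter Topology Pool.Agent.Sar
open scoped ComplexConjugate

private theorem MW_sum {Q : ℕ} [NeZero Q] (F : ℕ → ℂ) :
    ∑ z : ZMod Q, F z.val = ∑ i ∈ Finset.range Q, F i := by
  symm
  refine Finset.sum_nbij' (fun i : ℕ => (i : ZMod Q)) (fun z : ZMod Q => z.val) ?_ ?_ ?_ ?_ ?_
  · intro i _; exact Finset.mem_univ _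
  · intro z _; exact Finset.mem_range.2 (ZMod.val_lt z)
  · intro i hi; exact ZMod.val_cast_of_lt (Finset.mem_range.1 hi)
  · intro z _; exact ZMod.natCast_zmod_val z
  · intro i hi
    rw [ZMod.val_cast_of_lt (Finset.mem_range.1 hi)]

/-- `fh (wd f D) χ` is the sum over `b` of the averages of `G(T^z y_b) conj (G(T^(z+D) y_b)) ζ^z` with
`ζ = conj (χ 1)`, `ζ^Q = 1`, up to the `z` with `z.val + D ≥ Q` (density `D/Q`, cost `2 · 4` per
label). -/
theorem MW {X : Type*} {T : X → X} {m Q D : ℕ} [NeZero Q] {G : X → ℂ} (hG : ∀ x, ‖G x‖ ≤ 2)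
    (y : Fin m → X) {s : ℝ}
    (hs : ∀ (b : Fin m) (ζ : ℂ), ζ ^ Q = 1 → ‖(Q : ℂ)⁻¹ * ∑ i ∈ Finset.range Q,
      G (T^[i] (y b)) * conj (G (T^[i + D] (y b))) * ζ ^ i‖ ≤ s) (χ : AddChar (ZMod Q) ℂ) :
    ‖fh (wd (fun b => (lf T G (y b) : ZMod Q → ℂ)) D) χ‖ ≤ m * s + 8 * m * D / Q := by
  have hQ : 0 < Q := Nat.pos_of_ne_zero (NeZero.ne Q)
  have hQr : (0 : ℝ) < Q := by exact_mod_cast hQ
  set ζ : ℂ := conj (χ 1) with hζ
  have hχ : ∀ z : ZMod Q, χ z = χ 1 ^ z.val := by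
    intro z
    conv_lhs => rw [← ZMod.natCast_zmod_val z, ← nsmul_one]
    rw [AddChar.map_nsmul_eq_pow]
  have hζQ : ζ ^ Q = 1 := by
    rw [hζ, ← map_pow, ← AddChar.map_nsmul_eq_pow]
    simp
  have hζn : ‖ζ‖ = 1 := Complex.norm_eq_one_of_pow_eq_one hζQ hQ.ne'
  have h1 : fh (wd (fun b => (lf T G (y b) : ZMod Q → ℂ)) D) χ =
      ∑ b : Fin m, (Q : ℂ)⁻¹ * ∑ i ∈ Finset.range Q,
        G (T^[i] (y b)) * conj (G (T^[(i + D) % Q] (y b))) * ζ ^ i := by
    unfold fh av wd lf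
    have h2 : ∀ z : ZMod Q, (∑ b : Fin m, G (T^[z.val] (y b)) *
        conj (G (T^[(z + (D : ZMod Q)).val] (y b)))) * conj (χ z) =
        ∑ b : Fin m, (fun i : ℕ => G (T^[i] (y b)) *
          conj (G (T^[(i + D) % Q] (y b))) * ζ ^ i) z.val := by
      intro z
      rw [Finset.sum_mul]
      refine Finset.sum_congr rfl fun b _ => ?_
      have h3 : (z + (D : ZMod Q)).val = (z.val + D) % Q := by
        rw [ZMod.val_add, ZMod.val_natCast, Nat.add_mod_mod]
      simp only [h3]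
      rw [hχ z, map_pow]
    rw [Finset.sum_congr rfl fun z _ => h2 z, Finset.sum_comm, Finset.mul_sum]
    refine Finset.sum_congr rfl fun b _ => ?_
    exact congrArg (fun t => (Q : ℂ)⁻¹ * t) (MW_sum (fun i : ℕ => G (T^[i] (y b)) *
      conj (G (T^[(i + D) % Q] (y b))) * ζ ^ i))
  have h2 : ∀ b : Fin m, ‖(Q : ℂ)⁻¹ * ∑ i ∈ Finset.range Q,
        G (T^[i] (y b)) * conj (G (T^[(i + D) % Q] (y b))) * ζ ^ i‖ ≤ s + 8 * D / Q := by
    intro b
    have h3 : (Q : ℂ)⁻¹ * ∑ i ∈ Finset.range Q,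
        G (T^[i] (y b)) * conj (G (T^[(i + D) % Q] (y b))) * ζ ^ i =
        (Q : ℂ)⁻¹ * ∑ i ∈ Finset.range Q,
          G (T^[i] (y b)) * conj (G (T^[i + D] (y b))) * ζ ^ i +
        (Q : ℂ)⁻¹ * ∑ i ∈ Finset.range Q,
          G (T^[i] (y b)) * (conj (G (T^[(i + D) % Q] (y b))) -
            conj (G (T^[i + D] (y b)))) * ζ ^ i := by
      rw [← mul_add, ← Finset.sum_add_distrib]
      congr 1
      refine Finset.sum_congr rfl fun i _ => ?_
      ring
    rw [h3]
    refine (norm_add_le _ _).trans (add_le_add (hs b ζ hζQ) ?_)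
    rw [norm_mul, norm_inv, Complex.norm_natCast, inv_mul_le_iff₀ hQr,
      mul_div_cancel₀ _ hQr.ne']
    refine (norm_sum_le _ _).trans ?_
    have h4 : ∀ i ∈ Finset.range Q, ‖G (T^[i] (y b)) * (conj (G (T^[(i + D) % Q] (y b))) -
            conj (G (T^[i + D] (y b)))) * ζ ^ i‖ ≤ if Q - D ≤ i then (8 : ℝ) else 0 := by
      intro i hi
      have hi' := Finset.mem_range.1 hi
      split_ifs with h5
      · rw [norm_mul, norm_mul, norm_pow, hζn, one_pow, mul_one]
        have h6 : ‖conj (G (T^[(i + D) % Q] (y b))) - conj (G (T^[i + D] (y b)))‖ ≤ 4 := by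
          refine (norm_sub_le _ _).trans ?_
          rw [RCLike.norm_conj, RCLike.norm_conj]
          linarith [hG (T^[(i + D) % Q] (y b)), hG (T^[i + D] (y b))]
        calc ‖G (T^[i] (y b))‖ * ‖conj (G (T^[(i + D) % Q] (y b))) - conj (G (T^[i + D] (y b)))‖
            ≤ 2 * 4 := mul_le_mul (hG _) h6 (norm_nonneg _) (by norm_num)
          _ = 8 := by norm_num
      · have h6 : (i + D) % Q = i + D := Nat.mod_eq_of_lt (by omega)
        rw [h6, sub_self, mul_zero, zero_mul, norm_zero]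
    refine (Finset.sum_le_sum h4).trans ?_
    rw [← Finset.sum_filter, Finset.sum_const, nsmul_eq_mul]
    have h5 : ((Finset.range Q).filter (fun i => Q - D ≤ i)).card ≤ D := by
      have h6 : (Finset.range Q).filter (fun i => Q - D ≤ i) ⊆ Finset.Ico (Q - D) Q := by
        intro i hi
        simp only [Finset.mem_filter, Finset.mem_range, Finset.mem_Ico] at hi ⊢
        omega
      refine (Finset.card_le_card h6).trans ?_
      rw [Nat.card_Ico]
      omega
    have h6 : (((Finset.range Q).filter (fun i => Q - D ≤ i)).card : ℝ) ≤ D := by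
      exact_mod_cast h5
    linarith
  rw [h1]
  refine (norm_sum_le _ _).trans ((Finset.sum_le_sum fun b _ => h2 b).trans ?_)
  rw [Finset.sum_const, Finset.card_univ, Fintype.card_fin, nsmul_eq_mul]
  apply le_of_eq
  ring

end Pool.Agent.Ef
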