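import Pool.Agent.Ef.Defs

/-! MP_13664e_an (ELFR), module NB: names give the block property. -/

set_option autoImplicit false

namespace Pool.Agent.Ef

open MeasureTheory Filter Topology Pool.Agent.Sar
open scoped ComplexConjugate

/-- For `z : ZMod (L k)` put `ρ = z.val % L j`; the point `T^(z.val - ρ) y0` has phase `0` at level
`j`, its name `b` gives the values on the whole `L j`-block. -/
theorem NB {X : Type*} {T : X → X} {L : ℕ → ℕ} {ph : ℕ → X → ℕ} (hP : Ph T L ph) {j k m : ℕ}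
    (hjk : j ≤ k) [NeZero (L j)] [NeZero (L k)] {G : X → ℂ} {y : Fin m → X}
    (hy : Nm T L ph y G j) {y0 : X} (h0 : ph k y0 = 0) :
    BlkN (hP.dvd_le hjk) (fun b => (lf T G (y b) : ZMod (L j) → ℂ))
      (lf T G y0 : ZMod (L k) → ℂ) := by
  intro z
  have hd := hP.dvd_le hjk
  have hjpos := hP.pos j
  have hlt : z.val < L k := ZMod.val_lt z
  obtain ⟨c, hc⟩ := hd
  have hz : L j * (z.val / L j) + z.val % L j = z.val := Nat.div_add_mod _ _
  have hmod : z.val % L j < L j := Nat.mod_lt _ hjpos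
  have hq : z.val / L j < c := by
    rw [Nat.div_lt_iff_lt_mul hjpos, mul_comm, ← hc]
    exact hlt
  have hbd : L j * (z.val / L j) + L j ≤ L k := by
    calc L j * (z.val / L j) + L j = L j * (z.val / L j + 1) := by ring
      _ ≤ L j * c := Nat.mul_le_mul_left _ hq
      _ = L k := hc.symm
  have hx0 : ph j (T^[L j * (z.val / L j)] y0) = 0 := by
    rw [hP.iter, hP.comp_le hjk, h0, Nat.zero_mod, zero_add, Nat.mul_mod_right]
  obtain ⟨b, hb⟩ := hy.ex _ hx0
  refine ⟨b, fun r hr => ?_⟩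
  have hv : (z + (r : ZMod (L k))).val = z.val + r := by
    rw [ZMod.val_add, ZMod.val_natCast, Nat.add_mod_mod, Nat.mod_eq_of_lt]
    omega
  have hv2 : (ZMod.castHom (hP.dvd_le hjk) (ZMod (L j)) (z + (r : ZMod (L k)))).val =
      z.val % L j + r := by
    rw [ZMod.castHom_apply, ZMod.cast_eq_val, ZMod.val_natCast, hv, ← Nat.mod_add_mod,
      Nat.mod_eq_of_lt hr]
  show G (T^[(z + (r : ZMod (L k))).val] y0) =
    G (T^[(ZMod.castHom (hP.dvd_le hjk) (ZMod (L j)) (z + (r : ZMod (L k)))).val] (y b))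
  rw [hv, hv2, ← hb _ hr, ← Function.iterate_add_apply]
  congr 2
  omega

/-- subtracting a function of the phase keeps the names -/
theorem Nm.sub {X : Type*} {T : X → X} {L : ℕ → ℕ} {ph : ℕ → X → ℕ} (hP : Ph T L ph) {j k m : ℕ}
    (hjk : j ≤ k) {F : X → ℂ} {y : Fin m → X} (hy : Nm T L ph y F k) (ψ : ℕ → ℂ) :
    Nm T L ph y (fun x => F x - ψ (ph j x)) k := by
  refine ⟨hy.zero, fun x hx => ?_⟩
  obtain ⟨b, hb⟩ := hy.ex x hx
  refine ⟨b, fun r hr => ?_⟩
  have h1 : ph j (T^[r] x) = ph j (T^[r] (y b)) := by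
    rw [hP.comp_le hjk, hP.comp_le hjk, hP.iter, hP.iter, hx, hy.zero]
  show F (T^[r] x) - ψ (ph j (T^[r] x)) = F (T^[r] (y b)) - ψ (ph j (T^[r] (y b)))
  rw [hb r hr, h1]

private theorem sum_zmod {n : ℕ} [NeZero n] (f : ℕ → ℝ) :
    ∑ z : ZMod n, f z.val = ∑ i ∈ Finset.range n, f i := by
  refine Finset.sum_nbij (fun z => z.val) ?_ ?_ ?_ ?_
  · intro z _
    exact Finset.mem_range.2 (ZMod.val_lt z)
  · intro a _ b _ hab
    exact ZMod.val_injective n hab
  · intro i hi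
    refine ⟨(i : ZMod n), Finset.mem_coe.2 (Finset.mem_univ _), ?_⟩
    exact ZMod.val_cast_of_lt (Finset.mem_range.1 (Finset.mem_coe.1 hi))
  · intro z _
    rfl

private theorem sum_mod {q : ℕ} (c : ℕ) (f : ℕ → ℝ) :
    ∑ i ∈ Finset.range (q * c), f (i % q) = c * ∑ i ∈ Finset.range q, f i := by
  induction c with
  | zero => simp
  | succ c ih =>
    rw [Nat.mul_succ, Finset.sum_range_add, ih, Nat.cast_succ, add_mul, one_mul]
    congr 1
    refine Finset.sum_congr rfl fun i hi => ?_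
    rw [Nat.mul_add_mod, Nat.mod_eq_of_lt (Finset.mem_range.1 hi)]

/-- a function of the phase at level `j ≤ k`, averaged over `ZMod (L k)` along a point of phase
zero at level `k` -/
theorem NB_av {X : Type*} {T : X → X} {L : ℕ → ℕ} {ph : ℕ → X → ℕ} (hP : Ph T L ph) {j k : ℕ}
    (hjk : j ≤ k) [NeZero (L j)] [NeZero (L k)] {y0 : X} (h0 : ph k y0 = 0) (ψ : ℕ → ℝ) :
    avr (fun z : ZMod (L k) => ψ (ph j (T^[z.val] y0))) =
      avr (fun z : ZMod (L j) => ψ z.val) := by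
  unfold avr
  have h1 : ∀ z : ZMod (L k), ψ (ph j (T^[z.val] y0)) = ψ (z.val % L j) := by
    intro z
    rw [hP.iter, hP.comp_le hjk, h0, Nat.zero_mod, zero_add]
  rw [Finset.sum_congr rfl fun z _ => h1 z, sum_zmod (fun i => ψ (i % L j)), sum_zmod ψ]
  obtain ⟨c, hc⟩ := hP.dvd_le hjk
  have hk : (L k : ℝ) ≠ 0 := Nat.cast_ne_zero.2 (NeZero.ne (L k))
  have hj : (L j : ℝ) ≠ 0 := Nat.cast_ne_zero.2 (NeZero.ne (L j))
  have hc0 : (c : ℝ) ≠ 0 := by
    intro h
    rw [hc, Nat.cast_mul, h, mul_zero] at hk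
    exact hk rfl
  rw [hc, sum_mod, Nat.cast_mul]
  field_simp

end Pool.Agent.Ef
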