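import Pool.Agent.Ef.Defs

/-! MP_13664e_an (ELFR), module PE: pairs of primes in residue classes. -/

set_option autoImplicit false

namespace Pool.Agent.Ef

open Filter Topology Pool.Agent.Sar
open scoped ComplexConjugate

/-- number of primes of the block in the class of `z` -/
private noncomputable def Nc (Q : ℕ) (i : ℕ) (z : ZMod Q) : ℝ :=
  (((blk i).filter (fun p : ℕ => (p : ZMod Q) = z)).card : ℝ)

private theorem sum_class {Q : ℕ} [NeZero Q] {i : ℕ} (hi : Q < 2 ^ i) (F : ZMod Q → ℝ) :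
    ∑ p ∈ blk i, F (p : ZMod Q) = ∑ u : (ZMod Q)ˣ, Nc Q i (u : ZMod Q) * F (u : ZMod Q) := by
  have h1 : ∀ u : (ZMod Q)ˣ, Nc Q i (u : ZMod Q) * F (u : ZMod Q) =
      ∑ p ∈ blk i, if ((p : ZMod Q) = (u : ZMod Q)) then F (p : ZMod Q) else 0 := by
    intro u
    rw [← Finset.sum_filter]
    rw [Finset.sum_congr rfl (g := fun _ => F (u : ZMod Q))
      (fun p hp => by rw [(Finset.mem_filter.1 hp).2])]
    rw [Finset.sum_const, nsmul_eq_mul]
    rfl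
  rw [Finset.sum_congr rfl (fun u _ => h1 u), Finset.sum_comm]
  refine Finset.sum_congr rfl fun p hp => ?_
  have hp1 := Finset.mem_Ico.1 (Finset.mem_filter.1 hp).1
  have hp2 : p.Prime := (Finset.mem_filter.1 hp).2
  have hQ : 0 < Q := Nat.pos_of_ne_zero (NeZero.ne Q)
  have hcop : Nat.Coprime p Q := by
    rw [Nat.Prime.coprime_iff_not_dvd hp2]
    intro hd
    have := Nat.le_of_dvd hQ hd
    omega
  have h2 : ∀ u : (ZMod Q)ˣ, ((p : ZMod Q) = (u : ZMod Q)) ↔ ZMod.unitOfCoprime p hcop = u := by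
    intro u
    rw [Units.ext_iff, ZMod.coe_unitOfCoprime]
  rw [Finset.sum_eq_single (ZMod.unitOfCoprime p hcop)]
  · rw [if_pos ((h2 _).2 rfl)]
  · intro u _ hu
    rw [if_neg]
    intro h
    exact hu ((h2 u).1 h).symm
  · intro h
    exact absurd (Finset.mem_univ _) h

private theorem Nc_lim (hLam : Pool.Agent.BGG.SWLam) {Q : ℕ} [NeZero Q] (u : (ZMod Q)ˣ) :
    Tendsto (fun i : ℕ => Nc Q i (u : ZMod Q) / pib i) atTop (𝓝 (1 / (Q.totient : ℝ))) := by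
  have hQ : 1 ≤ Q := Nat.one_le_iff_ne_zero.2 (NeZero.ne Q)
  have h1 := pib_class hLam hQ (ZMod.val_coe_unit_coprime u)
  refine h1.congr fun i => ?_
  unfold Nc
  congr 3
  refine Finset.filter_congr fun p _ => ?_
  rw [← ZMod.natCast_eq_natCast_iff, ZMod.natCast_zmod_val]

/-- Sar.pib_class for every class `b` coprime to `Q`; for `2^i > Q` every prime of the block is
coprime to `Q`. -/
theorem PE (hLam : Pool.Agent.BGG.SWLam) {Q : ℕ} [NeZero Q] (Φ : ZMod Q → ZMod Q → ℝ) {δ : ℝ}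
    (hδ : 0 < δ) :
    ∀ᶠ i : ℕ in atTop, ∑ p ∈ blk i, ∑ p' ∈ blk i, Φ (p : ZMod Q) (p' : ZMod Q) ≤
      (((Q.totient : ℝ) ^ 2)⁻¹ * ∑ u : (ZMod Q)ˣ, ∑ u' : (ZMod Q)ˣ,
        Φ (u : ZMod Q) (u' : ZMod Q) + δ) * pib i ^ 2 := by
  have hlim : Tendsto (fun i : ℕ => ∑ u : (ZMod Q)ˣ, ∑ u' : (ZMod Q)ˣ,
      (Nc Q i (u : ZMod Q) / pib i) * ((Nc Q i (u' : ZMod Q) / pib i) *
        Φ (u : ZMod Q) (u' : ZMod Q))) atTop
      (𝓝 (∑ u : (ZMod Q)ˣ, ∑ u' : (ZMod Q)ˣ, (1 / (Q.totient : ℝ)) * ((1 / (Q.totient : ℝ)) *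
        Φ (u : ZMod Q) (u' : ZMod Q)))) := by
    refine tendsto_finsetSum _ fun u _ => tendsto_finsetSum _ fun u' _ => ?_
    exact (Nc_lim hLam u).mul ((Nc_lim hLam u').mul tendsto_const_nhds)
  have hval : ∑ u : (ZMod Q)ˣ, ∑ u' : (ZMod Q)ˣ, (1 / (Q.totient : ℝ)) *
      ((1 / (Q.totient : ℝ)) * Φ (u : ZMod Q) (u' : ZMod Q)) =
      ((Q.totient : ℝ) ^ 2)⁻¹ * ∑ u : (ZMod Q)ˣ, ∑ u' : (ZMod Q)ˣ,
        Φ (u : ZMod Q) (u' : ZMod Q) := by
    rw [Finset.mul_sum]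
    refine Finset.sum_congr rfl fun u _ => ?_
    rw [Finset.mul_sum]
    refine Finset.sum_congr rfl fun u' _ => ?_
    rw [← mul_assoc]
    congr 1
    rw [one_div, ← mul_inv, sq]
  rw [hval] at hlim
  obtain ⟨c, hc, hlow⟩ := pib_lower hLam
  filter_upwards [hlim.eventually_lt_const (lt_add_of_pos_right _ hδ), hlow,
    eventually_ge_atTop (Q + 1)] with i h1 h2 h3
  have hi1 : 1 ≤ i := by omega
  have hir : (0 : ℝ) < i := by exact_mod_cast hi1
  have hpos : 0 < pib i := lt_of_lt_of_le (by positivity) h2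
  have hQi : Q < 2 ^ i := by
    have : i < 2 ^ i := Nat.lt_two_pow_self
    omega
  have h4 : ∑ p ∈ blk i, ∑ p' ∈ blk i, Φ (p : ZMod Q) (p' : ZMod Q) =
      (∑ u : (ZMod Q)ˣ, ∑ u' : (ZMod Q)ˣ,
      (Nc Q i (u : ZMod Q) / pib i) * ((Nc Q i (u' : ZMod Q) / pib i) *
        Φ (u : ZMod Q) (u' : ZMod Q))) * pib i ^ 2 := by
    rw [sum_class hQi (fun z => ∑ p' ∈ blk i, Φ z (p' : ZMod Q))]
    rw [Finset.sum_mul]
    refine Finset.sum_congr rfl fun u _ => ?_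
    rw [sum_class hQi (fun z => Φ (u : ZMod Q) z), Finset.mul_sum, Finset.sum_mul]
    refine Finset.sum_congr rfl fun u' _ => ?_
    field_simp
  rw [h4]
  exact mul_le_mul_of_nonneg_right h1.le (by positivity)

end Pool.Agent.Ef
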