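import Pool.Agent.Ef.U1

/-! MP_13664e_an (ELFR), module U3: roots of unity as eigenvalues of the components. -/

set_option autoImplicit false

namespace Pool.Agent.Ef

open MeasureTheory ProbabilityTheory Filter Topology Pool.Agent.Sar
open scoped ENNReal ComplexConjugate

variable {X : Type*} [mX : MeasurableSpace X] [StandardBorelSpace X] [Nonempty X]
  {ν : Measure X} [IsProbabilityMeasure ν]

omit [StandardBorelSpace X] [Nonempty X] in
/-- the coefficient of the trivial character -/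
private theorem U3_one {T : X → X} (hE : Ergodic T ν) (u : X → ℂ) :
    ‖fc ν T u 1‖ = ‖∫ x, u x ∂ν‖ := by
  have h1 : IsEig ν T 1 (fun _ : X => (1 : ℂ)) :=
    ⟨measurable_const, fun _ => by simp, Filter.Eventually.of_forall fun _ => by simp⟩
  obtain ⟨c, hc, hce⟩ := eig_unique hE (eg_spec (EV_one (ν := ν) (T := T))) h1
  have h2 : fc ν T u 1 = (∫ x, u x ∂ν) * conj c := by
    unfold fc
    rw [← integral_mul_const]
    refine integral_congr_ae ?_
    filter_upwards [hce] with x hx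
    rw [hx, mul_one]
  rw [h2, norm_mul, RCLike.norm_conj, hc, mul_one]

/-- the twisted averages -/
private noncomputable def U3_A (T : X → X) (F0 : X → ℂ) (c : ℂ) (N : ℕ) (z : X × X) : ℂ :=
  (N : ℂ)⁻¹ * ∑ n ∈ Finset.range N, (conj c) ^ n * (F0 (T^[n] z.1) * conj (F0 (T^[n] z.2)))

omit [StandardBorelSpace X] [Nonempty X] in
private theorem U3_BMn {T : X → X} (hT : Measurable T) {F0 : X → ℂ} (hF : BM F0) (n : ℕ) :
    BM (fun z : X × X => F0 (T^[n] z.1) * conj (F0 (T^[n] z.2))) := by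
  obtain ⟨C, hC⟩ := hF.bdd
  have h1 : Measurable (fun x => F0 (T^[n] x)) := hF.meas.comp (hT.iterate n)
  refine ⟨(h1.comp measurable_fst).mul
    (Complex.continuous_conj.measurable.comp (h1.comp measurable_snd)), C * C, fun z => ?_⟩
  rw [norm_mul, RCLike.norm_conj]
  exact mul_le_mul (hC _) (hC _) (norm_nonneg _) ((norm_nonneg _).trans (hC z.1))

omit [StandardBorelSpace X] [Nonempty X] in
private theorem U3_BMA {T : X → X} (hT : Measurable T) {F0 : X → ℂ} (hF : BM F0) (c : ℂ)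
    (N : ℕ) : BM (U3_A T F0 c N) := by
  have h1 : ∀ s : Finset ℕ, BM (fun z : X × X =>
      ∑ n ∈ s, (conj c) ^ n * (F0 (T^[n] z.1) * conj (F0 (T^[n] z.2)))) := by
    intro s
    classical
    induction s using Finset.induction_on with
    | empty => exact ⟨by simp, 0, fun z => by simp⟩
    | insert a s ha ih =>
      have h2 := K2_BM_add (K2_BM_mul (K2_BM_const ((conj c) ^ a)) (U3_BMn hT hF a)) ih
      simpa only [Finset.sum_insert ha] using h2
  exact K2_BM_mul (K2_BM_const _) (h1 _)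

omit [StandardBorelSpace X] [Nonempty X] in
private theorem U3_norm {T : X → X} (hE : Ergodic T ν) {F0 : X → ℂ} (hF : BM F0) {c : ℂ}
    (hc : ‖c‖ = 1) (N : ℕ) :
    ∫ z, ‖U3_A T F0 c N z‖ ^ 2 ∂(ν.prod ν) ≤
      ((N : ℝ) ^ 2)⁻¹ * ∑ n ∈ Finset.range N, ∑ n' ∈ Finset.range N,
      ‖fc ν T (fun x => F0 (T^[n] x) * conj (F0 (T^[n'] x))) 1‖ ^ 2 := by
  have hTm : Measurable T := hE.toMeasurePreserving.measurable
  set I : ℕ → ℕ → ℂ := fun n n' => ∫ x, F0 (T^[n] x) * conj (F0 (T^[n'] x)) ∂ν with hI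
  have hBM2 : ∀ n n', BM (fun z : X × X => (F0 (T^[n] z.1) * conj (F0 (T^[n] z.2))) *
      conj (F0 (T^[n'] z.1) * conj (F0 (T^[n'] z.2)))) := fun n n' =>
    K2_BM_mul (U3_BMn hTm hF n) (K2b_conj (U3_BMn hTm hF n'))
  have hprod : ∀ n n', ∫ z : X × X, (F0 (T^[n] z.1) * conj (F0 (T^[n] z.2))) *
      conj (F0 (T^[n'] z.1) * conj (F0 (T^[n'] z.2))) ∂(ν.prod ν) = I n n' * conj (I n n') := by
    intro n n'
    have h1 : ∀ z : X × X, (F0 (T^[n] z.1) * conj (F0 (T^[n] z.2))) *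
        conj (F0 (T^[n'] z.1) * conj (F0 (T^[n'] z.2))) =
        (F0 (T^[n] z.1) * conj (F0 (T^[n'] z.1))) *
          conj (F0 (T^[n] z.2) * conj (F0 (T^[n'] z.2))) := by
      intro z
      simp only [map_mul, Complex.conj_conj]
      ring
    simp_rw [h1]
    rw [integral_prod_mul (fun x => F0 (T^[n] x) * conj (F0 (T^[n'] x)))
      (fun x => conj (F0 (T^[n] x) * conj (F0 (T^[n'] x)))), integral_conj]
  have h1 : ((∫ z, ‖U3_A T F0 c N z‖ ^ 2 ∂(ν.prod ν) : ℝ) : ℂ) =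
      ((N : ℂ) ^ 2)⁻¹ * ∑ n ∈ Finset.range N, ∑ n' ∈ Finset.range N,
        ((conj c) ^ n * c ^ n') * (I n n' * conj (I n n')) := by
    rw [← integral_complex_ofReal]
    have h2 : ∀ z : X × X, ((‖U3_A T F0 c N z‖ ^ 2 : ℝ) : ℂ) =
        ((N : ℂ) ^ 2)⁻¹ * ∑ n ∈ Finset.range N, ∑ n' ∈ Finset.range N,
          ((conj c) ^ n * c ^ n') * ((F0 (T^[n] z.1) * conj (F0 (T^[n] z.2))) *
            conj (F0 (T^[n'] z.1) * conj (F0 (T^[n'] z.2)))) := by
      intro z
      have h3 : ((‖U3_A T F0 c N z‖ ^ 2 : ℝ) : ℂ) =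
          U3_A T F0 c N z * conj (U3_A T F0 c N z) := by
        rw [Complex.mul_conj, Complex.normSq_eq_norm_sq]
      rw [h3, U3_A, map_mul, map_sum, map_inv₀, map_natCast]
      have h4 : ∀ (a : ℂ) (x y : ℂ), a⁻¹ * x * (a⁻¹ * y) = (a ^ 2)⁻¹ * (x * y) := by
        intro a x y
        rw [← inv_pow]
        ring
      rw [h4, Finset.sum_mul_sum]
      congr 1
      refine Finset.sum_congr rfl fun n _ => Finset.sum_congr rfl fun n' _ => ?_
      simp only [map_mul, map_pow, Complex.conj_conj]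
      ring
    simp_rw [h2]
    rw [integral_const_mul]
    congr 1
    rw [integral_finsetSum]
    · refine Finset.sum_congr rfl fun n _ => ?_
      rw [integral_finsetSum]
      · refine Finset.sum_congr rfl fun n' _ => ?_
        rw [integral_const_mul, hprod]
      · intro n' _
        exact (K2b_int (hBM2 n n')).const_mul _
    · intro n _
      refine integrable_finsetSum _ fun n' _ => ?_
      exact (K2b_int (hBM2 n n')).const_mul _
  have h0 : 0 ≤ ∫ z, ‖U3_A T F0 c N z‖ ^ 2 ∂(ν.prod ν) :=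
    integral_nonneg fun z => by positivity
  have h5 : ∫ z, ‖U3_A T F0 c N z‖ ^ 2 ∂(ν.prod ν) =
      ‖((∫ z, ‖U3_A T F0 c N z‖ ^ 2 ∂(ν.prod ν) : ℝ) : ℂ)‖ := by
    rw [Complex.norm_real, Real.norm_of_nonneg h0]
  rw [h5, h1, norm_mul, norm_inv, norm_pow, Complex.norm_natCast]
  refine mul_le_mul_of_nonneg_left ?_ (by positivity)
  refine (norm_sum_le _ _).trans (Finset.sum_le_sum fun n _ => ?_)
  refine (norm_sum_le _ _).trans (Finset.sum_le_sum fun n' _ => ?_)
  rw [U3_one hE, norm_mul, norm_mul, norm_mul, norm_pow, norm_pow, RCLike.norm_conj,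
    RCLike.norm_conj, hc, one_pow, one_pow, one_mul, one_mul, ← sq]

/-- the mean squares over the components tend to zero along a subsequence -/
private theorem U3_key {T : X → X} (hE : Ergodic T ν) {F0 : X → ℂ} (hF : BM F0)
    (h0 : ∀ l ∈ EV ν T, fc ν T F0 l = 0) {c : ℂ} (hc : ‖c‖ = 1) :
    ∀ᵐ w ∂(ν.prod ν), ∃ ns : ℕ → ℕ, StrictMono ns ∧
      Tendsto (fun i => ∫ z, ‖U3_A T F0 c (ns i) z‖ ^ 2 ∂(Om ν T w)) atTop (𝓝 0) := by
  have hTm : Measurable T := hE.toMeasurePreserving.measurable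
  have hb := kvn2 hE hF h0 (EV_one (ν := ν) (T := T))
  have hSm : ∀ N, Measurable (fun z => ‖U3_A T F0 c N z‖ ^ 2) := fun N =>
    (U3_BMA hTm hF c N).meas.norm.pow_const 2
  have hbd : ∀ N, ∃ D : ℝ, ∀ z, ‖(‖U3_A T F0 c N z‖ ^ 2 : ℝ)‖ ≤ D := by
    intro N
    obtain ⟨D, hD⟩ := (U3_BMA hTm hF c N).bdd
    refine ⟨D ^ 2, fun z => ?_⟩
    rw [norm_pow, norm_norm]
    exact pow_le_pow_left₀ (norm_nonneg _) (hD z) 2
  have hint : ∀ N (κ : Measure (X × X)) [IsFiniteMeasure κ],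
      Integrable (fun z => ‖U3_A T F0 c N z‖ ^ 2) κ := by
    intro N κ _
    obtain ⟨D, hD⟩ := hbd N
    exact Integrable.of_bound (hSm N).aestronglyMeasurable D (ae_of_all _ hD)
  set G : ℕ → X × X → ℝ := fun N w => ∫ z, ‖U3_A T F0 c N z‖ ^ 2 ∂(Om ν T w) with hG
  have hG0 : ∀ N w, 0 ≤ G N w := fun N w => integral_nonneg fun z => by positivity
  have hGm : ∀ N, AEStronglyMeasurable (G N) (ν.prod ν) := by
    intro N
    have h1 := (hSm N).stronglyMeasurable.integral_condExpKernel (μ := ν.prod ν)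
      (m := MeasurableSpace.invariants (Prod.map T T))
    exact (h1.mono (MeasurableSpace.invariants_le _)).aestronglyMeasurable
  have hGb : ∀ N, Integrable (G N) (ν.prod ν) := by
    intro N
    obtain ⟨D, hD⟩ := hbd N
    refine Integrable.of_bound (hGm N) D (ae_of_all _ fun w => ?_)
    have h := norm_integral_le_of_norm_le_const (μ := Om ν T w)
      (f := fun z => ‖U3_A T F0 c N z‖ ^ 2) (C := D) (ae_of_all _ hD)
    simpa using h
  have hGi : ∀ N, ∫ w, G N w ∂(ν.prod ν) = ∫ z, ‖U3_A T F0 c N z‖ ^ 2 ∂(ν.prod ν) := by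
    intro N
    have hBM : BM (fun z => ((‖U3_A T F0 c N z‖ ^ 2 : ℝ) : ℂ)) := by
      obtain ⟨D, hD⟩ := hbd N
      refine ⟨Complex.measurable_ofReal.comp (hSm N), D, fun z => ?_⟩
      rw [Complex.norm_real]
      exact hD z
    have h1 := Om_int (ν := ν) T hBM
    simp only [integral_complex_ofReal] at h1
    exact_mod_cast h1
  have hL : Tendsto (fun N => eLpNorm (G N - fun _ => (0 : ℝ)) 1 (ν.prod ν)) atTop (𝓝 0) := by
    have h1 : ∀ N, eLpNorm (G N - fun _ => (0 : ℝ)) 1 (ν.prod ν) ≤ ENNReal.ofReal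
        (((N : ℝ) ^ 2)⁻¹ * ∑ n ∈ Finset.range N, ∑ n' ∈ Finset.range N,
          ‖fc ν T (fun x => F0 (T^[n] x) * conj (F0 (T^[n'] x))) 1‖ ^ 2) := by
      intro N
      have h2 : (G N - fun _ => (0 : ℝ)) = G N := by
        funext w
        simp
      rw [h2, eLpNorm_one_eq_lintegral_enorm, ← ofReal_integral_norm_eq_lintegral_enorm (hGb N)]
      refine ENNReal.ofReal_le_ofReal ?_
      have h3 : ∫ w, ‖G N w‖ ∂(ν.prod ν) = ∫ w, G N w ∂(ν.prod ν) := by
        refine integral_congr_ae (ae_of_all _ fun w => ?_)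
        exact Real.norm_of_nonneg (hG0 N w)
      rw [h3, hGi]
      exact U3_norm hE hF hc N
    have h4 := ENNReal.tendsto_ofReal hb
    rw [ENNReal.ofReal_zero] at h4
    exact tendsto_of_tendsto_of_tendsto_of_le_of_le tendsto_const_nhds h4
      (fun N => zero_le) h1
  have hM := tendstoInMeasure_of_tendsto_eLpNorm one_ne_zero hGm
    (aestronglyMeasurable_const (b := (0 : ℝ))) hL
  obtain ⟨ns, hns, hae⟩ := hM.exists_seq_tendsto_ae
  filter_upwards [hae] with w hw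
  exact ⟨ns, hns, hw⟩

/-- `A_N = (1/N) ∑_{n<N} conj μ^n Ψ ∘ S^n` with `Ψ(x,y) = F0 x conj (F0 y)`, `|μ| = 1`:
`∫ |A_N|² d(ν×ν) ≤ (1/N²) ∑_{n,n'} |∫ F0 ∘ T^n conj (F0 ∘ T^n')|² → 0` (Sar.kvn), so
`liminf ∫ |A_N|² dOm_w = 0` for a.e. `w` (Fatou), for all `μ` of a countable set `R`; and
`∫ Ψ conj f dOm_w = ∫ A_N conj f dOm_w` if `f ∘ S = μ f` a.e. for the invariant `Om_w`. -/
theorem U3 {T : X → X} (hE : Ergodic T ν) {F0 : X → ℂ} (hF : BM F0)
    (h0 : ∀ l ∈ EV ν T, fc ν T F0 l = 0) {R : Set ℂ} (hR : R.Countable)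
    (hR1 : ∀ c ∈ R, ‖c‖ = 1) :
    ∀ᵐ w ∂(ν.prod ν), ∀ c ∈ R, ∀ f : X × X → ℂ, MemLp f 2 (Om ν T w) →
      (∀ᵐ z ∂(Om ν T w), f (Prod.map T T z) = c * f z) →
      ∫ z, F0 z.1 * conj (F0 z.2) * conj (f z) ∂(Om ν T w) = 0 := by
  have hT : MeasurePreserving T ν ν := hE.toMeasurePreserving
  have hTm : Measurable T := hT.measurable
  have key2 : ∀ᵐ w ∂(ν.prod ν), ∀ c ∈ R, ∃ ns : ℕ → ℕ, StrictMono ns ∧
      Tendsto (fun i => ∫ z, ‖U3_A T F0 c (ns i) z‖ ^ 2 ∂(Om ν T w)) atTop (𝓝 0) :=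
    (ae_ball_iff hR).2 fun c hc => U3_key hE hF h0 (hR1 c hc)
  filter_upwards [key2, Om_inv hT] with w hw hinv c hcR f hf hfc
  obtain ⟨ns, hns, hlim⟩ := hw c hcR
  have hcc : conj c * c = 1 := by
    rw [mul_comm, Complex.mul_conj', hR1 c hcR]
    norm_num
  set κ : Measure (X × X) := Om ν T w with hκ
  have hS : MeasurePreserving (Prod.map T T) κ κ := ⟨hTm.prodMap hTm, hinv⟩
  have hSn : ∀ n, (Prod.map T T)^[n] = Prod.map T^[n] T^[n] := fun n => Prod.map_iterate T T n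
  have hfn : ∀ n, ∀ᵐ z ∂κ, f ((Prod.map T T)^[n] z) = c ^ n * f z := by
    intro n
    induction n with
    | zero => exact Filter.Eventually.of_forall fun z => by simp
    | succ n ih =>
      have h1 : ∀ᵐ z ∂κ, f ((Prod.map T T)^[n] (Prod.map T T z)) = c ^ n * f (Prod.map T T z) :=
        hS.quasiMeasurePreserving.ae ih
      filter_upwards [h1, hfc] with z hz hz'
      rw [Function.iterate_succ_apply, hz, hz']
      ring
  have hfc' : MemLp (fun z => conj (f z)) 2 κ := hf.star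
  have hBn := fun n => U3_BMn hTm hF n
  have hmulint : ∀ {u : X × X → ℂ}, BM u → Integrable (fun z => u z * conj (f z)) κ := by
    intro u hu
    obtain ⟨D, hD⟩ := hu.bdd
    exact (hfc'.integrable (by norm_num)).bdd_mul hu.meas.aestronglyMeasurable (ae_of_all _ hD)
  set J : ℂ := ∫ z, F0 z.1 * conj (F0 z.2) * conj (f z) ∂κ with hJ
  have hJn : ∀ n, (conj c) ^ n * ∫ z, (F0 (T^[n] z.1) * conj (F0 (T^[n] z.2))) * conj (f z) ∂κ
      = J := by
    intro n
    have h1 : J = ∫ z, F0 (T^[n] z.1) * conj (F0 (T^[n] z.2)) *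
        conj (f ((Prod.map T T)^[n] z)) ∂κ := by
      have h2 := (hS.iterate n)
      have h3 : AEStronglyMeasurable (fun z : X × X => F0 z.1 * conj (F0 z.2) * conj (f z))
          (κ.map (Prod.map T T)^[n]) := by
        rw [h2.map_eq]
        exact (hmulint (hBn 0)).aestronglyMeasurable
      have h4 := integral_map h2.measurable.aemeasurable h3
      rw [h2.map_eq] at h4
      rw [hJ, h4]
      refine integral_congr_ae (ae_of_all _ fun z => ?_)
      simp only [hSn, Prod.map_fst, Prod.map_snd]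
    rw [h1, ← integral_const_mul]
    refine integral_congr_ae ?_
    filter_upwards [hfn n] with z hz
    rw [hz, map_mul, map_pow]
    ring
  have hJN : ∀ N : ℕ, 1 ≤ N → ∫ z, U3_A T F0 c N z * conj (f z) ∂κ = J := by
    intro N hN
    have h1 : ∀ z, U3_A T F0 c N z * conj (f z) = (N : ℂ)⁻¹ * ∑ n ∈ Finset.range N,
        (conj c) ^ n * ((F0 (T^[n] z.1) * conj (F0 (T^[n] z.2))) * conj (f z)) := by
      intro z
      rw [U3_A, mul_assoc, Finset.sum_mul]
      congr 1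
      refine Finset.sum_congr rfl fun n _ => by ring
    simp_rw [h1]
    rw [integral_const_mul, integral_finsetSum]
    · have h2 : ∀ n ∈ Finset.range N, ∫ z, (conj c) ^ n *
          ((F0 (T^[n] z.1) * conj (F0 (T^[n] z.2))) * conj (f z)) ∂κ = J := by
        intro n _
        rw [integral_const_mul, hJn]
      rw [Finset.sum_congr rfl h2, Finset.sum_const, Finset.card_range, nsmul_eq_mul,
        ← mul_assoc, inv_mul_cancel₀ (by exact_mod_cast (by omega : N ≠ 0)), one_mul]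
    · intro n _
      exact (hmulint (hBn n)).const_mul _
  have hfsq : Integrable (fun z => ‖f z‖ ^ 2) κ := hf.norm.integrable_sq
  have hAsq : ∀ N, Integrable (fun z => ‖U3_A T F0 c N z‖ ^ 2) κ := fun N =>
    (K2_memLp (U3_BMA hTm hF c N)).norm.integrable_sq
  have hbound : ∀ s : ℝ, 0 < s → ∀ N : ℕ, 1 ≤ N → ‖J‖ ≤ s * ∫ z, ‖f z‖ ^ 2 ∂κ +
      s⁻¹ * ∫ z, ‖U3_A T F0 c N z‖ ^ 2 ∂κ := by
    intro s hs N hN
    rw [← hJN N hN, ← integral_const_mul, ← integral_const_mul, ← integral_add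
      (hfsq.const_mul _) ((hAsq N).const_mul _)]
    refine (norm_integral_le_integral_norm _).trans ?_
    refine integral_mono (hmulint (U3_BMA hTm hF c N)).norm
      ((hfsq.const_mul _).add ((hAsq N).const_mul _)) fun z => ?_
    show ‖U3_A T F0 c N z * conj (f z)‖ ≤ s * ‖f z‖ ^ 2 + s⁻¹ * ‖U3_A T F0 c N z‖ ^ 2
    rw [norm_mul, RCLike.norm_conj]
    generalize ‖U3_A T F0 c N z‖ = a
    generalize ‖f z‖ = b
    have h1 : s * b ^ 2 + s⁻¹ * a ^ 2 - a * b = s⁻¹ * ((a - s * b / 2) ^ 2 + 3 / 4 * (s * b) ^ 2) := by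
      field_simp
      ring
    have h2 : 0 ≤ s⁻¹ * ((a - s * b / 2) ^ 2 + 3 / 4 * (s * b) ^ 2) := by positivity
    linarith
  have hbound2 : ∀ s : ℝ, 0 < s → ‖J‖ ≤ s * ∫ z, ‖f z‖ ^ 2 ∂κ := by
    intro s hs
    have h1 : Tendsto (fun i => s * ∫ z, ‖f z‖ ^ 2 ∂κ +
        s⁻¹ * ∫ z, ‖U3_A T F0 c (ns i) z‖ ^ 2 ∂κ) atTop
        (𝓝 (s * ∫ z, ‖f z‖ ^ 2 ∂κ + s⁻¹ * 0)) :=
      tendsto_const_nhds.add (hlim.const_mul _)
    rw [mul_zero, add_zero] at h1
    refine ge_of_tendsto h1 ?_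
    filter_upwards [eventually_ge_atTop 1] with i hi
    exact hbound s hs (ns i) (hi.trans (hns.id_le i))
  have hfin : ‖J‖ ≤ 0 := by
    have h1 : Tendsto (fun i : ℕ => ((i : ℝ) + 1)⁻¹ * ∫ z, ‖f z‖ ^ 2 ∂κ) atTop
        (𝓝 (0 * ∫ z, ‖f z‖ ^ 2 ∂κ)) := by
      refine Tendsto.mul_const _ ?_
      have := tendsto_one_div_add_atTop_nhds_zero_nat (𝕜 := ℝ)
      simpa [one_div] using this
    rw [zero_mul] at h1
    exact ge_of_tendsto h1 (Eventually.of_forall fun i => hbound2 _ (by positivity))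
  exact norm_le_zero_iff.mp hfin

end Pool.Agent.Ef
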