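import Pool.Agent.Ef.Defs

/-! MP_13664e_an (ELFR), module U4: other eigenvalues of couplings do not occur. -/

set_option autoImplicit false

namespace Pool.Agent.Ef

open MeasureTheory ProbabilityTheory Filter Topology Pool.Agent.Sar
open scoped ENNReal ComplexConjugate

variable {X : Type*} [mX : MeasurableSpace X] [StandardBorelSpace X] [Nonempty X]
  {ν : Measure X} [IsProbabilityMeasure ν]

/-- Truncate: `φ = f 1[|f| ≤ K]` satisfies the same relation (`|f| ∘ S = |f|` a.e., `|c| = 1` unless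
`f = 0`). For `1 ≤ n`, `l₁, l₂ ∈ EV`: `∫ φ^n (eg l₁ ⊗ eg l₂) dD = c^n l₁ l₂` times itself, and
`c^n l₁ l₂ ≠ 1` since `l₁ l₂` is a root of unity and `c` is not. Sar.P1 gives `φ = 0`. -/
theorem U4 {T : X → X} (hE : Ergodic T ν) {m : ℕ} {a : ℝ} {ℓ : X → Fin m} (hL : Lab ν T m a ℓ)
    (hev : ∀ l ∈ EV ν T, ∃ n : ℕ, 1 ≤ n ∧ l ^ n = 1) {D : Measure (X × X)}
    [IsProbabilityMeasure D] (hD : Coup ν D) (hi : D.map (Prod.map T T) = D) {c : ℂ}
    (hc : ∀ n : ℕ, 1 ≤ n → c ^ n ≠ 1) {f : X × X → ℂ} (hf : MemLp f 2 D)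
    (h : ∀ᵐ z ∂D, f (Prod.map T T z) = c * f z) : ∀ᵐ z ∂D, f z = 0 := by
  classical
  have hTm : Measurable T := hE.measurable
  have hS : Measurable (Prod.map T T) := hTm.prodMap hTm
  have hmp : MeasurePreserving (Prod.map T T) D D := ⟨hS, hi⟩
  -- a measurable version
  obtain ⟨g, hgm, hfg⟩ : ∃ g : X × X → ℂ, Measurable g ∧ f =ᵐ[D] g :=
    ⟨hf.1.aemeasurable.mk f, hf.1.aemeasurable.measurable_mk, hf.1.aemeasurable.ae_eq_mk⟩
  have hg2 : MemLp g 2 D := (memLp_congr_ae hfg).1 hf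
  have hgS : ∀ᵐ z ∂D, g (Prod.map T T z) = c * g z := by
    have h1 := hmp.quasiMeasurePreserving.ae hfg
    filter_upwards [h, hfg, h1] with z h2 h3 h4
    rw [← h4, h2, h3]
  suffices hg0 : ∀ᵐ z ∂D, g z = 0 by
    filter_upwards [hfg, hg0] with z h1 h2
    rw [h1, h2]
  by_cases hc1 : ‖c‖ = 1
  · -- truncation
    have key : ∀ K : ℕ, ∀ᵐ z ∂D, (if ‖g z‖ ≤ K then g z else 0) = 0 := by
      intro K
      set φ : X × X → ℂ := fun z => if ‖g z‖ ≤ K then g z else 0 with hφ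
      have hφm : Measurable φ :=
        Measurable.ite (measurableSet_le hgm.norm measurable_const) hgm measurable_const
      have hφS : ∀ᵐ z ∂D, φ (Prod.map T T z) = c * φ z := by
        filter_upwards [hgS] with z hz
        show (if ‖g (Prod.map T T z)‖ ≤ K then g (Prod.map T T z) else 0) =
          c * (if ‖g z‖ ≤ K then g z else 0)
        rw [hz, norm_mul, hc1, one_mul]
        split_ifs
        · rfl
        · rw [mul_zero]
      have hφb : ∀ z, ‖φ z‖ ≤ K := by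
        intro z
        show ‖if ‖g z‖ ≤ K then g z else 0‖ ≤ K
        split_ifs with h1
        · exact h1
        · rw [norm_zero]
          exact Nat.cast_nonneg K
      refine P1 hE hL hD hφm ⟨K, hφb⟩ fun n hn _ l₁ hl₁ l₂ hl₂ => ?_
      have e1 : ∀ᵐ z ∂D, eg ν T l₁ (T z.1) = l₁ * eg ν T l₁ z.1 :=
        ae_of_ae_map measurable_fst.aemeasurable (by rw [hD.fst]; exact (eg_spec hl₁).eq)
      have e2 : ∀ᵐ z ∂D, eg ν T l₂ (T z.2) = l₂ * eg ν T l₂ z.2 :=
        ae_of_ae_map measurable_snd.aemeasurable (by rw [hD.snd]; exact (eg_spec hl₂).eq)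
      set I := ∫ z, φ z ^ n * (eg ν T l₁ z.1 * eg ν T l₂ z.2) ∂D with hI
      have hm : AEStronglyMeasurable
          (fun z : X × X => φ z ^ n * (eg ν T l₁ z.1 * eg ν T l₂ z.2))
          (D.map (Prod.map T T)) :=
        ((hφm.pow_const n).mul (((eg_meas l₁).comp measurable_fst).mul
          ((eg_meas l₂).comp measurable_snd))).aestronglyMeasurable
      have h1 : I = c ^ n * (l₁ * l₂) * I := by
        calc I = ∫ z, φ z ^ n * (eg ν T l₁ z.1 * eg ν T l₂ z.2) ∂(D.map (Prod.map T T)) := by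
              rw [hi]
          _ = ∫ z, φ (Prod.map T T z) ^ n * (eg ν T l₁ (Prod.map T T z).1 *
                eg ν T l₂ (Prod.map T T z).2) ∂D := integral_map hS.aemeasurable hm
          _ = ∫ z, c ^ n * (l₁ * l₂) * (φ z ^ n * (eg ν T l₁ z.1 * eg ν T l₂ z.2)) ∂D := by
              refine integral_congr_ae ?_
              filter_upwards [hφS, e1, e2] with z h3 h4 h5
              rw [h3, Prod.map_fst, Prod.map_snd, h4, h5]
              ring
          _ = c ^ n * (l₁ * l₂) * I := integral_const_mul _ _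
      by_contra hI0
      have h2 : c ^ n * (l₁ * l₂) = 1 := by
        have h3 : (c ^ n * (l₁ * l₂) - 1) * I = 0 := by rw [sub_mul, ← h1, one_mul, sub_self]
        rcases mul_eq_zero.1 h3 with h4 | h4
        · exact sub_eq_zero.1 h4
        · exact absurd h4 hI0
      obtain ⟨n₁, hn₁, h₁⟩ := hev l₁ hl₁
      obtain ⟨n₂, hn₂, h₂⟩ := hev l₂ hl₂
      refine hc (n * (n₁ * n₂)) (Nat.mul_pos hn (Nat.mul_pos hn₁ hn₂)) ?_
      have h5 : (c ^ n * (l₁ * l₂)) ^ (n₁ * n₂) = 1 := by rw [h2, one_pow]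
      rw [mul_pow, mul_pow, pow_mul l₁, h₁, one_pow, mul_comm n₁ n₂, pow_mul l₂, h₂, one_pow,
        mul_one, mul_one] at h5
      rw [mul_comm n₁ n₂, pow_mul]
      exact h5
    rw [← ae_all_iff] at key
    filter_upwards [key] with z hz
    obtain ⟨K, hK⟩ := exists_nat_ge ‖g z‖
    have := hz K
    rwa [if_pos hK] at this
  · -- the norm
    have hint : Integrable (fun z => ‖g z‖ ^ 2) D := by
      have h1 := hg2.integrable_norm_pow (by norm_num)
      exact_mod_cast h1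
    have h1 : ∫ z, ‖g z‖ ^ 2 ∂D = ‖c‖ ^ 2 * ∫ z, ‖g z‖ ^ 2 ∂D := by
      calc ∫ z, ‖g z‖ ^ 2 ∂D = ∫ z, ‖g z‖ ^ 2 ∂(D.map (Prod.map T T)) := by rw [hi]
        _ = ∫ z, ‖g (Prod.map T T z)‖ ^ 2 ∂D :=
            integral_map hS.aemeasurable (hgm.norm.pow_const 2).aestronglyMeasurable
        _ = ∫ z, ‖c‖ ^ 2 * ‖g z‖ ^ 2 ∂D := by
            refine integral_congr_ae ?_
            filter_upwards [hgS] with z hz
            rw [hz, norm_mul, mul_pow]
        _ = ‖c‖ ^ 2 * ∫ z, ‖g z‖ ^ 2 ∂D := integral_const_mul _ _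
    have h2 : ‖c‖ ^ 2 ≠ 1 := by
      intro h3
      exact hc1 ((pow_eq_one_iff_of_nonneg (norm_nonneg c) two_ne_zero).1 h3)
    have h3 : ∫ z, ‖g z‖ ^ 2 ∂D = 0 := by
      have h4 : (‖c‖ ^ 2 - 1) * ∫ z, ‖g z‖ ^ 2 ∂D = 0 := by
        rw [sub_mul, ← h1, one_mul, sub_self]
      rcases mul_eq_zero.1 h4 with h5 | h5
      · exact absurd (sub_eq_zero.1 h5) h2
      · exact h5
    rw [integral_eq_zero_iff_of_nonneg (fun z => sq_nonneg _) hint] at h3
    filter_upwards [h3] with z hz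
    exact norm_eq_zero.1 (pow_eq_zero_iff (two_ne_zero)|>.1 hz)

end Pool.Agent.Ef
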