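import Pool.Agent.Ef.Defs

/-! MP_13664e_an (ELFR), module U5: Wiener lemma without ergodicity (as Sar.kvn, from Sar.K3_abs). -/

set_option autoImplicit false

namespace Pool.Agent.Ef

open MeasureTheory ProbabilityTheory Filter Topology Pool.Agent.Sar
open scoped ENNReal ComplexConjugate

/-- `K3_abs` with the Koopman operator of `S` on `L²(κ)`, and on `L²(κ × κ)` the Koopman operator of
`S × S` and `z = v ⊗ conj v`, as in the proof of Sar.kvn. -/
theorem U5 {Y : Type*} [MeasurableSpace Y] {κ : Measure Y} [IsProbabilityMeasure κ] {S : Y → Y}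
    (hS : MeasurePreserving S κ κ) {v : Y → ℂ} (hv : BM v)
    (h : ∀ (f : Y → ℂ) (c : ℂ), MemLp f 2 κ → (∀ᵐ z ∂κ, f (S z) = c * f z) →
      ¬ (∀ᵐ z ∂κ, f z = 0) → ∫ z, v z * conj (f z) ∂κ = 0) :
    Tendsto (fun N : ℕ => (N : ℝ)⁻¹ * ∑ n ∈ Finset.range N,
      ‖∫ z, v z * conj (v (S^[n] z)) ∂κ‖ ^ 2) atTop (𝓝 0) := by
  have hSm : Measurable S := hS.measurable
  have hvL : MemLp v 2 κ := K3_memLp hv.meas hv.bdd
  have hvn : ∀ n, MemLp (fun x => v (S^[n] x)) 2 κ := fun n =>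
    hvL.comp_measurePreserving (hS.iterate n)
  set U : Lp ℂ 2 κ →ₗᵢ[ℂ] Lp ℂ 2 κ := Lp.compMeasurePreservingₗᵢ ℂ S hS with hU
  have hUn : ∀ n, U^[n] (hvL.toLp v) = (hvn n).toLp (fun x => v (S^[n] x)) := fun n =>
    K3_iter hS hvL n (hvn n)
  -- the product
  have hTT : MeasurePreserving (Prod.map S S) (κ.prod κ) (κ.prod κ) := hS.prod hS
  have hzm : ∀ n, Measurable (fun z : Y × Y => v (S^[n] z.1) * conj (v (S^[n] z.2))) := by
    intro n
    have h1 : Measurable (fun x => v (S^[n] x)) := hv.meas.comp (hSm.iterate n)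
    exact (h1.comp measurable_fst).mul
      (Complex.continuous_conj.measurable.comp (h1.comp measurable_snd))
  obtain ⟨C, hC⟩ := hv.bdd
  have hzb : ∀ n, ∃ D : ℝ, ∀ z : Y × Y, ‖v (S^[n] z.1) * conj (v (S^[n] z.2))‖ ≤ D := by
    intro n
    refine ⟨C * C, fun z => ?_⟩
    rw [norm_mul, RCLike.norm_conj]
    exact mul_le_mul (hC _) (hC _) (norm_nonneg _) ((norm_nonneg _).trans (hC z.1))
  have hzL : ∀ n, MemLp (fun z : Y × Y => v (S^[n] z.1) * conj (v (S^[n] z.2))) 2 (κ.prod κ) :=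
    fun n => K3_memLp (hzm n) (hzb n)
  set V : Lp ℂ 2 (κ.prod κ) →ₗᵢ[ℂ] Lp ℂ 2 (κ.prod κ) :=
    Lp.compMeasurePreservingₗᵢ ℂ (Prod.map S S) hTT with hVdef
  have hz0 : MemLp (fun z : Y × Y => v z.1 * conj (v z.2)) 2 (κ.prod κ) := hzL 0
  have hVn : ∀ n, V.toContinuousLinearMap^[n] (hz0.toLp _) = (hzL n).toLp _ := by
    intro n
    induction n with
    | zero => rfl
    | succ n ih =>
      rw [Function.iterate_succ_apply', ih]
      show Lp.compMeasurePreserving (Prod.map S S) hTT ((hzL n).toLp _) = _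
      rw [Lp.toLp_compMeasurePreserving]
      rfl
  have hz : ∀ i j : ℕ, (inner ℂ (V.toContinuousLinearMap^[i] (hz0.toLp _))
      (V.toContinuousLinearMap^[j] (hz0.toLp _)) : ℂ) =
      ((‖(inner ℂ (U^[i] (hvL.toLp v)) (U^[j] (hvL.toLp v)) : ℂ)‖ ^ 2 : ℝ) : ℂ) := by
    intro i j
    rw [hVn, hVn, hUn, hUn, K3_inner, K3_inner]
    have h1 : ∀ z : Y × Y, conj (v (S^[i] z.1) * conj (v (S^[i] z.2))) *
        (v (S^[j] z.1) * conj (v (S^[j] z.2))) =
        (conj (v (S^[i] z.1)) * v (S^[j] z.1)) * conj (conj (v (S^[i] z.2)) * v (S^[j] z.2)) := by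
      intro z
      simp only [map_mul, Complex.conj_conj]
      ring
    simp_rw [h1]
    rw [integral_prod_mul (fun x => conj (v (S^[i] x)) * v (S^[j] x))
      (fun x => conj (conj (v (S^[i] x)) * v (S^[j] x))), integral_conj, Complex.mul_conj,
      Complex.normSq_eq_norm_sq]
  have hno : ∀ (f : Lp ℂ 2 κ) (l : ℂ), f ≠ 0 → U f = l • f → (inner ℂ (hvL.toLp v) f : ℂ) = 0 := by
    intro f l hf0 hf
    have hfm : MemLp (f : Y → ℂ) 2 κ := Lp.memLp f
    have h1 : ∀ᵐ x ∂κ, (f : Y → ℂ) (S x) = l * (f : Y → ℂ) x := by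
      have h2 : (U f : Y → ℂ) =ᵐ[κ] (f : Y → ℂ) ∘ S := Lp.coeFn_compMeasurePreserving f hS
      have h3 : (U f : Y → ℂ) =ᵐ[κ] l • (f : Y → ℂ) := by
        rw [hf]
        exact Lp.coeFn_smul l f
      filter_upwards [h2, h3] with x h4 h5
      rw [h5] at h4
      exact h4.symm
    have h2 : ¬ (∀ᵐ x ∂κ, (f : Y → ℂ) x = 0) := by
      intro h3
      apply hf0
      rw [Lp.eq_zero_iff_ae_eq_zero]
      exact h3
    have h5 := h _ l hfm h1 h2
    have h3 : (inner ℂ (hvL.toLp v) f : ℂ) = ∫ x, conj (v x) * (f : Y → ℂ) x ∂κ := by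
      have h4 := K3_inner hvL hfm
      rwa [Lp.toLp_coeFn] at h4
    rw [h3]
    have h4 : ∫ x, conj (v x) * (f : Y → ℂ) x ∂κ =
        conj (∫ x, v x * conj ((f : Y → ℂ) x) ∂κ) := by
      rw [← integral_conj]
      refine integral_congr_ae (Eventually.of_forall fun x => ?_)
      simp only [map_mul, Complex.conj_conj]
    rw [h4, h5, map_zero]
  have hA := K3_abs U (hvL.toLp v) V.toContinuousLinearMap V.norm_toContinuousLinearMap_le
    (hz0.toLp _) hz hno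
  -- the conclusion
  have hin : ∀ n, ‖∫ x, v x * conj (v (S^[n] x)) ∂κ‖ =
      ‖(inner ℂ (U^[n] (hvL.toLp v)) (hvL.toLp v) : ℂ)‖ := by
    intro n
    rw [hUn, K3_inner]
    congr 1
    refine integral_congr_ae (Eventually.of_forall fun x => ?_)
    simp only [mul_comm]
  have hkey : ∀ N : ℕ, (N : ℝ)⁻¹ * ∑ n ∈ Finset.range N, ‖∫ x, v x * conj (v (S^[n] x)) ∂κ‖ ^ 2 ≤
      ‖K3_A U (hvL.toLp v) N‖ * ‖hvL.toLp _‖ ^ 2 := by
    intro N
    have h1 : (((N : ℝ)⁻¹ * ∑ n ∈ Finset.range N,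
        ‖∫ x, v x * conj (v (S^[n] x)) ∂κ‖ ^ 2 : ℝ) : ℂ) =
        inner ℂ (hvL.toLp _) (K3_A U (hvL.toLp v) N (hvL.toLp _)) := by
      rw [K3_A_apply, inner_smul_right, inner_sum]
      push_cast
      congr 1
      refine Finset.sum_congr rfl fun n _ => ?_
      rw [hin, inner_smul_right, ← inner_conj_symm (hvL.toLp _) (U^[n] (hvL.toLp v)),
        Complex.mul_conj, Complex.normSq_eq_norm_sq]
      push_cast
      rfl
    have h2 : (N : ℝ)⁻¹ * ∑ n ∈ Finset.range N, ‖∫ x, v x * conj (v (S^[n] x)) ∂κ‖ ^ 2 =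
        ‖(inner ℂ (hvL.toLp _) (K3_A U (hvL.toLp v) N (hvL.toLp _)) : ℂ)‖ := by
      rw [← h1, Complex.norm_real, Real.norm_of_nonneg (by positivity)]
    rw [h2]
    refine (norm_inner_le_norm _ _).trans ?_
    calc ‖hvL.toLp _‖ * ‖K3_A U (hvL.toLp v) N (hvL.toLp _)‖
        ≤ ‖hvL.toLp _‖ * (‖K3_A U (hvL.toLp v) N‖ * ‖hvL.toLp _‖) := by
          gcongr
          exact ContinuousLinearMap.le_opNorm _ _
      _ = ‖K3_A U (hvL.toLp v) N‖ * ‖hvL.toLp _‖ ^ 2 := by ring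
  refine squeeze_zero (fun N => by positivity) hkey ?_
  have h1 := (tendsto_zero_iff_norm_tendsto_zero.1 hA).mul_const (‖hvL.toLp _‖ ^ 2)
  rwa [zero_mul] at h1

end Pool.Agent.Ef
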