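import Pool.Agent.Ef.U1
import Pool.Agent.Ef.U3
import Pool.Agent.Ef.U4
import Pool.Agent.Ef.U5

/-! MP_13664e_an (ELFR), module U6: the uniform Wiener lemma. -/

set_option autoImplicit false

namespace Pool.Agent.Ef

open MeasureTheory ProbabilityTheory Filter Topology Pool.Agent.Sar
open scoped ENNReal ComplexConjugate

variable {X : Type*} [mX : MeasurableSpace X] [StandardBorelSpace X] [Nonempty X]
  {ν : Measure X} [IsProbabilityMeasure ν]

/-- `ρ_D = ∫ |∫ Ψ conj (Ψ ∘ S^D) dOm_w| d(ν×ν)(w)` with `Ψ(x,y) = F0 x conj (F0 y)` -/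
noncomputable def rho (ν : Measure X) [IsProbabilityMeasure ν] (T : X → X) (F0 : X → ℂ) (D : ℕ) :
    ℝ :=
  ∫ w, ‖∫ z, F0 z.1 * conj (F0 z.2) *
    conj (F0 (T^[D] z.1) * conj (F0 (T^[D] z.2))) ∂(Om ν T w)‖ ∂(ν.prod ν)

private theorem U6_meas {φ : X × X → ℂ} (hφ : BM φ) (T : X → X) :
    StronglyMeasurable (fun w => ∫ z, φ z ∂(Om ν T w)) := by
  have h := (hφ.meas.stronglyMeasurable.integral_condExpKernel (μ := ν.prod ν)
    (m := MeasurableSpace.invariants (Prod.map T T)))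
  exact h.mono (MeasurableSpace.invariants_le _)

omit [StandardBorelSpace X] [Nonempty X] in
private theorem U6_norm {Y : Type*} [MeasurableSpace Y] {κ : Measure Y} [IsProbabilityMeasure κ]
    {φ : Y → ℂ} {C : ℝ} (hC : ∀ x, ‖φ x‖ ≤ C) : ‖∫ z, φ z ∂κ‖ ≤ C := by
  have h := norm_integral_le_of_norm_le_const (μ := κ) (f := φ) (C := C) (ae_of_all _ hC)
  simpa using h

/-- the integrand -/
private noncomputable def U6_Ph (T : X → X) (F0 : X → ℂ) (D : ℕ) (z : X × X) : ℂ :=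
  F0 z.1 * conj (F0 z.2) * conj (F0 (T^[D] z.1) * conj (F0 (T^[D] z.2)))

omit [StandardBorelSpace X] [Nonempty X] in
private theorem U6_Ph_BM {T : X → X} (hT : Measurable T) {F0 : X → ℂ} (hF : BM F0) (D : ℕ) :
    BM (U6_Ph T F0 D) := by
  have h1 : BM (fun z : X × X => F0 z.1) :=
    ⟨hF.meas.comp measurable_fst, hF.bdd.imp fun C hC z => hC z.1⟩
  have h2 : BM (fun z : X × X => F0 z.2) :=
    ⟨hF.meas.comp measurable_snd, hF.bdd.imp fun C hC z => hC z.2⟩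
  have h3 : BM (fun z : X × X => F0 (T^[D] z.1)) :=
    ⟨hF.meas.comp ((hT.iterate D).comp measurable_fst), hF.bdd.imp fun C hC z => hC _⟩
  have h4 : BM (fun z : X × X => F0 (T^[D] z.2)) :=
    ⟨hF.meas.comp ((hT.iterate D).comp measurable_snd), hF.bdd.imp fun C hC z => hC _⟩
  exact K2b_mul (K2b_mul h1 (K2b_conj h2)) (K2b_conj (K2b_mul h3 (K2b_conj h4)))

/-- `|∫ F0 conj (F0 ∘ T^D) conj e dν|² = ∫ Ψ conj (Ψ ∘ S^D) E d(ν×ν)`, `E(x,y) = conj (e x) e y` is
exactly invariant (Om_mul) -/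
theorem rho_fc {T : X → X} (hT : MeasurePreserving T ν ν) {F0 : X → ℂ} (hF : BM F0) (D : ℕ)
    {e : X → ℂ} (he : Measurable e) (he1 : ∀ x, ‖e x‖ ≤ 1) {l : ℂ} (hl : ‖l‖ = 1)
    (hel : ∀ x, e (T x) = l * e x) :
    ‖∫ x, F0 x * conj (F0 (T^[D] x)) * conj (e x) ∂ν‖ ^ 2 ≤ rho ν T F0 D := by
  have hTm : Measurable T := hT.measurable
  have hΦB := U6_Ph_BM hTm hF D
  have hE : BM (fun z : X × X => conj (e z.1) * e z.2) := by
    refine ⟨(Complex.continuous_conj.measurable.comp (he.comp measurable_fst)).mul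
      (he.comp measurable_snd), 1, fun z => ?_⟩
    rw [norm_mul, RCLike.norm_conj]
    exact mul_le_one₀ (he1 _) (norm_nonneg _) (he1 _)
  have hll : conj l * l = 1 := by
    rw [mul_comm, Complex.mul_conj, Complex.normSq_eq_norm_sq, hl]
    norm_num
  have hi : ∀ z : X × X, conj (e (Prod.map T T z).1) * e (Prod.map T T z).2 =
      conj (e z.1) * e z.2 := by
    intro z
    simp only [Prod.map_fst, Prod.map_snd, hel, map_mul]
    calc conj l * conj (e z.1) * (l * e z.2) = (conj l * l) * (conj (e z.1) * e z.2) := by ring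
      _ = _ := by rw [hll, one_mul]
  have h1 := Om_mul (ν := ν) (T := T) hΦB hE hi
  have h2 : ∫ z, U6_Ph T F0 D z * (conj (e z.1) * e z.2) ∂(ν.prod ν) =
      ((‖∫ x, F0 x * conj (F0 (T^[D] x)) * conj (e x) ∂ν‖ ^ 2 : ℝ) : ℂ) := by
    have h3 : ∀ z : X × X, U6_Ph T F0 D z * (conj (e z.1) * e z.2) =
        (F0 z.1 * conj (F0 (T^[D] z.1)) * conj (e z.1)) *
          conj (F0 z.2 * conj (F0 (T^[D] z.2)) * conj (e z.2)) := by
      intro z
      simp only [U6_Ph, map_mul, Complex.conj_conj]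
      ring
    simp_rw [h3]
    rw [integral_prod_mul (fun x => F0 x * conj (F0 (T^[D] x)) * conj (e x))
      (fun x => conj (F0 x * conj (F0 (T^[D] x)) * conj (e x))), integral_conj, Complex.mul_conj,
      Complex.normSq_eq_norm_sq]
  rw [h2] at h1
  have h4 : ‖∫ x, F0 x * conj (F0 (T^[D] x)) * conj (e x) ∂ν‖ ^ 2 =
      ‖∫ w, (∫ z, U6_Ph T F0 D z ∂(Om ν T w)) * (conj (e w.1) * e w.2) ∂(ν.prod ν)‖ := by
    rw [h1, Complex.norm_real, Real.norm_of_nonneg (by positivity)]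
  rw [h4]
  refine (norm_integral_le_integral_norm _).trans ?_
  have hsm := U6_meas (ν := ν) hΦB T
  obtain ⟨C, hC⟩ := hΦB.bdd
  have hint : Integrable (fun w => ‖∫ z, U6_Ph T F0 D z ∂(Om ν T w)‖) (ν.prod ν) :=
    Integrable.of_bound hsm.norm.aestronglyMeasurable C
      (ae_of_all _ fun w => by rw [norm_norm]; exact U6_norm hC)
  refine integral_mono_of_nonneg (ae_of_all _ fun w => norm_nonneg _) hint
    (ae_of_all _ fun w => ?_)
  simp only
  rw [norm_mul]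
  refine mul_le_of_le_one_right (norm_nonneg _) ?_
  rw [norm_mul, RCLike.norm_conj]
  exact mul_le_one₀ (he1 _) (norm_nonneg _) (he1 _)

/-- roots of unity form a countable set -/
private theorem U6_count : {c : ℂ | ∃ n : ℕ, 1 ≤ n ∧ c ^ n = 1}.Countable := by
  have h : {c : ℂ | ∃ n : ℕ, 1 ≤ n ∧ c ^ n = 1} ⊆ ⋃ n : ℕ, {c : ℂ | 1 ≤ n ∧ c ^ n = 1} := by
    rintro c ⟨n, hn⟩
    exact Set.mem_iUnion.2 ⟨n, hn⟩
  refine (Set.countable_iUnion fun n => ?_).mono h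
  rcases Nat.eq_zero_or_pos n with rfl | hn
  · have : {c : ℂ | 1 ≤ 0 ∧ c ^ 0 = 1} = ∅ := by
      ext c
      simp
    rw [this]
    exact Set.countable_empty
  · have : NeZero n := ⟨hn.ne'⟩
    refine (Set.Finite.subset (Polynomial.nthRootsFinset n (1 : ℂ)).finite_toSet ?_).countable
    rintro c ⟨-, hc⟩
    rw [Finset.mem_coe, Polynomial.mem_nthRootsFinset hn]
    exact hc

/-- For a.e. `w` the function `Ψ` is orthogonal in `L²(Om_w)` to all eigenfunctions: U3 with `R` the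
(countable) set of all roots of unity, U4 for the other eigenvalues; U5; dominated convergence and
`ρ_D² ≤ ∫ |…|²`. -/
theorem rho_avg {T : X → X} (hE : Ergodic T ν) {m : ℕ} {a : ℝ} {ℓ : X → Fin m}
    (hL : Lab ν T m a ℓ) (hev : ∀ l ∈ EV ν T, ∃ n : ℕ, 1 ≤ n ∧ l ^ n = 1) {F0 : X → ℂ}
    (hF : BM F0) (h0 : ∀ l ∈ EV ν T, fc ν T F0 l = 0) :
    Tendsto (fun M : ℕ => (M : ℝ)⁻¹ * ∑ D ∈ Finset.range M, rho ν T F0 D ^ 2) atTop (𝓝 0) := by
  have hT : MeasurePreserving T ν ν := hE.toMeasurePreserving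
  have hTm : Measurable T := hT.measurable
  have hSm : Measurable (Prod.map T T) := hTm.prodMap hTm
  have hR1 : ∀ c ∈ {c : ℂ | ∃ n : ℕ, 1 ≤ n ∧ c ^ n = 1}, ‖c‖ = 1 := by
    rintro c ⟨n, hn, hc⟩
    have h1 : ‖c‖ ^ n = 1 := by rw [← norm_pow, hc, norm_one]
    exact (pow_eq_one_iff_of_nonneg (norm_nonneg _) (by omega)).1 h1
  have hΨ : BM (fun z : X × X => F0 z.1 * conj (F0 z.2)) :=
    K2b_mul ⟨hF.meas.comp measurable_fst, hF.bdd.imp fun C hC z => hC z.1⟩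
      (K2b_conj ⟨hF.meas.comp measurable_snd, hF.bdd.imp fun C hC z => hC z.2⟩)
  -- a.e. component
  have hae : ∀ᵐ w ∂(ν.prod ν), Tendsto (fun N : ℕ => (N : ℝ)⁻¹ * ∑ n ∈ Finset.range N,
      ‖∫ z, U6_Ph T F0 n z ∂(Om ν T w)‖ ^ 2) atTop (𝓝 0) := by
    filter_upwards [U3 hE hF h0 U6_count hR1, Om_inv (ν := ν) hT, Om_coup (ν := ν) hE] with w h3 h1 h2
    have hmp : MeasurePreserving (Prod.map T T) (Om ν T w) (Om ν T w) := ⟨hSm, h1⟩
    have h5 := U5 hmp hΨ (fun f c hf hfc hfn => by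
      by_cases hc : ∃ n : ℕ, 1 ≤ n ∧ c ^ n = 1
      · exact h3 c hc f hf hfc
      · push Not at hc
        exact absurd (U4 hE hL hev h2 h1 hc hf hfc) hfn)
    refine h5.congr fun N => ?_
    congr 1
    refine Finset.sum_congr rfl fun n _ => ?_
    congr 3
    funext z
    simp only [U6_Ph, Prod.map_iterate, Prod.map_fst, Prod.map_snd]
  obtain ⟨C, hC⟩ := hF.bdd
  have hC0 : 0 ≤ C := by
    obtain ⟨x⟩ := (inferInstance : Nonempty X)
    exact (norm_nonneg _).trans (hC x)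
  have hPb : ∀ n (z : X × X), ‖U6_Ph T F0 n z‖ ≤ C ^ 4 := by
    intro n z
    unfold U6_Ph
    rw [norm_mul, norm_mul, RCLike.norm_conj, RCLike.norm_conj, norm_mul, RCLike.norm_conj]
    calc ‖F0 z.1‖ * ‖F0 z.2‖ * (‖F0 (T^[n] z.1)‖ * ‖F0 (T^[n] z.2)‖) ≤ C * C * (C * C) := by
          gcongr <;> exact hC _
      _ = C ^ 4 := by ring
  have hmeas : ∀ n, StronglyMeasurable (fun w => ‖∫ z, U6_Ph T F0 n z ∂(Om ν T w)‖ ^ 2) :=
    fun n => (U6_meas (ν := ν) (U6_Ph_BM hTm hF n) T).norm.pow 2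
  have hb : ∀ n w, ‖∫ z, U6_Ph T F0 n z ∂(Om ν T w)‖ ^ 2 ≤ (C ^ 4) ^ 2 := fun n w =>
    pow_le_pow_left₀ (norm_nonneg _) (U6_norm (hPb n)) 2
  have hint2 : ∀ n, Integrable (fun w => ‖∫ z, U6_Ph T F0 n z ∂(Om ν T w)‖ ^ 2) (ν.prod ν) :=
    fun n => Integrable.of_bound (hmeas n).aestronglyMeasurable ((C ^ 4) ^ 2)
      (ae_of_all _ fun w => by
        rw [Real.norm_of_nonneg (by positivity)]
        exact hb n w)
  -- dominated convergence
  have hdom : Tendsto (fun N : ℕ => ∫ w, (N : ℝ)⁻¹ * ∑ n ∈ Finset.range N,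
      ‖∫ z, U6_Ph T F0 n z ∂(Om ν T w)‖ ^ 2 ∂(ν.prod ν)) atTop (𝓝 0) := by
    have h1 := tendsto_integral_of_dominated_convergence (μ := ν.prod ν)
      (F := fun (N : ℕ) w => (N : ℝ)⁻¹ * ∑ n ∈ Finset.range N,
        ‖∫ z, U6_Ph T F0 n z ∂(Om ν T w)‖ ^ 2) (f := fun _ => (0 : ℝ)) (fun _ => (C ^ 4) ^ 2)
      (fun N => ?_) (integrable_const _) (fun N => ae_of_all _ fun w => ?_) hae
    · simpa using h1
    · exact ((Finset.stronglyMeasurable_fun_sum _ fun n _ => hmeas n).const_mul _).aestronglyMeasurable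
    · have h2 : 0 ≤ ∑ n ∈ Finset.range N, ‖∫ z, U6_Ph T F0 n z ∂(Om ν T w)‖ ^ 2 :=
        Finset.sum_nonneg fun n _ => by positivity
      rw [Real.norm_of_nonneg (by positivity)]
      rcases Nat.eq_zero_or_pos N with rfl | hN
      · simp only [Finset.range_zero, Finset.sum_empty, mul_zero]
        positivity
      · have hN' : (0 : ℝ) < N := by exact_mod_cast hN
        have h3 : ∑ n ∈ Finset.range N, ‖∫ z, U6_Ph T F0 n z ∂(Om ν T w)‖ ^ 2 ≤
            N * (C ^ 4) ^ 2 := by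
          refine (Finset.sum_le_sum fun n _ => hb n w).trans ?_
          rw [Finset.sum_const, Finset.card_range, nsmul_eq_mul]
        rw [inv_mul_le_iff₀ hN']
        exact h3
  -- comparison
  have hrho : ∀ D, rho ν T F0 D ^ 2 ≤ ∫ w, ‖∫ z, U6_Ph T F0 D z ∂(Om ν T w)‖ ^ 2 ∂(ν.prod ν) := by
    intro D
    have hconv := (convexOn_pow (𝕜 := ℝ) 2)
    have hg : Integrable (fun w => ‖∫ z, U6_Ph T F0 D z ∂(Om ν T w)‖) (ν.prod ν) :=
      Integrable.of_bound (U6_meas (ν := ν) (U6_Ph_BM hTm hF D) T).norm.aestronglyMeasurable (C ^ 4)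
        (ae_of_all _ fun w => by rw [norm_norm]; exact U6_norm (hPb D))
    have := hconv.map_integral_le (μ := ν.prod ν) (f := fun w => ‖∫ z, U6_Ph T F0 D z ∂(Om ν T w)‖)
      (continuousOn_pow 2) isClosed_Ici (ae_of_all _ fun w => norm_nonneg _) hg (hint2 D)
    exact this
  refine squeeze_zero (fun M => by positivity) (fun M => ?_) hdom
  rw [integral_const_mul, integral_finsetSum _ fun n _ => hint2 n]
  exact mul_le_mul_of_nonneg_left (Finset.sum_le_sum fun D _ => hrho D) (by positivity)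

end Pool.Agent.Ef
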