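import Pool.Agent.Ef.FK

/-! MP_13664e_an (ELFR), module WW: uniform averages along the orbits with weights `ζ^n`,
`ζ^(L j) = 1`, over one period. -/

set_option autoImplicit false

namespace Pool.Agent.Ef

open MeasureTheory ProbabilityTheory Filter Topology Pool.Agent.Sar
open scoped ENNReal ComplexConjugate

/-- shifting the range of summation -/
private theorem WW_shift {B : ℝ} {u : ℕ → ℂ} (hu : ∀ n, ‖u n‖ ≤ B) (N h : ℕ) :
    ‖∑ n ∈ Finset.range N, u (n + h) - ∑ n ∈ Finset.range N, u n‖ ≤ 2 * h * B := by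
  have h1 : ∑ n ∈ Finset.range N, u (n + h) - ∑ n ∈ Finset.range N, u n =
      ∑ n ∈ Finset.range h, u (n + N) - ∑ n ∈ Finset.range h, u n := by
    have e1 := Finset.sum_range_add u h N
    have e2 := Finset.sum_range_add u N h
    rw [add_comm h N] at e1
    rw [e1] at e2
    have e3 : ∀ n, u (n + h) = u (h + n) := fun n => by rw [add_comm]
    have e4 : ∀ n, u (n + N) = u (N + n) := fun n => by rw [add_comm]
    rw [Finset.sum_congr rfl fun n _ => e3 n, Finset.sum_congr rfl fun n _ => e4 n]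
    linear_combination e2
  rw [h1]
  have hb : ∀ m : ℕ → ℂ, (∀ n, ‖m n‖ ≤ B) → ‖∑ n ∈ Finset.range h, m n‖ ≤ h * B := by
    intro m hm
    refine (norm_sum_le _ _).trans ?_
    refine (Finset.sum_le_sum fun n _ => hm n).trans ?_
    rw [Finset.sum_const, Finset.card_range, nsmul_eq_mul]
  refine (norm_sub_le _ _).trans ?_
  have h2 := hb (fun n => u (n + N)) fun n => hu _
  have h3 := hb u hu
  linarith

/-- the sum over pairs in terms of the differences -/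
private theorem WW_pairs {c : ℕ → ℝ} (hc : ∀ n, 0 ≤ c n) (H : ℕ) :
    ∑ h ∈ Finset.range H, ∑ h' ∈ Finset.range H, c (h - h' + (h' - h)) ≤
      2 * H * ∑ d ∈ Finset.range H, c d := by
  have hrow : ∀ h ∈ Finset.range H, ∑ h' ∈ Finset.range H, c (h - h' + (h' - h)) ≤
      2 * ∑ d ∈ Finset.range H, c d := by
    intro h hh
    rw [Finset.mem_range] at hh
    rw [← Finset.sum_filter_add_sum_filter_not (Finset.range H) (fun h' => h' ≤ h)]
    have h1 : ∑ h' ∈ Finset.range H with h' ≤ h, c (h - h' + (h' - h)) ≤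
        ∑ d ∈ Finset.range H, c d := by
      have e1 : ∑ h' ∈ Finset.range H with h' ≤ h, c (h - h' + (h' - h)) =
          ∑ d ∈ ((Finset.range H).filter fun h' => h' ≤ h).image (fun h' => h - h'), c d := by
        rw [Finset.sum_image]
        · refine Finset.sum_congr rfl fun h' hh' => ?_
          rw [Finset.mem_filter] at hh'
          rw [Nat.sub_eq_zero_of_le hh'.2, add_zero]
        · intro a ha b hb hab
          rw [Finset.mem_coe, Finset.mem_filter] at ha hb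
          simp only at hab
          omega
      rw [e1]
      refine Finset.sum_le_sum_of_subset_of_nonneg (fun d hd => ?_) fun d _ _ => hc d
      rw [Finset.mem_image] at hd
      obtain ⟨h', -, rfl⟩ := hd
      rw [Finset.mem_range]
      omega
    have h2 : ∑ h' ∈ Finset.range H with ¬ h' ≤ h, c (h - h' + (h' - h)) ≤
        ∑ d ∈ Finset.range H, c d := by
      have e1 : ∑ h' ∈ Finset.range H with ¬ h' ≤ h, c (h - h' + (h' - h)) =
          ∑ d ∈ ((Finset.range H).filter fun h' => ¬ h' ≤ h).image (fun h' => h' - h), c d := by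
        rw [Finset.sum_image]
        · refine Finset.sum_congr rfl fun h' hh' => ?_
          rw [Finset.mem_filter] at hh'
          rw [Nat.sub_eq_zero_of_le (by omega), zero_add]
        · intro a ha b hb hab
          rw [Finset.mem_coe, Finset.mem_filter] at ha hb
          simp only at hab
          omega
      rw [e1]
      refine Finset.sum_le_sum_of_subset_of_nonneg (fun d hd => ?_) fun d _ _ => hc d
      rw [Finset.mem_image] at hd
      obtain ⟨h', hh', rfl⟩ := hd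
      rw [Finset.mem_filter, Finset.mem_range] at hh'
      rw [Finset.mem_range]
      omega
    linarith
  refine (Finset.sum_le_sum hrow).trans ?_
  rw [Finset.sum_const, Finset.card_range, nsmul_eq_mul]
  linarith

/-- van der Corput inequality for a bounded sequence -/
theorem WW_vdc {B : ℝ} (hB : 0 ≤ B) {H : ℕ} (hH : 1 ≤ H) {τ : ℝ} (hτ : 0 < τ) :
    ∃ N0 : ℕ, ∀ N ≥ N0, ∀ u : ℕ → ℂ, (∀ n, ‖u n‖ ≤ B) →
      ‖(N : ℂ)⁻¹ * ∑ n ∈ Finset.range N, u n‖ ^ 2 ≤ (2 / H) * ∑ h ∈ Finset.range H,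
        ‖(N : ℂ)⁻¹ * ∑ n ∈ Finset.range N, u (n + h) * conj (u n)‖ + τ := by
  obtain ⟨N1, hN1⟩ := exists_nat_gt ((6 * H * B ^ 2 + 4 * H ^ 2 * B ^ 2) / τ)
  refine ⟨N1 + 1, fun N hN u hu => ?_⟩
  have hN0 : 1 ≤ N := by omega
  have hNr : (0 : ℝ) < N := by exact_mod_cast hN0
  have hN1r : (1 : ℝ) ≤ N := by exact_mod_cast hN0
  have hHr : (0 : ℝ) < H := by exact_mod_cast hH
  have hNc : (N : ℂ) ≠ 0 := by exact_mod_cast hNr.ne'
  have hHc : (H : ℂ) ≠ 0 := by exact_mod_cast hHr.ne'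
  -- the averaged sequence
  set a : ℂ := (N : ℂ)⁻¹ * ∑ n ∈ Finset.range N, u n with ha
  set a' : ℂ := (N : ℂ)⁻¹ * ∑ n ∈ Finset.range N, (H : ℂ)⁻¹ * ∑ h ∈ Finset.range H, u (n + h)
    with ha'
  have hE : ‖a - a'‖ ≤ 2 * H * B / N := by
    have e1 : a - a' = (N : ℂ)⁻¹ * ((H : ℂ)⁻¹ * ∑ h ∈ Finset.range H,
        (∑ n ∈ Finset.range N, u n - ∑ n ∈ Finset.range N, u (n + h))) := by
      rw [ha, ha', ← mul_sub]
      congr 1
      rw [Finset.sum_sub_distrib, Finset.sum_const, Finset.card_range, nsmul_eq_mul, mul_sub,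
        inv_mul_cancel_left₀ hHc, ← Finset.mul_sum, Finset.sum_comm]
    rw [e1, norm_mul, norm_mul, norm_inv, norm_inv, Complex.norm_natCast, Complex.norm_natCast]
    have e2 : ‖∑ h ∈ Finset.range H, (∑ n ∈ Finset.range N, u n -
        ∑ n ∈ Finset.range N, u (n + h))‖ ≤ H * (2 * H * B) := by
      refine (norm_sum_le _ _).trans ?_
      have e3 : ∀ h ∈ Finset.range H, ‖∑ n ∈ Finset.range N, u n -
          ∑ n ∈ Finset.range N, u (n + h)‖ ≤ 2 * H * B := by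
        intro h hh
        rw [norm_sub_rev]
        refine (WW_shift hu N h).trans ?_
        have : (h : ℝ) ≤ H := by exact_mod_cast (Finset.mem_range.1 hh).le
        gcongr
      refine (Finset.sum_le_sum e3).trans ?_
      rw [Finset.sum_const, Finset.card_range, nsmul_eq_mul]
    calc (N : ℝ)⁻¹ * ((H : ℝ)⁻¹ * ‖∑ h ∈ Finset.range H, (∑ n ∈ Finset.range N, u n -
        ∑ n ∈ Finset.range N, u (n + h))‖) ≤ (N : ℝ)⁻¹ * ((H : ℝ)⁻¹ * (H * (2 * H * B))) := by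
          gcongr
      _ = 2 * H * B / N := by
          rw [inv_mul_cancel_left₀ hHr.ne', inv_mul_eq_div]
  have hna' : ‖a'‖ ≤ B := by
    rw [ha', norm_mul, norm_inv, Complex.norm_natCast]
    have e1 : ‖∑ n ∈ Finset.range N, (H : ℂ)⁻¹ * ∑ h ∈ Finset.range H, u (n + h)‖ ≤ N * B := by
      refine (norm_sum_le _ _).trans ?_
      have e3 : ∀ n ∈ Finset.range N, ‖(H : ℂ)⁻¹ * ∑ h ∈ Finset.range H, u (n + h)‖ ≤ B := by
        intro n _
        rw [norm_mul, norm_inv, Complex.norm_natCast]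
        have e4 : ‖∑ h ∈ Finset.range H, u (n + h)‖ ≤ H * B := by
          refine (norm_sum_le _ _).trans ?_
          refine (Finset.sum_le_sum fun h _ => hu (n + h)).trans ?_
          rw [Finset.sum_const, Finset.card_range, nsmul_eq_mul]
        calc (H : ℝ)⁻¹ * ‖∑ h ∈ Finset.range H, u (n + h)‖ ≤ (H : ℝ)⁻¹ * (H * B) := by gcongr
          _ = B := inv_mul_cancel_left₀ hHr.ne' B
      refine (Finset.sum_le_sum e3).trans ?_
      rw [Finset.sum_const, Finset.card_range, nsmul_eq_mul]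
    calc (N : ℝ)⁻¹ * ‖∑ n ∈ Finset.range N, (H : ℂ)⁻¹ * ∑ h ∈ Finset.range H, u (n + h)‖
        ≤ (N : ℝ)⁻¹ * (N * B) := by gcongr
      _ = B := inv_mul_cancel_left₀ hNr.ne' B
  -- the correlations
  set c : ℕ → ℝ := fun d => ‖(N : ℂ)⁻¹ * ∑ n ∈ Finset.range N, u (n + d) * conj (u n)‖ with hcdef
  have hc0 : ∀ d, 0 ≤ c d := fun d => norm_nonneg _
  have hcorr : ∀ h ∈ Finset.range H, ∀ h' ∈ Finset.range H,
      ‖(N : ℂ)⁻¹ * ∑ n ∈ Finset.range N, u (n + h) * conj (u (n + h'))‖ ≤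
        c (h - h' + (h' - h)) + 2 * H * B ^ 2 / N := by
    have key : ∀ d h', h' < H →
        ‖(N : ℂ)⁻¹ * ∑ n ∈ Finset.range N, u (n + h' + d) * conj (u (n + h'))‖ ≤
          c d + 2 * H * B ^ 2 / N := by
      intro d h' hh'
      have e1 := WW_shift (B := B ^ 2) (u := fun n => u (n + d) * conj (u n)) (fun n => by
        rw [norm_mul, RCLike.norm_conj, pow_two]
        exact mul_le_mul (hu _) (hu _) (norm_nonneg _) hB) N h'
      have e2 : (N : ℂ)⁻¹ * ∑ n ∈ Finset.range N, u (n + h' + d) * conj (u (n + h')) =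
          (N : ℂ)⁻¹ * ∑ n ∈ Finset.range N, u (n + d) * conj (u n) +
          (N : ℂ)⁻¹ * (∑ n ∈ Finset.range N, u (n + h' + d) * conj (u (n + h')) -
            ∑ n ∈ Finset.range N, u (n + d) * conj (u n)) := by ring
      rw [e2]
      refine (norm_add_le _ _).trans ?_
      refine add_le_add le_rfl ?_
      rw [norm_mul, norm_inv, Complex.norm_natCast, inv_mul_eq_div]
      refine div_le_div_of_nonneg_right (e1.trans ?_) hNr.le
      have : (h' : ℝ) ≤ H := by exact_mod_cast hh'.le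
      gcongr
    intro h hh h' hh'
    rw [Finset.mem_range] at hh hh'
    rcases le_total h' h with hle | hle
    · have e1 := key (h - h') h' hh'
      have e2 : ∀ n, n + h' + (h - h') = n + h := fun n => by omega
      simp only [e2] at e1
      rw [Nat.sub_eq_zero_of_le hle, add_zero]
      exact e1
    · have e1 := key (h' - h) h hh
      have e2 : ∀ n, n + h + (h' - h) = n + h' := fun n => by omega
      simp only [e2] at e1
      rw [Nat.sub_eq_zero_of_le hle, zero_add]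
      refine le_trans (le_of_eq ?_) e1
      rw [← RCLike.norm_conj]
      congr 1
      rw [map_mul, map_inv₀, Complex.conj_natCast, map_sum]
      congr 1
      refine Finset.sum_congr rfl fun n _ => ?_
      rw [map_mul, Complex.conj_conj, mul_comm]
  -- Cauchy-Schwarz
  have hCS : ‖a'‖ ^ 2 ≤ (N : ℝ)⁻¹ * ∑ n ∈ Finset.range N,
      ‖(H : ℂ)⁻¹ * ∑ h ∈ Finset.range H, u (n + h)‖ ^ 2 := by
    set f : ℕ → ℝ := fun n => ‖(H : ℂ)⁻¹ * ∑ h ∈ Finset.range H, u (n + h)‖ with hf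
    have e1 : ‖a'‖ ≤ (N : ℝ)⁻¹ * ∑ n ∈ Finset.range N, f n := by
      rw [ha', norm_mul, norm_inv, Complex.norm_natCast]
      gcongr
      exact norm_sum_le _ _
    have e3 : (∑ n ∈ Finset.range N, f n) ^ 2 ≤ N * ∑ n ∈ Finset.range N, f n ^ 2 := by
      have := sq_sum_le_card_mul_sum_sq (s := Finset.range N) (f := f)
      rwa [Finset.card_range] at this
    calc ‖a'‖ ^ 2 ≤ ((N : ℝ)⁻¹ * ∑ n ∈ Finset.range N, f n) ^ 2 := by gcongr
      _ = (N : ℝ)⁻¹ ^ 2 * (∑ n ∈ Finset.range N, f n) ^ 2 := mul_pow _ _ _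
      _ ≤ (N : ℝ)⁻¹ ^ 2 * (N * ∑ n ∈ Finset.range N, f n ^ 2) := by gcongr
      _ = (N : ℝ)⁻¹ * ∑ n ∈ Finset.range N, f n ^ 2 := by
          field_simp
  have hexp : (N : ℝ)⁻¹ * ∑ n ∈ Finset.range N,
      ‖(H : ℂ)⁻¹ * ∑ h ∈ Finset.range H, u (n + h)‖ ^ 2 ≤
      ((H : ℝ)⁻¹) ^ 2 * ∑ h ∈ Finset.range H, ∑ h' ∈ Finset.range H,
        ‖(N : ℂ)⁻¹ * ∑ n ∈ Finset.range N, u (n + h) * conj (u (n + h'))‖ := by
    have e1 : (((N : ℝ)⁻¹ * ∑ n ∈ Finset.range N,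
        ‖(H : ℂ)⁻¹ * ∑ h ∈ Finset.range H, u (n + h)‖ ^ 2 : ℝ) : ℂ) =
        ((H : ℂ)⁻¹) ^ 2 * ∑ h ∈ Finset.range H, ∑ h' ∈ Finset.range H,
          (N : ℂ)⁻¹ * ∑ n ∈ Finset.range N, u (n + h) * conj (u (n + h')) := by
      have e2 : ∀ n, ((‖(H : ℂ)⁻¹ * ∑ h ∈ Finset.range H, u (n + h)‖ ^ 2 : ℝ) : ℂ) =
          ((H : ℂ)⁻¹) ^ 2 * ∑ h ∈ Finset.range H, ∑ h' ∈ Finset.range H,
            u (n + h) * conj (u (n + h')) := by
        intro n
        rw [← Complex.normSq_eq_norm_sq, ← Complex.mul_conj, map_mul, map_inv₀,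
          Complex.conj_natCast, map_sum, ← Finset.sum_mul_sum]
        ring
      rw [Complex.ofReal_mul, Complex.ofReal_inv, Complex.ofReal_natCast, Complex.ofReal_sum,
        Finset.sum_congr rfl fun n _ => e2 n, ← Finset.mul_sum]
      have e3 : ∑ n ∈ Finset.range N, ∑ h ∈ Finset.range H, ∑ h' ∈ Finset.range H,
          u (n + h) * conj (u (n + h')) = ∑ h ∈ Finset.range H, ∑ h' ∈ Finset.range H,
            ∑ n ∈ Finset.range N, u (n + h) * conj (u (n + h')) := by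
        rw [Finset.sum_comm]
        refine Finset.sum_congr rfl fun h _ => ?_
        rw [Finset.sum_comm]
      rw [e3]
      simp only [← Finset.mul_sum]
      ring
    have e4 : (N : ℝ)⁻¹ * ∑ n ∈ Finset.range N,
        ‖(H : ℂ)⁻¹ * ∑ h ∈ Finset.range H, u (n + h)‖ ^ 2 =
        ‖(((N : ℝ)⁻¹ * ∑ n ∈ Finset.range N,
          ‖(H : ℂ)⁻¹ * ∑ h ∈ Finset.range H, u (n + h)‖ ^ 2 : ℝ) : ℂ)‖ := by
      rw [Complex.norm_real, Real.norm_of_nonneg (by positivity)]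
    rw [e4, e1, norm_mul, norm_pow, norm_inv, Complex.norm_natCast]
    gcongr
    refine (norm_sum_le _ _).trans (Finset.sum_le_sum fun h _ => norm_sum_le _ _)
  have hfin : ‖a'‖ ^ 2 ≤ (2 / H) * ∑ d ∈ Finset.range H, c d + 2 * H * B ^ 2 / N := by
    refine (hCS.trans hexp).trans ?_
    have e1 : ∑ h ∈ Finset.range H, ∑ h' ∈ Finset.range H,
        ‖(N : ℂ)⁻¹ * ∑ n ∈ Finset.range N, u (n + h) * conj (u (n + h'))‖ ≤
        2 * H * ∑ d ∈ Finset.range H, c d + H * (H * (2 * H * B ^ 2 / N)) := by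
      refine (Finset.sum_le_sum fun h hh => Finset.sum_le_sum fun h' hh' =>
        hcorr h hh h' hh').trans ?_
      simp only [Finset.sum_add_distrib, Finset.sum_const, Finset.card_range, nsmul_eq_mul]
      exact add_le_add (WW_pairs hc0 H) le_rfl
    calc ((H : ℝ)⁻¹) ^ 2 * ∑ h ∈ Finset.range H, ∑ h' ∈ Finset.range H,
          ‖(N : ℂ)⁻¹ * ∑ n ∈ Finset.range N, u (n + h) * conj (u (n + h'))‖
        ≤ ((H : ℝ)⁻¹) ^ 2 * (2 * H * ∑ d ∈ Finset.range H, c d +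
            H * (H * (2 * H * B ^ 2 / N))) := by gcongr
      _ = (2 / H) * ∑ d ∈ Finset.range H, c d + 2 * H * B ^ 2 / N := by
          field_simp
  -- the end
  have hEn : ‖a‖ ≤ ‖a'‖ + 2 * H * B / N := by
    have : a = a' + (a - a') := by ring
    rw [this]
    exact (norm_add_le _ _).trans (add_le_add le_rfl hE)
  have hErr : 2 * B * (2 * H * B / N) + (2 * H * B / N) ^ 2 + 2 * H * B ^ 2 / N ≤ τ := by
    have e1 : (2 * H * B / N : ℝ) ^ 2 ≤ 4 * H ^ 2 * B ^ 2 / N := by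
      rw [div_pow, div_le_div_iff₀ (by positivity) hNr]
      have e0 : (0 : ℝ) ≤ 4 * H ^ 2 * B ^ 2 := by positivity
      have e00 : (4 * H ^ 2 * B ^ 2 : ℝ) * N ≤ 4 * H ^ 2 * B ^ 2 * N ^ 2 :=
        mul_le_mul_of_nonneg_left (by nlinarith) e0
      calc (2 * H * B : ℝ) ^ 2 * N = 4 * H ^ 2 * B ^ 2 * N := by ring
        _ ≤ _ := e00
    have e2 : (6 * H * B ^ 2 + 4 * H ^ 2 * B ^ 2) / N ≤ τ := by
      rw [div_le_iff₀ hNr]
      rw [div_lt_iff₀ hτ] at hN1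
      have : (N1 : ℝ) ≤ N := by exact_mod_cast (by omega : N1 ≤ N)
      nlinarith
    have e3 : (2 * B * (2 * H * B / N) + 4 * H ^ 2 * B ^ 2 / N + 2 * H * B ^ 2 / N : ℝ) =
        (6 * H * B ^ 2 + 4 * H ^ 2 * B ^ 2) / N := by
      field_simp
      ring
    linarith
  have hE0 : (0 : ℝ) ≤ 2 * H * B / N := by positivity
  have h2 : ‖a‖ ^ 2 ≤ ‖a'‖ ^ 2 + 2 * B * (2 * H * B / N) + (2 * H * B / N) ^ 2 := by
    calc ‖a‖ ^ 2 ≤ (‖a'‖ + 2 * H * B / N) ^ 2 := by gcongr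
      _ = ‖a'‖ ^ 2 + 2 * ‖a'‖ * (2 * H * B / N) + (2 * H * B / N) ^ 2 := by ring
      _ ≤ _ := by gcongr
  linarith

variable {X : Type*} [MetricSpace X] [CompactSpace X] [mX : MeasurableSpace X] [BorelSpace X]
  [Nonempty X] {ν : Measure X} [IsProbabilityMeasure ν] {T : X ≃ₜ X} {L : ℕ → ℕ}
  {ph : ℕ → X → ℕ}

/-- WW_vdc for `u n = V (T^n x) ζ^n` and UU for `V ∘ T^h · conj V`, `h < H` -/
theorem WW_unif (hS : Sys ν T L ph) (V : C(X, ℂ)) {H : ℕ} (hH : 1 ≤ H) {τ : ℝ} (hτ : 0 < τ) :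
    ∃ N0 : ℕ, ∀ N ≥ N0, ∀ (x : X) (ζ : ℂ), ‖ζ‖ = 1 →
      ‖(N : ℂ)⁻¹ * ∑ n ∈ Finset.range N, V ((⇑T)^[n] x) * ζ ^ n‖ ^ 2 ≤
        (2 / H) * ∑ h ∈ Finset.range H, ‖∫ x, V ((⇑T)^[h] x) * conj (V x) ∂ν‖ + τ := by
  have hHr : (0 : ℝ) < H := by exact_mod_cast hH
  obtain ⟨N1, hN1⟩ := WW_vdc (norm_nonneg V) hH (τ := τ / 2) (by linarith)
  let W : ℕ → C(X, ℂ) := fun h => ⟨fun x => V ((⇑T)^[h] x) * conj (V x),
    (V.continuous.comp (T.continuous.iterate h)).mul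
      (Complex.continuous_conj.comp V.continuous)⟩
  have hW : ∀ h, ∃ N0 : ℕ, ∀ N ≥ N0, ∀ x : X,
      ‖(N : ℂ)⁻¹ * ∑ n ∈ Finset.range N, W h ((⇑T)^[n] x) - ∫ z, W h z ∂ν‖ ≤ τ / 4 := fun h =>
    UU T hS.ue (W h) (by linarith)
  choose N2 hN2 using hW
  refine ⟨N1 + ∑ h ∈ Finset.range H, N2 h, fun N hN x ζ hζ => ?_⟩
  have h1 := hN1 N (by omega) (fun n => V ((⇑T)^[n] x) * ζ ^ n) (fun n => by
    rw [norm_mul, norm_pow, hζ, one_pow, mul_one]
    exact V.norm_coe_le_norm _)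
  refine h1.trans ?_
  have h2 : ∀ h ∈ Finset.range H, ‖(N : ℂ)⁻¹ * ∑ n ∈ Finset.range N,
      V ((⇑T)^[n + h] x) * ζ ^ (n + h) * conj (V ((⇑T)^[n] x) * ζ ^ n)‖ ≤
      ‖∫ x, V ((⇑T)^[h] x) * conj (V x) ∂ν‖ + τ / 4 := by
    intro h hh
    have e1 : ∀ n, V ((⇑T)^[n + h] x) * ζ ^ (n + h) * conj (V ((⇑T)^[n] x) * ζ ^ n) =
        ζ ^ h * W h ((⇑T)^[n] x) := by
      intro n
      have e2 : ζ ^ n * conj (ζ ^ n) = 1 := by
        rw [Complex.mul_conj, Complex.normSq_eq_norm_sq, norm_pow, hζ]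
        norm_num
      have e3 : W h ((⇑T)^[n] x) = V ((⇑T)^[n + h] x) * conj (V ((⇑T)^[n] x)) := by
        change V ((⇑T)^[h] ((⇑T)^[n] x)) * _ = _
        rw [← Function.iterate_add_apply, add_comm h n]
      rw [e3, map_mul, pow_add]
      linear_combination (V ((⇑T)^[n + h] x) * ζ ^ h * conj (V ((⇑T)^[n] x))) * e2
    rw [Finset.sum_congr rfl fun n _ => e1 n, ← Finset.mul_sum, mul_left_comm, norm_mul,
      norm_pow, hζ, one_pow, one_mul]
    have e4 := hN2 h N (by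
      have := Finset.single_le_sum (f := N2) (fun i _ => Nat.zero_le _) hh
      omega) x
    have e5 : (N : ℂ)⁻¹ * ∑ n ∈ Finset.range N, W h ((⇑T)^[n] x) =
        ∫ z, W h z ∂ν + ((N : ℂ)⁻¹ * ∑ n ∈ Finset.range N, W h ((⇑T)^[n] x) -
          ∫ z, W h z ∂ν) := by ring
    rw [e5]
    exact (norm_add_le _ _).trans (add_le_add le_rfl e4)
  have h3 := Finset.sum_le_sum h2
  rw [Finset.sum_add_distrib, Finset.sum_const, Finset.card_range, nsmul_eq_mul] at h3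
  have h4 : (2 / H : ℝ) * ∑ h ∈ Finset.range H, ‖(N : ℂ)⁻¹ * ∑ n ∈ Finset.range N,
      V ((⇑T)^[n + h] x) * ζ ^ (n + h) * conj (V ((⇑T)^[n] x) * ζ ^ n)‖ ≤
      (2 / H : ℝ) * (∑ h ∈ Finset.range H, ‖∫ x, V ((⇑T)^[h] x) * conj (V x) ∂ν‖ +
        H * (τ / 4)) := by gcongr
  have h5 : (2 / H : ℝ) * (∑ h ∈ Finset.range H, ‖∫ x, V ((⇑T)^[h] x) * conj (V x) ∂ν‖ +
      H * (τ / 4)) = (2 / H : ℝ) * ∑ h ∈ Finset.range H,
        ‖∫ x, V ((⇑T)^[h] x) * conj (V x) ∂ν‖ + τ / 2 := by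
    field_simp
    ring
  linarith

/-- `V - pc V k = (V - cex V) + (cex V - pc V k)`: kvn for the first part (orthogonal to all
eigenfunctions by fc_cex), FK for the second, cross terms by Cauchy-Schwarz -/
theorem WW_corr (hS : Sys ν T L ph) (V : C(X, ℂ)) {τ : ℝ} (hτ : 0 < τ) :
    ∃ k0 : ℕ, ∀ k ≥ k0, ∃ H : ℕ, 1 ≤ H ∧ (2 / H : ℝ) * ∑ h ∈ Finset.range H,
      ‖∫ x, (V ((⇑T)^[h] x) - pc ν L ph V k ((⇑T)^[h] x)) *
        conj (V x - pc ν L ph V k x) ∂ν‖ ≤ τ := by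
  have hE : Ergodic (⇑T) ν := ue_ergodic T hS.inv hS.ue
  have hT : MeasurePreserving (⇑T) ν ν := hE.toMeasurePreserving
  have hVm : Measurable (V : X → ℂ) := V.continuous.measurable
  have hVb : ∀ x, ‖V x‖ ≤ ‖V‖ := fun x => V.norm_coe_le_norm x
  have hV : BM (V : X → ℂ) := ⟨hVm, ‖V‖, hVb⟩
  set B : ℝ := ‖V‖ with hBdef
  have hB : 0 ≤ B := norm_nonneg V
  set κ : ℝ := τ / (16 * (B + 1)) with hκdef
  have hκ : 0 < κ := by positivity
  have hFK := FK hS hV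
  have h0 : ∀ᶠ k in atTop, ∫ x, ‖cex ν T V x - pc ν L ph V k x‖ ^ 2 ∂ν < κ ^ 2 :=
    hFK.eventually_lt_const (by positivity)
  obtain ⟨k0, hk0⟩ := eventually_atTop.1 h0
  refine ⟨k0, fun k hk => ?_⟩
  set P : X → ℂ := pc ν L ph V k with hP
  have hPc : Continuous P := FK_cont hS V k
  have hPb : ∀ x, ‖P x‖ ≤ B := FK_bd hS hVm hVb k
  have hPBM : BM P := ⟨hPc.measurable, B, hPb⟩
  have hcx : BM (cex ν T V) := cex_BM hV
  -- the two parts
  have hA : BM (fun x => V x - cex ν T V x) := K2b_sub hV hcx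
  have hD : BM (fun x => cex ν T V x - P x) := K2b_sub hcx hPBM
  have hW : BM (fun x => conj (V x - P x)) := K2b_conj (K2b_sub hV hPBM)
  have hfc : ∀ l ∈ EV ν T, fc ν T (fun x => V x - cex ν T V x) l = 0 := by
    intro l hl
    have e1 := fc_cex hT hV hl
    have e2 : fc ν T (fun x => V x - cex ν T V x) l = fc ν T V l - fc ν T (cex ν T V) l := by
      unfold fc
      rw [← integral_sub (K2b_int (K2b_mul hV (K2b_conj (K2b_eg_BM l))))
        (K2b_int (K2b_mul hcx (K2b_conj (K2b_eg_BM l))))]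
      refine integral_congr_ae (Eventually.of_forall fun x => ?_)
      simp only
      ring
    rw [e2, e1, sub_self]
  have hk := kvn hE hA hW hfc
  have h1 : ∀ᶠ N : ℕ in atTop, (N : ℝ)⁻¹ * ∑ n ∈ Finset.range N,
      ‖∫ x, (V ((⇑T)^[n] x) - cex ν T V ((⇑T)^[n] x)) * conj (V x - P x) ∂ν‖ ^ 2 <
      (τ / 4) ^ 2 := hk.eventually_lt_const (by positivity)
  obtain ⟨H, hH1, hH2⟩ := (h1.and (eventually_ge_atTop 1)).exists
  have hHr : (0 : ℝ) < H := by exact_mod_cast hH2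
  refine ⟨H, hH2, ?_⟩
  -- the first part
  set a : ℕ → ℝ := fun n =>
    ‖∫ x, (V ((⇑T)^[n] x) - cex ν T V ((⇑T)^[n] x)) * conj (V x - P x) ∂ν‖ with hadef
  have ha : (H : ℝ)⁻¹ * ∑ n ∈ Finset.range H, a n ≤ τ / 4 := by
    have e1 : ((H : ℝ)⁻¹ * ∑ n ∈ Finset.range H, a n) ^ 2 ≤ (τ / 4) ^ 2 := by
      have e3 : (∑ n ∈ Finset.range H, a n) ^ 2 ≤ H * ∑ n ∈ Finset.range H, a n ^ 2 := by
        have := sq_sum_le_card_mul_sum_sq (s := Finset.range H) (f := a)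
        rwa [Finset.card_range] at this
      calc ((H : ℝ)⁻¹ * ∑ n ∈ Finset.range H, a n) ^ 2
          = (H : ℝ)⁻¹ ^ 2 * (∑ n ∈ Finset.range H, a n) ^ 2 := mul_pow _ _ _
        _ ≤ (H : ℝ)⁻¹ ^ 2 * (H * ∑ n ∈ Finset.range H, a n ^ 2) := by gcongr
        _ = (H : ℝ)⁻¹ * ∑ n ∈ Finset.range H, a n ^ 2 := by field_simp
        _ ≤ (τ / 4) ^ 2 := hH1.le
    exact (sq_le_sq₀ (by positivity) (by positivity)).1 e1
  -- the second part
  have hD1 : ∫ x, ‖cex ν T V x - P x‖ ∂ν ≤ 2 * κ := by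
    have e1 : ∀ x, ‖cex ν T V x - P x‖ ≤ κ + κ⁻¹ * ‖cex ν T V x - P x‖ ^ 2 := by
      intro x
      have e2 : κ * ‖cex ν T V x - P x‖ ≤ κ ^ 2 + ‖cex ν T V x - P x‖ ^ 2 := by
        nlinarith [sq_nonneg (κ - ‖cex ν T V x - P x‖), norm_nonneg (cex ν T V x - P x),
          sq_nonneg κ, sq_nonneg ‖cex ν T V x - P x‖]
      calc ‖cex ν T V x - P x‖ = κ⁻¹ * (κ * ‖cex ν T V x - P x‖) := by
            rw [inv_mul_cancel_left₀ hκ.ne']
        _ ≤ κ⁻¹ * (κ ^ 2 + ‖cex ν T V x - P x‖ ^ 2) := by gcongr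
        _ = κ + κ⁻¹ * ‖cex ν T V x - P x‖ ^ 2 := by field_simp
    have hi2 : Integrable (fun x => ‖cex ν T V x - P x‖ ^ 2) ν := K2_int hD
    have e3 : ∫ x, ‖cex ν T V x - P x‖ ∂ν ≤
        ∫ x, (κ + κ⁻¹ * ‖cex ν T V x - P x‖ ^ 2) ∂ν :=
      integral_mono (K2b_int hD).norm ((integrable_const _).add (hi2.const_mul _)) e1
    rw [integral_add (integrable_const _) (hi2.const_mul _), integral_const, integral_const_mul]
      at e3
    simp only [probReal_univ, one_smul] at e3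
    have e4 := (hk0 k (by assumption)).le
    have e5 : κ⁻¹ * ∫ x, ‖cex ν T V x - P x‖ ^ 2 ∂ν ≤ κ⁻¹ * κ ^ 2 := by gcongr
    have e6 : κ⁻¹ * κ ^ 2 = κ := by field_simp
    linarith
  have hb : ∀ n, ‖∫ x, (cex ν T V ((⇑T)^[n] x) - P ((⇑T)^[n] x)) * conj (V x - P x) ∂ν‖ ≤
      2 * κ * (2 * B) := by
    intro n
    refine (norm_integral_le_integral_norm _).trans ?_
    have hTn : MeasurePreserving ((⇑T)^[n]) ν ν := hT.iterate n
    have hDn : BM (fun x => cex ν T V ((⇑T)^[n] x) - P ((⇑T)^[n] x)) :=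
      ⟨hD.meas.comp hTn.measurable, by
        obtain ⟨C, hC⟩ := hD.bdd
        exact ⟨C, fun x => hC _⟩⟩
    have e1 : ∫ x, ‖(cex ν T V ((⇑T)^[n] x) - P ((⇑T)^[n] x)) * conj (V x - P x)‖ ∂ν ≤
        ∫ x, ‖cex ν T V ((⇑T)^[n] x) - P ((⇑T)^[n] x)‖ * (2 * B) ∂ν := by
      refine integral_mono (K2b_int (K2b_mul hDn hW)).norm
        ((K2b_int hDn).norm.mul_const _) fun x => ?_
      simp only
      rw [norm_mul, RCLike.norm_conj]
      refine mul_le_mul_of_nonneg_left ?_ (norm_nonneg _)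
      refine (norm_sub_le _ _).trans ?_
      have := hVb x
      have := hPb x
      linarith
    refine e1.trans ?_
    rw [integral_mul_const]
    have e2 : ∫ x, ‖cex ν T V ((⇑T)^[n] x) - P ((⇑T)^[n] x)‖ ∂ν =
        ∫ x, ‖cex ν T V x - P x‖ ∂ν := by
      have e3 := integral_map (μ := ν) hTn.measurable.aemeasurable
        (f := fun y => ‖cex ν T V y - P y‖) hD.meas.norm.aestronglyMeasurable
      rw [hTn.map_eq] at e3
      exact e3.symm
    rw [e2]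
    gcongr
  have hsplit : ∀ n, ‖∫ x, (V ((⇑T)^[n] x) - P ((⇑T)^[n] x)) * conj (V x - P x) ∂ν‖ ≤
      a n + 2 * κ * (2 * B) := by
    intro n
    have hTn : MeasurePreserving ((⇑T)^[n]) ν ν := hT.iterate n
    have hAn : BM (fun x => V ((⇑T)^[n] x) - cex ν T V ((⇑T)^[n] x)) :=
      ⟨hA.meas.comp hTn.measurable, by
        obtain ⟨C, hC⟩ := hA.bdd
        exact ⟨C, fun x => hC _⟩⟩
    have hDn : BM (fun x => cex ν T V ((⇑T)^[n] x) - P ((⇑T)^[n] x)) :=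
      ⟨hD.meas.comp hTn.measurable, by
        obtain ⟨C, hC⟩ := hD.bdd
        exact ⟨C, fun x => hC _⟩⟩
    have e1 : ∫ x, (V ((⇑T)^[n] x) - P ((⇑T)^[n] x)) * conj (V x - P x) ∂ν =
        ∫ x, (V ((⇑T)^[n] x) - cex ν T V ((⇑T)^[n] x)) * conj (V x - P x) ∂ν +
        ∫ x, (cex ν T V ((⇑T)^[n] x) - P ((⇑T)^[n] x)) * conj (V x - P x) ∂ν := by
      rw [← integral_add (K2b_int (K2b_mul hAn hW)) (K2b_int (K2b_mul hDn hW))]
      refine integral_congr_ae (Eventually.of_forall fun x => ?_)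
      simp only
      ring
    rw [e1]
    exact (norm_add_le _ _).trans (add_le_add le_rfl (hb n))
  have hfin := Finset.sum_le_sum fun n (_ : n ∈ Finset.range H) => hsplit n
  rw [Finset.sum_add_distrib, Finset.sum_const, Finset.card_range, nsmul_eq_mul] at hfin
  have e1 : (2 / H : ℝ) * ∑ n ∈ Finset.range H,
      ‖∫ x, (V ((⇑T)^[n] x) - P ((⇑T)^[n] x)) * conj (V x - P x) ∂ν‖ ≤
      (2 / H : ℝ) * (∑ n ∈ Finset.range H, a n + H * (2 * κ * (2 * B))) := by gcongr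
  have e2 : (2 / H : ℝ) * (∑ n ∈ Finset.range H, a n + H * (2 * κ * (2 * B))) =
      2 * ((H : ℝ)⁻¹ * ∑ n ∈ Finset.range H, a n) + 8 * κ * B := by
    field_simp
    ring
  have e3 : 8 * κ * B ≤ τ / 2 := by
    have e4 : κ * (16 * (B + 1)) = τ := by
      rw [hκdef]
      exact div_mul_cancel₀ _ (by positivity)
    nlinarith
  linarith

/-- geometric sums of roots of unity -/
private theorem WW_geom {n : ℕ} {z : ℂ} (hz : z ^ n = 1) (h1 : z ≠ 1) :
    ∑ i ∈ Finset.range n, z ^ i = 0 := by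
  have h2 := geom_sum_eq h1 n
  rw [hz, sub_self, zero_div] at h2
  exact h2

/-- Split `V = pc V k + V'`. For `j ≥ k` the first part is a sum of `c_l l^(ph k x) (l ζ)^n`, `l^(L k) = 1`,
`(l ζ)^(L j) = 1`: the average over `n < L j` is `0` or a single coefficient (FK_exp). Second part:
WW_unif and WW_corr. -/
theorem WW (hS : Sys ν T L ph) (V : C(X, ℂ)) {s : ℝ}
    (hs : ∀ (k : ℕ) (l : ℂ), l ^ L k = 1 → ‖∫ z, V z * conj (l ^ ph k z) ∂ν‖ ≤ s) {τ : ℝ}
    (hτ : 0 < τ) : ∀ᶠ j : ℕ in atTop, ∀ (x : X) (ζ : ℂ), ζ ^ L j = 1 →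
      ‖(L j : ℂ)⁻¹ * ∑ n ∈ Finset.range (L j), V ((⇑T)^[n] x) * ζ ^ n‖ ≤ s + τ := by
  have hs0 : 0 ≤ s := (norm_nonneg _).trans (hs 0 1 (one_pow _))
  have hV : BM (V : X → ℂ) := ⟨V.continuous.measurable, ‖V‖, fun x => V.norm_coe_le_norm x⟩
  obtain ⟨k, hk⟩ := WW_corr hS V (τ := τ ^ 2 / 2) (by positivity)
  obtain ⟨H, hH, hHτ⟩ := hk k le_rfl
  let V' : C(X, ℂ) := ⟨fun x => V x - pc ν L ph V k x, V.continuous.sub (FK_cont hS V k)⟩
  obtain ⟨N0, hN0⟩ := WW_unif hS V' hH (τ := τ ^ 2 / 2) (by positivity)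
  have hL := hS.phs.lim.eventually_ge_atTop N0
  filter_upwards [hL, eventually_ge_atTop k] with j hj hkj x ζ hζ
  have hLj : 1 ≤ L j := hS.phs.pos j
  have hLc : (L j : ℂ) ≠ 0 := by
    have : (L j) ≠ 0 := by omega
    exact_mod_cast this
  have hζ1 : ‖ζ‖ = 1 := Complex.norm_eq_one_of_pow_eq_one hζ (by omega)
  -- the second part
  have h2 : ‖(L j : ℂ)⁻¹ * ∑ n ∈ Finset.range (L j), V' ((⇑T)^[n] x) * ζ ^ n‖ ≤ τ := by
    have e1 := hN0 (L j) hj x ζ hζ1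
    have e2 : ‖(L j : ℂ)⁻¹ * ∑ n ∈ Finset.range (L j), V' ((⇑T)^[n] x) * ζ ^ n‖ ^ 2 ≤ τ ^ 2 := by
      refine e1.trans ?_
      have e3 : (2 / H : ℝ) * ∑ h ∈ Finset.range H,
          ‖∫ x, V' ((⇑T)^[h] x) * conj (V' x) ∂ν‖ ≤ τ ^ 2 / 2 := hHτ
      linarith
    exact (sq_le_sq₀ (norm_nonneg _) hτ.le).1 e2
  -- the first part
  have h1 : ‖(L j : ℂ)⁻¹ * ∑ n ∈ Finset.range (L j), pc ν L ph V k ((⇑T)^[n] x) * ζ ^ n‖ ≤ s := by
    have hdvd : L k ∣ L j := hS.phs.dvd_le hkj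
    have e1 : ∀ l ∈ Polynomial.nthRootsFinset (L k) (1 : ℂ), l ^ L k = 1 := fun l hl =>
      (Polynomial.mem_nthRootsFinset (by have := hS.phs.pos k; omega) 1).1 hl
    have e2 : ∀ n, pc ν L ph V k ((⇑T)^[n] x) * ζ ^ n =
        ∑ l ∈ Polynomial.nthRootsFinset (L k) (1 : ℂ),
          (∫ z, V z * conj (l ^ ph k z) ∂ν) * l ^ ph k x * (l * ζ) ^ n := by
      intro n
      rw [FK_exp hS hV, Finset.sum_mul]
      refine Finset.sum_congr rfl fun l hl => ?_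
      rw [hS.phs.iter]
      have e3 : l ^ ((ph k x + n) % L k) = l ^ (ph k x + n) := by
        conv_rhs => rw [← Nat.mod_add_div (ph k x + n) (L k)]
        rw [pow_add, pow_mul, e1 l hl, one_pow, mul_one]
      rw [e3, pow_add, mul_pow]
      ring
    have e3 : (L j : ℂ)⁻¹ * ∑ n ∈ Finset.range (L j), pc ν L ph V k ((⇑T)^[n] x) * ζ ^ n =
        ∑ l ∈ Polynomial.nthRootsFinset (L k) (1 : ℂ),
          if l = ζ⁻¹ then (∫ z, V z * conj (l ^ ph k z) ∂ν) * l ^ ph k x else 0 := by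
      rw [Finset.sum_congr rfl fun n _ => e2 n, Finset.sum_comm, Finset.mul_sum]
      refine Finset.sum_congr rfl fun l hl => ?_
      rw [← Finset.mul_sum]
      have hζ0 : ζ ≠ 0 := by
        rintro rfl
        rw [norm_zero] at hζ1
        exact zero_ne_one hζ1
      have hlz : (l * ζ) ^ L j = 1 := by
        obtain ⟨c, hc⟩ := hdvd
        rw [mul_pow, hζ, hc, pow_mul, e1 l hl, one_pow, one_mul]
      by_cases h : l = ζ⁻¹
      · rw [if_pos h]
        have e4 : l * ζ = 1 := by rw [h, inv_mul_cancel₀ hζ0]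
        simp only [e4, one_pow, Finset.sum_const, Finset.card_range, nsmul_eq_mul, mul_one]
        rw [mul_comm, mul_assoc, mul_inv_cancel₀ hLc, mul_one]
      · rw [if_neg h, WW_geom hlz, mul_zero, mul_zero]
        intro h4
        exact h (eq_inv_of_mul_eq_one_left h4)
    rw [e3, Finset.sum_ite_eq']
    split_ifs with h
    · rw [norm_mul]
      have e4 := e1 _ h
      have e5 : ‖(ζ⁻¹ : ℂ) ^ ph k x‖ = 1 := by
        rw [norm_pow, norm_inv, hζ1, inv_one, one_pow]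
      rw [e5, mul_one]
      exact hs k _ e4
    · rw [norm_zero]
      exact hs0
  have h3 : (L j : ℂ)⁻¹ * ∑ n ∈ Finset.range (L j), V ((⇑T)^[n] x) * ζ ^ n =
      (L j : ℂ)⁻¹ * ∑ n ∈ Finset.range (L j), pc ν L ph V k ((⇑T)^[n] x) * ζ ^ n +
      (L j : ℂ)⁻¹ * ∑ n ∈ Finset.range (L j), V' ((⇑T)^[n] x) * ζ ^ n := by
    rw [← mul_add, ← Finset.sum_add_distrib]
    congr 1
    refine Finset.sum_congr rfl fun n _ => ?_
    change _ = _ + (V ((⇑T)^[n] x) - pc ν L ph V k ((⇑T)^[n] x)) * ζ ^ n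
    ring
  rw [h3]
  exact (norm_add_le _ _).trans (add_le_add h1 h2)

end Pool.Agent.Ef
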