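import Pool.Agent.Ef.SA
import Pool.Agent.Ef.PE
import Pool.Agent.Ef.MW
import Pool.Agent.Ef.WW
import Pool.Agent.Ef.U6
import Pool.Agent.Ef.NB

/-! MP_13664e_an (ELFR), module PB: the averages of `Sq` over pairs of primes are small. -/

set_option autoImplicit false

namespace Pool.Agent.Ef

open MeasureTheory ProbabilityTheory Filter Topology Pool.Agent.Sar
open scoped ENNReal ComplexConjugate

variable {X : Type*} [MetricSpace X] [CompactSpace X] [mX : MeasurableSpace X] [BorelSpace X]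
  [Nonempty X] {ν : Measure X} [IsProbabilityMeasure ν] {T : X ≃ₜ X} {L : ℕ → ℕ}
  {ph : ℕ → X → ℕ}

omit [MetricSpace X] [CompactSpace X] [BorelSpace X] [Nonempty X] in
/-- `L¹` norm at most the `L²` norm -/
private theorem PB_l1 {g : X → ℂ} (hg : BM g) :
    ∫ x, ‖g x‖ ∂ν ≤ Real.sqrt (∫ x, ‖g x‖ ^ 2 ∂ν) := by
  have i1 : Integrable (fun x => ‖g x‖) ν := (K2b_int hg).norm
  have i2 : Integrable (fun x => ‖g x‖ ^ 2) ν := K2_int hg
  apply Real.le_sqrt_of_sq_le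
  obtain ⟨c, hc⟩ : ∃ c : ℝ, c = ∫ x, ‖g x‖ ∂ν := ⟨_, rfl⟩
  have h : 0 ≤ ∫ x, (‖g x‖ - c) ^ 2 ∂ν := integral_nonneg fun x => sq_nonneg _
  have e : ∫ x, (‖g x‖ - c) ^ 2 ∂ν = ∫ x, ‖g x‖ ^ 2 ∂ν - 2 * c * c + c ^ 2 := by
    have h1 : ∀ x, (‖g x‖ - c) ^ 2 = ‖g x‖ ^ 2 - 2 * c * ‖g x‖ + c ^ 2 := fun x => by ring
    simp only [h1]
    have i3 : Integrable (fun x => 2 * c * ‖g x‖) ν := i1.const_mul _
    have i4 : Integrable (fun x => ‖g x‖ ^ 2 - 2 * c * ‖g x‖) ν := i2.sub i3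
    rw [integral_add i4 (integrable_const _), integral_sub i2 i3, integral_const_mul,
      integral_const, ← hc]
    simp
  rw [← hc]
  nlinarith

private theorem PB_avg {u : ℕ → ℝ} {M : ℕ} (hM : 1 ≤ M) {η : ℝ}
    (h : (M : ℝ)⁻¹ * ∑ D ∈ Finset.range M, u D ^ 2 ≤ η ^ 2) (hη : 0 ≤ η) :
    (M : ℝ)⁻¹ * ∑ D ∈ Finset.range M, u D ≤ η := by
  have hM0 : (0 : ℝ) < M := by exact_mod_cast hM
  apply le_of_sq_le_sq _ hη |>.trans le_rfl
  have h1 : (∑ D ∈ Finset.range M, u D) ^ 2 ≤ (Finset.range M).card *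
      ∑ D ∈ Finset.range M, u D ^ 2 := sq_sum_le_card_mul_sum_sq
  rw [Finset.card_range] at h1
  calc ((M : ℝ)⁻¹ * ∑ D ∈ Finset.range M, u D) ^ 2
      = (M : ℝ)⁻¹ ^ 2 * (∑ D ∈ Finset.range M, u D) ^ 2 := by ring
    _ ≤ (M : ℝ)⁻¹ ^ 2 * (M * ∑ D ∈ Finset.range M, u D ^ 2) := by gcongr
    _ = (M : ℝ)⁻¹ * ∑ D ∈ Finset.range M, u D ^ 2 := by field_simp
    _ ≤ η ^ 2 := h

/-- transfer from `F0 = F - cex F` to `h = F - pc F j` -/
theorem PB_tr (hS : Sys ν T L ph) {F : X → ℂ} (hF : Continuous F) (hF1 : ∀ x, ‖F x‖ ≤ 1)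
    (j D : ℕ) {e : X → ℂ} (he : Measurable e) (he1 : ∀ x, ‖e x‖ ≤ 1) :
    ‖∫ x, (F x - pc ν L ph F j x) * conj (F ((⇑T)^[D] x) - pc ν L ph F j ((⇑T)^[D] x)) *
        conj (e x) ∂ν‖ ≤
      ‖∫ x, (F x - cex ν T F x) * conj (F ((⇑T)^[D] x) - cex ν T F ((⇑T)^[D] x)) *
        conj (e x) ∂ν‖ +
      4 * Real.sqrt (∫ x, ‖cex ν T F x - pc ν L ph F j x‖ ^ 2 ∂ν) := by
  have hFB : BM F := ⟨hF.measurable, 1, hF1⟩
  have hcB : BM (cex ν T F) := cex_BM hFB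
  have hc1 : ∀ x, ‖cex ν T F x‖ ≤ 1 := K2b_norm hF1
  have hpB : BM (pc ν L ph F j) := ⟨(FK_cont hS F j).measurable, 1, FK_bd hS hF.measurable hF1 j⟩
  have hp1 : ∀ x, ‖pc ν L ph F j x‖ ≤ 1 := FK_bd hS hF.measurable hF1 j
  have heB : BM e := ⟨he, 1, he1⟩
  have hT : MeasurePreserving T ν ν := ⟨T.continuous.measurable, hS.inv⟩
  have hTD : MeasurePreserving ((⇑T)^[D]) ν ν := hT.iterate D
  have hTm : Measurable ((⇑T)^[D]) := hTD.measurable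
  obtain ⟨g, hg⟩ : ∃ g : X → ℂ, g = fun x => cex ν T F x - pc ν L ph F j x := ⟨_, rfl⟩
  have hgB : BM g := hg ▸ K2b_sub hcB hpB
  have hg1 : ∫ x, ‖g x‖ ∂ν ≤ Real.sqrt (∫ x, ‖cex ν T F x - pc ν L ph F j x‖ ^ 2 ∂ν) := by
    have h1 := PB_l1 (ν := ν) hgB
    rw [hg] at h1 ⊢
    exact h1
  have hF0B : BM (fun x => F x - cex ν T F x) := K2b_sub hFB hcB
  have hhB : BM (fun x => F x - pc ν L ph F j x) := K2b_sub hFB hpB
  have hcomp : ∀ {v : X → ℂ}, BM v → BM (fun x => v ((⇑T)^[D] x)) := fun {v} hv =>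
    ⟨hv.meas.comp hTm, hv.bdd.imp fun C hC x => hC _⟩
  have iA : BM (fun x => (F x - cex ν T F x) *
      conj (F ((⇑T)^[D] x) - cex ν T F ((⇑T)^[D] x)) * conj (e x)) :=
    K2b_mul (K2b_mul hF0B (K2b_conj (hcomp hF0B))) (K2b_conj heB)
  have iB : BM (fun x => ((F x - cex ν T F x) * conj (g ((⇑T)^[D] x)) +
      g x * conj (F ((⇑T)^[D] x) - pc ν L ph F j ((⇑T)^[D] x))) * conj (e x)) :=
    K2b_mul (K2_BM_add (K2b_mul hF0B (K2b_conj (hcomp hgB))) (K2b_mul hgB (K2b_conj (hcomp hhB))))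
      (K2b_conj heB)
  have hdec : ∀ x, (F x - pc ν L ph F j x) *
      conj (F ((⇑T)^[D] x) - pc ν L ph F j ((⇑T)^[D] x)) * conj (e x) =
      (F x - cex ν T F x) * conj (F ((⇑T)^[D] x) - cex ν T F ((⇑T)^[D] x)) * conj (e x) +
      ((F x - cex ν T F x) * conj (g ((⇑T)^[D] x)) +
      g x * conj (F ((⇑T)^[D] x) - pc ν L ph F j ((⇑T)^[D] x))) * conj (e x) := by
    intro x
    rw [hg]
    simp only [map_sub]
    ring
  simp only [hdec]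
  rw [integral_add (K2b_int iA) (K2b_int iB)]
  refine (norm_add_le _ _).trans (add_le_add le_rfl ?_)
  have h2 : ∀ x, ‖((F x - cex ν T F x) * conj (g ((⇑T)^[D] x)) +
      g x * conj (F ((⇑T)^[D] x) - pc ν L ph F j ((⇑T)^[D] x))) * conj (e x)‖ ≤
      2 * ‖g ((⇑T)^[D] x)‖ + 2 * ‖g x‖ := by
    intro x
    rw [norm_mul, RCLike.norm_conj]
    have h3 : ‖(F x - cex ν T F x) * conj (g ((⇑T)^[D] x)) +
        g x * conj (F ((⇑T)^[D] x) - pc ν L ph F j ((⇑T)^[D] x))‖ ≤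
        2 * ‖g ((⇑T)^[D] x)‖ + 2 * ‖g x‖ := by
      refine (norm_add_le _ _).trans ?_
      rw [norm_mul, norm_mul, RCLike.norm_conj, RCLike.norm_conj]
      have h4 : ‖F x - cex ν T F x‖ ≤ 2 := (norm_sub_le _ _).trans (by linarith [hF1 x, hc1 x])
      have h5 : ‖F ((⇑T)^[D] x) - pc ν L ph F j ((⇑T)^[D] x)‖ ≤ 2 :=
        (norm_sub_le _ _).trans (by linarith [hF1 ((⇑T)^[D] x), hp1 ((⇑T)^[D] x)])
      have h6 : ‖F x - cex ν T F x‖ * ‖g ((⇑T)^[D] x)‖ ≤ 2 * ‖g ((⇑T)^[D] x)‖ :=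
        mul_le_mul_of_nonneg_right h4 (norm_nonneg _)
      have h7 : ‖g x‖ * ‖F ((⇑T)^[D] x) - pc ν L ph F j ((⇑T)^[D] x)‖ ≤ ‖g x‖ * 2 :=
        mul_le_mul_of_nonneg_left h5 (norm_nonneg _)
      linarith
    calc _ ≤ (2 * ‖g ((⇑T)^[D] x)‖ + 2 * ‖g x‖) * 1 :=
          mul_le_mul h3 (he1 x) (norm_nonneg _) (by positivity)
      _ = _ := mul_one _
  have iG : Integrable (fun x => ‖g x‖) ν := (K2b_int hgB).norm
  have iGD : Integrable (fun x => ‖g ((⇑T)^[D] x)‖) ν := (K2b_int (hcomp hgB)).norm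
  have h8 : ∫ x, ‖g ((⇑T)^[D] x)‖ ∂ν = ∫ x, ‖g x‖ ∂ν := by
    have h9 := integral_map (μ := ν) hTm.aemeasurable (f := fun x => ‖g x‖)
      (hgB.meas.norm.aestronglyMeasurable)
    rw [hTD.map_eq] at h9
    exact h9.symm
  calc _ ≤ ∫ x, (2 * ‖g ((⇑T)^[D] x)‖ + 2 * ‖g x‖) ∂ν :=
        norm_integral_le_of_norm_le ((iGD.const_mul 2).add (iG.const_mul 2)) (ae_of_all _ h2)
    _ = 4 * ∫ x, ‖g x‖ ∂ν := by
        rw [integral_add (iGD.const_mul 2) (iG.const_mul 2), integral_const_mul,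
          integral_const_mul, h8]
        ring
    _ ≤ _ := by linarith

/-- Choices: `C` from SA (τ = δ/8, all `d < t`, `q e`), `M` by rho_avg (`(4m)^4/M ≤ δ/8`,
`(2C/M) ∑ s_D²` small by Cauchy-Schwarz from the fourth powers), `j1 ≥ js` by FK, then `j` by WW for
the functions `V_D = h · conj (h ∘ T^D)`, `D < M`, MW, and `M / L j` small; PE at the end
(`(p : ZMod Q)⁻¹` for a prime `p > Q` is the inverse of the unit). -/
theorem PB (hLam : Pool.Agent.BGG.SWLam) (hS : Sys ν T L ph) (hB : BddSeqEnt T) {F : X → ℂ}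
    (hF : Continuous F) (hF1 : ∀ x, ‖F x‖ ≤ 1) {m k0 : ℕ}
    (hN : ∀ k ≥ k0, ∃ y : Fin m → X, Nm T L ph y F k) {q : ℕ} (hq : 1 ≤ q) (t J1 : ℕ) {δ : ℝ}
    (hδ : 0 < δ) (js : ℕ) :
    ∃ j1 ≥ js, ∃ j ≥ j1, ∃ M : ℕ, 1 ≤ M ∧ (M : ℝ) / L j ≤ δ ∧ ∃ _ : NeZero (L j),
      ∃ y : Fin m → X, Nm T L ph y (fun x => F x - pc ν L ph F j1 x) j ∧
      ∀ᶠ i : ℕ in atTop, ∀ d ∈ Finset.Ico 1 t, ∀ e ∈ Finset.Ico 1 J1,
        ∑ p ∈ blk i, ∑ p' ∈ blk i,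
          Sq (fun b => (lf T (fun x => F x - pc ν L ph F j1 x) (y b) : ZMod (L j) → ℂ)) M
            ((p' : ZMod (L j)) * ((q * e : ℕ) : ZMod (L j)))
            ((p' : ZMod (L j)) * (p : ZMod (L j))⁻¹ * (d : ZMod (L j))) ≤ δ * pib i ^ 2 := by
  have hE : Ergodic T ν := ue_ergodic T hS.inv hS.ue
  have hT : MeasurePreserving T ν ν := hE.toMeasurePreserving
  obtain ⟨a, ha, ha1, hat⟩ := atom_pos hE hB
  obtain ⟨m', ℓ, hL⟩ := label ha ha1 hat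
  have hev : ∀ l ∈ EV ν T, ∃ n : ℕ, 1 ≤ n ∧ l ^ n = 1 := fun l hl => by
    obtain ⟨k, hk⟩ := hS.ev l hl
    exact ⟨L k, hS.phs.pos k, hk⟩
  have hFB : BM F := ⟨hF.measurable, 1, hF1⟩
  have hcB : BM (cex ν T F) := cex_BM hFB
  have hF0 : BM (fun x => F x - cex ν T F x) := K2b_sub hFB hcB
  have h0 : ∀ l ∈ EV ν T, fc ν T (fun x => F x - cex ν T F x) l = 0 := by
    intro l hl
    have h1 := fc_cex hT hFB hl
    unfold fc at h1 ⊢
    simp only [sub_mul]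
    rw [integral_sub (K2b_int (K2b_mul hFB (K2b_conj (K2b_eg_BM l))))
      (K2b_int (K2b_mul hcB (K2b_conj (K2b_eg_BM l)))), h1, sub_self]
  have havg := rho_avg hE hL hev hF0 h0
  obtain ⟨R, hR⟩ : ∃ R : ℕ → ℝ, R = rho ν T (fun x => F x - cex ν T F x) := ⟨_, rfl⟩
  rw [← hR] at havg
  have hR0 : ∀ D, 0 ≤ R D := fun D => by
    rw [hR]
    exact integral_nonneg fun w => norm_nonneg _
  -- the constants of SA
  have hex : ∀ d e : ℕ, ∃ C : ℝ, 0 ≤ C ∧ (1 ≤ d → 1 ≤ e → ∀ (Q : ℕ) [NeZero Q]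
      (f : Fin m → ZMod Q → ℂ), (∀ b z, ‖f b z‖ ≤ 2) → ∀ M : ℕ, 1 ≤ M → ∀ s : ℕ → ℝ,
      (∀ D : ℕ, 1 ≤ D → D < M → ∀ χ : AddChar (ZMod Q) ℂ, ‖fh (wd f D) χ‖ ≤ s D) →
      ((Q.totient : ℝ) ^ 2)⁻¹ * ∑ u : (ZMod Q)ˣ, ∑ u' : (ZMod Q)ˣ,
        Sq f M ((u' : ZMod Q) * ((q * e : ℕ) : ZMod Q))
          ((u' : ZMod Q) * ((u⁻¹ : (ZMod Q)ˣ) : ZMod Q) * (d : ZMod Q)) ≤
      (4 * m : ℝ) ^ 4 / M + δ / 8 + (2 * C / M) * ∑ D ∈ Finset.Ico 1 M, s D ^ 2) := by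
    intro d e
    by_cases hde : 1 ≤ d ∧ 1 ≤ e
    · obtain ⟨C, hC0, hC⟩ := SA m (e := q * e) (d := d) (Nat.mul_pos hq hde.2) hde.1
        (τ := δ / 8) (by positivity)
      exact ⟨C, hC0, fun _ _ => hC⟩
    · exact ⟨0, le_rfl, fun h1 h2 => (hde ⟨h1, h2⟩).elim⟩
  choose Cf hCf0 hCf using hex
  obtain ⟨C, hCdef⟩ : ∃ C : ℝ, C = ∑ d ∈ Finset.Ico 1 t, ∑ e ∈ Finset.Ico 1 J1, Cf d e := ⟨_, rfl⟩
  have hC0 : 0 ≤ C := by
    rw [hCdef]
    exact Finset.sum_nonneg fun d _ => Finset.sum_nonneg fun e _ => hCf0 d e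
  have hCle : ∀ d ∈ Finset.Ico 1 t, ∀ e ∈ Finset.Ico 1 J1, Cf d e ≤ C := by
    intro d hd e he
    rw [hCdef]
    calc Cf d e ≤ ∑ e ∈ Finset.Ico 1 J1, Cf d e :=
          Finset.single_le_sum (f := fun e => Cf d e) (fun e _ => hCf0 d e) he
      _ ≤ _ := Finset.single_le_sum (f := fun d => ∑ e ∈ Finset.Ico 1 J1, Cf d e)
          (fun d _ => Finset.sum_nonneg fun e _ => hCf0 d e) hd
  -- the choice of `M`
  obtain ⟨η, hη⟩ : ∃ η : ℝ, η = δ / 8 / (4 * C * m ^ 2 + 1) := ⟨_, rfl⟩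
  have hden : 0 < 4 * C * (m : ℝ) ^ 2 + 1 := by positivity
  have hη0 : 0 < η := by rw [hη]; positivity
  have hη1 : 4 * C * (m : ℝ) ^ 2 * η ≤ δ / 8 := by
    have h1 : (4 * C * (m : ℝ) ^ 2 + 1) * η = δ / 8 := by
      rw [hη]
      field_simp
    nlinarith
  have hev1 : ∀ᶠ M : ℕ in atTop, (M : ℝ)⁻¹ * ∑ D ∈ Finset.range M, R D ^ 2 ≤ η ^ 2 :=
    (havg.eventually (Iio_mem_nhds (by positivity : (0 : ℝ) < η ^ 2))).mono fun M hM => hM.le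
  have hev2 : ∀ᶠ M : ℕ in atTop, (4 * m : ℝ) ^ 4 / M ≤ δ / 8 := by
    have h1 : Tendsto (fun M : ℕ => (4 * m : ℝ) ^ 4 / M) atTop (𝓝 0) :=
      tendsto_const_div_atTop_nhds_zero_nat _
    exact (h1.eventually (Iio_mem_nhds (by positivity : (0 : ℝ) < δ / 8))).mono fun M hM => hM.le
  obtain ⟨M, ⟨hM1, hM2⟩, hM⟩ := ((hev1.and hev2).and (eventually_ge_atTop 1)).exists
  have hM0 : (0 : ℝ) < M := by exact_mod_cast hM
  have hRavg : (M : ℝ)⁻¹ * ∑ D ∈ Finset.range M, R D ≤ η := PB_avg hM hM1 hη0.le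
  -- the choice of `j1`
  obtain ⟨κ, hκ⟩ : ∃ κ : ℝ, κ = min 1 (δ / 8 / (4 * C + 1)) := ⟨_, rfl⟩
  have hκ0 : 0 < κ := by rw [hκ]; positivity
  have hκ1 : κ ≤ 1 := hκ ▸ min_le_left _ _
  have hκ2 : 4 * C * κ ^ 2 ≤ δ / 8 := by
    have h1 : κ * (4 * C + 1) ≤ δ / 8 := by
      rw [← le_div_iff₀ (by positivity)]
      exact hκ ▸ min_le_right _ _
    have h2 : κ ^ 2 ≤ κ := by nlinarith
    nlinarith
  have hm1 : (0 : ℝ) < m + 1 := by positivity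
  have hFK := FK hS hFB
  have hFKs : Tendsto (fun k => Real.sqrt (∫ x, ‖cex ν T F x - pc ν L ph F k x‖ ^ 2 ∂ν)) atTop
      (𝓝 0) := by
    have h1 := (Real.continuous_sqrt.tendsto 0).comp hFK
    rw [Real.sqrt_zero] at h1
    exact h1
  obtain ⟨j1, hj1, hjs⟩ := ((hFKs.eventually (Iio_mem_nhds
    (by positivity : (0 : ℝ) < κ / (16 * (m + 1))))).and (eventually_ge_atTop js)).exists
  obtain ⟨γ, hγ⟩ : ∃ γ : ℝ, γ = Real.sqrt (∫ x, ‖cex ν T F x - pc ν L ph F j1 x‖ ^ 2 ∂ν) :=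
    ⟨_, rfl⟩
  have hγ1 : γ ≤ κ / (16 * (m + 1)) := by
    rw [hγ]
    exact le_of_lt hj1
  have hγ0 : 0 ≤ γ := hγ ▸ Real.sqrt_nonneg _
  obtain ⟨h, hh⟩ : ∃ h : X → ℂ, h = fun x => F x - pc ν L ph F j1 x := ⟨_, rfl⟩
  have hhc : Continuous h := hh ▸ hF.sub (FK_cont hS F j1)
  have hh2 : ∀ x, ‖h x‖ ≤ 2 := fun x => by
    rw [hh]
    exact (norm_sub_le _ _).trans (by linarith [hF1 x, FK_bd hS hF.measurable hF1 j1 x])
  obtain ⟨V, hV⟩ : ∃ V : ℕ → C(X, ℂ), ∀ D x, V D x = h x * conj (h ((⇑T)^[D] x)) :=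
    ⟨fun D => ⟨fun x => h x * conj (h ((⇑T)^[D] x)), hhc.mul
      (Complex.continuous_conj.comp (hhc.comp (T.continuous.iterate D)))⟩, fun D x => rfl⟩
  -- the Fourier coefficients of `V D`
  have hVs : ∀ D : ℕ, ∀ (k : ℕ) (l : ℂ), l ^ L k = 1 →
      ‖∫ z, V D z * conj (l ^ ph k z) ∂ν‖ ≤ Real.sqrt (R D) + 4 * γ := by
    intro D k l hl
    have hl1 : ‖l‖ = 1 := by
      have h1 : ‖l‖ ^ L k = 1 := by rw [← norm_pow, hl, norm_one]
      exact (pow_eq_one_iff_of_nonneg (norm_nonneg _) (by have := hS.phs.pos k; omega)).1 h1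
    have hem : Measurable (fun x => l ^ ph k x) :=
      (measurable_of_countable (fun n : ℕ => l ^ n)).comp (hS.cont k).measurable
    have he1 : ∀ x, ‖l ^ ph k x‖ ≤ 1 := fun x => by rw [norm_pow, hl1, one_pow]
    have h2 := PB_tr hS hF hF1 j1 D hem he1
    have h3 := rho_fc hT hF0 D hem he1 hl1 (FK_eig hS hl).2
    rw [← hR] at h3
    have h4 := Real.le_sqrt_of_sq_le h3
    simp only [hV, hh]
    rw [hγ]
    exact h2.trans (add_le_add h4 le_rfl)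
  obtain ⟨τ, hτ⟩ : ∃ τ : ℝ, τ = κ / (4 * (m + 1)) := ⟨_, rfl⟩
  have hτ0 : 0 < τ := by rw [hτ]; positivity
  have hevW : ∀ᶠ j : ℕ in atTop, ∀ D ∈ Finset.range M, ∀ (x : X) (ζ : ℂ), ζ ^ L j = 1 →
      ‖(L j : ℂ)⁻¹ * ∑ n ∈ Finset.range (L j), V D ((⇑T)^[n] x) * ζ ^ n‖ ≤
        (Real.sqrt (R D) + 4 * γ) + τ := by
    rw [Filter.eventually_all_finset]
    intro D _
    exact WW hS (V D) (hVs D) hτ0
  have hLR : Tendsto (fun j => (L j : ℝ)) atTop atTop :=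
    tendsto_natCast_atTop_atTop.comp hS.phs.lim
  obtain ⟨j, ⟨⟨⟨hjW, hj1'⟩, hjk⟩, hjδ⟩, hjκ⟩ := ((((hevW.and (eventually_ge_atTop j1)).and
    (eventually_ge_atTop k0)).and (hLR.eventually_ge_atTop (M / δ))).and
    (hLR.eventually_ge_atTop (8 * m * M / (κ / 2)))).exists
  have hQ0 : (0 : ℝ) < L j := by exact_mod_cast hS.phs.pos j
  have hQn : NeZero (L j) := hS.phs.neZero j
  have hMδ : (M : ℝ) / L j ≤ δ := by
    rw [div_le_iff₀ hQ0]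
    rw [div_le_iff₀ hδ] at hjδ
    linarith
  have hMκ : 8 * m * M / (L j : ℝ) ≤ κ / 2 := by
    rw [div_le_iff₀ hQ0]
    rw [div_le_iff₀ (by positivity)] at hjκ
    linarith
  obtain ⟨y, hy⟩ := hN j hjk
  have hy' : Nm T L ph y h j := by
    have := Nm.sub hS.phs hj1' hy
      (fun r => (L j1 : ℂ) * ∫ z in {z | ph j1 z = r}, F z ∂ν)
    rw [hh]
    exact this
  refine ⟨j1, hjs, j, hj1', M, hM, hMδ, hQn, y, by rw [← hh]; exact hy', ?_⟩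
  rw [← hh]
  obtain ⟨f, hf⟩ : ∃ f : Fin m → ZMod (L j) → ℂ, f = fun b => lf T h (y b) := ⟨_, rfl⟩
  have hf2 : ∀ b z, ‖f b z‖ ≤ 2 := fun b z => by
    rw [hf]
    exact hh2 _
  -- Fourier coefficients of the label autocorrelations
  have hfh : ∀ D : ℕ, 1 ≤ D → D < M → ∀ χ : AddChar (ZMod (L j)) ℂ,
      ‖fh (wd f D) χ‖ ≤ m * Real.sqrt (R D) + κ := by
    intro D _ hDM χ
    have h1 : ∀ (b : Fin m) (ζ : ℂ), ζ ^ L j = 1 → ‖(L j : ℂ)⁻¹ * ∑ i ∈ Finset.range (L j),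
        h (T^[i] (y b)) * conj (h (T^[i + D] (y b))) * ζ ^ i‖ ≤
        (Real.sqrt (R D) + 4 * γ) + τ := by
      intro b ζ hζ
      have h2 := hjW D (Finset.mem_range.2 hDM) (y b) ζ hζ
      simp only [hV] at h2
      simp only [add_comm _ D, Function.iterate_add_apply]
      exact h2
    have h3 := MW (T := T) (D := D) hh2 y h1 χ
    rw [← hf] at h3
    refine h3.trans ?_
    have h4 : 8 * (m : ℝ) * D / L j ≤ κ / 2 := by
      refine le_trans ?_ hMκ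
      have : (D : ℝ) ≤ M := by exact_mod_cast hDM.le
      gcongr
    have h5 : (m : ℝ) * (4 * γ + τ) ≤ κ / 2 := by
      have h6 : 4 * γ + τ ≤ κ / (2 * (m + 1)) := by
        have h7 : κ / (2 * ((m : ℝ) + 1)) = 4 * (κ / (16 * (m + 1))) + κ / (4 * (m + 1)) := by
          field_simp
          ring
        rw [h7, hτ]
        linarith
      have h8 : (m : ℝ) * (κ / (2 * (m + 1))) ≤ κ / 2 := by
        rw [← mul_div_assoc, div_le_div_iff₀ (by positivity) (by positivity)]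
        nlinarith
      exact (mul_le_mul_of_nonneg_left h6 (by positivity)).trans h8
    calc (m : ℝ) * (Real.sqrt (R D) + 4 * γ + τ) + 8 * m * D / L j
        = m * Real.sqrt (R D) + m * (4 * γ + τ) + 8 * m * D / L j := by ring
      _ ≤ m * Real.sqrt (R D) + κ := by linarith
  have hsum : ∑ D ∈ Finset.Ico 1 M, (m * Real.sqrt (R D) + κ) ^ 2 ≤
      2 * m ^ 2 * ∑ D ∈ Finset.range M, R D + 2 * κ ^ 2 * M := by
    calc ∑ D ∈ Finset.Ico 1 M, (m * Real.sqrt (R D) + κ) ^ 2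
        ≤ ∑ D ∈ Finset.range M, (m * Real.sqrt (R D) + κ) ^ 2 := by
          refine Finset.sum_le_sum_of_subset_of_nonneg ?_ fun _ _ _ => sq_nonneg _
          intro D hD
          rw [Finset.mem_Ico] at hD
          exact Finset.mem_range.2 hD.2
      _ ≤ ∑ D ∈ Finset.range M, (2 * m ^ 2 * R D + 2 * κ ^ 2) := by
          refine Finset.sum_le_sum fun D _ => ?_
          have h1 := Real.sq_sqrt (hR0 D)
          nlinarith [sq_nonneg (m * Real.sqrt (R D) - κ)]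
      _ = _ := by
          rw [Finset.sum_add_distrib, ← Finset.mul_sum, Finset.sum_const, Finset.card_range,
            nsmul_eq_mul]
          ring
  have hunits : ∀ d ∈ Finset.Ico 1 t, ∀ e ∈ Finset.Ico 1 J1,
      (((L j).totient : ℝ) ^ 2)⁻¹ * ∑ u : (ZMod (L j))ˣ, ∑ u' : (ZMod (L j))ˣ,
        Sq f M ((u' : ZMod (L j)) * ((q * e : ℕ) : ZMod (L j)))
          ((u' : ZMod (L j)) * (u : ZMod (L j))⁻¹ * (d : ZMod (L j))) ≤ δ / 2 := by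
    intro d hd e he
    have h1 := hCf d e (Finset.mem_Ico.1 hd).1 (Finset.mem_Ico.1 he).1 (L j) f hf2 M hM
      (fun D => m * Real.sqrt (R D) + κ) hfh
    have h2 : (2 * Cf d e / M) * ∑ D ∈ Finset.Ico 1 M, (m * Real.sqrt (R D) + κ) ^ 2 ≤
        δ / 8 + δ / 8 := by
      have h3 := hCle d hd e he
      calc (2 * Cf d e / M) * ∑ D ∈ Finset.Ico 1 M, (m * Real.sqrt (R D) + κ) ^ 2
          ≤ (2 * C / M) * ∑ D ∈ Finset.Ico 1 M, (m * Real.sqrt (R D) + κ) ^ 2 := by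
            refine mul_le_mul_of_nonneg_right ?_ (Finset.sum_nonneg fun _ _ => sq_nonneg _)
            gcongr
        _ ≤ (2 * C / M) * (2 * m ^ 2 * ∑ D ∈ Finset.range M, R D + 2 * κ ^ 2 * M) :=
            mul_le_mul_of_nonneg_left hsum (by positivity)
        _ = 4 * C * m ^ 2 * ((M : ℝ)⁻¹ * ∑ D ∈ Finset.range M, R D) + 4 * C * κ ^ 2 := by
            field_simp
            ring
        _ ≤ 4 * C * m ^ 2 * η + 4 * C * κ ^ 2 := by gcongr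
        _ ≤ δ / 8 + δ / 8 := add_le_add hη1 hκ2
    have h4 : ∀ u : (ZMod (L j))ˣ, ((u⁻¹ : (ZMod (L j))ˣ) : ZMod (L j)) = (u : ZMod (L j))⁻¹ :=
      fun u => (ZMod.inv_coe_unit u).symm
    simp only [h4] at h1
    linarith
  rw [Filter.eventually_all_finset]
  intro d hd
  rw [Filter.eventually_all_finset]
  intro e he
  have h5 := PE hLam (Q := L j) (fun a b => Sq f M (b * ((q * e : ℕ) : ZMod (L j)))
    (b * a⁻¹ * (d : ZMod (L j)))) (δ := δ / 8) (by positivity)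
  rw [hf] at h5
  refine h5.mono fun i hi => hi.trans ?_
  rw [← hf]
  have h6 := hunits d hd e he
  refine mul_le_mul_of_nonneg_right ?_ (sq_nonneg _)
  linarith

end Pool.Agent.Ef
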