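import Pool.Agent.Ef.Defs

/-! MP_13664e_an (ELFR), module PM: mass of the primes not dividing `L` in the blocks below
`log_2 L`. -/

set_option autoImplicit false

namespace Pool.Agent.Ef

open Filter Topology Pool.Agent.Sar
open scoped ComplexConjugate

private theorem log_le_sum {i0 I : ℕ} (h0 : 1 ≤ i0) (h : i0 ≤ I) :
    Real.log ((I : ℝ) / i0) ≤ ∑ i ∈ Finset.Ico i0 I, (1 : ℝ) / i := by
  have hi0 : (0 : ℝ) < i0 := by exact_mod_cast h0
  induction I, h using Nat.le_induction with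
  | base => simp [div_self hi0.ne']
  | succ n hn ih =>
    have hnr : (0 : ℝ) < n := by exact_mod_cast (by omega : 0 < n)
    rw [Finset.sum_Ico_succ_top hn]
    have h1 : ((n + 1 : ℕ) : ℝ) / i0 = ((n : ℝ) / i0) * (1 + 1 / n) := by
      push_cast
      field_simp
    rw [h1, Real.log_mul (by positivity) (by positivity)]
    have h2 := Real.log_le_sub_one_of_pos (x := 1 + 1 / (n : ℝ)) (by positivity)
    linarith

private theorem card_pf {L : ℕ} (hL : L ≠ 0) : L.primeFactors.card ≤ Nat.log 2 L := by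
  apply Nat.le_log_of_pow_le (by norm_num)
  calc 2 ^ L.primeFactors.card ≤ ∏ p ∈ L.primeFactors, p := by
        refine Finset.pow_card_le_prod _ _ _ fun p hp => ?_
        exact (Nat.prime_of_mem_primeFactors hp).two_le
    _ ≤ L := Nat.le_of_dvd (Nat.pos_of_ne_zero hL) (Nat.prod_primeFactors_dvd L)

private theorem blk_disj {i j : ℕ} (h : i ≠ j) : Disjoint (blk i) (blk j) := by
  rw [Finset.disjoint_left]
  intro p hp hq
  have h1 := Finset.mem_Ico.1 (Finset.mem_filter.1 hp).1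
  have h2 := Finset.mem_Ico.1 (Finset.mem_filter.1 hq).1
  rcases lt_or_gt_of_ne h with h3 | h3
  · have : 2 ^ (i + 1) ≤ 2 ^ j := Nat.pow_le_pow_right (by norm_num) h3
    omega
  · have : 2 ^ (j + 1) ≤ 2 ^ i := Nat.pow_le_pow_right (by norm_num) h3
    omega

private theorem bad_le {L i0 I : ℕ} (hL : L ≠ 0) (h : Nat.log 2 L ≤ 2 ^ i0) :
    ∑ i ∈ Finset.Ico i0 I, ∑ p ∈ (blk i).filter (fun p => p ∣ L), (1 : ℝ) / p ≤ 1 := by
  have h1 : ∑ i ∈ Finset.Ico i0 I, ∑ p ∈ (blk i).filter (fun p => p ∣ L), (1 : ℝ) / p =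
      ∑ p ∈ (Finset.Ico i0 I).biUnion (fun i => (blk i).filter (fun p => p ∣ L)), (1 : ℝ) / p := by
    rw [Finset.sum_biUnion]
    intro i _ j _ hij
    exact Finset.disjoint_of_subset_left (Finset.filter_subset _ _)
      (Finset.disjoint_of_subset_right (Finset.filter_subset _ _) (blk_disj hij))
  rw [h1]
  have hpos : (0 : ℝ) < 2 ^ i0 := by positivity
  calc _ ≤ ∑ _p ∈ (Finset.Ico i0 I).biUnion (fun i => (blk i).filter (fun p => p ∣ L)),
        (1 : ℝ) / 2 ^ i0 := by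
        refine Finset.sum_le_sum fun p hp => ?_
        obtain ⟨i, hi, hpi⟩ := Finset.mem_biUnion.1 hp
        have hi1 := (Finset.mem_Ico.1 hi).1
        have hp1 := Finset.mem_Ico.1 (Finset.mem_filter.1 (Finset.mem_filter.1 hpi).1).1
        have h2 : 2 ^ i0 ≤ p := le_trans (Nat.pow_le_pow_right (by norm_num) hi1) hp1.1
        have h3 : (2 : ℝ) ^ i0 ≤ p := by exact_mod_cast h2
        exact one_div_le_one_div_of_le hpos h3
    _ = (((Finset.Ico i0 I).biUnion (fun i => (blk i).filter (fun p => p ∣ L))).card : ℝ) *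
        (1 / 2 ^ i0) := by rw [Finset.sum_const, nsmul_eq_mul]
    _ ≤ (2 ^ i0 : ℝ) * (1 / 2 ^ i0) := by
        refine mul_le_mul_of_nonneg_right ?_ (by positivity)
        have h4 : ((Finset.Ico i0 I).biUnion (fun i => (blk i).filter (fun p => p ∣ L))).card ≤
            L.primeFactors.card := by
          refine Finset.card_le_card fun p hp => ?_
          obtain ⟨i, _, hpi⟩ := Finset.mem_biUnion.1 hp
          have hp2 := Finset.mem_filter.1 hpi
          exact Nat.mem_primeFactors.2 ⟨(Finset.mem_filter.1 hp2.1).2, hp2.2, hL⟩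
        have h5 := h4.trans ((card_pf hL).trans h)
        exact_mod_cast h5
    _ = 1 := by field_simp

private theorem sq_le (s : ℕ) : (s + 1) * (s + 1) ≤ 2 ^ (s + 2) := by
  induction s with
  | zero => norm_num
  | succ n ih =>
    rcases Nat.lt_or_ge n 2 with h | h
    · interval_cases n <;> norm_num
    · have : 2 ^ (n + 1 + 2) = 2 * 2 ^ (n + 2) := by ring
      rw [this]
      nlinarith

/-- `i0` = least with `2^i0 ≥ log_2 L` (and `≥ is`), `I = ⌊log_2 (L/R)⌋`. At most `log_2 L` primes divide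
`L`, those `≥ 2^i0` cost at most `1`; Sar.pib_lower gives `∑_{i0 ≤ i < I} pib i / 2^(i+1) ≥
(c/2) ∑ 1/i`. -/
theorem PM (hLam : Pool.Agent.BGG.SWLam) : ∃ c : ℝ, 0 < c ∧ ∀ R : ℝ, 0 < R → ∀ is : ℕ,
    ∀ᶠ L : ℕ in atTop, ∃ i0 I : ℕ, 1 ≤ i0 ∧ is ≤ i0 ∧ i0 < I ∧ R * 2 ^ I ≤ L ∧
      R ≤ ∑ i ∈ Finset.Ico i0 I, ∑ p ∈ (blk i).filter (fun p => ¬ p ∣ L), (1 : ℝ) / p ∧
      c * (Real.log ((I : ℝ) / i0) + 1) ≤
        ∑ i ∈ Finset.Ico i0 I, ∑ p ∈ (blk i).filter (fun p => ¬ p ∣ L), (1 : ℝ) / p := by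
  obtain ⟨c1, hc1, hlow⟩ := pib_lower hLam
  obtain ⟨i1, hi1⟩ := eventually_atTop.1 hlow
  refine ⟨c1 / 4, by positivity, fun R hR is => ?_⟩
  obtain ⟨k, hk⟩ := pow_unbounded_of_one_lt R (by norm_num : (1 : ℝ) < 2)
  -- the wanted size of the logarithm
  obtain ⟨Y, hY1, hY2⟩ : ∃ Y : ℝ, R ≤ c1 / 2 * Y - 1 ∧ c1 / 4 + 1 ≤ c1 / 4 * Y := by
    refine ⟨max (2 * (R + 1) / c1) ((c1 / 4 + 1) * 4 / c1), ?_, ?_⟩
    · have h : 2 * (R + 1) / c1 ≤ max (2 * (R + 1) / c1) ((c1 / 4 + 1) * 4 / c1) := le_max_left _ _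
      have h2 : c1 / 2 * (2 * (R + 1) / c1) ≤
          c1 / 2 * max (2 * (R + 1) / c1) ((c1 / 4 + 1) * 4 / c1) :=
        mul_le_mul_of_nonneg_left h (by positivity)
      have h3 : c1 / 2 * (2 * (R + 1) / c1) = R + 1 := by field_simp
      linarith
    · have h : (c1 / 4 + 1) * 4 / c1 ≤ max (2 * (R + 1) / c1) ((c1 / 4 + 1) * 4 / c1) :=
        le_max_right _ _
      have h2 : c1 / 4 * ((c1 / 4 + 1) * 4 / c1) ≤
          c1 / 4 * max (2 * (R + 1) / c1) ((c1 / 4 + 1) * 4 / c1) :=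
        mul_le_mul_of_nonneg_left h (by positivity)
      have h3 : c1 / 4 * ((c1 / 4 + 1) * 4 / c1) = c1 / 4 + 1 := by field_simp
      linarith
  obtain ⟨B, hB⟩ := exists_nat_gt (Real.exp Y)
  set K : ℕ := max is (max i1 2) with hK
  have hKis : is ≤ K := le_max_left _ _
  have hKi1 : i1 ≤ K := (le_max_left _ _).trans (le_max_right _ _)
  have hK2 : 2 ≤ K := (le_max_right _ _).trans (le_max_right _ _)
  set S0 : ℕ := B + k + B * K + K + 2 with hS0
  filter_upwards [eventually_ge_atTop (2 ^ (S0 * S0))] with L hL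
  have hL0 : L ≠ 0 := by
    have : 0 < 2 ^ (S0 * S0) := by positivity
    omega
  set l : ℕ := Nat.log 2 L with hl
  have hlS : S0 * S0 ≤ l := Nat.le_log_of_pow_le (by norm_num) hL
  set s : ℕ := Nat.sqrt l with hs
  have hsS : S0 ≤ s := Nat.le_sqrt.2 hlS
  have hsl : s * s ≤ l := Nat.sqrt_le l
  have hls : l < (s + 1) * (s + 1) := Nat.lt_succ_sqrt l
  have hbig : B * (s + K) + k + 1 ≤ s * s := by
    have h1 : s * S0 ≤ s * s := Nat.mul_le_mul_left s hsS
    have h2 : s * S0 = s * B + s * (k + B * K + K + 2) := by rw [hS0]; ring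
    have h3 : 1 * (k + B * K + K + 2) ≤ s * (k + B * K + K + 2) :=
      Nat.mul_le_mul_right _ (by omega)
    nlinarith
  have hB1 : 1 ≤ B := by
    have : (0 : ℝ) < B := lt_trans (Real.exp_pos Y) hB
    exact_mod_cast this
  have hkl : k ≤ l := by omega
  have hi0I : B * (s + K) + 1 ≤ l - k := by omega
  have hsK : s + K ≤ B * (s + K) := Nat.le_mul_of_pos_left _ hB1
  refine ⟨s + K, l - k, by omega, by omega, by omega, ?_, ?_⟩
  · have h1 : (2 : ℝ) ^ k * 2 ^ (l - k) = 2 ^ l := by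
      rw [← pow_add]
      congr 1
      omega
    have h2 : 2 ^ l ≤ L := Nat.pow_log_le_self 2 hL0
    have h3 : (2 : ℝ) ^ l ≤ L := by exact_mod_cast h2
    calc R * 2 ^ (l - k) ≤ 2 ^ k * 2 ^ (l - k) :=
          mul_le_mul_of_nonneg_right hk.le (by positivity)
      _ = 2 ^ l := h1
      _ ≤ L := h3
  · -- lower bound for the sum
    have hWlow : c1 / 2 * Real.log (((l - k : ℕ) : ℝ) / ((s + K : ℕ) : ℝ)) - 1 ≤
        ∑ i ∈ Finset.Ico (s + K) (l - k), ∑ p ∈ (blk i).filter (fun p => ¬ p ∣ L), (1 : ℝ) / p := by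
      have h1 := log_le_sum (i0 := s + K) (I := l - k) (by omega) (by omega)
      have h2 : ∑ i ∈ Finset.Ico (s + K) (l - k), ∑ p ∈ blk i, (1 : ℝ) / p ≥
          ∑ i ∈ Finset.Ico (s + K) (l - k), c1 / 2 * ((1 : ℝ) / i) := by
        refine Finset.sum_le_sum fun i hi => ?_
        have hi2 := Finset.mem_Ico.1 hi
        have hir : (0 : ℝ) < i := by exact_mod_cast (by omega : 0 < i)
        have h3 := hi1 i (by omega)
        calc c1 / 2 * ((1 : ℝ) / i) = (c1 * 2 ^ i / i) * (1 / 2 ^ (i + 1)) := by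
              rw [pow_succ]
              field_simp
          _ ≤ pib i * (1 / 2 ^ (i + 1)) := mul_le_mul_of_nonneg_right h3 (by positivity)
          _ = ∑ _p ∈ blk i, (1 : ℝ) / 2 ^ (i + 1) := by
              rw [Finset.sum_const, nsmul_eq_mul]
              rfl
          _ ≤ ∑ p ∈ blk i, (1 : ℝ) / p := by
              refine Finset.sum_le_sum fun p hp => ?_
              have hp1 := Finset.mem_Ico.1 (Finset.mem_filter.1 hp).1
              have hp2 := (Finset.mem_filter.1 hp).2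
              have hp3 : (0 : ℝ) < p := by exact_mod_cast hp2.pos
              have hp4 : (p : ℝ) ≤ 2 ^ (i + 1) := by exact_mod_cast hp1.2.le
              exact one_div_le_one_div_of_le hp3 hp4
      have h3 : ∑ i ∈ Finset.Ico (s + K) (l - k), ∑ p ∈ blk i, (1 : ℝ) / p =
          ∑ i ∈ Finset.Ico (s + K) (l - k), ∑ p ∈ (blk i).filter (fun p => p ∣ L), (1 : ℝ) / p +
          ∑ i ∈ Finset.Ico (s + K) (l - k),
            ∑ p ∈ (blk i).filter (fun p => ¬ p ∣ L), (1 : ℝ) / p := by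
        rw [← Finset.sum_add_distrib]
        refine Finset.sum_congr rfl fun i _ => ?_
        rw [Finset.sum_filter_add_sum_filter_not]
      have h4 : Nat.log 2 L ≤ 2 ^ (s + K) := by
        have h5 : 2 ^ (s + 2) ≤ 2 ^ (s + K) := Nat.pow_le_pow_right (by norm_num) (by omega)
        have h6 := sq_le s
        omega
      have h5 := bad_le (I := l - k) hL0 h4
      rw [← Finset.mul_sum] at h2
      have h6 : c1 / 2 * Real.log (((l - k : ℕ) : ℝ) / ((s + K : ℕ) : ℝ)) ≤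
          c1 / 2 * ∑ i ∈ Finset.Ico (s + K) (l - k), (1 : ℝ) / i :=
        mul_le_mul_of_nonneg_left h1 (by positivity)
      linarith
    have hYle : Y ≤ Real.log (((l - k : ℕ) : ℝ) / ((s + K : ℕ) : ℝ)) := by
      have hsKr : (0 : ℝ) < ((s + K : ℕ) : ℝ) := by exact_mod_cast (by omega : 0 < s + K)
      have h1 : Real.exp Y ≤ ((l - k : ℕ) : ℝ) / ((s + K : ℕ) : ℝ) := by
        rw [le_div_iff₀ hsKr]
        have h2 : (B : ℝ) * ((s + K : ℕ) : ℝ) ≤ ((l - k : ℕ) : ℝ) := by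
          exact_mod_cast (by omega : B * (s + K) ≤ l - k)
        exact (mul_le_mul_of_nonneg_right hB.le hsKr.le).trans h2
      calc Y = Real.log (Real.exp Y) := (Real.log_exp Y).symm
        _ ≤ _ := Real.log_le_log (Real.exp_pos Y) h1
    have h7 : c1 / 2 * Y ≤ c1 / 2 * Real.log (((l - k : ℕ) : ℝ) / ((s + K : ℕ) : ℝ)) :=
      mul_le_mul_of_nonneg_left hYle (by positivity)
    have h8 : c1 / 4 * Y ≤ c1 / 4 * Real.log (((l - k : ℕ) : ℝ) / ((s + K : ℕ) : ℝ)) :=
      mul_le_mul_of_nonneg_left hYle (by positivity)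
    constructor
    · linarith
    · have h9 : c1 / 2 * Real.log (((l - k : ℕ) : ℝ) / ((s + K : ℕ) : ℝ)) =
          c1 / 4 * Real.log (((l - k : ℕ) : ℝ) / ((s + K : ℕ) : ℝ)) +
          c1 / 4 * Real.log (((l - k : ℕ) : ℝ) / ((s + K : ℕ) : ℝ)) := by ring
      linarith

end Pool.Agent.Ef
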