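import Pool.Agent.Ef.Defs

/-! MP_13664e_an (ELFR), module WN: window functions, their names, density, counting. -/

set_option autoImplicit false

namespace Pool.Agent.Ef

open MeasureTheory Filter Topology Pool.Agent.Sar
open scoped ComplexConjugate

/-- at most `m` words occur over the base of level `k` -/
def Wds {X A : Type*} (T : X → X) (L : ℕ → ℕ) (ph : ℕ → X → ℕ) (s : X → A) (m : ℕ) : Prop :=
  ∀ k, ∃ W : Finset (Fin (L k) → A), W.card ≤ m ∧
    ∀ x, ph k x = 0 → (fun r : Fin (L k) => s (T^[r] x)) ∈ W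

/-- `F` depends on the phase at level `k` and on `s (T^i x)`, `i ≤ 2 w` -/
def Win {X A : Type*} (T : X → X) (ph : ℕ → X → ℕ) (s : X → A) (k w : ℕ) (F : X → ℂ) : Prop :=
  ∀ x x', ph k x = ph k x' → (∀ i ≤ 2 * w, s (T^[i] x) = s (T^[i] x')) → F x = F x'

/-- a window function has at most `m^2` names at every level `k` with `L k > 2 w`, `k ≥ k0`: `F(T^r x)`
for `ph k x = 0`, `r < L k`, depends on the words at `x` and at `T^(L k) x`. (A representative point for
each pair of words which occurs; fill up with repetitions: `Fin (m^2)` names, `X` nonempty; the base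
`{ph k = 0}` is nonempty since the phase runs through all values.) -/
theorem WN_names {X A : Type*} [Nonempty X] {T : X → X} {L : ℕ → ℕ} {ph : ℕ → X → ℕ}
    (hP : Ph T L ph) {s : X → A} {m : ℕ} (hW : Wds T L ph s m) {k0 w : ℕ} {F : X → ℂ}
    (hF : Win T ph s k0 w F) : ∃ k1, ∀ k ≥ k1, ∃ y : Fin (m ^ 2) → X, Nm T L ph y F k := by
  classical
  obtain ⟨k1, hk1⟩ := eventually_atTop.mp (hP.lim.eventually_gt_atTop (2 * w))
  refine ⟨max k0 k1, fun k hk => ?_⟩
  have hkk0 : k0 ≤ k := (le_max_left _ _).trans hk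
  have hLk : 2 * w < L k := hk1 k ((le_max_right _ _).trans hk)
  obtain ⟨W, hWc, hWx⟩ := hW k
  -- the base
  let B := {x : X // ph k x = 0}
  have hTB : ∀ x, ph k x = 0 → ph k (T^[L k] x) = 0 := by
    intro x hx
    rw [hP.iter, hx, Nat.zero_add, Nat.mod_self]
  let c : B → W × W := fun x =>
    (⟨fun r => s (T^[r] x.1), hWx x.1 x.2⟩, ⟨fun r => s (T^[r] (T^[L k] x.1)), hWx _ (hTB x.1 x.2)⟩)
  obtain ⟨x0⟩ := (inferInstance : Nonempty X)
  have hB : Nonempty B := by
    refine ⟨⟨T^[L k - ph k x0] x0, ?_⟩⟩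
    have := hP.lt k x0
    rw [hP.iter, show ph k x0 + (L k - ph k x0) = L k by omega, Nat.mod_self]
  have hR : Nonempty (Set.range c) := by
    obtain ⟨b⟩ := hB
    exact ⟨⟨c b, b, rfl⟩⟩
  have hcard : Fintype.card (Set.range c) ≤ Fintype.card (Fin (m ^ 2)) := by
    rw [Fintype.card_fin]
    calc Fintype.card (Set.range c) ≤ Fintype.card (W × W) :=
          Fintype.card_le_of_injective _ Subtype.val_injective
      _ = W.card * W.card := by rw [Fintype.card_prod, Fintype.card_coe]
      _ ≤ m * m := Nat.mul_le_mul hWc hWc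
      _ = m ^ 2 := (sq m).symm
  obtain ⟨e⟩ := Function.Embedding.nonempty_of_card_le hcard
  have hsur : Function.Surjective (Function.invFun e) := Function.invFun_surjective e.injective
  have hrep : ∀ t : Set.range c, ∃ b : B, c b = t.1 := fun t => t.2
  choose rep hrep using hrep
  refine ⟨fun b => (rep (Function.invFun e b)).1, ⟨fun b => (rep (Function.invFun e b)).2, ?_⟩⟩
  intro x hx
  obtain ⟨b, hb⟩ := hsur ⟨c ⟨x, hx⟩, ⟨x, hx⟩, rfl⟩
  refine ⟨b, fun r hr => ?_⟩
  set y := rep (Function.invFun e b) with hy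
  have hcy : c y = c ⟨x, hx⟩ := by
    rw [hy, hrep, hb]
  have h1 : ∀ r < L k, s (T^[r] y.1) = s (T^[r] x) := by
    intro r hr
    have h := congrArg (fun p : W × W => p.1.1 ⟨r, hr⟩) hcy
    exact h
  have h2 : ∀ r < L k, s (T^[r] (T^[L k] y.1)) = s (T^[r] (T^[L k] x)) := by
    intro r hr
    have h := congrArg (fun p : W × W => p.2.1 ⟨r, hr⟩) hcy
    exact h
  refine hF _ _ ?_ ?_
  · rw [hP.comp_le hkk0, hP.comp_le hkk0 (T^[r] y.1), hP.iter, hP.iter, hx, y.2]
  · intro i hi
    rw [← Function.iterate_add_apply, ← Function.iterate_add_apply]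
    by_cases hir : i + r < L k
    · exact (h1 _ hir).symm
    · have h3 : i + r - L k < L k := by omega
      have h4 : i + r = (i + r - L k) + L k := by omega
      have h5 := h2 _ h3
      rw [← Function.iterate_add_apply, ← Function.iterate_add_apply, ← h4] at h5
      exact h5.symm

private theorem WN_mono {X A : Type*} {T : X → X} {L : ℕ → ℕ} {ph : ℕ → X → ℕ}
    (hP : Ph T L ph) {s : X → A} {k w k' w' : ℕ} (hk : k ≤ k') (hw : w ≤ w') {g : X → ℂ}
    (h : Win T ph s k w (fun x => g (T^[w] x))) : Win T ph s k' w' (fun x => g (T^[w'] x)) := by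
  intro x x' hx hi
  have e : ∀ z : X, g (T^[w'] z) = (fun x => g (T^[w] x)) (T^[w' - w] z) := by
    intro z
    simp only
    rw [← Function.iterate_add_apply, show w + (w' - w) = w' by omega]
  show g (T^[w'] x) = g (T^[w'] x')
  rw [e x, e x']
  refine h _ _ ?_ ?_
  · rw [hP.iter, hP.iter, hP.comp_le hk x, hP.comp_le hk x', hx]
  · intro i hi'
    rw [← Function.iterate_add_apply, ← Function.iterate_add_apply]
    exact hi _ (by omega)

/-- Stone-Weierstrass: the continuous `g` such that `g ∘ T^w` is a window function (for some `k`,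
`w`) form a star subalgebra which separates points. -/
theorem WN_dense {X A : Type*} [MetricSpace X] [CompactSpace X] (T : X ≃ₜ X) {L : ℕ → ℕ}
    {ph : ℕ → X → ℕ} (hP : Ph T L ph) (hc : ∀ k, Continuous (ph k)) [TopologicalSpace A]
    [DiscreteTopology A] {s : X → A} (hs : Continuous s)
    (hsep : ∀ x x' : X, (∀ k, ph k x = ph k x') → (∀ n : ℕ, s ((⇑T)^[n] x) = s ((⇑T)^[n] x')) →
      (∀ n : ℕ, s ((⇑T.symm)^[n] x) = s ((⇑T.symm)^[n] x')) → x = x') (g : C(X, ℂ)) {ε : ℝ}
    (hε : 0 < ε) : ∃ (k w : ℕ) (F : C(X, ℂ)), Win T ph s k w F ∧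
      ∀ x, ‖g ((⇑T)^[w] x) - F x‖ ≤ ε := by
  classical
  have hTn : ∀ n : ℕ, Continuous ((⇑T)^[n]) := fun n => T.continuous.iterate n
  have hTs : ∀ n : ℕ, Continuous ((⇑T.symm)^[n]) := fun n => T.symm.continuous.iterate n
  let S : StarSubalgebra ℂ C(X, ℂ) :=
    { carrier := {f | ∃ k w, Win T ph s k w (fun x => f ((⇑T)^[w] x))}
      mul_mem' := by
        rintro f f' ⟨k, w, h⟩ ⟨k', w', h'⟩
        refine ⟨max k k', max w w', fun x x' hx hi => ?_⟩
        have e1 := WN_mono hP (le_max_left k k') (le_max_left w w') h x x' hx hi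
        have e2 := WN_mono hP (le_max_right k k') (le_max_right w w') h' x x' hx hi
        simp only at e1 e2
        simp only [ContinuousMap.mul_apply, e1, e2]
      add_mem' := by
        rintro f f' ⟨k, w, h⟩ ⟨k', w', h'⟩
        refine ⟨max k k', max w w', fun x x' hx hi => ?_⟩
        have e1 := WN_mono hP (le_max_left k k') (le_max_left w w') h x x' hx hi
        have e2 := WN_mono hP (le_max_right k k') (le_max_right w w') h' x x' hx hi
        simp only at e1 e2
        simp only [ContinuousMap.add_apply, e1, e2]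
      algebraMap_mem' := fun r => ⟨0, 0, fun x x' _ _ => rfl⟩
      star_mem' := by
        rintro f ⟨k, w, h⟩
        refine ⟨k, w, fun x x' hx hi => ?_⟩
        have e1 := h x x' hx hi
        simp only at e1
        simp only [ContinuousMap.star_apply, e1] }
  have hS : S.SeparatesPoints := by
    intro x x' hne
    by_contra hcon
    have hall : ∀ f : C(X, ℂ), f ∈ S → f x = f x' := by
      intro f hf
      by_contra hfx
      exact hcon ⟨f, ⟨f, hf, rfl⟩, hfx⟩
    apply hne
    refine hsep x x' ?_ ?_ ?_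
    · intro k
      have hcf : Continuous (fun z : X => ((ph k z : ℕ) : ℂ)) :=
        (continuous_of_discreteTopology (f := fun n : ℕ => (n : ℂ))).comp (hc k)
      have h := hall ⟨fun z => ((ph k z : ℕ) : ℂ), hcf⟩ ⟨k, 0, fun z z' hz _ => by
        simp only [Function.iterate_zero, id_eq, ContinuousMap.coe_mk]
        rw [hz]⟩
      simp only [ContinuousMap.coe_mk] at h
      exact_mod_cast h
    · intro n
      let φ : A → ℂ := fun a => if a = s ((⇑T)^[n] x) then 1 else 0
      have hcf : Continuous (fun z : X => φ (s ((⇑T)^[n] z))) :=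
        (continuous_of_discreteTopology (f := φ)).comp (hs.comp (hTn n))
      have h := hall ⟨fun z => φ (s ((⇑T)^[n] z)), hcf⟩ ⟨0, n, fun z z' _ hi => by
        simp only [ContinuousMap.coe_mk]
        rw [← Function.iterate_add_apply, ← Function.iterate_add_apply, hi (n + n) (by omega)]⟩
      simp only [ContinuousMap.coe_mk, φ, if_true] at h
      by_contra hx
      rw [if_neg (fun h' => hx h'.symm)] at h
      exact one_ne_zero h
    · intro n
      let φ : A → ℂ := fun a => if a = s ((⇑T.symm)^[n] x) then 1 else 0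
      have hcf : Continuous (fun z : X => φ (s ((⇑T.symm)^[n] z))) :=
        (continuous_of_discreteTopology (f := φ)).comp (hs.comp (hTs n))
      have hinv : ∀ z : X, (⇑T.symm)^[n] ((⇑T)^[n] z) = z :=
        (Function.LeftInverse.iterate T.symm_apply_apply n)
      have h := hall ⟨fun z => φ (s ((⇑T.symm)^[n] z)), hcf⟩ ⟨0, n, fun z z' _ hi => by
        simp only [ContinuousMap.coe_mk]
        rw [hinv, hinv]
        have := hi 0 (by omega)
        simp only [Function.iterate_zero, id_eq] at this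
        rw [this]⟩
      simp only [ContinuousMap.coe_mk, φ, if_true] at h
      by_contra hx
      rw [if_neg (fun h' => hx h'.symm)] at h
      exact one_ne_zero h
  have htop := ContinuousMap.starSubalgebra_topologicalClosure_eq_top_of_separatesPoints S hS
  have hg : g ∈ S.topologicalClosure := by rw [htop]; trivial
  have hg' : g ∈ closure (S : Set C(X, ℂ)) := hg
  obtain ⟨f, hf, hgf⟩ := Metric.mem_closure_iff.mp hg' ε hε
  obtain ⟨k, w, hw⟩ := hf
  refine ⟨k, w, ⟨fun x => f ((⇑T)^[w] x), f.continuous.comp (hTn w)⟩, hw, fun x => ?_⟩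
  have h1 := ContinuousMap.dist_apply_le_dist (f := g) (g := f) ((⇑T)^[w] x)
  rw [dist_eq_norm] at h1
  exact h1.trans hgf.le

end Pool.Agent.Ef
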