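import Pool.Agent.Ef.PA
import Pool.Agent.Ef.PB
import Pool.Agent.Ef.CL
import Pool.Agent.Ef.KB
import Pool.Agent.Ef.PM
import Pool.Agent.Ef.MR
import Pool.Agent.Ef.WN
import Pool.Agent.Ef.BS

/-! MP_13664e_an (ELFR), module M1: assembly. -/

set_option autoImplicit false

namespace Pool.Agent.Ef

open MeasureTheory ProbabilityTheory Filter Topology Pool.Agent.Sar
open scoped ENNReal ComplexConjugate

variable {X : Type*} [MetricSpace X] [CompactSpace X] [mX : MeasurableSpace X] [BorelSpace X]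
  {ν : Measure X} [IsProbabilityMeasure ν] {T : X ≃ₜ X} {L : ℕ → ℕ} {ph : ℕ → X → ℕ}

/-- the component as a function of the phase -/
private noncomputable def pf (ν : Measure X) (L : ℕ → ℕ) (ph : ℕ → X → ℕ) (F : X → ℂ) (k : ℕ)
    (r : ℕ) : ℂ :=
  (L k : ℂ) * ∫ z in {z | ph k z = r}, F z ∂ν

omit [CompactSpace X] [BorelSpace X] [IsProbabilityMeasure ν] [MetricSpace X] in
private theorem pc_eq (F : X → ℂ) (k : ℕ) (x : X) : pc ν L ph F k x = pf ν L ph F k (ph k x) := rfl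

private theorem sum_val {M : Type*} [AddCommMonoid M] {n : ℕ} [hn : NeZero n] (f : ℕ → M) :
    ∑ z : ZMod n, f z.val = ∑ r ∈ Finset.range n, f r := by
  obtain ⟨k, rfl⟩ := Nat.exists_eq_succ_of_ne_zero hn.out
  exact Fin.sum_univ_eq_sum_range f (k + 1)

private theorem ph_meas (hS : Sys ν T L ph) (k r : ℕ) : MeasurableSet {x | ph k x = r} :=
  (isClosed_singleton (x := r)).preimage (hS.cont k) |>.measurableSet

/-- integrals of functions of the phase -/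
private theorem int_ph (hS : Sys ν T L ph) (k : ℕ) [NeZero (L k)] (ψ : ℕ → ℝ) :
    ∫ x, ψ (ph k x) ∂ν = avr (fun z : ZMod (L k) => ψ z.val) := by
  have h1 : ∀ x, ψ (ph k x) =
      ∑ r ∈ Finset.range (L k), ({x | ph k x = r}).indicator (fun _ => ψ r) x := by
    intro x
    rw [Finset.sum_eq_single (ph k x)]
    · rw [Set.indicator_of_mem]
      rfl
    · intro r _ hr
      rw [Set.indicator_of_notMem]
      intro h
      exact hr h.symm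
    · intro h
      exact absurd (Finset.mem_range.2 (hS.phs.lt k x)) h
  simp_rw [h1]
  rw [integral_finsetSum]
  · unfold avr
    rw [sum_val (fun r => ψ r), Finset.mul_sum]
    refine Finset.sum_congr rfl fun r hr => ?_
    rw [integral_indicator_const _ (ph_meas hS k r), smul_eq_mul, measureReal_def,
      FK_mass hS k (Finset.mem_range.1 hr)]
  · intro r _
    exact (integrable_const _).indicator (ph_meas hS k r)

private theorem l1_l2 {f : X → ℂ} (hf : Measurable f) {B : ℝ} (hB : ∀ x, ‖f x‖ ≤ B) :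
    ∫ x, ‖f x‖ ∂ν ≤ Real.sqrt (∫ x, ‖f x‖ ^ 2 ∂ν) := by
  refine Real.le_sqrt_of_sq_le ?_
  have h1 : Integrable (fun x => ‖f x‖) ν :=
    Integrable.of_bound hf.norm.aestronglyMeasurable B (ae_of_all _ fun x => by
      rw [norm_norm]; exact hB x)
  have h2 : Integrable (fun x => ‖f x‖ ^ 2) ν :=
    Integrable.of_bound (hf.norm.pow_const 2).aestronglyMeasurable (B ^ 2) (ae_of_all _ fun x => by
      rw [norm_pow, norm_norm]
      exact pow_le_pow_left₀ (norm_nonneg _) (hB x) 2)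
  set c := ∫ x, ‖f x‖ ∂ν with hc
  have h3 : 0 ≤ ∫ x, (‖f x‖ - c) ^ 2 ∂ν := integral_nonneg fun x => sq_nonneg _
  have h4 : ∫ x, (‖f x‖ - c) ^ 2 ∂ν = ∫ x, ‖f x‖ ^ 2 ∂ν - c ^ 2 := by
    have h5 : ∀ x, (‖f x‖ - c) ^ 2 = ‖f x‖ ^ 2 - (2 * c * ‖f x‖ - c ^ 2) := fun x => by ring
    have hi : Integrable (fun x => 2 * c * ‖f x‖) ν := h1.const_mul (2 * c)
    have hi' : Integrable (fun x => 2 * c * ‖f x‖ - c ^ 2) ν := hi.sub (integrable_const _)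
    simp_rw [h5]
    rw [integral_sub h2 hi', integral_sub hi (integrable_const _), integral_const_mul, ← hc]
    simp
    ring
  linarith

private theorem Sq_nonneg {Q m : ℕ} [NeZero Q] (f : Fin m → ZMod Q → ℂ) (M : ℕ) (a t : ZMod Q) :
    0 ≤ Sq f M a t := by
  unfold Sq avr
  exact mul_nonneg (by positivity) (Finset.sum_nonneg fun z _ =>
    Finset.sum_nonneg fun b _ => by positivity)

/-- the difference of two phase components along an orbit -/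
private theorem pc_diff [Nonempty X] (hS : Sys ν T L ph) {F : X → ℂ} (hF : Continuous F)
    (hF1 : ∀ x, ‖F x‖ ≤ 1) {j0 j1 k : ℕ} (h01 : j0 ≤ j1) (h1k : j1 ≤ k) [NeZero (L k)] {η : ℝ}
    (hη : 0 < η) (h0 : ∫ x, ‖cex ν T F x - pc ν L ph F j0 x‖ ^ 2 ∂ν ≤ η ^ 2)
    (h1 : ∫ x, ‖cex ν T F x - pc ν L ph F j1 x‖ ^ 2 ∂ν ≤ η ^ 2) {y0 : X} (hy : ph k y0 = 0) :
    avr (fun z : ZMod (L k) => ‖(F ((⇑T)^[z.val] y0) - pc ν L ph F j0 ((⇑T)^[z.val] y0)) -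
      (F ((⇑T)^[z.val] y0) - pc ν L ph F j1 ((⇑T)^[z.val] y0))‖) ≤ 2 * η := by
  haveI := hS.phs.neZero j1
  have hFm : Measurable F := hF.measurable
  have hFB : BM F := ⟨hFm, 1, hF1⟩
  set ψ : ℕ → ℝ := fun r => ‖pf ν L ph F j1 r - pf ν L ph F j0 (r % L j0)‖ with hψ
  have e1 : ∀ x, ‖(F x - pc ν L ph F j0 x) - (F x - pc ν L ph F j1 x)‖ = ψ (ph j1 x) := by
    intro x
    rw [hψ]
    simp only
    rw [← hS.phs.comp_le h01 x, ← pc_eq, ← pc_eq]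
    congr 1
    ring
  simp_rw [e1]
  rw [NB_av hS.phs h1k hy ψ, ← int_ph hS j1 ψ]
  have hc0 : Measurable (pc ν L ph F j0) := (FK_cont hS F j0).measurable
  have hc1 : Measurable (pc ν L ph F j1) := (FK_cont hS F j1).measurable
  have hce : BM (cex ν T F) := cex_BM hFB
  obtain ⟨C, hC⟩ := hce.bdd
  have hb0 : ∀ x, ‖cex ν T F x - pc ν L ph F j0 x‖ ≤ C + 1 := fun x =>
    (norm_sub_le _ _).trans (add_le_add (hC x) (FK_bd hS hFm hF1 j0 x))
  have hb1 : ∀ x, ‖cex ν T F x - pc ν L ph F j1 x‖ ≤ C + 1 := fun x =>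
    (norm_sub_le _ _).trans (add_le_add (hC x) (FK_bd hS hFm hF1 j1 x))
  have i0 : Integrable (fun x => ‖cex ν T F x - pc ν L ph F j0 x‖) ν :=
    Integrable.of_bound (hce.meas.sub hc0).norm.aestronglyMeasurable (C + 1)
      (ae_of_all _ fun x => by rw [norm_norm]; exact hb0 x)
  have i1 : Integrable (fun x => ‖cex ν T F x - pc ν L ph F j1 x‖) ν :=
    Integrable.of_bound (hce.meas.sub hc1).norm.aestronglyMeasurable (C + 1)
      (ae_of_all _ fun x => by rw [norm_norm]; exact hb1 x)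
  have s0 := l1_l2 (ν := ν) (hce.meas.sub hc0) hb0
  have s1 := l1_l2 (ν := ν) (hce.meas.sub hc1) hb1
  have t0 : Real.sqrt (∫ x, ‖cex ν T F x - pc ν L ph F j0 x‖ ^ 2 ∂ν) ≤ η := by
    rw [show η = Real.sqrt (η ^ 2) from (Real.sqrt_sq hη.le).symm]
    exact Real.sqrt_le_sqrt h0
  have t1 : Real.sqrt (∫ x, ‖cex ν T F x - pc ν L ph F j1 x‖ ^ 2 ∂ν) ≤ η := by
    rw [show η = Real.sqrt (η ^ 2) from (Real.sqrt_sq hη.le).symm]
    exact Real.sqrt_le_sqrt h1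
  have h2 : ∫ x, ψ (ph j1 x) ∂ν ≤ ∫ x, (‖cex ν T F x - pc ν L ph F j0 x‖ +
      ‖cex ν T F x - pc ν L ph F j1 x‖) ∂ν := by
    refine integral_mono_of_nonneg (ae_of_all _ fun x => norm_nonneg _) (i0.add i1)
      (ae_of_all _ fun x => ?_)
    show ψ (ph j1 x) ≤ _
    rw [← e1 x]
    have e2 : (F x - pc ν L ph F j0 x) - (F x - pc ν L ph F j1 x) =
        (cex ν T F x - pc ν L ph F j0 x) - (cex ν T F x - pc ν L ph F j1 x) := by ring
    rw [e2]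
    exact norm_sub_le _ _
  rw [integral_add i0 i1] at h2
  have s0' : ∫ x, ‖cex ν T F x - pc ν L ph F j0 x‖ ∂ν ≤ η := s0.trans t0
  have s1' : ∫ x, ‖cex ν T F x - pc ν L ph F j1 x‖ ∂ν ≤ η := s1.trans t1
  linarith

private theorem cast_inv {n Q : ℕ} [NeZero n] [NeZero Q] (hQ : Q ∣ n) {p : ℕ}
    (hp : Nat.Coprime p n) :
    ZMod.castHom hQ (ZMod Q) ((p : ZMod n)⁻¹) = (p : ZMod Q)⁻¹ := by
  have h1 : (p : ZMod n) * (p : ZMod n)⁻¹ = 1 := ZMod.coe_mul_inv_eq_one p hp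
  have hpQ : Nat.Coprime p Q := Nat.Coprime.coprime_dvd_right hQ hp
  have h2 : (p : ZMod Q) * (p : ZMod Q)⁻¹ = 1 := ZMod.coe_mul_inv_eq_one p hpQ
  have h3 : (p : ZMod Q) * ZMod.castHom hQ (ZMod Q) ((p : ZMod n)⁻¹) = 1 := by
    have := congrArg (ZMod.castHom hQ (ZMod Q)) h1
    rwa [map_mul, map_one, map_natCast] at this
  calc ZMod.castHom hQ (ZMod Q) ((p : ZMod n)⁻¹)
      = ((p : ZMod Q) * (p : ZMod Q)⁻¹) * ZMod.castHom hQ (ZMod Q) ((p : ZMod n)⁻¹) := by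
        rw [h2, one_mul]
    _ = (p : ZMod Q)⁻¹ * ((p : ZMod Q) * ZMod.castHom hQ (ZMod Q) ((p : ZMod n)⁻¹)) := by ring
    _ = (p : ZMod Q)⁻¹ := by rw [h3, mul_one]

private theorem blk_lt {i p : ℕ} (h : p ∈ blk i) : p < 2 ^ (i + 1) := by
  rw [blk, Finset.mem_filter, Finset.mem_Ico] at h
  exact h.1.2

private theorem blk_prime {i p : ℕ} (h : p ∈ blk i) : p.Prime := by
  rw [blk, Finset.mem_filter] at h
  exact h.2

/-- the bound for one pair -/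
private theorem pair_bd [Nonempty X] (hS : Sys ν T L ph) {F : X → ℂ} (hF : Continuous F)
    (hF1 : ∀ x, ‖F x‖ ≤ 1) {m : ℕ} {ε' ε0 C : ℝ} {t J1 J q : ℕ} (hJ : 1 ≤ J)
    (hε0 : 0 < ε0)
    (hPA : ∀ (n Q : ℕ) [NeZero n] [NeZero Q] [NeZero q] (hq : q ∣ n) (hQ : Q ∣ n)
          (f0 : Fin m → ZMod q → ℂ) (f : Fin m → ZMod Q → ℂ) (Hc Hc' H0 : ZMod n → ℂ),
          (∀ b z, ‖f0 b z‖ ≤ 2) → (∀ b z, ‖f b z‖ ≤ 2) → (∀ z, ‖Hc z‖ ≤ 2) →
          (∀ z, ‖Hc' z‖ ≤ 2) → (∀ z, ‖H0 z‖ ≤ 2) → BlkN hq f0 H0 → BlkN hQ f Hc' →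
          avr (fun z => ‖H0 z - Hc z‖) ≤ ε0 →
          ∀ (xi p pb p' pb' : ZMod n), p * pb = 1 → p' * pb' = 1 → ∀ M : ℕ, 1 ≤ M →
          avr (fun z => ‖(J : ℂ)⁻¹ * ∑ j ∈ Finset.range J,
            Hc (xi + p * (z + (j : ZMod n))) * conj (Hc' (xi + p' * (z + (j : ZMod n))))‖) ≤
          ε' + C * M / Q + C * ∑ d ∈ Finset.Ico 1 t, ∑ e ∈ Finset.Ico 1 J1,
            Sq f M (ZMod.castHom hQ (ZMod Q) (p' * ((q * e : ℕ) : ZMod n)))
              (ZMod.castHom hQ (ZMod Q) (p' * pb * (d : ZMod n))))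
    {j0 k' j1 j k : ℕ} (hjk' : j0 ≤ k') (hk'j1 : k' ≤ j1) (hj1j : j1 ≤ j) (hjk : j ≤ k)
    (hq : q = L k') [NeZero (L j)]
    (h0 : ∫ x, ‖cex ν T F x - pc ν L ph F j0 x‖ ^ 2 ∂ν ≤ (ε0 / 2) ^ 2)
    (h1 : ∫ x, ‖cex ν T F x - pc ν L ph F j1 x‖ ^ 2 ∂ν ≤ (ε0 / 2) ^ 2)
    {y' : Fin m → X} (hy' : Nm T L ph y' F k') {y : Fin m → X}
    (hy : Nm T L ph y (fun x => F x - pc ν L ph F j1 x) j) {yk : Fin m → X}
    (hyk : Nm T L ph yk F k) {M : ℕ} (hM : 1 ≤ M) (x : X) {p p' : ℕ} (hp : p.Prime)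
    (hp' : p'.Prime) (hpk : ¬ p ∣ L k) (hpk' : ¬ p' ∣ L k) {ε : ℝ} (hε : 0 < ε) :
    ∀ᶠ N : ℕ in atTop, ‖(N : ℂ)⁻¹ * ∑ i ∈ Finset.Icc 1 N,
        (F ((⇑T)^[p * i] x) - pc ν L ph F j1 ((⇑T)^[p * i] x)) *
          conj (F ((⇑T)^[p' * i] x) - pc ν L ph F j1 ((⇑T)^[p' * i] x))‖ ≤
      (m : ℝ) ^ 2 * (ε' + C * M / L j) + (m : ℝ) ^ 2 * C * ∑ d ∈ Finset.Ico 1 t,
        ∑ e ∈ Finset.Ico 1 J1,
          Sq (fun b => (lf T (fun x => F x - pc ν L ph F j1 x) (y b) : ZMod (L j) → ℂ)) M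
            ((p' : ZMod (L j)) * ((q * e : ℕ) : ZMod (L j)))
            ((p' : ZMod (L j)) * (p : ZMod (L j))⁻¹ * (d : ZMod (L j))) +
      4 * ((p : ℝ) + p') * J / L k + ε := by
  haveI := hS.phs.neZero k
  haveI := hS.phs.neZero k'
  subst hq
  have hFm : Measurable F := hF.measurable
  have hpc : Nat.Coprime p (L k) := (Nat.Prime.coprime_iff_not_dvd hp).2 hpk
  have hpc' : Nat.Coprime p' (L k) := (Nat.Prime.coprime_iff_not_dvd hp').2 hpk'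
  have hb : ∀ i x, ‖F x - pc ν L ph F i x‖ ≤ 2 := fun i x =>
    (norm_sub_le _ _).trans (by
      have := hF1 x
      have := FK_bd hS hFm hF1 i x
      linarith)
  have hykh : Nm T L ph yk (fun x => F x - pc ν L ph F j1 x) k :=
    Nm.sub hS.phs (hj1j.trans hjk) hyk (pf ν L ph F j1)
  have hy0 : Nm T L ph y' (fun x => F x - pc ν L ph F j0 x) k' :=
    Nm.sub hS.phs hjk' hy' (pf ν L ph F j0)
  have hCL := CL hS.phs (hb j1) hykh hpc hpc' hp.one_lt.le hp'.one_lt.le hJ x hε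
  filter_upwards [hCL] with N hN
  refine hN.trans ?_
  have hc : ∀ c c' : Fin m, avr (fun z : ZMod (L k) => ‖(J : ℂ)⁻¹ * ∑ j ∈ Finset.range J,
        lf T (fun x => F x - pc ν L ph F j1 x) (yk c)
          ((ph k x : ZMod (L k)) + (p : ZMod (L k)) * (z + (j : ZMod (L k)))) *
        conj (lf T (fun x => F x - pc ν L ph F j1 x) (yk c')
          ((ph k x : ZMod (L k)) + (p' : ZMod (L k)) * (z + (j : ZMod (L k)))))‖) ≤
      ε' + C * M / L j + C * ∑ d ∈ Finset.Ico 1 t,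
        ∑ e ∈ Finset.Ico 1 J1,
          Sq (fun b => (lf T (fun x => F x - pc ν L ph F j1 x) (y b) : ZMod (L j) → ℂ)) M
            ((p' : ZMod (L j)) * ((L k' * e : ℕ) : ZMod (L j)))
            ((p' : ZMod (L j)) * (p : ZMod (L j))⁻¹ * (d : ZMod (L j))) := by
    intro c c'
    have h2 := hPA (L k) (L j) (hS.phs.dvd_le ((hk'j1.trans hj1j).trans hjk))
      (hS.phs.dvd_le hjk)
      (fun b => (lf T (fun x => F x - pc ν L ph F j0 x) (y' b) : ZMod (L k') → ℂ))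
      (fun b => (lf T (fun x => F x - pc ν L ph F j1 x) (y b) : ZMod (L j) → ℂ))
      (lf T (fun x => F x - pc ν L ph F j1 x) (yk c) : ZMod (L k) → ℂ)
      (lf T (fun x => F x - pc ν L ph F j1 x) (yk c') : ZMod (L k) → ℂ)
      (lf T (fun x => F x - pc ν L ph F j0 x) (yk c) : ZMod (L k) → ℂ)
      (fun b z => hb _ _) (fun b z => hb _ _) (fun z => hb _ _) (fun z => hb _ _)
      (fun z => hb _ _)
      (NB hS.phs ((hk'j1.trans hj1j).trans hjk) hy0 (hyk.zero c))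
      (NB hS.phs hjk hy (hyk.zero c'))
      (by
        have := pc_diff hS hF hF1 (hjk'.trans hk'j1) (hj1j.trans hjk) (half_pos hε0) h0 h1
          (hyk.zero c)
        rwa [mul_div_cancel₀ _ (two_ne_zero' ℝ)] at this)
      (ph k x : ZMod (L k)) (p : ZMod (L k)) (p : ZMod (L k))⁻¹ (p' : ZMod (L k))
      (p' : ZMod (L k))⁻¹ (ZMod.coe_mul_inv_eq_one p hpc) (ZMod.coe_mul_inv_eq_one p' hpc')
      M hM
    simp only [map_mul, map_natCast, cast_inv (hS.phs.dvd_le hjk) hpc] at h2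
    exact h2
  have hsum : ∑ c : Fin m, ∑ c' : Fin m, avr (fun z : ZMod (L k) => ‖(J : ℂ)⁻¹ *
      ∑ j ∈ Finset.range J,
        lf T (fun x => F x - pc ν L ph F j1 x) (yk c)
          ((ph k x : ZMod (L k)) + (p : ZMod (L k)) * (z + (j : ZMod (L k)))) *
        conj (lf T (fun x => F x - pc ν L ph F j1 x) (yk c')
          ((ph k x : ZMod (L k)) + (p' : ZMod (L k)) * (z + (j : ZMod (L k)))))‖) ≤
      ∑ c : Fin m, ∑ c' : Fin m, (ε' + C * M / L j + C * ∑ d ∈ Finset.Ico 1 t,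
        ∑ e ∈ Finset.Ico 1 J1,
          Sq (fun b => (lf T (fun x => F x - pc ν L ph F j1 x) (y b) : ZMod (L j) → ℂ)) M
            ((p' : ZMod (L j)) * ((L k' * e : ℕ) : ZMod (L j)))
            ((p' : ZMod (L j)) * (p : ZMod (L j))⁻¹ * (d : ZMod (L j)))) :=
    Finset.sum_le_sum fun c _ => Finset.sum_le_sum fun c' _ => hc c c'
  rw [Finset.sum_const, Finset.sum_const, Finset.card_univ, Fintype.card_fin, nsmul_eq_mul,
    nsmul_eq_mul] at hsum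
  have e3 : ∀ s : ℝ, (m : ℝ) * ((m : ℝ) * (ε' + C * M / L j + C * s)) =
      (m : ℝ) ^ 2 * (ε' + C * M / L j) + (m : ℝ) ^ 2 * C * s := fun s => by ring
  rw [e3] at hsum
  linarith

/-- the sum over a block of the pair bounds -/
private theorem blk_sum {i I m t J1 J Lk : ℕ} {δ δ' C A1 : ℝ} (hC : 0 ≤ C) (hδ : 0 < δ)
    (hδ' : 0 ≤ δ') (S : ℕ → ℕ → ℕ → ℕ → ℝ) (hS0 : ∀ d e p p', 0 ≤ S d e p p')
    (hS : ∀ d ∈ Finset.Ico 1 t, ∀ e ∈ Finset.Ico 1 J1,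
      ∑ p ∈ blk i, ∑ p' ∈ blk i, S d e p p' ≤ δ' * pib i ^ 2)
    (hA0 : 0 ≤ A1) (hA1 : A1 ≤ δ / 4) (h2 : (m : ℝ) ^ 2 * C * (t * J1) * δ' ≤ δ / 8)
    (hL : 1 ≤ Lk) (hI : i < I) (h3 : 64 * J / δ * 2 ^ I ≤ Lk) (G : ℕ → Prop) [DecidablePred G] :
    ∑ p ∈ (blk i).filter G, ∑ p' ∈ ((blk i).filter G).erase p,
      (A1 + (m : ℝ) ^ 2 * C * ∑ d ∈ Finset.Ico 1 t, ∑ e ∈ Finset.Ico 1 J1, S d e p p' +
        4 * ((p : ℝ) + p') * J / Lk) ≤ δ * pib i ^ 2 := by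
  have hLk : (0 : ℝ) < Lk := by exact_mod_cast hL
  have hterm : ∀ p p', 0 ≤ A1 + (m : ℝ) ^ 2 * C * ∑ d ∈ Finset.Ico 1 t,
      ∑ e ∈ Finset.Ico 1 J1, S d e p p' + 4 * ((p : ℝ) + p') * J / Lk := by
    intro p p'
    have := Finset.sum_nonneg (fun d (_ : d ∈ Finset.Ico 1 t) =>
      Finset.sum_nonneg (fun e (_ : e ∈ Finset.Ico 1 J1) => hS0 d e p p'))
    positivity
  have h4 : ∑ p ∈ (blk i).filter G, ∑ p' ∈ ((blk i).filter G).erase p,
      (A1 + (m : ℝ) ^ 2 * C * ∑ d ∈ Finset.Ico 1 t, ∑ e ∈ Finset.Ico 1 J1, S d e p p' +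
        4 * ((p : ℝ) + p') * J / Lk) ≤ ∑ p ∈ blk i, ∑ p' ∈ blk i,
      (A1 + (m : ℝ) ^ 2 * C * ∑ d ∈ Finset.Ico 1 t, ∑ e ∈ Finset.Ico 1 J1, S d e p p' +
        4 * ((p : ℝ) + p') * J / Lk) := by
    refine (Finset.sum_le_sum fun p _ => Finset.sum_le_sum_of_subset_of_nonneg
      ((Finset.erase_subset _ _).trans (Finset.filter_subset _ _))
      (fun p' _ _ => hterm p p')).trans ?_
    exact Finset.sum_le_sum_of_subset_of_nonneg (Finset.filter_subset _ _)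
      (fun p _ _ => Finset.sum_nonneg fun p' _ => hterm p p')
  refine h4.trans ?_
  have h5 : ∑ p ∈ blk i, ∑ p' ∈ blk i,
      (A1 + (m : ℝ) ^ 2 * C * ∑ d ∈ Finset.Ico 1 t, ∑ e ∈ Finset.Ico 1 J1, S d e p p' +
        4 * ((p : ℝ) + p') * J / Lk) ≤ ∑ p ∈ blk i, ∑ p' ∈ blk i,
      ((δ / 4 + δ / 8) + (m : ℝ) ^ 2 * C * ∑ d ∈ Finset.Ico 1 t, ∑ e ∈ Finset.Ico 1 J1,
        S d e p p') := by
    refine Finset.sum_le_sum fun p hp => Finset.sum_le_sum fun p' hp' => ?_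
    have h6 : (p : ℝ) + p' ≤ 2 * 2 ^ I := by
      have a1 := blk_lt hp
      have a2 := blk_lt hp'
      have a3 : 2 ^ (i + 1) ≤ 2 ^ I := Nat.pow_le_pow_right (by norm_num) hI
      have a4 : p + p' ≤ 2 * 2 ^ I := by omega
      exact_mod_cast a4
    have h7 : 4 * ((p : ℝ) + p') * J / Lk ≤ δ / 8 := by
      rw [div_le_iff₀ hLk]
      have h8 : 64 * (J : ℝ) * 2 ^ I ≤ δ * Lk := by
        have := mul_le_mul_of_nonneg_left h3 hδ.le
        have e : δ * (64 * (J : ℝ) / δ * 2 ^ I) = 64 * J * 2 ^ I := by field_simp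
        linarith
      have h9 : 4 * ((p : ℝ) + p') * J ≤ 4 * (2 * 2 ^ I) * J := by gcongr
      linarith
    linarith
  refine h5.trans ?_
  have h10 : ∑ p ∈ blk i, ∑ p' ∈ blk i, ((δ / 4 + δ / 8) + (m : ℝ) ^ 2 * C *
      ∑ d ∈ Finset.Ico 1 t, ∑ e ∈ Finset.Ico 1 J1, S d e p p') =
      pib i ^ 2 * (δ / 4 + δ / 8) + (m : ℝ) ^ 2 * C *
        ∑ d ∈ Finset.Ico 1 t, ∑ e ∈ Finset.Ico 1 J1, ∑ p ∈ blk i, ∑ p' ∈ blk i, S d e p p' := by
    have e1 : ∑ d ∈ Finset.Ico 1 t, ∑ e ∈ Finset.Ico 1 J1, ∑ p ∈ blk i, ∑ p' ∈ blk i,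
        S d e p p' = ∑ p ∈ blk i, ∑ p' ∈ blk i, ∑ d ∈ Finset.Ico 1 t,
        ∑ e ∈ Finset.Ico 1 J1, S d e p p' := by
      calc _ = ∑ d ∈ Finset.Ico 1 t, ∑ p ∈ blk i, ∑ p' ∈ blk i,
            ∑ e ∈ Finset.Ico 1 J1, S d e p p' := by
            refine Finset.sum_congr rfl fun d _ => ?_
            rw [Finset.sum_comm]
            refine Finset.sum_congr rfl fun p _ => ?_
            rw [Finset.sum_comm]
        _ = _ := by
            rw [Finset.sum_comm]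
            refine Finset.sum_congr rfl fun p _ => ?_
            rw [Finset.sum_comm]
    rw [e1]
    simp only [Finset.sum_add_distrib, Finset.sum_const, nsmul_eq_mul, Finset.mul_sum]
    unfold pib
    ring
  rw [h10]
  have h11 : ∑ d ∈ Finset.Ico 1 t, ∑ e ∈ Finset.Ico 1 J1, ∑ p ∈ blk i, ∑ p' ∈ blk i,
      S d e p p' ≤ (t * J1 : ℝ) * (δ' * pib i ^ 2) := by
    calc _ ≤ ∑ d ∈ Finset.Ico 1 t, ∑ e ∈ Finset.Ico 1 J1, δ' * pib i ^ 2 :=
          Finset.sum_le_sum fun d hd => Finset.sum_le_sum fun e he => hS d hd e he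
      _ = ((t - 1 : ℕ) : ℝ) * (((J1 - 1 : ℕ) : ℝ) * (δ' * pib i ^ 2)) := by
          rw [Finset.sum_const, Finset.sum_const, Nat.card_Ico, Nat.card_Ico, nsmul_eq_mul,
            nsmul_eq_mul]
      _ ≤ (t : ℝ) * ((J1 : ℝ) * (δ' * pib i ^ 2)) := by
          have b1 : ((t - 1 : ℕ) : ℝ) ≤ t := by exact_mod_cast Nat.sub_le t 1
          have b2 : ((J1 - 1 : ℕ) : ℝ) ≤ J1 := by exact_mod_cast Nat.sub_le J1 1
          gcongr
      _ = _ := by ring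
  have h12 : (m : ℝ) ^ 2 * C * ∑ d ∈ Finset.Ico 1 t, ∑ e ∈ Finset.Ico 1 J1,
      ∑ p ∈ blk i, ∑ p' ∈ blk i, S d e p p' ≤ δ / 8 * pib i ^ 2 := by
    calc _ ≤ (m : ℝ) ^ 2 * C * ((t * J1 : ℝ) * (δ' * pib i ^ 2)) := by gcongr
      _ = ((m : ℝ) ^ 2 * C * (t * J1) * δ') * pib i ^ 2 := by ring
      _ ≤ _ := by gcongr
  have h13 : 0 ≤ pib i ^ 2 := sq_nonneg _
  nlinarith

/-- the statement for a function with finitely many names -/
theorem M1_names [Nonempty X] (hLam : Pool.Agent.BGG.SWLam) (hmu : Pool.Agent.BGG.SWmu)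
    (hS : Sys ν T L ph) (hB : BddSeqEnt T) {F : X → ℂ} (hF : Continuous F)
    (hF1 : ∀ x, ‖F x‖ ≤ 1) {m k0 : ℕ} (hN : ∀ k ≥ k0, ∃ y : Fin m → X, Nm T L ph y F k) (x : X) :
    Tendsto (fun N : ℕ => (N : ℂ)⁻¹ * ∑ n ∈ Finset.Icc 1 N,
      F ((⇑T)^[n] x) * ((ArithmeticFunction.moebius n : ℤ) : ℂ)) atTop (𝓝 0) := by
  classical
  rw [NormedAddGroup.tendsto_nhds_zero]
  intro ε hε
  obtain ⟨K, hK, hKB⟩ := KB hLam
  obtain ⟨c, hc, hPM⟩ := PM hLam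
  have hFm : Measurable F := hF.measurable
  have hFB : BM F := ⟨hFm, 1, hF1⟩
  obtain ⟨δ, hδ0, hsδ⟩ : ∃ δ : ℝ, 0 < δ ∧ Real.sqrt δ = ε * c / (8 * K) :=
    ⟨(ε * c / (8 * K)) ^ 2, by positivity, Real.sqrt_sq (by positivity)⟩
  obtain ⟨t, ht, ε0, hε0, q0, hPA⟩ := PA m (ε := δ / (8 * ((m : ℝ) ^ 2 + 1))) (by positivity)
  obtain ⟨j0, hj0⟩ := eventually_atTop.1 ((FK hS hFB).eventually_le_const
    (show (0 : ℝ) < (ε0 / 2) ^ 2 by positivity))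
  obtain ⟨kL, hkL⟩ := eventually_atTop.1 (tendsto_atTop.1 hS.phs.lim q0)
  set k' := max (max j0 k0) kL with hk'
  have hj0k' : j0 ≤ k' := (le_max_left _ _).trans (le_max_left _ _)
  have hk0k' : k0 ≤ k' := (le_max_right _ _).trans (le_max_left _ _)
  obtain ⟨J1, hJ1, J, hJ, C, hC, hPA'⟩ := hPA (L k') (hkL _ (le_max_right _ _)) (hS.phs.pos k')
  set δ' : ℝ := δ / (8 * ((m : ℝ) ^ 2 + 1) * (C + 1) * ((t : ℝ) * J1 + 1)) with hδ'
  have hδ'0 : 0 < δ' := by positivity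
  obtain ⟨j1, hj1, j, hj, M, hM, hML, hne, y, hy, hev⟩ :=
    PB hLam hS hB hF hF1 hN (hS.phs.pos k') t J1 hδ'0 k'
  obtain ⟨is, his⟩ := eventually_atTop.1 hev
  set R : ℝ := max (max 1 (64 * J / δ)) ((16 * K / ε) ^ 2) with hR
  have hR1 : 1 ≤ R := (le_max_left _ _).trans (le_max_left _ _)
  have hR2 : 64 * J / δ ≤ R := (le_max_right _ _).trans (le_max_left _ _)
  have hR3 : (16 * K / ε) ^ 2 ≤ R := le_max_right _ _
  obtain ⟨L0, hL0⟩ := eventually_atTop.1 (hPM R (by linarith) is)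
  obtain ⟨kM, hkM⟩ := eventually_atTop.1 (tendsto_atTop.1 hS.phs.lim L0)
  set k := max (max j k0) kM with hk
  have hjk : j ≤ k := (le_max_left _ _).trans (le_max_left _ _)
  have hk0k : k0 ≤ k := (le_max_right _ _).trans (le_max_left _ _)
  obtain ⟨i0, I, h1i0, hisi0, hi0I, hRI, hW1, hW2⟩ := hL0 (L k) (hkM _ (le_max_right _ _))
  obtain ⟨yk, hyk⟩ := hN k hk0k
  obtain ⟨y', hy'⟩ := hN k' hk0k'
  set h : X → ℂ := fun x => F x - pc ν L ph F j1 x with hh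
  set W : ℝ := ∑ i ∈ Finset.Ico i0 I, ∑ p ∈ (blk i).filter (fun p => ¬ p ∣ L k), (1 : ℝ) / p
    with hW
  have hW0 : 0 < W := by linarith
  set A1 : ℝ := (m : ℝ) ^ 2 * (δ / (8 * ((m : ℝ) ^ 2 + 1)) + C * M / L j) with hA1
  have hLj : (0 : ℝ) < L j := by exact_mod_cast hS.phs.pos j
  have hA10 : 0 ≤ A1 := by positivity
  have hm1 : (m : ℝ) ^ 2 / ((m : ℝ) ^ 2 + 1) ≤ 1 := by
    rw [div_le_one (by positivity)]
    linarith
  have hC1 : C / (C + 1) ≤ 1 := by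
    rw [div_le_one (by positivity)]
    linarith
  have hA1b : A1 ≤ δ / 4 := by
    have a1 : (m : ℝ) ^ 2 * (δ / (8 * ((m : ℝ) ^ 2 + 1))) ≤ δ / 8 := by
      have e : (m : ℝ) ^ 2 * (δ / (8 * ((m : ℝ) ^ 2 + 1))) =
        ((m : ℝ) ^ 2 / ((m : ℝ) ^ 2 + 1)) * (δ / 8) := by field_simp
      rw [e]
      exact mul_le_of_le_one_left (by positivity) hm1
    have a2 : (m : ℝ) ^ 2 * (C * M / L j) ≤ δ / 8 := by
      have b1 : C * M / L j ≤ C * δ' := by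
        rw [mul_div_assoc]
        exact mul_le_mul_of_nonneg_left hML hC
      have b2 : (m : ℝ) ^ 2 * (C * δ') = ((m : ℝ) ^ 2 / ((m : ℝ) ^ 2 + 1)) * (C / (C + 1)) *
          (1 / ((t : ℝ) * J1 + 1)) * (δ / 8) := by
        rw [hδ']
        field_simp
      have b3 : 1 / ((t : ℝ) * J1 + 1) ≤ 1 := by
        rw [div_le_one (by positivity)]
        have : (0 : ℝ) ≤ (t : ℝ) * J1 := by positivity
        linarith
      have b4 : ((m : ℝ) ^ 2 / ((m : ℝ) ^ 2 + 1)) * (C / (C + 1)) *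
          (1 / ((t : ℝ) * J1 + 1)) ≤ 1 := by
        refine mul_le_one₀ (mul_le_one₀ hm1 (by positivity) hC1) (by positivity) b3
      calc (m : ℝ) ^ 2 * (C * M / L j) ≤ (m : ℝ) ^ 2 * (C * δ') := by gcongr
        _ ≤ δ / 8 := by
          rw [b2]
          exact mul_le_of_le_one_left (by positivity) b4
    rw [hA1, mul_add]
    linarith
  have h2 : (m : ℝ) ^ 2 * C * (t * J1) * δ' ≤ δ / 8 := by
    have b2 : (m : ℝ) ^ 2 * C * (t * J1) * δ' = ((m : ℝ) ^ 2 / ((m : ℝ) ^ 2 + 1)) *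
        (C / (C + 1)) * (((t : ℝ) * J1) / ((t : ℝ) * J1 + 1)) * (δ / 8) := by
      rw [hδ']
      field_simp
    have b3 : ((t : ℝ) * J1) / ((t : ℝ) * J1 + 1) ≤ 1 := by
      rw [div_le_one (by positivity)]
      linarith
    rw [b2]
    exact mul_le_of_le_one_left (by positivity)
      (mul_le_one₀ (mul_le_one₀ hm1 (by positivity) hC1) (by positivity) b3)
  have h3 : 64 * (J : ℝ) / δ * 2 ^ I ≤ L k :=
    (mul_le_mul_of_nonneg_right hR2 (by positivity)).trans hRI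
  set S : ℕ → ℕ → ℕ → ℕ → ℝ := fun d e p p' =>
    Sq (fun b => (lf T (fun x => F x - pc ν L ph F j1 x) (y b) : ZMod (L j) → ℂ)) M
      ((p' : ZMod (L j)) * ((L k' * e : ℕ) : ZMod (L j)))
      ((p' : ZMod (L j)) * (p : ZMod (L j))⁻¹ * (d : ZMod (L j))) with hSdef
  have hS0 : ∀ d e p p', 0 ≤ S d e p p' := fun d e p p' => Sq_nonneg _ _ _ _
  have hb : ∀ n, ‖h ((⇑T)^[n] x)‖ ≤ 2 := fun n =>
    (norm_sub_le _ _).trans (by
      have := hF1 ((⇑T)^[n] x)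
      have := FK_bd hS hFm hF1 j1 ((⇑T)^[n] x)
      linarith)
  obtain ⟨G, hG⟩ : ∃ G : ℕ → Prop, ∀ p, G p ↔ ¬ p ∣ L k := ⟨_, fun _ => Iff.rfl⟩
  have key := hKB 2 (fun n => h ((⇑T)^[n] x)) (by norm_num) hb i0 I h1i0 hi0I G
    (fun p p' => A1 + (m : ℝ) ^ 2 * C * ∑ d ∈ Finset.Ico 1 t, ∑ e ∈ Finset.Ico 1 J1,
      S d e p p' + 4 * ((p : ℝ) + p') * J / L k)
    (fun p p' => by
      have := Finset.sum_nonneg (fun d (_ : d ∈ Finset.Ico 1 t) =>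
        Finset.sum_nonneg (fun e (_ : e ∈ Finset.Ico 1 J1) => hS0 d e p p'))
      positivity)
    (fun i _ p hp p' hp' _ ε1 hε1 => by
      rw [Finset.mem_filter] at hp hp'
      exact pair_bd hS hF hF1 hJ hε0 hPA' hj0k' hj1 hj hjk rfl (hj0 j0 le_rfl)
        (hj0 j1 (hj0k'.trans hj1)) hy' hy hyk hM x (blk_prime hp.1) (blk_prime hp'.1)
        ((hG _).1 hp.2) ((hG _).1 hp'.2) hε1)
    δ hδ0
    (fun i hi => by
      rw [Finset.mem_Ico] at hi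
      exact blk_sum hC hδ0 hδ'0.le S hS0 (fun d hd e he => his i (hisi0.trans hi.1) d hd e he)
        hA10 hA1b h2 (hS.phs.pos k) hi.2 h3 _)
    W (by linarith) (by
      rw [hW]
      refine le_of_eq (Finset.sum_congr rfl fun i _ => Finset.sum_congr ?_ fun _ _ => rfl)
      ext p
      simp only [Finset.mem_filter, hG]) (ε / 4) (by linarith)
  have hmr := (NormedAddGroup.tendsto_nhds_zero.1 (MR hmu hS.phs j1 (pf ν L ph F j1) x))
    (ε / 4) (by linarith)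
  filter_upwards [key, hmr] with N hN1 hN2
  have e1 : K * Real.sqrt δ * (Real.log ((I : ℝ) / i0) + 1) / W ≤ ε / 8 := by
    rw [div_le_iff₀ hW0, hsδ]
    have a1 : K * (ε * c / (8 * K)) * (Real.log ((I : ℝ) / i0) + 1) =
        ε / 8 * (c * (Real.log ((I : ℝ) / i0) + 1)) := by field_simp
    rw [a1]
    gcongr
  have e2 : K * 2 / Real.sqrt W ≤ ε / 8 := by
    have a1 : 16 * K / ε ≤ Real.sqrt W :=
      Real.le_sqrt_of_sq_le (hR3.trans hW1)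
    rw [div_le_iff₀ (Real.sqrt_pos.2 hW0)]
    rw [div_le_iff₀ hε] at a1
    linarith
  have e3 : (N : ℂ)⁻¹ * ∑ n ∈ Finset.Icc 1 N,
      F ((⇑T)^[n] x) * ((ArithmeticFunction.moebius n : ℤ) : ℂ) =
      (N : ℂ)⁻¹ * ∑ n ∈ Finset.Icc 1 N,
        h ((⇑T)^[n] x) * ((ArithmeticFunction.moebius n : ℤ) : ℂ) +
      (N : ℂ)⁻¹ * ∑ n ∈ Finset.Icc 1 N,
        pf ν L ph F j1 (ph j1 ((⇑T)^[n] x)) * ((ArithmeticFunction.moebius n : ℤ) : ℂ) := by
    rw [← mul_add, ← Finset.sum_add_distrib]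
    congr 1
    refine Finset.sum_congr rfl fun n _ => ?_
    rw [hh, ← pc_eq]
    ring
  rw [e3]
  refine (norm_add_le _ _).trans_lt ?_
  have := hN1
  linarith

theorem M1 {A : Type*} [TopologicalSpace A] [DiscreteTopology A]
    (hLam : Pool.Agent.BGG.SWLam) (hmu : Pool.Agent.BGG.SWmu)
    (hS : Sys ν T L ph) {s : X → A} (hs : Continuous s)
    (hsep : ∀ x x' : X, (∀ k, ph k x = ph k x') → (∀ n : ℕ, s ((⇑T)^[n] x) = s ((⇑T)^[n] x')) →
      (∀ n : ℕ, s ((⇑T.symm)^[n] x) = s ((⇑T.symm)^[n] x')) → x = x') {m : ℕ}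
    (hW : Wds T L ph s m) (g : C(X, ℂ)) (x : X) :
    Tendsto (fun N : ℕ => (N : ℂ)⁻¹ * ∑ n ∈ Finset.Icc 1 N,
      g ((⇑T)^[n] x) * ((ArithmeticFunction.moebius n : ℤ) : ℂ)) atTop (𝓝 0) := by
  haveI : Nonempty X := ⟨x⟩
  have hB : BddSeqEnt T := BS T hS.phs hS.cont hs hsep hW
  rw [NormedAddGroup.tendsto_nhds_zero]
  intro ε hε
  obtain ⟨k, w, F, hF, hgF⟩ := WN_dense T hS.phs hS.cont hs hsep g (half_pos hε)
  obtain ⟨k1, hN⟩ := WN_names hS.phs hW hF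
  -- normalize `F`
  obtain ⟨B, hB1, hFB⟩ : ∃ B : ℝ, 1 ≤ B ∧ ∀ x, ‖F x‖ ≤ B :=
    ⟨max 1 ‖F‖, le_max_left _ _, fun x => (F.norm_coe_le_norm x).trans (le_max_right _ _)⟩
  have hB0 : 0 < B := by linarith
  set F' : X → ℂ := fun x => (B : ℂ)⁻¹ * F x with hF'
  have hF'c : Continuous F' := continuous_const.mul F.continuous
  have hF'1 : ∀ x, ‖F' x‖ ≤ 1 := by
    intro x
    rw [hF']
    simp only [norm_mul, norm_inv, Complex.norm_real, Real.norm_eq_abs, abs_of_pos hB0]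
    rw [inv_mul_le_iff₀ hB0, mul_one]
    exact hFB x
  have hN' : ∀ k ≥ k1, ∃ y : Fin (m ^ 2) → X, Nm T L ph y F' k := by
    intro k hk
    obtain ⟨y, hy⟩ := hN k hk
    refine ⟨y, hy.zero, fun x hx => ?_⟩
    obtain ⟨b, hb⟩ := hy.ex x hx
    exact ⟨b, fun r hr => by rw [hF']; simp only; rw [hb r hr]⟩
  set z : X := (⇑T.symm)^[w] x with hz
  have hzx : (⇑T)^[w] z = x := by
    have : Function.LeftInverse (⇑T)^[w] (⇑T.symm)^[w] :=
      Function.LeftInverse.iterate (fun x => T.apply_symm_apply x) w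
    exact this x
  have hlim := M1_names hLam hmu hS hB hF'c hF'1 hN' z
  have hlim2 := (NormedAddGroup.tendsto_nhds_zero.1 hlim) (ε / (2 * B)) (by positivity)
  filter_upwards [hlim2, eventually_ge_atTop 1] with N hN2 hN1
  have hgn : ∀ n, ‖g ((⇑T)^[n] x) - B * F' ((⇑T)^[n] z)‖ ≤ ε / 2 := by
    intro n
    have h1 := hgF ((⇑T)^[n] z)
    have h2 : (⇑T)^[w] ((⇑T)^[n] z) = (⇑T)^[n] x := by
      rw [← Function.iterate_add_apply, add_comm, Function.iterate_add_apply, hzx]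
    rw [h2] at h1
    have h3 : (B : ℂ) * F' ((⇑T)^[n] z) = F ((⇑T)^[n] z) := by
      rw [hF']
      simp only
      rw [← mul_assoc, mul_inv_cancel₀ (by exact_mod_cast hB0.ne'), one_mul]
    rw [h3]
    exact h1
  have e1 : (N : ℂ)⁻¹ * ∑ n ∈ Finset.Icc 1 N,
      g ((⇑T)^[n] x) * ((ArithmeticFunction.moebius n : ℤ) : ℂ) =
      (N : ℂ)⁻¹ * ∑ n ∈ Finset.Icc 1 N, (g ((⇑T)^[n] x) - B * F' ((⇑T)^[n] z)) *
        ((ArithmeticFunction.moebius n : ℤ) : ℂ) +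
      B * ((N : ℂ)⁻¹ * ∑ n ∈ Finset.Icc 1 N,
        F' ((⇑T)^[n] z) * ((ArithmeticFunction.moebius n : ℤ) : ℂ)) := by
    rw [mul_left_comm (B : ℂ), ← mul_add]
    congr 1
    rw [Finset.mul_sum, ← Finset.sum_add_distrib]
    refine Finset.sum_congr rfl fun n _ => ?_
    ring
  have hN0 : (0 : ℝ) < N := by exact_mod_cast hN1
  have e2 : ‖(N : ℂ)⁻¹ * ∑ n ∈ Finset.Icc 1 N, (g ((⇑T)^[n] x) - B * F' ((⇑T)^[n] z)) *
        ((ArithmeticFunction.moebius n : ℤ) : ℂ)‖ ≤ ε / 2 := by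
    rw [norm_mul, norm_inv, Complex.norm_natCast, inv_mul_le_iff₀ hN0]
    calc _ ≤ ∑ n ∈ Finset.Icc 1 N, ε / 2 := by
          refine norm_sum_le_of_le _ fun n _ => ?_
          rw [norm_mul]
          have h1 : ‖((ArithmeticFunction.moebius n : ℤ) : ℂ)‖ ≤ 1 := by
            rw [Complex.norm_intCast]
            exact_mod_cast ArithmeticFunction.abs_moebius_le_one
          calc _ ≤ ε / 2 * 1 := mul_le_mul (hgn n) h1 (norm_nonneg _) (by positivity)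
            _ = ε / 2 := mul_one _
      _ = N * (ε / 2) := by rw [Finset.sum_const, Nat.card_Icc, nsmul_eq_mul]; simp
  rw [e1]
  refine (norm_add_le _ _).trans_lt ?_
  have e3 : ‖(B : ℂ) * ((N : ℂ)⁻¹ * ∑ n ∈ Finset.Icc 1 N,
        F' ((⇑T)^[n] z) * ((ArithmeticFunction.moebius n : ℤ) : ℂ))‖ < ε / 2 := by
    rw [norm_mul, Complex.norm_real, Real.norm_eq_abs, abs_of_pos hB0]
    calc _ < B * (ε / (2 * B)) := by gcongr
      _ = ε / 2 := by field_simp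
  linarith

end Pool.Agent.Ef
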