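import Pool.Agent.Ef.Defs

/-! MP_13664e_an (ELFR), module V2: averaging over the shifts by multiples of `q`. -/

set_option autoImplicit false

namespace Pool.Agent.Ef

open Filter Topology
open scoped ComplexConjugate

/-! ### averages over `ZMod n` -/

private theorem av_shift {n : ℕ} [NeZero n] (F : ZMod n → ℂ) (a : ZMod n) :
    av (fun z => F (z + a)) = av F := by
  unfold av
  congr 1
  exact Equiv.sum_comp (Equiv.addRight a) F

private theorem avr_shift {n : ℕ} [NeZero n] (F : ZMod n → ℝ) (a : ZMod n) :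
    avr (fun z => F (z + a)) = avr F := by
  unfold avr
  congr 1
  exact Equiv.sum_comp (Equiv.addRight a) F

private theorem n_pos {n : ℕ} [NeZero n] : (0 : ℝ) < n := by
  have := Nat.pos_of_ne_zero (NeZero.ne n)
  exact_mod_cast this

private theorem norm_av_le {n : ℕ} [NeZero n] (F : ZMod n → ℂ) :
    ‖av F‖ ≤ avr (fun z => ‖F z‖) := by
  unfold av avr
  rw [norm_mul, norm_inv, Complex.norm_natCast]
  exact mul_le_mul_of_nonneg_left (norm_sum_le _ _) (inv_nonneg.mpr (n_pos (n := n)).le)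

private theorem avr_mono {n : ℕ} [NeZero n] {F G : ZMod n → ℝ} (h : ∀ z, F z ≤ G z) :
    avr F ≤ avr G := by
  unfold avr
  exact mul_le_mul_of_nonneg_left (Finset.sum_le_sum fun z _ => h z)
    (inv_nonneg.mpr (n_pos (n := n)).le)

private theorem avr_nonneg {n : ℕ} [NeZero n] {F : ZMod n → ℝ} (h : ∀ z, 0 ≤ F z) : 0 ≤ avr F := by
  unfold avr
  exact mul_nonneg (inv_nonneg.mpr (n_pos (n := n)).le) (Finset.sum_nonneg fun z _ => h z)

private theorem avr_const {n : ℕ} [NeZero n] (c : ℝ) : avr (fun _ : ZMod n => c) = c := by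
  unfold avr
  rw [Finset.sum_const, Finset.card_univ, ZMod.card, nsmul_eq_mul, ← mul_assoc,
    inv_mul_cancel₀ (n_pos (n := n)).ne', one_mul]

private theorem avr_add {n : ℕ} [NeZero n] (F G : ZMod n → ℝ) :
    avr (fun z => F z + G z) = avr F + avr G := by
  unfold avr
  rw [Finset.sum_add_distrib, mul_add]

private theorem avr_mul_left {n : ℕ} [NeZero n] (c : ℝ) (F : ZMod n → ℝ) :
    avr (fun z => c * F z) = c * avr F := by
  unfold avr
  rw [← Finset.mul_sum]
  ring

private theorem avr_sum {n : ℕ} [NeZero n] {ι : Type*} (s : Finset ι) (F : ι → ZMod n → ℝ) :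
    avr (fun z => ∑ i ∈ s, F i z) = ∑ i ∈ s, avr (F i) := by
  unfold avr
  rw [Finset.sum_comm, Finset.mul_sum]

private theorem av_sum {n : ℕ} [NeZero n] {ι : Type*} (s : Finset ι) (F : ι → ZMod n → ℂ) :
    av (fun z => ∑ i ∈ s, F i z) = ∑ i ∈ s, av (F i) := by
  unfold av
  rw [Finset.sum_comm, Finset.mul_sum]

private theorem av_mul_left {n : ℕ} [NeZero n] (c : ℂ) (F : ZMod n → ℂ) :
    av (fun z => c * F z) = c * av F := by
  unfold av
  rw [← Finset.mul_sum]
  ring

/-- Jensen -/
private theorem avr_sqrt_le {n : ℕ} [NeZero n] {F : ZMod n → ℝ} (h : ∀ z, 0 ≤ F z) :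
    avr (fun z => Real.sqrt (F z)) ≤ Real.sqrt (avr F) := by
  have hn := n_pos (n := n)
  apply Real.le_sqrt_of_sq_le
  have h1 := sq_sum_le_card_mul_sum_sq (s := (Finset.univ : Finset (ZMod n)))
    (f := fun z => Real.sqrt (F z))
  rw [Finset.card_univ, ZMod.card] at h1
  have h2 : ∑ z, Real.sqrt (F z) ^ 2 = ∑ z, F z :=
    Finset.sum_congr rfl fun z _ => Real.sq_sqrt (h z)
  rw [h2] at h1
  unfold avr
  rw [mul_pow]
  calc ((n : ℝ)⁻¹) ^ 2 * (∑ z, Real.sqrt (F z)) ^ 2
      ≤ ((n : ℝ)⁻¹) ^ 2 * (n * ∑ z, F z) := mul_le_mul_of_nonneg_left h1 (by positivity)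
    _ = (n : ℝ)⁻¹ * ∑ z, F z := by
      field_simp

/-- the average over `ZMod n` of a function of the residue modulo `q` -/
private theorem avr_cast {n q : ℕ} [NeZero n] [NeZero q] (hq : q ∣ n) (φ : ZMod q → ℝ) :
    avr (fun z : ZMod n => φ (ZMod.castHom hq (ZMod q) z)) = avr φ := by
  classical
  have hn := n_pos (n := n)
  have hq0 := n_pos (n := q)
  have hfib : ∀ ζ : ZMod q, (Finset.univ.filter fun z : ZMod n =>
      ZMod.castHom hq (ZMod q) z = ζ).card =
      (Finset.univ.filter fun z : ZMod n => ZMod.castHom hq (ZMod q) z = 0).card := by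
    intro ζ
    obtain ⟨z0, hz0⟩ := ZMod.castHom_surjective hq ζ
    apply Finset.card_bij' (fun z _ => z - z0) (fun z _ => z + z0)
    · intro z hz
      rw [Finset.mem_filter] at hz ⊢
      refine ⟨Finset.mem_univ _, ?_⟩
      rw [map_sub, hz.2, hz0, sub_self]
    · intro z hz
      rw [Finset.mem_filter] at hz ⊢
      refine ⟨Finset.mem_univ _, ?_⟩
      rw [map_add, hz.2, hz0, zero_add]
    · intro z _
      exact sub_add_cancel z z0
    · intro z _
      exact add_sub_cancel_right z z0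
  set k := (Finset.univ.filter fun z : ZMod n => ZMod.castHom hq (ZMod q) z = 0).card with hk
  have hsum : ∀ ψ : ZMod q → ℝ, ∑ z : ZMod n, ψ (ZMod.castHom hq (ZMod q) z) =
      k * ∑ ζ, ψ ζ := by
    intro ψ
    rw [← Finset.sum_fiberwise (Finset.univ : Finset (ZMod n))
      (fun z => ZMod.castHom hq (ZMod q) z), Finset.mul_sum]
    apply Finset.sum_congr rfl
    intro ζ _
    rw [Finset.sum_congr rfl (g := fun _ => ψ ζ)
      (fun z hz => by rw [(Finset.mem_filter.mp hz).2]), Finset.sum_const, hfib, nsmul_eq_mul]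
  have hkn : (n : ℝ) = k * q := by
    have := hsum fun _ => 1
    simpa [ZMod.card] using this
  unfold avr
  rw [hsum, hkn]
  have hk0 : (k : ℝ) ≠ 0 := by
    intro h
    rw [h, zero_mul] at hkn
    exact hn.ne' hkn
  field_simp

private theorem av_conj {n : ℕ} [NeZero n] (F : ZMod n → ℂ) :
    av (fun z => conj (F z)) = conj (av F) := by
  unfold av
  rw [map_mul, map_sum, map_inv₀, Complex.conj_natCast]

private theorem sum_abs_diff_le (c : ℕ → ℝ) (hc : ∀ e, 0 ≤ c e) (K : ℕ) (ρ : ℕ → ℕ → ℝ)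
    (h1 : ∀ i j, j ≤ i → ρ i j ≤ c (i - j)) (h2 : ∀ i j, i ≤ j → ρ i j ≤ c (j - i)) :
    ∑ i ∈ Finset.range K, ∑ j ∈ Finset.range K, ρ i j ≤
      K * c 0 + 2 * K * ∑ e ∈ Finset.Ico 1 K, c e := by
  have hone : ∀ i ∈ Finset.range K, ∑ j ∈ Finset.range K, ρ i j ≤
      c 0 + 2 * ∑ e ∈ Finset.Ico 1 K, c e := by
    intro i hi
    rw [Finset.mem_range] at hi
    have hsplit : Finset.range K = Finset.range i ∪ ({i} ∪ Finset.Ico (i + 1) K) := by
      ext j
      simp only [Finset.mem_range, Finset.mem_union, Finset.mem_singleton, Finset.mem_Ico]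
      omega
    have hd1 : Disjoint (Finset.range i) ({i} ∪ Finset.Ico (i + 1) K) := by
      rw [Finset.disjoint_left]
      intro j hj
      simp only [Finset.mem_range, Finset.mem_union, Finset.mem_singleton, Finset.mem_Ico] at hj ⊢
      omega
    have hd2 : Disjoint ({i} : Finset ℕ) (Finset.Ico (i + 1) K) := by
      rw [Finset.disjoint_left]
      intro j hj
      simp only [Finset.mem_singleton, Finset.mem_Ico] at hj ⊢
      omega
    rw [hsplit, Finset.sum_union hd1, Finset.sum_union hd2, Finset.sum_singleton]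
    have e1 : ∑ j ∈ Finset.range i, ρ i j ≤ ∑ e ∈ Finset.Ico 1 K, c e := by
      calc ∑ j ∈ Finset.range i, ρ i j ≤ ∑ j ∈ Finset.range i, c (i - j) :=
            Finset.sum_le_sum fun j hj => h1 i j (Finset.mem_range.mp hj).le
        _ = ∑ e ∈ (Finset.range i).image fun j => i - j, c e := by
            rw [Finset.sum_image]
            intro a ha b hb hab
            simp only [Finset.coe_range, Set.mem_Iio] at ha hb
            simp only at hab
            omega
        _ ≤ _ := by
            apply Finset.sum_le_sum_of_subset_of_nonneg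
            · intro e he
              rw [Finset.mem_image] at he
              obtain ⟨j, hj, rfl⟩ := he
              rw [Finset.mem_range] at hj
              rw [Finset.mem_Ico]
              omega
            · intro e _ _
              exact hc e
    have e2 : ∑ j ∈ Finset.Ico (i + 1) K, ρ i j ≤ ∑ e ∈ Finset.Ico 1 K, c e := by
      calc ∑ j ∈ Finset.Ico (i + 1) K, ρ i j ≤ ∑ j ∈ Finset.Ico (i + 1) K, c (j - i) :=
            Finset.sum_le_sum fun j hj => h2 i j (by have := Finset.mem_Ico.mp hj; omega)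
        _ = ∑ e ∈ (Finset.Ico (i + 1) K).image fun j => j - i, c e := by
            rw [Finset.sum_image]
            intro a ha b hb hab
            simp only [Finset.coe_Ico, Set.mem_Ico] at ha hb
            simp only at hab
            omega
        _ ≤ _ := by
            apply Finset.sum_le_sum_of_subset_of_nonneg
            · intro e he
              rw [Finset.mem_image] at he
              obtain ⟨j, hj, rfl⟩ := he
              rw [Finset.mem_Ico] at hj ⊢
              omega
            · intro e _ _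
              exact hc e
    have e3 : ρ i i ≤ c 0 := by
      have := h1 i i le_rfl
      rwa [Nat.sub_self] at this
    linarith
  calc ∑ i ∈ Finset.range K, ∑ j ∈ Finset.range K, ρ i j
      ≤ ∑ _i ∈ Finset.range K, (c 0 + 2 * ∑ e ∈ Finset.Ico 1 K, c e) := Finset.sum_le_sum hone
    _ = _ := by
      rw [Finset.sum_const, Finset.card_range, nsmul_eq_mul]
      ring

/-- the mean square of a short average along an arithmetic progression -/
private theorem vdc {n : ℕ} [NeZero n] {U : ZMod n → ℂ} {B : ℝ} (hU : ∀ z, ‖U z‖ ≤ B)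
    (s : ZMod n) {K : ℕ} (hK : 1 ≤ K) :
    avr (fun z => ‖(K : ℂ)⁻¹ * ∑ i ∈ Finset.range K, U (z + (i : ZMod n) * s)‖ ^ 2) ≤
      B ^ 2 / K + (2 / K) * ∑ e ∈ Finset.Ico 1 K,
        ‖av (fun z => conj (U z) * U (z + (e : ZMod n) * s))‖ := by
  have hK0 : (0 : ℝ) < K := by exact_mod_cast hK
  have hB : 0 ≤ B := (norm_nonneg _).trans (hU 0)
  set c : ℕ → ℝ := fun e => ‖av (fun z => conj (U z) * U (z + (e : ZMod n) * s))‖ with hc
  set ρ : ℕ → ℕ → ℝ := fun i j =>
    ‖av (fun z => U (z + (i : ZMod n) * s) * conj (U (z + (j : ZMod n) * s)))‖ with hρ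
  have h1 : ∀ i j, j ≤ i → ρ i j ≤ c (i - j) := by
    intro i j hij
    apply le_of_eq
    simp only [hρ, hc]
    rw [← av_shift (fun z => conj (U z) * U (z + ((i - j : ℕ) : ZMod n) * s))
      ((j : ZMod n) * s)]
    congr 2
    funext z
    rw [mul_comm]
    have e : z + (j : ZMod n) * s + ((i - j : ℕ) : ZMod n) * s = z + (i : ZMod n) * s := by
      rw [Nat.cast_sub hij]
      ring
    rw [e]
  have h2 : ∀ i j, i ≤ j → ρ i j ≤ c (j - i) := by
    intro i j hij
    apply le_of_eq
    simp only [hρ, hc]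
    rw [← av_shift (fun z => conj (U z) * U (z + ((j - i : ℕ) : ZMod n) * s))
      ((i : ZMod n) * s)]
    rw [← Complex.norm_conj, ← av_conj]
    congr 2
    funext z
    have e : z + (i : ZMod n) * s + ((j - i : ℕ) : ZMod n) * s = z + (j : ZMod n) * s := by
      rw [Nat.cast_sub hij]
      ring
    rw [e, map_mul, Complex.conj_conj]
  have h3 := sum_abs_diff_le c (fun e => norm_nonneg _) K ρ h1 h2
  have h4 : c 0 ≤ B ^ 2 := by
    simp only [hc]
    refine (norm_av_le _).trans ?_
    rw [← avr_const (n := n) (B ^ 2)]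
    apply avr_mono
    intro z
    rw [norm_mul, Complex.norm_conj, pow_two]
    exact mul_le_mul (hU _) (hU _) (norm_nonneg _) hB
  -- expansion
  have h5 : avr (fun z => ‖∑ i ∈ Finset.range K, U (z + (i : ZMod n) * s)‖ ^ 2) ≤
      ∑ i ∈ Finset.range K, ∑ j ∈ Finset.range K, ρ i j := by
    have e1 : ((avr (fun z => ‖∑ i ∈ Finset.range K, U (z + (i : ZMod n) * s)‖ ^ 2) : ℝ) : ℂ) =
        ∑ i ∈ Finset.range K, ∑ j ∈ Finset.range K,
          av (fun z => U (z + (i : ZMod n) * s) * conj (U (z + (j : ZMod n) * s))) := by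
      have e2 : ∀ z : ZMod n, ((‖∑ i ∈ Finset.range K, U (z + (i : ZMod n) * s)‖ ^ 2 : ℝ) : ℂ) =
          ∑ i ∈ Finset.range K, ∑ j ∈ Finset.range K,
            U (z + (i : ZMod n) * s) * conj (U (z + (j : ZMod n) * s)) := by
        intro z
        rw [← Finset.sum_mul_sum, ← map_sum, Complex.mul_conj, Complex.normSq_eq_norm_sq]
      unfold avr
      rw [Complex.ofReal_mul, Complex.ofReal_sum, Complex.ofReal_inv, Complex.ofReal_natCast]
      rw [Finset.sum_congr rfl fun z _ => e2 z]
      have e3 : av (fun z : ZMod n => ∑ i ∈ Finset.range K, ∑ j ∈ Finset.range K,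
            U (z + (i : ZMod n) * s) * conj (U (z + (j : ZMod n) * s))) =
          ∑ i ∈ Finset.range K, ∑ j ∈ Finset.range K,
          av (fun z => U (z + (i : ZMod n) * s) * conj (U (z + (j : ZMod n) * s))) := by
        rw [av_sum]
        exact Finset.sum_congr rfl fun i _ => av_sum _ _
      rw [← e3]
      rfl
    have e4 : avr (fun z => ‖∑ i ∈ Finset.range K, U (z + (i : ZMod n) * s)‖ ^ 2) ≤
        ‖((avr (fun z => ‖∑ i ∈ Finset.range K, U (z + (i : ZMod n) * s)‖ ^ 2) : ℝ) : ℂ)‖ := by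
      rw [Complex.norm_real]
      exact le_abs_self _
    refine e4.trans ?_
    rw [e1]
    refine (norm_sum_le _ _).trans (Finset.sum_le_sum fun i _ => ?_)
    exact norm_sum_le _ _
  have h6 : avr (fun z => ‖(K : ℂ)⁻¹ * ∑ i ∈ Finset.range K, U (z + (i : ZMod n) * s)‖ ^ 2) =
      ((K : ℝ)⁻¹) ^ 2 * avr (fun z => ‖∑ i ∈ Finset.range K, U (z + (i : ZMod n) * s)‖ ^ 2) := by
    rw [← avr_mul_left]
    congr 1
    funext z
    rw [norm_mul, mul_pow, norm_inv, Complex.norm_natCast]
  rw [h6]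
  calc ((K : ℝ)⁻¹) ^ 2 * avr (fun z => ‖∑ i ∈ Finset.range K, U (z + (i : ZMod n) * s)‖ ^ 2)
      ≤ ((K : ℝ)⁻¹) ^ 2 * (K * B ^ 2 + 2 * K * ∑ e ∈ Finset.Ico 1 K, c e) := by
        apply mul_le_mul_of_nonneg_left _ (by positivity)
        refine h5.trans (h3.trans ?_)
        have := mul_le_mul_of_nonneg_left h4 hK0.le
        linarith
    _ = B ^ 2 / K + (2 / K) * ∑ e ∈ Finset.Ico 1 K, c e := by
        field_simp

/-- the function `v` of the proof in the variable `z = xi + p y` -/
noncomputable def vf {n : ℕ} (H g : ZMod n → ℂ) (xi pb p' z : ZMod n) : ℂ :=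
  conj (H (xi + p' * (pb * (z - xi)))) * g (pb * (z - xi))

/-- substitution by a unit and a translation -/
private theorem av_affine {n : ℕ} [NeZero n] (F : ZMod n → ℂ) (xi p pb : ZMod n)
    (hp : p * pb = 1) : av (fun y => F (xi + p * y)) = av F := by
  unfold av
  congr 1
  let e : ZMod n ≃ ZMod n :=
    { toFun := fun y => xi + p * y
      invFun := fun z => pb * (z - xi)
      left_inv := fun y => by
        change pb * (xi + p * y - xi) = y
        have : pb * (xi + p * y - xi) = (p * pb) * y := by ring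
        rw [this, hp, one_mul]
      right_inv := fun z => by
        change xi + p * (pb * (z - xi)) = z
        have : xi + p * (pb * (z - xi)) = xi + (p * pb) * (z - xi) := by ring
        rw [this, hp, one_mul]
        ring }
  exact Equiv.sum_comp e F

private theorem g_shift {n : ℕ} {g : ZMod n → ℂ} {δ : ℝ} (hg' : ∀ z, ‖g (z + 1) - g z‖ ≤ δ)
    (z : ZMod n) (m : ℕ) : ‖g (z + (m : ZMod n)) - g z‖ ≤ m * δ := by
  induction m with
  | zero => simp
  | succ m ih =>
    have e : z + ((m + 1 : ℕ) : ZMod n) = z + (m : ZMod n) + 1 := by push_cast; ring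
    rw [e]
    calc ‖g (z + (m : ZMod n) + 1) - g z‖
        = ‖(g (z + (m : ZMod n) + 1) - g (z + (m : ZMod n))) + (g (z + (m : ZMod n)) - g z)‖ := by
          congr 1; ring
      _ ≤ δ + m * δ := (norm_add_le _ _).trans (add_le_add (hg' _) ih)
      _ = ((m + 1 : ℕ) : ℝ) * δ := by push_cast; ring

/-- Substitute `z = xi + p y`; `v z * conj (v (z+d)) = u y * g y * conj (g (y + pb d))` with
`u y = conj (H (xi + p' y)) * H (xi + p' y + p' pb d)`. Replace `y` by `y + q i`, `i < J1`: the factor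
`w` (a function modulo `q`) does not change, each `g` changes by at most `2 q i / J`. Then
Cauchy-Schwarz in `y` and expand `|(1/J1) ∑_i u (y + q i)|^2`. -/
theorem V2 {n q : ℕ} [NeZero n] [NeZero q] (hq : q ∣ n) {w : ZMod q → ℂ} {W0 : ℝ}
    (hw : ∀ z, ‖w z‖ ≤ W0) {H : ZMod n → ℂ} (hH : ∀ z, ‖H z‖ ≤ 2) {g : ZMod n → ℂ}
    (hg : ∀ z, ‖g z‖ ≤ 1) {J : ℕ} (hJ : 1 ≤ J) (hg' : ∀ z, ‖g (z + 1) - g z‖ ≤ 2 / J)
    (xi p pb p' pb' : ZMod n) (hp : p * pb = 1) (hp' : p' * pb' = 1) {J1 : ℕ} (hJ1 : 1 ≤ J1)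
    (d : ZMod n) :
    ‖av (fun z => w (ZMod.castHom hq (ZMod q) z) * vf H g xi pb p' z *
        conj (vf H g xi pb p' (z + d)))‖ ≤
      W0 * Real.sqrt (16 / J1 + (2 / J1) * ∑ e ∈ Finset.Ico 1 J1,
        ‖Qd H (p' * ((q * e : ℕ) : ZMod n)) (p' * pb * d)‖) + 16 * W0 * q * J1 / J := by
  have hJ0 : (0 : ℝ) < J := by exact_mod_cast hJ
  have hJ10 : (0 : ℝ) < J1 := by exact_mod_cast hJ1
  have hW0 : 0 ≤ W0 := (norm_nonneg _).trans (hw 0)
  set c := ZMod.castHom hq (ZMod q) with hc
  set t : ZMod n := p' * pb * d with ht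
  set u : ZMod n → ℂ := fun y => conj (H (xi + p' * y)) * H (xi + p' * y + t) with hu
  set G : ZMod n → ℂ := fun y => g y * conj (g (y + pb * d)) with hG
  have hu4 : ∀ y, ‖u y‖ ≤ 4 := by
    intro y
    simp only [hu]
    rw [norm_mul, Complex.norm_conj]
    calc ‖H (xi + p' * y)‖ * ‖H (xi + p' * y + t)‖ ≤ 2 * 2 :=
          mul_le_mul (hH _) (hH _) (norm_nonneg _) (by norm_num)
      _ = 4 := by norm_num
  have hG1 : ∀ y, ‖G y‖ ≤ 1 := by
    intro y
    simp only [hG]
    rw [norm_mul, Complex.norm_conj]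
    calc ‖g y‖ * ‖g (y + pb * d)‖ ≤ 1 * 1 :=
          mul_le_mul (hg _) (hg _) (norm_nonneg _) (by norm_num)
      _ = 1 := by norm_num
  have hGs : ∀ y (m : ℕ), ‖G (y + (m : ZMod n)) - G y‖ ≤ 2 * (m * (2 / J)) := by
    intro y m
    have h1 := g_shift hg' y m
    have h2 := g_shift hg' (y + pb * d) m
    have e1 : G (y + (m : ZMod n)) - G y =
        (g (y + (m : ZMod n)) - g y) * conj (g (y + pb * d + (m : ZMod n))) +
        g y * conj (g (y + pb * d + (m : ZMod n)) - g (y + pb * d)) := by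
      simp only [hG]
      have e2 : y + (m : ZMod n) + pb * d = y + pb * d + (m : ZMod n) := by ring
      rw [e2, map_sub]
      ring
    rw [e1]
    refine (norm_add_le _ _).trans ?_
    rw [norm_mul, norm_mul, Complex.norm_conj, Complex.norm_conj]
    have h3 : ‖g (y + (m : ZMod n)) - g y‖ * ‖g (y + pb * d + (m : ZMod n))‖ ≤
        (m * (2 / J)) * 1 := mul_le_mul h1 (hg _) (norm_nonneg _) (by positivity)
    have h4 : ‖g y‖ * ‖g (y + pb * d + (m : ZMod n)) - g (y + pb * d)‖ ≤
        1 * (m * (2 / J)) := mul_le_mul (hg _) h2 (norm_nonneg _) (by norm_num)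
    linarith
  -- substitution
  have hsub : av (fun z => w (c z) * vf H g xi pb p' z * conj (vf H g xi pb p' (z + d))) =
      av (fun y => w (c (xi + p * y)) * G y * u y) := by
    rw [← av_affine (fun z => w (c z) * vf H g xi pb p' z * conj (vf H g xi pb p' (z + d)))
      xi p pb hp]
    congr 1
    funext y
    have e1 : pb * (xi + p * y - xi) = y := by
      have : pb * (xi + p * y - xi) = (p * pb) * y := by ring
      rw [this, hp, one_mul]
    have e2 : pb * (xi + p * y + d - xi) = y + pb * d := by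
      have : pb * (xi + p * y + d - xi) = (p * pb) * y + pb * d := by ring
      rw [this, hp, one_mul]
    have e3 : xi + p' * (y + pb * d) = xi + p' * y + t := by
      rw [ht]; ring
    simp only [vf, hu, hG]
    rw [e1, e2, e3, map_mul, Complex.conj_conj]
    ring
  -- shift by multiples of `q`
  have hcq : ∀ (y : ZMod n) (i : ℕ), c (xi + p * (y + (i : ZMod n) * (q : ZMod n))) =
      c (xi + p * y) := by
    intro y i
    have h0 : c (q : ZMod n) = 0 := by
      rw [map_natCast, ZMod.natCast_self]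
    rw [map_add, map_add, map_mul, map_mul, map_add, map_mul, h0, mul_zero, add_zero]
  set A := av (fun y => w (c (xi + p * y)) * G y * u y) with hA
  have hshift : ∀ i : ℕ, A = av (fun y => w (c (xi + p * y)) *
      G (y + (i : ZMod n) * (q : ZMod n)) * u (y + (i : ZMod n) * (q : ZMod n))) := by
    intro i
    rw [hA, ← av_shift (fun y => w (c (xi + p * y)) * G y * u y) ((i : ZMod n) * (q : ZMod n))]
    congr 1
    funext y
    rw [hcq]
  have hone : ∀ i ∈ Finset.range J1, ‖A - av (fun y => w (c (xi + p * y)) *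
      G y * u (y + (i : ZMod n) * (q : ZMod n)))‖ ≤ 16 * W0 * q * J1 / J := by
    intro i hi
    have hi' : (i : ℝ) ≤ J1 := by exact_mod_cast (Finset.mem_range.mp hi).le
    rw [hshift i]
    have e1 : av (fun y => w (c (xi + p * y)) *
        G (y + (i : ZMod n) * (q : ZMod n)) * u (y + (i : ZMod n) * (q : ZMod n))) -
        av (fun y => w (c (xi + p * y)) * G y * u (y + (i : ZMod n) * (q : ZMod n))) =
        av (fun y => w (c (xi + p * y)) * (G (y + (i : ZMod n) * (q : ZMod n)) - G y) *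
          u (y + (i : ZMod n) * (q : ZMod n))) := by
      unfold av
      rw [← mul_sub, ← Finset.sum_sub_distrib]
      congr 1
      apply Finset.sum_congr rfl
      intro y _
      ring
    rw [e1]
    refine (norm_av_le _).trans ?_
    rw [← avr_const (n := n) (16 * W0 * q * J1 / J)]
    apply avr_mono
    intro y
    rw [norm_mul, norm_mul]
    have h1 := hGs y (i * q)
    have e2 : y + ((i * q : ℕ) : ZMod n) = y + (i : ZMod n) * (q : ZMod n) := by push_cast; ring
    rw [e2] at h1
    have h2 : ‖w (c (xi + p * y))‖ * ‖G (y + (i : ZMod n) * (q : ZMod n)) - G y‖ ≤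
        W0 * (2 * (((i * q : ℕ) : ℝ) * (2 / J))) :=
      mul_le_mul (hw _) h1 (norm_nonneg _) hW0
    calc ‖w (c (xi + p * y))‖ * ‖G (y + (i : ZMod n) * (q : ZMod n)) - G y‖ *
          ‖u (y + (i : ZMod n) * (q : ZMod n))‖
        ≤ W0 * (2 * (((i * q : ℕ) : ℝ) * (2 / J))) * 4 :=
          mul_le_mul h2 (hu4 _) (norm_nonneg _) (by positivity)
      _ = 16 * W0 * q * i / J := by push_cast; ring
      _ ≤ 16 * W0 * q * J1 / J := by
          gcongr
  -- the average over `i`
  set B := av (fun y => w (c (xi + p * y)) * G y *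
    ((J1 : ℂ)⁻¹ * ∑ i ∈ Finset.range J1, u (y + (i : ZMod n) * (q : ZMod n)))) with hB
  have hAB : ‖A - B‖ ≤ 16 * W0 * q * J1 / J := by
    have hJ1c : (J1 : ℂ) ≠ 0 := by exact_mod_cast hJ10.ne'
    have e1 : B = (J1 : ℂ)⁻¹ * ∑ i ∈ Finset.range J1, av (fun y => w (c (xi + p * y)) *
        G y * u (y + (i : ZMod n) * (q : ZMod n))) := by
      rw [hB, ← av_sum, ← av_mul_left]
      congr 1
      funext y
      rw [Finset.mul_sum, Finset.mul_sum, Finset.mul_sum]
      apply Finset.sum_congr rfl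
      intro i _
      ring
    have e2 : A - B = (J1 : ℂ)⁻¹ * ∑ i ∈ Finset.range J1, (A - av (fun y => w (c (xi + p * y)) *
        G y * u (y + (i : ZMod n) * (q : ZMod n)))) := by
      rw [e1, Finset.sum_sub_distrib, Finset.sum_const, Finset.card_range, nsmul_eq_mul, mul_sub,
        ← mul_assoc, inv_mul_cancel₀ hJ1c, one_mul]
    rw [e2, norm_mul, norm_inv, Complex.norm_natCast, inv_mul_le_iff₀ hJ10]
    refine (norm_sum_le _ _).trans ?_
    refine (Finset.sum_le_sum hone).trans ?_
    rw [Finset.sum_const, Finset.card_range, nsmul_eq_mul]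
  have hBle : ‖B‖ ≤ W0 * Real.sqrt (16 / J1 + (2 / J1) * ∑ e ∈ Finset.Ico 1 J1,
      ‖Qd H (p' * ((q * e : ℕ) : ZMod n)) t‖) := by
    have h1 : ‖B‖ ≤ avr (fun y => W0 * Real.sqrt (‖(J1 : ℂ)⁻¹ *
        ∑ i ∈ Finset.range J1, u (y + (i : ZMod n) * (q : ZMod n))‖ ^ 2)) := by
      refine (norm_av_le _).trans (avr_mono fun y => ?_)
      rw [Real.sqrt_sq (norm_nonneg _), norm_mul, norm_mul]
      apply mul_le_mul_of_nonneg_right _ (norm_nonneg _)
      calc ‖w (c (xi + p * y))‖ * ‖G y‖ ≤ W0 * 1 :=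
            mul_le_mul (hw _) (hG1 _) (norm_nonneg _) hW0
        _ = W0 := mul_one _
    rw [avr_mul_left] at h1
    refine h1.trans (mul_le_mul_of_nonneg_left ?_ hW0)
    refine (avr_sqrt_le fun y => by positivity).trans (Real.sqrt_le_sqrt ?_)
    refine (vdc hu4 (q : ZMod n) hJ1).trans (le_of_eq ?_)
    have h2 : ∀ e : ℕ, ‖av (fun z => conj (u z) * u (z + (e : ZMod n) * (q : ZMod n)))‖ =
        ‖Qd H (p' * ((q * e : ℕ) : ZMod n)) t‖ := by
      intro e
      rw [← Complex.norm_conj, ← av_conj]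
      unfold Qd
      rw [← av_affine (fun z => conj (H z) * H (z + p' * ((q * e : ℕ) : ZMod n)) *
        H (z + t) * conj (H (z + p' * ((q * e : ℕ) : ZMod n) + t))) xi p' pb' hp']
      congr 2
      funext y
      simp only [hu]
      have e1 : xi + p' * (y + (e : ZMod n) * (q : ZMod n)) =
          xi + p' * y + p' * ((q * e : ℕ) : ZMod n) := by
        push_cast
        ring
      rw [e1]
      simp only [map_mul, Complex.conj_conj]
      ring
    have e16 : (4 : ℝ) ^ 2 = 16 := by norm_num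
    rw [e16, Finset.sum_congr rfl fun e _ => h2 e]
  rw [hsub]
  calc ‖A‖ = ‖B + (A - B)‖ := by congr 1; ring
    _ ≤ ‖B‖ + ‖A - B‖ := norm_add_le _ _
    _ ≤ _ := add_le_add hBle hAB


end Pool.Agent.Ef
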