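import Pool.Agent.Ef.Defs

/-! MP_13664e_an (ELFR), module V3: quadruple correlations at a lower level. -/

set_option autoImplicit false

namespace Pool.Agent.Ef

open Filter Topology
open scoped ComplexConjugate

/-! ### averages over `ZMod n` -/

private theorem av_shift {n : ℕ} [NeZero n] (F : ZMod n → ℂ) (a : ZMod n) :
    av (fun z => F (z + a)) = av F := by
  unfold av
  congr 1
  exact Equiv.sum_comp (Equiv.addRight a) F

private theorem avr_shift {n : ℕ} [NeZero n] (F : ZMod n → ℝ) (a : ZMod n) :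
    avr (fun z => F (z + a)) = avr F := by
  unfold avr
  congr 1
  exact Equiv.sum_comp (Equiv.addRight a) F

private theorem n_pos {n : ℕ} [NeZero n] : (0 : ℝ) < n := by
  have := Nat.pos_of_ne_zero (NeZero.ne n)
  exact_mod_cast this

private theorem norm_av_le {n : ℕ} [NeZero n] (F : ZMod n → ℂ) :
    ‖av F‖ ≤ avr (fun z => ‖F z‖) := by
  unfold av avr
  rw [norm_mul, norm_inv, Complex.norm_natCast]
  exact mul_le_mul_of_nonneg_left (norm_sum_le _ _) (inv_nonneg.mpr (n_pos (n := n)).le)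

private theorem avr_mono {n : ℕ} [NeZero n] {F G : ZMod n → ℝ} (h : ∀ z, F z ≤ G z) :
    avr F ≤ avr G := by
  unfold avr
  exact mul_le_mul_of_nonneg_left (Finset.sum_le_sum fun z _ => h z)
    (inv_nonneg.mpr (n_pos (n := n)).le)

private theorem avr_nonneg {n : ℕ} [NeZero n] {F : ZMod n → ℝ} (h : ∀ z, 0 ≤ F z) : 0 ≤ avr F := by
  unfold avr
  exact mul_nonneg (inv_nonneg.mpr (n_pos (n := n)).le) (Finset.sum_nonneg fun z _ => h z)

private theorem avr_const {n : ℕ} [NeZero n] (c : ℝ) : avr (fun _ : ZMod n => c) = c := by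
  unfold avr
  rw [Finset.sum_const, Finset.card_univ, ZMod.card, nsmul_eq_mul, ← mul_assoc,
    inv_mul_cancel₀ (n_pos (n := n)).ne', one_mul]

private theorem avr_add {n : ℕ} [NeZero n] (F G : ZMod n → ℝ) :
    avr (fun z => F z + G z) = avr F + avr G := by
  unfold avr
  rw [Finset.sum_add_distrib, mul_add]

private theorem avr_mul_left {n : ℕ} [NeZero n] (c : ℝ) (F : ZMod n → ℝ) :
    avr (fun z => c * F z) = c * avr F := by
  unfold avr
  rw [← Finset.mul_sum]
  ring

private theorem avr_sum {n : ℕ} [NeZero n] {ι : Type*} (s : Finset ι) (F : ι → ZMod n → ℝ) :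
    avr (fun z => ∑ i ∈ s, F i z) = ∑ i ∈ s, avr (F i) := by
  unfold avr
  rw [Finset.sum_comm, Finset.mul_sum]

private theorem av_sum {n : ℕ} [NeZero n] {ι : Type*} (s : Finset ι) (F : ι → ZMod n → ℂ) :
    av (fun z => ∑ i ∈ s, F i z) = ∑ i ∈ s, av (F i) := by
  unfold av
  rw [Finset.sum_comm, Finset.mul_sum]

private theorem av_mul_left {n : ℕ} [NeZero n] (c : ℂ) (F : ZMod n → ℂ) :
    av (fun z => c * F z) = c * av F := by
  unfold av
  rw [← Finset.mul_sum]
  ring

/-- Jensen -/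
private theorem avr_sqrt_le {n : ℕ} [NeZero n] {F : ZMod n → ℝ} (h : ∀ z, 0 ≤ F z) :
    avr (fun z => Real.sqrt (F z)) ≤ Real.sqrt (avr F) := by
  have hn := n_pos (n := n)
  apply Real.le_sqrt_of_sq_le
  have h1 := sq_sum_le_card_mul_sum_sq (s := (Finset.univ : Finset (ZMod n)))
    (f := fun z => Real.sqrt (F z))
  rw [Finset.card_univ, ZMod.card] at h1
  have h2 : ∑ z, Real.sqrt (F z) ^ 2 = ∑ z, F z :=
    Finset.sum_congr rfl fun z _ => Real.sq_sqrt (h z)
  rw [h2] at h1
  unfold avr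
  rw [mul_pow]
  calc ((n : ℝ)⁻¹) ^ 2 * (∑ z, Real.sqrt (F z)) ^ 2
      ≤ ((n : ℝ)⁻¹) ^ 2 * (n * ∑ z, F z) := mul_le_mul_of_nonneg_left h1 (by positivity)
    _ = (n : ℝ)⁻¹ * ∑ z, F z := by
      field_simp

/-- the average over `ZMod n` of a function of the residue modulo `q` -/
private theorem avr_cast {n q : ℕ} [NeZero n] [NeZero q] (hq : q ∣ n) (φ : ZMod q → ℝ) :
    avr (fun z : ZMod n => φ (ZMod.castHom hq (ZMod q) z)) = avr φ := by
  classical
  have hn := n_pos (n := n)
  have hq0 := n_pos (n := q)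
  have hfib : ∀ ζ : ZMod q, (Finset.univ.filter fun z : ZMod n =>
      ZMod.castHom hq (ZMod q) z = ζ).card =
      (Finset.univ.filter fun z : ZMod n => ZMod.castHom hq (ZMod q) z = 0).card := by
    intro ζ
    obtain ⟨z0, hz0⟩ := ZMod.castHom_surjective hq ζ
    apply Finset.card_bij' (fun z _ => z - z0) (fun z _ => z + z0)
    · intro z hz
      rw [Finset.mem_filter] at hz ⊢
      refine ⟨Finset.mem_univ _, ?_⟩
      rw [map_sub, hz.2, hz0, sub_self]
    · intro z hz
      rw [Finset.mem_filter] at hz ⊢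
      refine ⟨Finset.mem_univ _, ?_⟩
      rw [map_add, hz.2, hz0, zero_add]
    · intro z _
      exact sub_add_cancel z z0
    · intro z _
      exact add_sub_cancel_right z z0
  set k := (Finset.univ.filter fun z : ZMod n => ZMod.castHom hq (ZMod q) z = 0).card with hk
  have hsum : ∀ ψ : ZMod q → ℝ, ∑ z : ZMod n, ψ (ZMod.castHom hq (ZMod q) z) =
      k * ∑ ζ, ψ ζ := by
    intro ψ
    rw [← Finset.sum_fiberwise (Finset.univ : Finset (ZMod n))
      (fun z => ZMod.castHom hq (ZMod q) z), Finset.mul_sum]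
    apply Finset.sum_congr rfl
    intro ζ _
    rw [Finset.sum_congr rfl (g := fun _ => ψ ζ)
      (fun z hz => by rw [(Finset.mem_filter.mp hz).2]), Finset.sum_const, hfib, nsmul_eq_mul]
  have hkn : (n : ℝ) = k * q := by
    have := hsum fun _ => 1
    simpa [ZMod.card] using this
  unfold avr
  rw [hsum, hkn]
  have hk0 : (k : ℝ) ≠ 0 := by
    intro h
    rw [h, zero_mul] at hkn
    exact hn.ne' hkn
  field_simp

/-- the residues that are too near to the end of a block -/
private theorem bad_avr {Q : ℕ} [NeZero Q] (M : ℕ) :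
    avr (fun ζ : ZMod Q => if Q < ζ.val + M then (1 : ℝ) else 0) ≤ M / Q := by
  classical
  have hQ := n_pos (n := Q)
  unfold avr
  rw [← Finset.sum_filter, Finset.sum_const, nsmul_eq_mul, mul_one, div_eq_inv_mul]
  apply mul_le_mul_of_nonneg_left _ (by positivity)
  have h1 : (Finset.univ.filter fun ζ : ZMod Q => Q < ζ.val + M).card ≤ M := by
    calc (Finset.univ.filter fun ζ : ZMod Q => Q < ζ.val + M).card
        = ((Finset.univ.filter fun ζ : ZMod Q => Q < ζ.val + M).image ZMod.val).card := by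
          rw [Finset.card_image_of_injective _ (ZMod.val_injective Q)]
      _ ≤ (Finset.Ico (Q - M) Q).card := by
          apply Finset.card_le_card
          intro v hv
          rw [Finset.mem_image] at hv
          obtain ⟨ζ, hζ, rfl⟩ := hv
          rw [Finset.mem_filter] at hζ
          rw [Finset.mem_Ico]
          have := ZMod.val_lt ζ
          omega
      _ ≤ M := by
          rw [Nat.card_Ico]
          omega
  exact_mod_cast h1

private theorem val_cast {n Q : ℕ} [NeZero n] [NeZero Q] (hQ : Q ∣ n) (z : ZMod n) :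
    (ZMod.castHom hQ (ZMod Q) z).val = z.val % Q := by
  rw [ZMod.castHom_apply, ZMod.cast_eq_val, ZMod.val_natCast]

/-- a block begins at `z` -/
private theorem blk {n Q m : ℕ} [NeZero n] [NeZero Q] {hQ : Q ∣ n} {f : Fin m → ZMod Q → ℂ}
    {H : ZMod n → ℂ} (hb : BlkN hQ f H) {M : ℕ} (z : ZMod n)
    (hz : ¬ Q < (ZMod.castHom hQ (ZMod Q) z).val + M) :
    ∃ b : Fin m, ∀ r < M, H (z + (r : ZMod n)) =
      f b (ZMod.castHom hQ (ZMod Q) z + (r : ZMod Q)) := by
  obtain ⟨b, hb⟩ := hb z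
  rw [val_cast] at hz
  refine ⟨b, fun r hr => ?_⟩
  rw [hb r (by omega), map_add, map_natCast]

/-- Average over windows of length `M`; if `z, z+a, z+t, z+a+t` all have residue `+ M ≤ Q` the
window average is one of the label terms of `Sq` (bounded by the root of the sum of their squares),
the other `z` have density `≤ 4 M / Q` and cost `16`; Jensen for the square root. -/
theorem V3 {n Q m : ℕ} [NeZero n] [NeZero Q] (hQ : Q ∣ n) {f : Fin m → ZMod Q → ℂ}
    {H : ZMod n → ℂ} (hb : BlkN hQ f H) (hf : ∀ b z, ‖f b z‖ ≤ 2) (hH : ∀ z, ‖H z‖ ≤ 2)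
    {M : ℕ} (hM : 1 ≤ M) (a t : ZMod n) :
    ‖Qd H a t‖ ≤ Real.sqrt (Sq f M (ZMod.castHom hQ (ZMod Q) a) (ZMod.castHom hQ (ZMod Q) t)) +
      64 * M / Q := by
  have hM0 : (0 : ℝ) < M := by exact_mod_cast hM
  have hMc : (M : ℂ) ≠ 0 := by exact_mod_cast hM0.ne'
  set c := ZMod.castHom hQ (ZMod Q) with hc
  set F : ZMod n → ℂ := fun z => conj (H z) * H (z + a) * H (z + t) * conj (H (z + a + t)) with hF
  have hF16 : ∀ z, ‖F z‖ ≤ 16 := by
    intro z
    simp only [hF]
    rw [norm_mul, norm_mul, norm_mul, Complex.norm_conj, Complex.norm_conj]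
    have h1 : ‖H z‖ * ‖H (z + a)‖ ≤ 2 * 2 :=
      mul_le_mul (hH _) (hH _) (norm_nonneg _) (by norm_num)
    have h2 : ‖H z‖ * ‖H (z + a)‖ * ‖H (z + t)‖ ≤ 2 * 2 * 2 :=
      mul_le_mul h1 (hH _) (norm_nonneg _) (by norm_num)
    calc _ ≤ (2 * 2 * 2 : ℝ) * 2 := mul_le_mul h2 (hH _) (norm_nonneg _) (by norm_num)
      _ = 16 := by norm_num
  -- windows
  have hwin : av F = av (fun z => (M : ℂ)⁻¹ * ∑ i ∈ Finset.range M, F (z + (i : ZMod n))) := by
    have e0 : ∑ i ∈ Finset.range M, av (fun z => F (z + (i : ZMod n))) =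
        ∑ _i ∈ Finset.range M, av F := Finset.sum_congr rfl fun i _ => av_shift F (i : ZMod n)
    rw [av_mul_left, av_sum, e0, Finset.sum_const, Finset.card_range, nsmul_eq_mul, ← mul_assoc,
      inv_mul_cancel₀ hMc, one_mul]
  let Tm : (Fin 4 → Fin m) → ZMod Q → ℝ := fun b ζ => ‖(M : ℂ)⁻¹ * ∑ i ∈ Finset.range M,
    conj (f (b 0) (ζ + (i : ZMod Q))) * f (b 1) (ζ + c a + (i : ZMod Q)) *
      f (b 2) (ζ + c t + (i : ZMod Q)) * conj (f (b 3) (ζ + c a + c t + (i : ZMod Q)))‖ ^ 2
  have hTm : ∀ b ζ, Tm b ζ = ‖(M : ℂ)⁻¹ * ∑ i ∈ Finset.range M,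
    conj (f (b 0) (ζ + (i : ZMod Q))) * f (b 1) (ζ + c a + (i : ZMod Q)) *
      f (b 2) (ζ + c t + (i : ZMod Q)) * conj (f (b 3) (ζ + c a + c t + (i : ZMod Q)))‖ ^ 2 :=
    fun b ζ => rfl
  have hTm0 : ∀ b ζ, 0 ≤ Tm b ζ := fun b ζ => by rw [hTm]; positivity
  let s : ZMod Q → ℝ := fun ζ => ∑ b : Fin 4 → Fin m, Tm b ζ
  have hs1 : ∀ b ζ, Tm b ζ ≤ s ζ := fun b ζ =>
    Finset.single_le_sum (f := fun b => Tm b ζ) (fun b _ => hTm0 b ζ) (Finset.mem_univ b)
  have hs0 : ∀ ζ, 0 ≤ s ζ := fun ζ => Finset.sum_nonneg fun b _ => hTm0 b ζ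
  have hSq : Sq f M (c a) (c t) = avr s := rfl
  clear_value s Tm
  set β : ZMod Q → ℝ := fun ζ => if Q < ζ.val + M then (1 : ℝ) else 0 with hβ
  have hβ0 : ∀ ζ, 0 ≤ β ζ := by
    intro ζ
    simp only [hβ]
    split_ifs <;> norm_num
  have hpt : ∀ z : ZMod n, ‖(M : ℂ)⁻¹ * ∑ i ∈ Finset.range M, F (z + (i : ZMod n))‖ ≤
      Real.sqrt (s (c z)) + 16 * (β (c z) + β (c (z + a)) + β (c (z + t)) +
        β (c (z + a + t))) := by
    intro z
    by_cases hbad : (Q < (c z).val + M ∨ Q < (c (z + a)).val + M ∨ Q < (c (z + t)).val + M ∨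
        Q < (c (z + a + t)).val + M)
    · have h1 : ‖(M : ℂ)⁻¹ * ∑ i ∈ Finset.range M, F (z + (i : ZMod n))‖ ≤ 16 := by
        rw [norm_mul, norm_inv, Complex.norm_natCast, inv_mul_le_iff₀ hM0]
        refine (norm_sum_le _ _).trans ((Finset.sum_le_sum fun i _ => hF16 _).trans ?_)
        rw [Finset.sum_const, Finset.card_range, nsmul_eq_mul]
      have h2 : 1 ≤ β (c z) + β (c (z + a)) + β (c (z + t)) + β (c (z + a + t)) := by
        have g1 := hβ0 (c z)
        have g2 := hβ0 (c (z + a))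
        have g3 := hβ0 (c (z + t))
        have g4 := hβ0 (c (z + a + t))
        rcases hbad with h | h | h | h
        · have : β (c z) = 1 := if_pos h
          linarith
        · have : β (c (z + a)) = 1 := if_pos h
          linarith
        · have : β (c (z + t)) = 1 := if_pos h
          linarith
        · have : β (c (z + a + t)) = 1 := if_pos h
          linarith
      have h3 := Real.sqrt_nonneg (s (c z))
      linarith
    · push Not at hbad
      obtain ⟨k0, k1, k2, k3⟩ := hbad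
      obtain ⟨b0, hb0⟩ := blk hb z (not_lt.mpr k0)
      obtain ⟨b1, hb1⟩ := blk hb (z + a) (not_lt.mpr k1)
      obtain ⟨b2, hb2⟩ := blk hb (z + t) (not_lt.mpr k2)
      obtain ⟨b3, hb3⟩ := blk hb (z + a + t) (not_lt.mpr k3)
      rw [← hc] at hb0 hb1 hb2 hb3
      have h1 : ∑ i ∈ Finset.range M, F (z + (i : ZMod n)) = ∑ i ∈ Finset.range M,
          conj (f b0 (c z + (i : ZMod Q))) * f b1 (c z + c a + (i : ZMod Q)) *
          f b2 (c z + c t + (i : ZMod Q)) * conj (f b3 (c z + c a + c t + (i : ZMod Q))) := by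
        apply Finset.sum_congr rfl
        intro i hi
        rw [Finset.mem_range] at hi
        simp only [hF]
        have e1 : z + (i : ZMod n) + a = z + a + (i : ZMod n) := by ring
        have e2 : z + (i : ZMod n) + t = z + t + (i : ZMod n) := by ring
        have e3 : z + a + (i : ZMod n) + t = z + a + t + (i : ZMod n) := by ring
        rw [e1, e2, e3, hb0 i hi, hb1 i hi, hb2 i hi, hb3 i hi]
        simp only [map_add]
      obtain ⟨b, q0, q1, q2, q3⟩ : ∃ b : Fin 4 → Fin m, b 0 = b0 ∧ b 1 = b1 ∧ b 2 = b2 ∧ b 3 = b3 :=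
        ⟨![b0, b1, b2, b3], rfl, rfl, rfl, rfl⟩
      have h2 : ‖(M : ℂ)⁻¹ * ∑ i ∈ Finset.range M, F (z + (i : ZMod n))‖ ^ 2 ≤ s (c z) := by
        have h5 := hTm b (c z)
        rw [q0, q1, q2, q3] at h5
        rw [h1, ← h5]
        exact hs1 b (c z)
      have h3 := Real.le_sqrt_of_sq_le h2
      have g1 := hβ0 (c z)
      have g2 := hβ0 (c (z + a))
      have g3 := hβ0 (c (z + t))
      have g4 := hβ0 (c (z + a + t))
      linarith
  have hβa : ∀ x : ZMod n, avr (fun z : ZMod n => β (c (z + x))) ≤ M / Q := by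
    intro x
    rw [avr_shift (fun z : ZMod n => β (c z)) x]
    rw [hc, avr_cast hQ β]
    exact bad_avr M
  have hfin : avr (fun z : ZMod n => Real.sqrt (s (c z)) +
      16 * (β (c z) + β (c (z + a)) + β (c (z + t)) + β (c (z + a + t)))) ≤
      Real.sqrt (avr s) + 64 * M / Q := by
    rw [avr_add, avr_mul_left, avr_add, avr_add, avr_add]
    have e1 : avr (fun z : ZMod n => Real.sqrt (s (c z))) = avr (fun ζ => Real.sqrt (s ζ)) := by
      rw [hc]
      exact avr_cast hQ fun ζ => Real.sqrt (s ζ)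
    have e2 := avr_sqrt_le hs0
    have g0 := hβa 0
    simp only [add_zero] at g0
    have g1 := hβa a
    have g2 := hβa t
    have g3 := hβa (a + t)
    simp only [← add_assoc] at g3
    rw [e1]
    have e3 : (64 : ℝ) * M / Q = 16 * (4 * (M / Q)) := by ring
    rw [e3]
    linarith
  have hQd : Qd H a t = av F := rfl
  rw [hQd, hSq, hwin]
  exact (norm_av_le _).trans ((avr_mono hpt).trans hfin)


end Pool.Agent.Ef
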