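import Pool.Agent.Ef.V1
import Pool.Agent.Ef.V2
import Pool.Agent.Ef.V3
import Pool.Agent.Ef.GG

/-! MP_13664e_an (ELFR), module PA: the bound for one pair of primes, linearized. -/

set_option autoImplicit false

namespace Pool.Agent.Ef

open Filter Topology
open scoped ComplexConjugate

private theorem sqrt_lin {x κ : ℝ} (hκ : 0 < κ) (hx : 0 ≤ x) : Real.sqrt x ≤ κ + x / κ := by
  rw [Real.sqrt_le_left (by positivity)]
  have h1 : x = κ * (x / κ) := by field_simp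
  have h2 : 0 ≤ x / κ := by positivity
  nlinarith [sq_nonneg (x / κ), sq_nonneg κ, mul_nonneg hκ.le h2]

private theorem norm_wd {q m : ℕ} {f : Fin m → ZMod q → ℂ} (hf : ∀ b z, ‖f b z‖ ≤ 2)
    (d : ℕ) (z : ZMod q) : ‖wd f d z‖ ≤ 4 * m := by
  unfold wd
  refine (norm_sum_le _ _).trans ?_
  calc ∑ b : Fin m, ‖f b z * conj (f b (z + (d : ZMod q)))‖
      ≤ ∑ _b : Fin m, (4 : ℝ) := by
        refine Finset.sum_le_sum fun b _ => ?_
        rw [norm_mul, RCLike.norm_conj]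
        nlinarith [hf b z, hf b (z + (d : ZMod q)),
          norm_nonneg (f b z), norm_nonneg (f b (z + (d : ZMod q)))]
    _ = 4 * m := by
        rw [Finset.sum_const, Finset.card_univ, Fintype.card_fin, nsmul_eq_mul, mul_comm]

private theorem av_subst {n : ℕ} [NeZero n] {xi p pb : ZMod n} (hp : p * pb = 1)
    (F : ZMod n → ℂ) : av (fun z => F z) = av (fun z => F (pb * (z - xi))) := by
  unfold av
  congr 1
  refine Fintype.sum_equiv ⟨fun z => xi + p * z, fun z => pb * (z - xi), ?_, ?_⟩ _ _ ?_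
  · intro z
    show pb * (xi + p * z - xi) = z
    linear_combination z * hp
  · intro z
    show xi + p * (pb * (z - xi)) = z
    linear_combination (z - xi) * hp
  · intro z
    show F z = F (pb * (xi + p * z - xi))
    congr 1
    linear_combination (-z) * hp

private theorem avr_nonneg {n : ℕ} [NeZero n] {F : ZMod n → ℝ} (h : ∀ z, 0 ≤ F z) :
    0 ≤ avr F := by
  unfold avr
  have : 0 ≤ ∑ z, F z := Finset.sum_nonneg fun z _ => h z
  positivity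

private theorem Sq_nonneg {Q m : ℕ} [NeZero Q] (f : Fin m → ZMod Q → ℂ) (M : ℕ)
    (a t : ZMod Q) : 0 ≤ Sq f M a t := by
  unfold Sq
  exact avr_nonneg fun z => Finset.sum_nonneg fun b _ => by positivity

/-- replacing `Hc` by `H0` -/
private theorem av_replace {n : ℕ} [NeZero n] {Hc H0 v : ZMod n → ℂ} {ε0 : ℝ}
    (hv : ∀ z, ‖v z‖ ≤ 2) (h : avr (fun z => ‖H0 z - Hc z‖) ≤ ε0) :
    ‖av (fun z => Hc z * v z)‖ ≤ ‖av (fun z => H0 z * v z)‖ + 2 * ε0 := by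
  have h1 : av (fun z => Hc z * v z) = av (fun z => H0 z * v z) -
      av (fun z => (H0 z - Hc z) * v z) := by
    unfold av
    rw [← mul_sub, ← Finset.sum_sub_distrib]
    congr 1
    refine Finset.sum_congr rfl fun z _ => ?_
    ring
  have h2 : ‖av (fun z => (H0 z - Hc z) * v z)‖ ≤ 2 * avr (fun z => ‖H0 z - Hc z‖) := by
    unfold av avr
    rw [norm_mul, norm_inv, Complex.norm_natCast, mul_left_comm]
    apply mul_le_mul_of_nonneg_left _ (by positivity)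
    refine (norm_sum_le _ _).trans ?_
    rw [Finset.mul_sum]
    refine Finset.sum_le_sum fun z _ => ?_
    rw [norm_mul, mul_comm]
    exact mul_le_mul_of_nonneg_right (hv z) (norm_nonneg _)
  rw [h1]
  refine (norm_sub_le _ _).trans ?_
  linarith

/-- averaging linear bounds -/
private theorem two_div_sum {t : ℕ} (ht : 1 ≤ t) {F G : ℕ → ℝ} {E K : ℝ} (hE : 0 ≤ E)
    (hK : 0 ≤ K) (hG : ∀ d, 0 ≤ G d) (h : ∀ d ∈ Finset.Ico 1 t, F d ≤ E + K * G d) :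
    (2 / t : ℝ) * ∑ d ∈ Finset.Ico 1 t, F d ≤ 2 * E + 2 * K * ∑ d ∈ Finset.Ico 1 t, G d := by
  have ht' : (0 : ℝ) < t := by exact_mod_cast ht
  have hS0 : 0 ≤ ∑ d ∈ Finset.Ico 1 t, G d := Finset.sum_nonneg fun d _ => hG d
  have h1 : ∑ d ∈ Finset.Ico 1 t, F d ≤ t * E + K * ∑ d ∈ Finset.Ico 1 t, G d := by
    refine (Finset.sum_le_sum h).trans ?_
    rw [Finset.sum_add_distrib, Finset.sum_const, Nat.card_Ico, nsmul_eq_mul,
      ← Finset.mul_sum]
    have h9 : ((t - 1 : ℕ) : ℝ) ≤ t := Nat.cast_le.2 (Nat.sub_le t 1)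
    have := mul_le_mul_of_nonneg_right h9 hE
    linarith
  refine (mul_le_mul_of_nonneg_left h1 (by positivity)).trans ?_
  have h8 : (2 / t : ℝ) * (t * E + K * ∑ d ∈ Finset.Ico 1 t, G d) =
      2 * E + 2 * K * (∑ d ∈ Finset.Ico 1 t, G d) * (1 / t) := by
    field_simp
  rw [h8]
  have h10 : (1 / t : ℝ) ≤ 1 := by
    rw [div_le_one ht']
    exact_mod_cast ht
  have h11 : 0 ≤ 2 * K * ∑ d ∈ Finset.Ico 1 t, G d := by positivity
  nlinarith

/-- the final inequality between numbers -/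
private theorem num {X ε κ1 κ2 κ3 η m t q J1 J MQ S R : ℝ}
    (hε : 0 < ε) (hκ1 : κ1 = ε / 4) (hη : η = ε ^ 2 / 48) (hκ2 : 0 < κ2) (hκ3 : 0 < κ3)
    (hm : 0 ≤ m) (hMQ : 0 ≤ MQ) (hS : 0 ≤ S)
    (h1 : 16 * t / q ≤ η) (h2 : 16 * m / t ≤ η) (h3 : 8 * m * κ2 ≤ η)
    (h4 : 128 * m * q * J1 / J ≤ η) (h5 : 128 * m / (κ2 * J1) ≤ η)
    (h6 : 16 * m * κ3 / κ2 ≤ η)
    (hR : R = 16 * t / q + 16 * m / t + 8 * m * κ2 + 128 * m * q * J1 / J +
      (128 * m / (κ2 * J1) + 16 * m * κ3 / κ2 + (4 * m / κ2) * (256 * MQ + (4 / κ3) * S)))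
    (hXR : X ^ 2 ≤ R) :
    X + 2 * (ε / 16) ≤ ε + (4 / ε * (4 * m / κ2) * (256 + 4 / κ3)) * MQ +
      (4 / ε * (4 * m / κ2) * (256 + 4 / κ3)) * S := by
  have hR0 : 0 ≤ R := (sq_nonneg X).trans hXR
  have hκ10 : 0 < κ1 := by rw [hκ1]; positivity
  have hXs : X ≤ κ1 + R / κ1 := by
    have := sqrt_lin hκ10 hR0
    refine le_trans ?_ this
    exact Real.le_sqrt_of_sq_le hXR
  have hRle : R ≤ 6 * η + (4 * m / κ2) * (256 * MQ + (4 / κ3) * S) := by
    rw [hR]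
    linarith
  have hdiv : R / κ1 ≤ (6 * η + (4 * m / κ2) * (256 * MQ + (4 / κ3) * S)) / κ1 := by
    gcongr
  have heq : (6 * η + (4 * m / κ2) * (256 * MQ + (4 / κ3) * S)) / κ1 =
      ε / 2 + 4 / ε * (4 * m / κ2) * (256 * MQ + (4 / κ3) * S) := by
    rw [hκ1, hη]
    field_simp
    ring
  have hc : 0 ≤ 4 / ε * (4 * m / κ2) := by positivity
  have hle : 4 / ε * (4 * m / κ2) * (256 * MQ + (4 / κ3) * S) ≤
      (4 / ε * (4 * m / κ2) * (256 + 4 / κ3)) * MQ +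
      (4 / ε * (4 * m / κ2) * (256 + 4 / κ3)) * S := by
    have h7 : 256 * MQ + (4 / κ3) * S ≤ (256 + 4 / κ3) * MQ + (256 + 4 / κ3) * S := by
      have : 0 ≤ 4 / κ3 := by positivity
      nlinarith [mul_nonneg this hMQ]
    calc 4 / ε * (4 * m / κ2) * (256 * MQ + (4 / κ3) * S)
        ≤ 4 / ε * (4 * m / κ2) * ((256 + 4 / κ3) * MQ + (256 + 4 / κ3) * S) :=
          mul_le_mul_of_nonneg_left h7 hc
      _ = _ := by ring
  rw [heq] at hdiv
  rw [hκ1] at hXs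
  rw [hκ1] at hdiv
  linarith

/-- Steps: GG with `P z = Hc (xi + p z)`, `P' z = Hc' (xi + p' z)`; substitute `z ↦ xi + p z`: the
left side is `‖av (Hc * vf Hc' g)‖ ≤ 2 * ε0 + ‖av (H0 * vf Hc' g)‖`; V1 for `H0`, `v = vf Hc' g`
(bounded by `2`), V2 for `w = wd f0 d` (bounded by `W0 = 4 m`), V3 for `Qd Hc'`; then
`√x ≤ κ + x / κ` twice. Order of choices: `t` (16 m / t small), `ε0`, `q0` (16 t / q small), `J1`
(16 / J1 small), `J` (64 m q J1 / J small), `C`. -/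
theorem PA (m : ℕ) {ε : ℝ} (hε : 0 < ε) :
    ∃ t : ℕ, 1 ≤ t ∧ ∃ ε0 : ℝ, 0 < ε0 ∧ ∃ q0 : ℕ, ∀ q : ℕ, q0 ≤ q → 1 ≤ q →
      ∃ J1 : ℕ, 1 ≤ J1 ∧ ∃ J : ℕ, 1 ≤ J ∧ ∃ C : ℝ, 0 ≤ C ∧
        ∀ (n Q : ℕ) [NeZero n] [NeZero Q] [NeZero q] (hq : q ∣ n) (hQ : Q ∣ n)
          (f0 : Fin m → ZMod q → ℂ) (f : Fin m → ZMod Q → ℂ) (Hc Hc' H0 : ZMod n → ℂ),
          (∀ b z, ‖f0 b z‖ ≤ 2) → (∀ b z, ‖f b z‖ ≤ 2) → (∀ z, ‖Hc z‖ ≤ 2) →
          (∀ z, ‖Hc' z‖ ≤ 2) → (∀ z, ‖H0 z‖ ≤ 2) → BlkN hq f0 H0 → BlkN hQ f Hc' →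
          avr (fun z => ‖H0 z - Hc z‖) ≤ ε0 →
          ∀ (xi p pb p' pb' : ZMod n), p * pb = 1 → p' * pb' = 1 → ∀ M : ℕ, 1 ≤ M →
          avr (fun z => ‖(J : ℂ)⁻¹ * ∑ j ∈ Finset.range J,
            Hc (xi + p * (z + (j : ZMod n))) * conj (Hc' (xi + p' * (z + (j : ZMod n))))‖) ≤
          ε + C * M / Q + C * ∑ d ∈ Finset.Ico 1 t, ∑ e ∈ Finset.Ico 1 J1,
            Sq f M (ZMod.castHom hQ (ZMod Q) (p' * ((q * e : ℕ) : ZMod n)))
              (ZMod.castHom hQ (ZMod Q) (p' * pb * (d : ZMod n))) := by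
  set η : ℝ := ε ^ 2 / 48 with hη
  have hη0 : 0 < η := by positivity
  set κ2 : ℝ := η / (8 * (m + 1)) with hκ2
  have hκ20 : 0 < κ2 := by positivity
  set κ3 : ℝ := η * κ2 / (16 * (m + 1)) with hκ3
  have hκ30 : 0 < κ3 := by positivity
  obtain ⟨t0, ht0⟩ := exists_nat_ge (16 * m / η)
  set t := t0 + 1 with ht
  have ht' : (0 : ℝ) < (t : ℝ) := by positivity
  have h2 : 16 * (m : ℝ) / t ≤ η := by
    rw [div_le_iff₀ ht']
    rw [div_le_iff₀ hη0] at ht0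
    have : (t : ℝ) = t0 + 1 := by rw [ht]; push_cast; ring
    rw [this]
    nlinarith
  obtain ⟨q0, hq0⟩ := exists_nat_ge (16 * t / η)
  refine ⟨t, by omega, ε / 16, by positivity, q0, ?_⟩
  intro q hqq hq1
  have hq' : (0 : ℝ) < (q : ℝ) := by exact_mod_cast hq1
  have h1 : 16 * (t : ℝ) / q ≤ η := by
    rw [div_le_iff₀ hq']
    rw [div_le_iff₀ hη0] at hq0
    have : (q0 : ℝ) ≤ q := by exact_mod_cast hqq
    nlinarith
  obtain ⟨j1, hj1⟩ := exists_nat_ge (128 * m / (κ2 * η))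
  set J1 := j1 + 1 with hJ1
  have hJ1' : (0 : ℝ) < (J1 : ℝ) := by positivity
  have h5 : 128 * (m : ℝ) / (κ2 * J1) ≤ η := by
    rw [div_le_iff₀ (by positivity)]
    rw [div_le_iff₀ (by positivity)] at hj1
    have : (J1 : ℝ) = j1 + 1 := by rw [hJ1]; push_cast; ring
    rw [this]
    nlinarith [mul_pos hκ20 hη0]
  obtain ⟨j0, hj0⟩ := exists_nat_ge (128 * m * q * J1 / η)
  set J := j0 + 1 with hJ
  have hJ' : (0 : ℝ) < (J : ℝ) := by positivity
  have h4 : 128 * (m : ℝ) * q * J1 / J ≤ η := by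
    rw [div_le_iff₀ hJ']
    rw [div_le_iff₀ hη0] at hj0
    have : (J : ℝ) = j0 + 1 := by rw [hJ]; push_cast; ring
    rw [this]
    nlinarith
  have h3 : 8 * (m : ℝ) * κ2 ≤ η := by
    rw [hκ2]
    have : 8 * (m : ℝ) * (η / (8 * (m + 1))) = η * (m / (m + 1)) := by field_simp
    rw [this]
    have hle : (m : ℝ) / (m + 1) ≤ 1 := by
      rw [div_le_one (by positivity)]
      linarith
    nlinarith
  have h6 : 16 * (m : ℝ) * κ3 / κ2 ≤ η := by
    rw [hκ3]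
    have : 16 * (m : ℝ) * (η * κ2 / (16 * (m + 1))) / κ2 = η * (m / (m + 1)) := by
      field_simp
    rw [this]
    have hle : (m : ℝ) / (m + 1) ≤ 1 := by
      rw [div_le_one (by positivity)]
      linarith
    nlinarith
  clear_value J J1 t κ3 κ2 η
  refine ⟨J1, by omega, J, by omega, 4 / ε * (4 * m / κ2) * (256 + 4 / κ3), by positivity, ?_⟩
  intro n Q _ _ _ hq hQ f0 f Hc Hc' H0 hf0 hf hHc hHc' hH0 hB0 hB hrep xi p pb p' pb' hp hp'
    M hM
  have hJ1n : 1 ≤ J := by omega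
  have hJ11 : 1 ≤ J1 := by omega
  have ht1 : 1 ≤ t := by omega
  obtain ⟨g, hg1, hg2, hg3⟩ := GG (fun z => Hc (xi + p * z)) (fun z => Hc' (xi + p' * z)) hJ1n
  set v : ZMod n → ℂ := vf Hc' g xi pb p' with hv
  have hvb : ∀ z, ‖v z‖ ≤ 2 := by
    intro z
    rw [hv]
    unfold vf
    rw [norm_mul, RCLike.norm_conj]
    nlinarith [hHc' (xi + p' * (pb * (z - xi))), hg1 (pb * (z - xi)),
      norm_nonneg (Hc' (xi + p' * (pb * (z - xi)))), norm_nonneg (g (pb * (z - xi)))]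
  have hsub : av (fun z => Hc (xi + p * z) * conj (Hc' (xi + p' * z)) * g z) =
      av (fun z => Hc z * v z) := by
    rw [av_subst (xi := xi) hp (fun z => Hc (xi + p * z) * conj (Hc' (xi + p' * z)) * g z)]
    congr 1
    funext z
    have : xi + p * (pb * (z - xi)) = z := by linear_combination (z - xi) * hp
    rw [hv]
    unfold vf
    rw [this, mul_assoc]
  have hstart : avr (fun z => ‖(J : ℂ)⁻¹ * ∑ j ∈ Finset.range J,
            Hc (xi + p * (z + (j : ZMod n))) * conj (Hc' (xi + p' * (z + (j : ZMod n))))‖) ≤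
      ‖av (fun z => H0 z * v z)‖ + 2 * (ε / 16) := by
    rw [hg3, hsub]
    exact av_replace hvb hrep
  refine hstart.trans ?_
  set SS : ℝ := ∑ d ∈ Finset.Ico 1 t, ∑ e ∈ Finset.Ico 1 J1,
            Sq f M (ZMod.castHom hQ (ZMod Q) (p' * ((q * e : ℕ) : ZMod n)))
              (ZMod.castHom hQ (ZMod Q) (p' * pb * (d : ZMod n))) with hSS
  have hSS0 : 0 ≤ SS := Finset.sum_nonneg fun d _ => Finset.sum_nonneg fun e _ =>
    Sq_nonneg _ _ _ _
  have hMQ0 : (0 : ℝ) ≤ (M : ℝ) / Q := by positivity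
  clear_value v SS
  -- the terms
  have hterm : ∀ d ∈ Finset.Ico 1 t,
      ‖av (fun z => wd f0 d (ZMod.castHom hq (ZMod q) z) * v z *
          conj (v (z + (d : ZMod n))))‖ ≤
      4 * m * κ2 + 64 * m * q * J1 / J + (4 * m / κ2) * (16 / J1 + 2 * κ3 + 128 * (M / Q) +
        (2 / κ3) * ∑ e ∈ Finset.Ico 1 J1,
            Sq f M (ZMod.castHom hQ (ZMod Q) (p' * ((q * e : ℕ) : ZMod n)))
              (ZMod.castHom hQ (ZMod Q) (p' * pb * (d : ZMod n)))) := by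
    intro d _
    have hV2 := V2 hq (w := wd f0 d) (W0 := 4 * m) (norm_wd hf0 d) hHc' hg1 hJ1n hg2 xi p pb p'
      pb' hp hp' hJ11 (d : ZMod n)
    rw [← hv] at hV2
    refine hV2.trans ?_
    have hQd : ∀ e ∈ Finset.Ico 1 J1,
        ‖Qd Hc' (p' * ((q * e : ℕ) : ZMod n)) (p' * pb * (d : ZMod n))‖ ≤
        κ3 + 64 * (M / Q) + (1 / κ3) *
          Sq f M (ZMod.castHom hQ (ZMod Q) (p' * ((q * e : ℕ) : ZMod n)))
              (ZMod.castHom hQ (ZMod Q) (p' * pb * (d : ZMod n))) := by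
      intro e _
      have hV3 := V3 hQ hB hf hHc' hM (p' * ((q * e : ℕ) : ZMod n)) (p' * pb * (d : ZMod n))
      refine hV3.trans ?_
      have := sqrt_lin hκ30 (Sq_nonneg f M
        (ZMod.castHom hQ (ZMod Q) (p' * ((q * e : ℕ) : ZMod n)))
        (ZMod.castHom hQ (ZMod Q) (p' * pb * (d : ZMod n))))
      rw [div_eq_mul_inv] at this
      rw [mul_div_assoc, one_div, mul_comm κ3⁻¹]
      linarith
    set Se : ℝ := ∑ e ∈ Finset.Ico 1 J1,
            Sq f M (ZMod.castHom hQ (ZMod Q) (p' * ((q * e : ℕ) : ZMod n)))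
              (ZMod.castHom hQ (ZMod Q) (p' * pb * (d : ZMod n))) with hSe
    have hSe0 : 0 ≤ Se := Finset.sum_nonneg fun e _ => Sq_nonneg _ _ _ _
    have hsumQ : (2 / J1 : ℝ) * ∑ e ∈ Finset.Ico 1 J1,
        ‖Qd Hc' (p' * ((q * e : ℕ) : ZMod n)) (p' * pb * (d : ZMod n))‖ ≤
        2 * κ3 + 128 * (M / Q) + (2 / κ3) * Se := by
      have h7 := two_div_sum hJ11 (E := κ3 + 64 * (M / Q)) (K := 1 / κ3)
        (F := fun e => ‖Qd Hc' (p' * ((q * e : ℕ) : ZMod n)) (p' * pb * (d : ZMod n))‖)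
        (G := fun e => Sq f M (ZMod.castHom hQ (ZMod Q) (p' * ((q * e : ℕ) : ZMod n)))
              (ZMod.castHom hQ (ZMod Q) (p' * pb * (d : ZMod n))))
        (by positivity) (by positivity) (fun e => Sq_nonneg _ _ _ _) hQd
      refine h7.trans (le_of_eq ?_)
      rw [hSe]
      ring
    have hX0 : 0 ≤ (2 / J1 : ℝ) * ∑ e ∈ Finset.Ico 1 J1,
        ‖Qd Hc' (p' * ((q * e : ℕ) : ZMod n)) (p' * pb * (d : ZMod n))‖ :=
      mul_nonneg (div_nonneg (by norm_num) hJ1'.le)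
        (Finset.sum_nonneg fun e _ => norm_nonneg _)
    generalize (2 / J1 : ℝ) * ∑ e ∈ Finset.Ico 1 J1,
        ‖Qd Hc' (p' * ((q * e : ℕ) : ZMod n)) (p' * pb * (d : ZMod n))‖ = X at hX0 hsumQ ⊢
    have h16 : (0 : ℝ) ≤ 16 / J1 := div_nonneg (by norm_num) hJ1'.le
    have hsq : Real.sqrt (16 / J1 + X) ≤
        κ2 + (16 / J1 + (2 * κ3 + 128 * (M / Q) + (2 / κ3) * Se)) / κ2 := by
      refine (sqrt_lin hκ20 (add_nonneg h16 hX0)).trans ?_
      have h17 := div_le_div_of_nonneg_right (add_le_add_right hsumQ (16 / J1 : ℝ)) hκ20.le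
      linarith
    have h12 : 4 * (m : ℝ) * Real.sqrt (16 / J1 + X) ≤
        4 * m * (κ2 + (16 / J1 + (2 * κ3 + 128 * (M / Q) + (2 / κ3) * Se)) / κ2) :=
      mul_le_mul_of_nonneg_left hsq (by positivity)
    have h13 : 16 * (4 * (m : ℝ)) * q * J1 / J = 64 * m * q * J1 / J := by ring
    rw [h13]
    have h14 : 4 * (m : ℝ) * (κ2 + (16 / J1 + (2 * κ3 + 128 * (M / Q) + (2 / κ3) * Se)) / κ2) =
        4 * m * κ2 + (4 * m / κ2) * (16 / J1 + 2 * κ3 + 128 * (M / Q) + (2 / κ3) * Se) := by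
      ring
    linarith
  have hV1 := V1 hq hB0 hf0 hH0 hvb ht1
  have hsum : (2 / t : ℝ) * ∑ d ∈ Finset.Ico 1 t,
      ‖av (fun z => wd f0 d (ZMod.castHom hq (ZMod q) z) * v z *
          conj (v (z + (d : ZMod n))))‖ ≤
      8 * m * κ2 + 128 * m * q * J1 / J +
      (128 * m / (κ2 * J1) + 16 * m * κ3 / κ2 +
        (4 * m / κ2) * (256 * (M / Q) + (4 / κ3) * SS)) := by
    have h7 := two_div_sum ht1 (E := 4 * m * κ2 + 64 * m * q * J1 / J +
      (4 * m / κ2) * (16 / J1 + 2 * κ3 + 128 * (M / Q))) (K := (4 * m / κ2) * (2 / κ3))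
        (F := fun d => ‖av (fun z => wd f0 d (ZMod.castHom hq (ZMod q) z) * v z *
          conj (v (z + (d : ZMod n))))‖)
        (G := fun d => ∑ e ∈ Finset.Ico 1 J1,
            Sq f M (ZMod.castHom hQ (ZMod Q) (p' * ((q * e : ℕ) : ZMod n)))
              (ZMod.castHom hQ (ZMod Q) (p' * pb * (d : ZMod n))))
        (by positivity) (by positivity)
        (fun d => Finset.sum_nonneg fun e _ => Sq_nonneg _ _ _ _)
        (fun d hd => (hterm d hd).trans (le_of_eq (by ring)))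
    refine h7.trans (le_of_eq ?_)
    rw [hSS]
    field_simp
    ring
  have hfin := num (X := ‖av (fun z => H0 z * v z)‖) (ε := ε) (κ1 := ε / 4) (κ2 := κ2)
    (κ3 := κ3) (η := η) (m := m) (t := t) (q := q) (J1 := J1) (J := J) (MQ := M / Q) (S := SS)
    hε rfl hη hκ20 hκ30 (by positivity) hMQ0 hSS0 h1 h2 h3 h4 h5 h6 rfl
    (by linarith)
  rw [mul_div_assoc]
  exact hfin

end Pool.Agent.Ef
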