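import Pool.Agent.Ef.Defs

/-! MP_13664e_an (ELFR), module R1: characters of `ZMod Q`, Ramanujan sums, Fourier expansion. -/

set_option autoImplicit false

namespace Pool.Agent.Ef

open Filter Topology Pool.Agent.Sar
open scoped ComplexConjugate

section
variable {Q : ℕ} [NeZero Q]

private theorem R1_norm (χ : AddChar (ZMod Q) ℂ) (z : ZMod Q) : ‖χ z‖ = 1 := AddChar.norm_apply χ z

private theorem R1_cc (χ : AddChar (ZMod Q) ℂ) (z : ZMod Q) : conj (χ z) = χ (-z) := by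
  rw [← AddChar.inv_apply_eq_conj, AddChar.map_neg_eq_inv]

private theorem R1_val (χ : AddChar (ZMod Q) ℂ) (u : ZMod Q) (e : ZMod Q) :
    χ (u * e) = χ e ^ u.val := by
  rw [← AddChar.map_nsmul_eq_pow, nsmul_eq_mul, ZMod.natCast_zmod_val]

private theorem R1_powQ (χ : AddChar (ZMod Q) ℂ) (e : ZMod Q) : χ e ^ Q = 1 := by
  rw [← AddChar.map_nsmul_eq_pow, nsmul_eq_mul, ZMod.natCast_self, zero_mul, AddChar.map_zero_eq_one]

end

/-- Ramanujan sums (Sar.ramanujan with `z = χ e`, `r = orderOf (χ e)`) -/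
theorem R1_sum {Q : ℕ} [NeZero Q] (χ : AddChar (ZMod Q) ℂ) (e : ℕ) :
    0 < orderOf (χ (e : ZMod Q)) ∧
    ‖∑ u : (ZMod Q)ˣ, χ ((u : ZMod Q) * (e : ZMod Q))‖ ≤
      (Q.totient : ℝ) / ((orderOf (χ (e : ZMod Q))).totient : ℝ) := by
  have hQ : 0 < Q := NeZero.pos Q
  have h1 : χ (e : ZMod Q) ^ Q = 1 := R1_powQ χ _
  have h2 : orderOf (χ (e : ZMod Q)) ∣ Q := orderOf_dvd_of_pow_eq_one h1
  have h3 : 0 < orderOf (χ (e : ZMod Q)) := Nat.pos_of_dvd_of_pos h2 hQ
  refine ⟨h3, ?_⟩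
  have h4 := ramanujan h3 (IsPrimitiveRoot.orderOf (χ (e : ZMod Q))) hQ h2
  refine le_trans (le_of_eq ?_) h4
  congr 1
  refine Finset.sum_bij (fun u _ => (u : ZMod Q).val) ?_ ?_ ?_ ?_
  · intro u _
    rw [Finset.mem_filter, Finset.mem_range]
    exact ⟨ZMod.val_lt _, ZMod.val_coe_unit_coprime u⟩
  · intro u _ v _ h
    exact Units.ext (ZMod.val_injective Q h)
  · intro b hb
    rw [Finset.mem_filter, Finset.mem_range] at hb
    refine ⟨ZMod.unitOfCoprime b hb.2, Finset.mem_univ _, ?_⟩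
    rw [ZMod.coe_unitOfCoprime, ZMod.val_natCast_of_lt hb.1]
  · intro u _
    exact R1_val χ _ _

open Classical in
/-- few characters are of small order at `e`: `χ 1` is a root of `z^(e r) = 1` for some
`1 ≤ r < R` -/
theorem R1_card {Q : ℕ} [NeZero Q] {e : ℕ} (he : 1 ≤ e) (R : ℕ) :
    (Finset.univ.filter (fun χ : AddChar (ZMod Q) ℂ =>
      orderOf (χ (e : ZMod Q)) < R)).card ≤ e * R ^ 2 := by
  have hinj : Function.Injective (fun χ : AddChar (ZMod Q) ℂ => χ 1) := by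
    intro χ ψ h
    refine DFunLike.ext _ _ fun z => ?_
    have h1 := R1_val χ z 1
    have h2 := R1_val ψ z 1
    rw [mul_one] at h1 h2
    rw [h1, h2]
    exact congrArg (fun t => t ^ z.val) h
  rw [← Finset.card_image_of_injective _ hinj]
  have hsub : (Finset.univ.filter (fun χ : AddChar (ZMod Q) ℂ =>
      orderOf (χ (e : ZMod Q)) < R)).image (fun χ : AddChar (ZMod Q) ℂ => χ 1) ⊆
      (Finset.range R).biUnion fun r => (Polynomial.nthRoots (e * r) (1 : ℂ)).toFinset := by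
    intro w hw
    obtain ⟨χ, hχ, rfl⟩ := Finset.mem_image.1 hw
    rw [Finset.mem_filter] at hχ
    refine Finset.mem_biUnion.2 ⟨orderOf (χ (e : ZMod Q)), Finset.mem_range.2 hχ.2, ?_⟩
    have h0 := (R1_sum χ e).1
    rw [Multiset.mem_toFinset, Polynomial.mem_nthRoots (Nat.mul_pos he h0)]
    have h1 : χ (e : ZMod Q) = χ 1 ^ e := by
      rw [← AddChar.map_nsmul_eq_pow, nsmul_eq_mul, mul_one]
    rw [pow_mul, ← h1]
    exact pow_orderOf_eq_one _
  refine (Finset.card_le_card hsub).trans (Finset.card_biUnion_le.trans ?_)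
  have h1 : ∀ r ∈ Finset.range R,
      ((Polynomial.nthRoots (e * r) (1 : ℂ)).toFinset).card ≤ e * R := by
    intro r hr
    refine (Multiset.toFinset_card_le _).trans ((Polynomial.card_nthRoots _ _).trans ?_)
    exact Nat.mul_le_mul_left _ (Finset.mem_range.1 hr).le
  refine (Finset.sum_le_card_nsmul _ _ _ h1).trans (le_of_eq ?_)
  rw [Finset.card_range, smul_eq_mul]
  ring

/-- Fourier coefficient on `ZMod Q` -/
noncomputable def fh {Q : ℕ} [NeZero Q] (W : ZMod Q → ℂ) (χ : AddChar (ZMod Q) ℂ) : ℂ :=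
  av fun z => W z * conj (χ z)

/-- Fourier inversion -/
theorem R1_inv {Q : ℕ} [NeZero Q] (W : ZMod Q → ℂ) (z : ZMod Q) :
    W z = ∑ χ : AddChar (ZMod Q) ℂ, fh W χ * χ z := by
  have hQ : (Q : ℂ) ≠ 0 := Nat.cast_ne_zero.2 (NeZero.ne Q)
  have h1 : ∀ χ : AddChar (ZMod Q) ℂ, fh W χ * χ z =
      ∑ y, (Q : ℂ)⁻¹ * W y * χ (z - y) := by
    intro χ
    rw [fh, av, mul_assoc, Finset.sum_mul, Finset.mul_sum]
    refine Finset.sum_congr rfl fun y _ => ?_
    rw [R1_cc, sub_eq_neg_add, AddChar.map_add_eq_mul]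
    ring
  rw [Finset.sum_congr rfl fun χ _ => h1 χ, Finset.sum_comm]
  have h2 : ∀ y : ZMod Q, ∑ χ : AddChar (ZMod Q) ℂ, (Q : ℂ)⁻¹ * W y * χ (z - y) =
      if z = y then W y else 0 := by
    intro y
    rw [← Finset.mul_sum, AddChar.sum_apply_eq_ite]
    simp only [sub_eq_zero, ZMod.card]
    split_ifs
    · field_simp
    · rw [mul_zero]
  rw [Finset.sum_congr rfl fun y _ => h2 y, Finset.sum_ite_eq, if_pos (Finset.mem_univ _)]

private theorem R1_av_mul {Q : ℕ} [NeZero Q] (c : ℂ) (F : ZMod Q → ℂ) :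
    av (fun z => c * F z) = c * av F := by
  rw [av, av, ← Finset.mul_sum]
  ring

private theorem R1_av_sum {Q : ℕ} [NeZero Q] {ι : Type*} (s : Finset ι) (F : ι → ZMod Q → ℂ) :
    av (fun z => ∑ i ∈ s, F i z) = ∑ i ∈ s, av (F i) := by
  simp only [av]
  rw [Finset.sum_comm, Finset.mul_sum]

/-- the average of `U(z) conj (U(z+a))` -/
theorem R1_corr {Q : ℕ} [NeZero Q] (U : ZMod Q → ℂ) (a : ZMod Q) :
    av (fun z => U z * conj (U (z + a))) =
      ∑ χ : AddChar (ZMod Q) ℂ, ((‖fh U χ‖ ^ 2 : ℝ) : ℂ) * conj (χ a) := by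
  have h1 : ∀ z, U z * conj (U (z + a)) = ∑ χ : AddChar (ZMod Q) ℂ,
      (conj (fh U χ) * conj (χ a)) * (U z * conj (χ z)) := by
    intro z
    conv_lhs => rw [R1_inv U (z + a)]
    rw [map_sum, Finset.mul_sum]
    refine Finset.sum_congr rfl fun χ _ => ?_
    rw [AddChar.map_add_eq_mul, map_mul, map_mul]
    ring
  rw [show (fun z => U z * conj (U (z + a))) = fun z => ∑ χ : AddChar (ZMod Q) ℂ,
      (conj (fh U χ) * conj (χ a)) * (U z * conj (χ z)) from funext h1, R1_av_sum]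
  refine Finset.sum_congr rfl fun χ _ => ?_
  rw [R1_av_mul]
  change conj (fh U χ) * conj (χ a) * fh U χ = _
  have h2 : ((‖fh U χ‖ ^ 2 : ℝ) : ℂ) = conj (fh U χ) * fh U χ := by
    rw [Complex.conj_mul', Complex.ofReal_pow]
  rw [h2]
  ring

/-- Parseval -/
theorem R1_pars {Q : ℕ} [NeZero Q] (W : ZMod Q → ℂ) :
    ∑ χ : AddChar (ZMod Q) ℂ, ‖fh W χ‖ ^ 2 = avr (fun z => ‖W z‖ ^ 2) := by
  have h1 := R1_corr W 0
  have h2 : av (fun z => W z * conj (W (z + 0))) = ((avr (fun z => ‖W z‖ ^ 2) : ℝ) : ℂ) := by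
    rw [av, avr]
    push_cast
    congr 1
    refine Finset.sum_congr rfl fun z _ => ?_
    rw [add_zero, Complex.mul_conj']
  rw [h2] at h1
  have h3 : ∑ χ : AddChar (ZMod Q) ℂ, ((‖fh W χ‖ ^ 2 : ℝ) : ℂ) * conj (χ 0) =
      ((∑ χ : AddChar (ZMod Q) ℂ, ‖fh W χ‖ ^ 2 : ℝ) : ℂ) := by
    push_cast
    refine Finset.sum_congr rfl fun χ _ => ?_
    rw [AddChar.map_zero_eq_one, map_one, mul_one]
  rw [h3] at h1
  exact (Complex.ofReal_injective h1).symm

/-- the Fourier coefficient of `conj W(z) W(z+t)` -/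
theorem R1_prod {Q : ℕ} [NeZero Q] (W : ZMod Q → ℂ) (t : ZMod Q) (χ : AddChar (ZMod Q) ℂ) :
    fh (fun z => conj (W z) * W (z + t)) χ =
      ∑ ω : AddChar (ZMod Q) ℂ, fh W ω * conj (fh W (ω * χ⁻¹)) * ω t := by
  have h1 : ∀ z, conj (W z) * W (z + t) * conj (χ z) = ∑ ω : AddChar (ZMod Q) ℂ,
      (fh W ω * ω t) * (conj (W z) * ω z * conj (χ z)) := by
    intro z
    conv_lhs => rw [R1_inv W (z + t)]
    rw [Finset.mul_sum, Finset.sum_mul]
    refine Finset.sum_congr rfl fun ω _ => ?_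
    rw [AddChar.map_add_eq_mul]
    ring
  rw [fh, show (fun z => conj (W z) * W (z + t) * conj (χ z)) = fun z =>
      ∑ ω : AddChar (ZMod Q) ℂ, (fh W ω * ω t) * (conj (W z) * ω z * conj (χ z)) from funext h1,
    R1_av_sum]
  refine Finset.sum_congr rfl fun ω _ => ?_
  rw [R1_av_mul]
  have h2 : conj (fh W (ω * χ⁻¹)) = av (fun z => conj (W z) * ω z * conj (χ z)) := by
    rw [fh, av, av, map_mul, map_inv₀, map_natCast, map_sum]
    congr 1
    refine Finset.sum_congr rfl fun z _ => ?_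
    rw [map_mul, Complex.conj_conj, AddChar.mul_apply, AddChar.inv_apply, ← R1_cc]
    ring
  rw [h2]
  ring

end Pool.Agent.Ef
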