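import Pool.Agent.Ef.UA

/-! MP_13664e_an (ELFR), module SA: average of `Sq` over pairs of units. -/

set_option autoImplicit false

namespace Pool.Agent.Ef

open Filter Topology Pool.Agent.Sar
open scoped ComplexConjugate

/-- `W_{i,j}` -/
private noncomputable def wij {Q m : ℕ} (f : Fin m → ZMod Q → ℂ) (i j : ℕ) (z : ZMod Q) : ℂ :=
  ∑ b, f b (z + (i : ZMod Q)) * conj (f b (z + (j : ZMod Q)))

private theorem av_shift {n : ℕ} [NeZero n] (F : ZMod n → ℂ) (c : ZMod n) :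
    av (fun z => F (z + c)) = av F := by
  unfold av
  congr 1
  exact Fintype.sum_equiv (Equiv.addRight c) _ _ fun z => rfl

private theorem fh_shift {Q : ℕ} [NeZero Q] (W : ZMod Q → ℂ) (c : ZMod Q)
    (χ : AddChar (ZMod Q) ℂ) : ‖fh (fun z => W (z + c)) χ‖ = ‖fh W χ‖ := by
  have h1 : fh (fun z => W (z + c)) χ = χ c * fh W χ := by
    unfold fh
    have h2 : av (fun z => W (z + c) * conj (χ z)) =
        av (fun z => (fun y => W y * conj (χ (y - c))) (z + c)) := by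
      simp
    rw [h2, av_shift (fun y => W y * conj (χ (y - c))) c]
    unfold av
    rw [mul_left_comm]
    congr 1
    rw [Finset.mul_sum]
    refine Finset.sum_congr rfl fun z _ => ?_
    show W z * conj (χ (z - c)) = _
    rw [sub_eq_add_neg, AddChar.map_add_eq_mul, AddChar.map_neg_eq_conj]
    simp only [map_mul, Complex.conj_conj]
    ring
  rw [h1, norm_mul, AddChar.norm_apply, one_mul]

private theorem fh_conj {Q : ℕ} [NeZero Q] (W : ZMod Q → ℂ)
    (χ : AddChar (ZMod Q) ℂ) : ‖fh (fun z => conj (W z)) χ‖ = ‖fh W χ⁻¹‖ := by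
  have h1 : fh (fun z => conj (W z)) χ = conj (fh W χ⁻¹) := by
    unfold fh av
    rw [map_mul, map_sum]
    congr 1
    · simp
    · refine Finset.sum_congr rfl fun z _ => ?_
      rw [map_mul, AddChar.inv_apply, AddChar.map_neg_eq_conj]
      simp
  rw [h1, RCLike.norm_conj]

private theorem fh_wij {Q m : ℕ} [NeZero Q] (f : Fin m → ZMod Q → ℂ) {i j : ℕ} (hij : i < j)
    (χ : AddChar (ZMod Q) ℂ) : ‖fh (wij f i j) χ‖ = ‖fh (wd f (j - i)) χ‖ := by
  rw [← fh_shift (wd f (j - i)) (i : ZMod Q) χ]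
  congr 2
  funext z
  unfold wij wd
  refine Finset.sum_congr rfl fun b _ => ?_
  congr 3
  rw [add_assoc, Nat.cast_sub hij.le]
  ring

private theorem wij_conj {Q m : ℕ} (f : Fin m → ZMod Q → ℂ) (i j : ℕ) :
    wij f i j = fun z => conj (wij f j i z) := by
  funext z
  unfold wij
  rw [map_sum]
  refine Finset.sum_congr rfl fun b _ => ?_
  rw [map_mul, Complex.conj_conj, mul_comm]

private theorem norm_wij {Q m : ℕ} {f : Fin m → ZMod Q → ℂ} (hf : ∀ b z, ‖f b z‖ ≤ 2)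
    (i j : ℕ) (z : ZMod Q) : ‖wij f i j z‖ ≤ 4 * m := by
  unfold wij
  refine (norm_sum_le _ _).trans ?_
  calc ∑ b : Fin m, ‖f b (z + (i : ZMod Q)) * conj (f b (z + (j : ZMod Q)))‖
      ≤ ∑ _b : Fin m, (4 : ℝ) := by
        refine Finset.sum_le_sum fun b _ => ?_
        rw [norm_mul, RCLike.norm_conj]
        nlinarith [hf b (z + (i : ZMod Q)), hf b (z + (j : ZMod Q)),
          norm_nonneg (f b (z + (i : ZMod Q))), norm_nonneg (f b (z + (j : ZMod Q)))]
    _ = 4 * m := by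
        rw [Finset.sum_const, Finset.card_univ, Fintype.card_fin, nsmul_eq_mul, mul_comm]

private theorem label_sum {Q m : ℕ} (f : Fin m → ZMod Q → ℂ) (i j : ℕ) (a t z : ZMod Q) :
    ∑ b : Fin 4 → Fin m,
      (conj (f (b 0) (z + (i : ZMod Q))) * f (b 1) (z + a + (i : ZMod Q)) *
        f (b 2) (z + t + (i : ZMod Q)) * conj (f (b 3) (z + a + t + (i : ZMod Q)))) *
      conj (conj (f (b 0) (z + (j : ZMod Q))) * f (b 1) (z + a + (j : ZMod Q)) *
        f (b 2) (z + t + (j : ZMod Q)) * conj (f (b 3) (z + a + t + (j : ZMod Q)))) =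
    conj (wij f i j z) * wij f i j (z + a) * wij f i j (z + t) *
      conj (wij f i j (z + a + t)) := by
  have key := Finset.prod_univ_sum (R := ℂ) (ι := Fin 4) (κ := fun _ => Fin m)
    (fun _ => Finset.univ)
    (![fun b => conj (f b (z + (i : ZMod Q))) * f b (z + (j : ZMod Q)),
      fun b => f b (z + a + (i : ZMod Q)) * conj (f b (z + a + (j : ZMod Q))),
      fun b => f b (z + t + (i : ZMod Q)) * conj (f b (z + t + (j : ZMod Q))),
      fun b => conj (f b (z + a + t + (i : ZMod Q))) * f b (z + a + t + (j : ZMod Q))])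
  rw [Fintype.piFinset_univ] at key
  simp only [Fin.prod_univ_four, Matrix.cons_val_zero, Matrix.cons_val_one, Matrix.cons_val] at key
  unfold wij
  simp only [map_sum, map_mul, Complex.conj_conj]
  rw [key]
  refine Finset.sum_congr rfl fun b _ => ?_
  ring

private theorem Sq_eq {Q m : ℕ} [NeZero Q] (f : Fin m → ZMod Q → ℂ) (M : ℕ) (a t : ZMod Q) :
    ((Sq f M a t : ℝ) : ℂ) = ((M : ℂ) ^ 2)⁻¹ * ∑ i ∈ Finset.range M, ∑ j ∈ Finset.range M,
      Qd (wij f i j) a t := by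
  have h1 : ∀ z : ZMod Q, ∀ b : Fin 4 → Fin m,
      (((‖(M : ℂ)⁻¹ * ∑ i ∈ Finset.range M,
        conj (f (b 0) (z + (i : ZMod Q))) * f (b 1) (z + a + (i : ZMod Q)) *
        f (b 2) (z + t + (i : ZMod Q)) * conj (f (b 3) (z + a + t + (i : ZMod Q)))‖ ^ 2 : ℝ)) : ℂ) =
      ((M : ℂ) ^ 2)⁻¹ * ∑ i ∈ Finset.range M, ∑ j ∈ Finset.range M,
      (conj (f (b 0) (z + (i : ZMod Q))) * f (b 1) (z + a + (i : ZMod Q)) *
        f (b 2) (z + t + (i : ZMod Q)) * conj (f (b 3) (z + a + t + (i : ZMod Q)))) *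
      conj (conj (f (b 0) (z + (j : ZMod Q))) * f (b 1) (z + a + (j : ZMod Q)) *
        f (b 2) (z + t + (j : ZMod Q)) * conj (f (b 3) (z + a + t + (j : ZMod Q)))) := by
    intro z b
    push_cast
    rw [← Complex.mul_conj', map_mul, map_sum, mul_mul_mul_comm, Finset.sum_mul_sum]
    congr 1
    simp [sq]
  unfold Sq avr Qd av
  push_cast
  have h2 : ∀ z : ZMod Q, ∑ b : Fin 4 → Fin m, ((‖(M : ℂ)⁻¹ * ∑ i ∈ Finset.range M,
        conj (f (b 0) (z + (i : ZMod Q))) * f (b 1) (z + a + (i : ZMod Q)) *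
        f (b 2) (z + t + (i : ZMod Q)) * conj (f (b 3) (z + a + t + (i : ZMod Q)))‖ : ℂ)) ^ 2 =
      ((M : ℂ) ^ 2)⁻¹ * ∑ i ∈ Finset.range M, ∑ j ∈ Finset.range M,
        conj (wij f i j z) * wij f i j (z + a) * wij f i j (z + t) *
          conj (wij f i j (z + a + t)) := by
    intro z
    have h3 : ∀ b : Fin 4 → Fin m, ((‖(M : ℂ)⁻¹ * ∑ i ∈ Finset.range M,
        conj (f (b 0) (z + (i : ZMod Q))) * f (b 1) (z + a + (i : ZMod Q)) *
        f (b 2) (z + t + (i : ZMod Q)) * conj (f (b 3) (z + a + t + (i : ZMod Q)))‖ : ℂ)) ^ 2 =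
        ((M : ℂ) ^ 2)⁻¹ * ∑ i ∈ Finset.range M, ∑ j ∈ Finset.range M,
      (conj (f (b 0) (z + (i : ZMod Q))) * f (b 1) (z + a + (i : ZMod Q)) *
        f (b 2) (z + t + (i : ZMod Q)) * conj (f (b 3) (z + a + t + (i : ZMod Q)))) *
      conj (conj (f (b 0) (z + (j : ZMod Q))) * f (b 1) (z + a + (j : ZMod Q)) *
        f (b 2) (z + t + (j : ZMod Q)) * conj (f (b 3) (z + a + t + (j : ZMod Q)))) := by
      intro b
      rw [← h1 z b]
      push_cast
      rfl
    rw [Finset.sum_congr rfl fun b _ => h3 b, ← Finset.mul_sum, Finset.sum_comm]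
    congr 1
    refine Finset.sum_congr rfl fun i _ => ?_
    rw [Finset.sum_comm]
    refine Finset.sum_congr rfl fun j _ => ?_
    exact label_sum f i j a t z
  rw [Finset.sum_congr rfl fun z _ => h2 z, ← Finset.mul_sum, Finset.sum_comm, mul_left_comm]
  congr 1
  rw [Finset.mul_sum]
  refine Finset.sum_congr rfl fun i _ => ?_
  rw [Finset.sum_comm, Finset.mul_sum]

private theorem norm_Qd {Q : ℕ} [NeZero Q] {W : ZMod Q → ℂ} {B : ℝ} (hB : 0 ≤ B)
    (hW : ∀ z, ‖W z‖ ≤ B) (a t : ZMod Q) : ‖Qd W a t‖ ≤ B ^ 4 := by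
  unfold Qd av
  have hQ : (0 : ℝ) < Q := by exact_mod_cast Nat.pos_of_ne_zero (NeZero.ne Q)
  rw [norm_mul, norm_inv, Complex.norm_natCast, inv_mul_le_iff₀ hQ]
  refine (norm_sum_le _ _).trans ?_
  calc ∑ z : ZMod Q, ‖conj (W z) * W (z + a) * W (z + t) * conj (W (z + a + t))‖
      ≤ ∑ _z : ZMod Q, B ^ 4 := by
        refine Finset.sum_le_sum fun z _ => ?_
        rw [norm_mul, norm_mul, norm_mul, RCLike.norm_conj, RCLike.norm_conj,
          show B ^ 4 = B * B * B * B by ring]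
        have h0 : ∀ y, 0 ≤ ‖W y‖ := fun y => norm_nonneg _
        gcongr <;> apply hW
    _ = Q * B ^ 4 := by
        rw [Finset.sum_const, Finset.card_univ, ZMod.card, nsmul_eq_mul]

private theorem norm_uav {Q : ℕ} [NeZero Q] {Φ : (ZMod Q)ˣ → (ZMod Q)ˣ → ℂ} {B : ℝ}
    (h : ∀ u u', ‖Φ u u'‖ ≤ B) : ‖uav Φ‖ ≤ B := by
  unfold uav
  have hQ : 0 < Q.totient := Nat.totient_pos.2 (Nat.pos_of_ne_zero (NeZero.ne Q))
  have hQ' : (0 : ℝ) < (Q.totient : ℝ) ^ 2 := by positivity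
  rw [norm_mul, norm_inv, norm_pow, Complex.norm_natCast, inv_mul_le_iff₀ hQ']
  refine (norm_sum_le _ _).trans ?_
  calc ∑ u : (ZMod Q)ˣ, ‖∑ u', Φ u u'‖ ≤ ∑ _u : (ZMod Q)ˣ, (Q.totient : ℝ) * B := by
        refine Finset.sum_le_sum fun u _ => (norm_sum_le _ _).trans ?_
        calc ∑ u' : (ZMod Q)ˣ, ‖Φ u u'‖ ≤ ∑ _u' : (ZMod Q)ˣ, B :=
              Finset.sum_le_sum fun u' _ => h u u'
          _ = (Q.totient : ℝ) * B := by
              rw [Finset.sum_const, Finset.card_univ, ZMod.card_units_eq_totient, nsmul_eq_mul]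
    _ = (Q.totient : ℝ) ^ 2 * B := by
        rw [Finset.sum_const, Finset.card_univ, ZMod.card_units_eq_totient, nsmul_eq_mul]
        ring

private theorem sum_gap (g : ℕ → ℝ) (hg : ∀ D, 0 ≤ g D) (M i : ℕ) :
    ∑ j ∈ Finset.range M, (if i < j then g (j - i) else 0) ≤ ∑ D ∈ Finset.Ico 1 M, g D := by
  rw [← Finset.sum_filter]
  have hinj : Set.InjOn (fun j => j - i) ((Finset.range M).filter (fun j => i < j) : Set ℕ) := by
    intro a ha b hb hab
    simp only [Finset.coe_filter, Finset.mem_range, Set.mem_ofPred_eq] at ha hb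
    simp only at hab
    omega
  rw [← Finset.sum_image (f := g) (g := fun j => j - i) hinj]
  refine Finset.sum_le_sum_of_subset_of_nonneg ?_ fun D _ _ => hg D
  intro D hD
  simp only [Finset.mem_image, Finset.mem_filter, Finset.mem_range] at hD
  obtain ⟨j, ⟨h1, h2⟩, h3⟩ := hD
  simp only [Finset.mem_Ico]
  omega

private theorem sum_gap' (g : ℕ → ℝ) (hg : ∀ D, 0 ≤ g D) (M i : ℕ) (hi : i < M) :
    ∑ j ∈ Finset.range M, (if j < i then g (i - j) else 0) ≤ ∑ D ∈ Finset.Ico 1 M, g D := by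
  rw [← Finset.sum_filter]
  have hinj : Set.InjOn (fun j => i - j) ((Finset.range M).filter (fun j => j < i) : Set ℕ) := by
    intro a ha b hb hab
    simp only [Finset.coe_filter, Finset.mem_range, Set.mem_ofPred_eq] at ha hb
    simp only at hab
    omega
  rw [← Finset.sum_image (f := g) (g := fun j => i - j) hinj]
  refine Finset.sum_le_sum_of_subset_of_nonneg ?_ fun D _ _ => hg D
  intro D hD
  simp only [Finset.mem_image, Finset.mem_filter, Finset.mem_range] at hD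
  obtain ⟨j, ⟨h1, h2⟩, h3⟩ := hD
  simp only [Finset.mem_Ico]
  omega

private theorem sum_swap4 {α β : Type*} (s : Finset α) (s' : Finset β) (I J : Finset ℕ)
    (F : α → β → ℕ → ℕ → ℂ) :
    ∑ u ∈ s, ∑ u' ∈ s', ∑ i ∈ I, ∑ j ∈ J, F u u' i j =
      ∑ i ∈ I, ∑ j ∈ J, ∑ u ∈ s, ∑ u' ∈ s', F u u' i j := by
  calc ∑ u ∈ s, ∑ u' ∈ s', ∑ i ∈ I, ∑ j ∈ J, F u u' i j
      = ∑ u ∈ s, ∑ i ∈ I, ∑ u' ∈ s', ∑ j ∈ J, F u u' i j :=
        Finset.sum_congr rfl fun u _ => Finset.sum_comm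
    _ = ∑ u ∈ s, ∑ i ∈ I, ∑ j ∈ J, ∑ u' ∈ s', F u u' i j :=
        Finset.sum_congr rfl fun u _ => Finset.sum_congr rfl fun i _ => Finset.sum_comm
    _ = ∑ i ∈ I, ∑ u ∈ s, ∑ j ∈ J, ∑ u' ∈ s', F u u' i j := Finset.sum_comm
    _ = ∑ i ∈ I, ∑ j ∈ J, ∑ u ∈ s, ∑ u' ∈ s', F u u' i j :=
        Finset.sum_congr rfl fun i _ => Finset.sum_comm

/-- Expand the square in `Sq`; the sum over the four labels factorizes:
`Sq f M a t = (1/M²) ∑_{i,i'<M} Qd W_{i,i'} a t` with `W_{i,i'} z = ∑_b f_b(z+i) conj (f_b(z+i'))`.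
For `i < i'`: `W_{i,i'} z = wd f (i'-i) (z+i)`, so `|fh W_{i,i'} χ| = |fh (wd f (i'-i)) χ|`; for
`i > i'` the conjugate of the exchanged one; the diagonal terms are at most `(4m)^4`. -/
theorem SA (m : ℕ) {e d : ℕ} (he : 1 ≤ e) (hd : 1 ≤ d) {τ : ℝ} (hτ : 0 < τ) :
    ∃ C : ℝ, 0 ≤ C ∧ ∀ (Q : ℕ) [NeZero Q] (f : Fin m → ZMod Q → ℂ), (∀ b z, ‖f b z‖ ≤ 2) →
      ∀ M : ℕ, 1 ≤ M → ∀ s : ℕ → ℝ,
      (∀ D : ℕ, 1 ≤ D → D < M → ∀ χ : AddChar (ZMod Q) ℂ, ‖fh (wd f D) χ‖ ≤ s D) →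
      ((Q.totient : ℝ) ^ 2)⁻¹ * ∑ u : (ZMod Q)ˣ, ∑ u' : (ZMod Q)ˣ,
        Sq f M ((u' : ZMod Q) * (e : ZMod Q))
          ((u' : ZMod Q) * ((u⁻¹ : (ZMod Q)ˣ) : ZMod Q) * (d : ZMod Q)) ≤
      (4 * m : ℝ) ^ 4 / M + τ + (2 * C / M) * ∑ D ∈ Finset.Ico 1 M, s D ^ 2 := by
  have hB : (0 : ℝ) ≤ 4 * m := by positivity
  obtain ⟨C, hC, hUA⟩ := UA hB he hd hτ
  refine ⟨C, hC, ?_⟩
  intro Q _ f hf M hM s hs
  have hM' : (0 : ℝ) < M := by exact_mod_cast hM
  set A : ℕ → ℕ → ℂ := fun i j => uav (fun u u' : (ZMod Q)ˣ => Qd (wij f i j)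
    ((u' : ZMod Q) * (e : ZMod Q))
    ((u' : ZMod Q) * ((u⁻¹ : (ZMod Q)ˣ) : ZMod Q) * (d : ZMod Q))) with hA
  set S := ∑ D ∈ Finset.Ico 1 M, s D ^ 2 with hS
  have hS0 : 0 ≤ S := Finset.sum_nonneg fun D _ => sq_nonneg _
  -- the complex identity
  have hL : ((((Q.totient : ℝ) ^ 2)⁻¹ * ∑ u : (ZMod Q)ˣ, ∑ u' : (ZMod Q)ˣ,
        Sq f M ((u' : ZMod Q) * (e : ZMod Q))
          ((u' : ZMod Q) * ((u⁻¹ : (ZMod Q)ˣ) : ZMod Q) * (d : ZMod Q)) : ℝ) : ℂ) =
      ((M : ℂ) ^ 2)⁻¹ * ∑ i ∈ Finset.range M, ∑ j ∈ Finset.range M, A i j := by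
    rw [hA]
    unfold uav
    push_cast
    simp only [Sq_eq]
    simp only [← Finset.mul_sum]
    rw [sum_swap4, mul_left_comm]
  -- the bound of the terms
  set T : ℕ → ℕ → ℝ := fun i j => (if i = j then (4 * m : ℝ) ^ 4 else 0) +
    (τ + C * ((if i < j then s (j - i) ^ 2 else 0) + (if j < i then s (i - j) ^ 2 else 0)))
    with hT
  have hterm : ∀ i ∈ Finset.range M, ∀ j ∈ Finset.range M, ‖A i j‖ ≤ T i j := by
    intro i hi j hj
    rw [Finset.mem_range] at hi hj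
    have h4 : (0 : ℝ) ≤ (4 * m : ℝ) ^ 4 := by positivity
    rcases lt_trichotomy i j with hij | hij | hij
    · have h1 := hUA Q (wij f i j) (norm_wij hf i j) (s (j - i)) (fun χ => by
        rw [fh_wij f hij]
        exact hs (j - i) (by omega) (by omega) χ)
      rw [hT]
      simp only [hij, hij.ne, if_true, if_false, hij.not_gt, add_zero, zero_add]
      exact h1
    · subst hij
      have h1 : ‖A i i‖ ≤ (4 * m : ℝ) ^ 4 :=
        norm_uav fun u u' => norm_Qd hB (norm_wij hf i i) _ _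
      rw [hT]
      simp only [lt_irrefl, if_true, if_false, add_zero, mul_zero]
      linarith
    · have h1 := hUA Q (wij f i j) (norm_wij hf i j) (s (i - j)) (fun χ => by
        rw [wij_conj f i j, fh_conj, fh_wij f hij]
        exact hs (i - j) (by omega) (by omega) _)
      rw [hT]
      simp only [hij, hij.ne', if_true, if_false, hij.not_gt, zero_add]
      exact h1
  have hrow : ∀ i ∈ Finset.range M, ∑ j ∈ Finset.range M, T i j ≤
      (4 * m : ℝ) ^ 4 + (M * τ + C * (2 * S)) := by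
    intro i hi
    rw [hT]
    simp only
    rw [Finset.sum_add_distrib, Finset.sum_add_distrib, Finset.sum_ite_eq, if_pos hi,
      Finset.sum_const, Finset.card_range, nsmul_eq_mul, ← Finset.mul_sum,
      Finset.sum_add_distrib]
    have h1 := sum_gap (fun D => s D ^ 2) (fun D => sq_nonneg _) M i
    have h2 := sum_gap' (fun D => s D ^ 2) (fun D => sq_nonneg _) M i (Finset.mem_range.1 hi)
    have h3 : C * ((∑ j ∈ Finset.range M, (if i < j then s (j - i) ^ 2 else 0)) +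
        ∑ j ∈ Finset.range M, (if j < i then s (i - j) ^ 2 else 0)) ≤ C * (2 * S) := by
      apply mul_le_mul_of_nonneg_left _ hC
      rw [hS]
      linarith
    linarith
  have hsum : ‖∑ i ∈ Finset.range M, ∑ j ∈ Finset.range M, A i j‖ ≤
      M * ((4 * m : ℝ) ^ 4 + (M * τ + C * (2 * S))) := by
    refine (norm_sum_le _ _).trans ?_
    calc ∑ i ∈ Finset.range M, ‖∑ j ∈ Finset.range M, A i j‖
        ≤ ∑ _i ∈ Finset.range M, ((4 * m : ℝ) ^ 4 + (M * τ + C * (2 * S))) := by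
          refine Finset.sum_le_sum fun i hi => ?_
          refine (norm_sum_le _ _).trans ?_
          exact (Finset.sum_le_sum fun j hj => hterm i hi j hj).trans (hrow i hi)
      _ = M * ((4 * m : ℝ) ^ 4 + (M * τ + C * (2 * S))) := by
          rw [Finset.sum_const, Finset.card_range, nsmul_eq_mul]
  have hfin := congrArg norm hL
  rw [norm_mul, norm_inv, norm_pow, Complex.norm_natCast, Complex.norm_real] at hfin
  have h5 := (Real.le_norm_self _).trans hfin.le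
  refine h5.trans ?_
  calc ((M : ℝ) ^ 2)⁻¹ * ‖∑ i ∈ Finset.range M, ∑ j ∈ Finset.range M, A i j‖
      ≤ ((M : ℝ) ^ 2)⁻¹ * (M * ((4 * m : ℝ) ^ 4 + (M * τ + C * (2 * S)))) := by
        apply mul_le_mul_of_nonneg_left hsum
        positivity
    _ = (4 * m : ℝ) ^ 4 / M + τ + (2 * C / M) * S := by
        field_simp
        ring

end Pool.Agent.Ef
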