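import Pool.Agent.Ef.TDefs

/-! MP_13664e_an (ELFR), module TA1: words over words, the mixing condition for the shifted
system. -/

set_option autoImplicit false

namespace Pool.Agent.Ef

open Filter Topology

theorem TA1_len (lam : ℕ → ℕ) (K j : ℕ) :
    Lp lam (K + j) = Lp lam K * Lp (fun i => lam (K + i)) j :=
  Finset.prod_range_add _ _ _

/-- `W_{K+j}(b)` is the concatenation of the words `W_K(a_v)`, `a_v` the letters of the level `j` word
`b` of the system shifted by `K` -/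
theorem TA1_word {A : Type*} {lam : ℕ → ℕ} (hlam : ∀ i, 2 ≤ lam i) (π : ℕ → ℕ → Equiv.Perm A)
    (K j : ℕ) (b : A) {r v : ℕ} (hr : r < Lp lam K) (hv : v < Lp (fun i => lam (K + i)) j) :
    Wd lam π (K + j) b (r + Lp lam K * v) =
      Wd lam π K (Wd (fun i => lam (K + i)) (fun i => π (K + i)) j b v) r := by
  induction j generalizing b v with
  | zero =>
    have h0 : v = 0 := by
      have : Lp (fun i => lam (K + i)) 0 = 1 := rfl
      omega
    subst h0
    rfl
  | succ j ih =>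
    have hK : 1 ≤ Lp lam K := Lp_pos hlam K
    have hM : 1 ≤ Lp (fun i => lam (K + i)) j := Lp_pos (fun i => hlam _) j
    have h1 : (r + Lp lam K * v) / Lp lam K = v := by
      rw [Nat.add_mul_div_left _ _ hK, Nat.div_eq_of_lt hr, Nat.zero_add]
    have h2 : (r + Lp lam K * v) / Lp lam (K + j) = v / Lp (fun i => lam (K + i)) j := by
      rw [TA1_len, ← Nat.div_div_eq_div_mul, h1]
    have h3 : (r + Lp lam K * v) % Lp lam (K + j) =
        r + Lp lam K * (v % Lp (fun i => lam (K + i)) j) := by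
      rw [TA1_len, Nat.mod_mul, h1, Nat.add_mul_mod_self_left, Nat.mod_eq_of_lt hr]
    show Wd lam π (K + j) (π (K + j) ((r + Lp lam K * v) / Lp lam (K + j)) b)
      ((r + Lp lam K * v) % Lp lam (K + j)) = Wd lam π K (Wd (fun i => lam (K + i))
        (fun i => π (K + i)) j (π (K + j) (v / Lp (fun i => lam (K + i)) j) b)
          (v % Lp (fun i => lam (K + i)) j)) r
    rw [h2, h3]
    exact ih _ (Nat.mod_lt _ hM)

/-- for fixed `r < L_k` the map `a ↦ W_k(a)_r` is a bijection -/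
theorem TA1_bij {A : Type*} {lam : ℕ → ℕ} (hlam : ∀ i, 2 ≤ lam i) (π : ℕ → ℕ → Equiv.Perm A)
    (k : ℕ) {r : ℕ} (hr : r < Lp lam k) : Function.Bijective (fun a => Wd lam π k a r) := by
  induction k generalizing r with
  | zero => exact Function.bijective_id
  | succ k ih =>
    have h1 : Function.Bijective (fun a => Wd lam π k a (r % Lp lam k)) :=
      ih (Nat.mod_lt _ (Lp_pos hlam k))
    exact h1.comp (π k (r / Lp lam k)).bijective

private theorem sum_dvd (Q M : ℕ) (hQ : 1 ≤ Q) (g : ℕ → ℂ) :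
    ∑ r ∈ Finset.range (Q * M), (if Q ∣ r then g r else 0) =
      ∑ v ∈ Finset.range M, g (Q * v) := by
  induction M with
  | zero => simp
  | succ M ih =>
    rw [Nat.mul_succ, Finset.sum_range_add, ih, Finset.sum_range_succ]
    congr 1
    rw [Finset.sum_eq_single 0]
    · rw [Nat.add_zero, if_pos (Dvd.intro _ rfl)]
    · intro x hx hx0
      rw [if_neg]
      intro hd
      have h1 : Q ∣ x := (Nat.dvd_add_right (Dvd.intro M rfl)).1 hd
      exact absurd (Nat.le_of_dvd (Nat.pos_of_ne_zero hx0) h1)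
        (not_le.2 (Finset.mem_range.1 hx))
    · intro h
      exact absurd (Finset.mem_range.2 hQ) h

private theorem root_sum {Q : ℕ} {ω : ℂ} (hω : IsPrimitiveRoot ω Q) (r : ℕ) :
    ∑ t ∈ Finset.range Q, (ω ^ t) ^ r = if Q ∣ r then (Q : ℂ) else 0 := by
  have h0 : ∀ t, (ω ^ t) ^ r = (ω ^ r) ^ t := fun t => by rw [← pow_mul, ← pow_mul, mul_comm]
  rw [Finset.sum_congr rfl (fun t _ => h0 t)]
  split_ifs with h
  · rw [(hω.pow_eq_one_iff_dvd r).2 h]
    simp
  · have h1 : ω ^ r ≠ 1 := fun h2 => h ((hω.pow_eq_one_iff_dvd r).1 h2)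
    rw [geom_sum_eq h1, ← pow_mul, mul_comm r Q, pow_mul, hω.pow_eq_one, one_pow, sub_self,
      zero_div]

/-- The mixing condition passes to the shifted system: choose `z0 ^ L_K = z`, use
`1[L_K ∣ r] = (1/L_K) ∑_{t < L_K} ω^(t r)` with `ω = exp (2 π i / L_K)`, and
`1[a_v = a] = 1[W_K(a_v)_0 = W_K(a)_0]`. -/
theorem TA1_mix {A : Type*} [Fintype A] {lam : ℕ → ℕ} (hlam : ∀ i, 2 ≤ lam i)
    {π : ℕ → ℕ → Equiv.Perm A} (hM : Mix lam π) (K : ℕ) :
    Mix (fun i => lam (K + i)) (fun i => π (K + i)) := by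
  classical
  intro a b z hz
  have hQ : 1 ≤ Lp lam K := Lp_pos hlam K
  have hQ0 : Lp lam K ≠ 0 := by omega
  obtain ⟨z0, hz0⟩ := IsAlgClosed.exists_pow_nat_eq z (Nat.pos_of_ne_zero hQ0)
  have hz0n : ‖z0‖ = 1 := by
    have h1 : ‖z0‖ ^ Lp lam K = 1 := by rw [← norm_pow, hz0, hz]
    exact (pow_eq_one_iff_of_nonneg (norm_nonneg _) hQ0).1 h1
  have hω : IsPrimitiveRoot (Complex.exp (2 * Real.pi * Complex.I / Lp lam K)) (Lp lam K) :=
    Complex.isPrimitiveRoot_exp _ hQ0
  set ω : ℂ := Complex.exp (2 * Real.pi * Complex.I / Lp lam K) with hωdef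
  have hωn : ‖ω‖ = 1 := by
    have h1 : ‖ω‖ ^ Lp lam K = 1 := by rw [← norm_pow, hω.pow_eq_one, norm_one]
    exact (pow_eq_one_iff_of_nonneg (norm_nonneg _) hQ0).1 h1
  have hlim : Tendsto (fun j : ℕ => ∑ t ∈ Finset.range (Lp lam K), (Lp lam (K + j) : ℂ)⁻¹ *
      ∑ r ∈ Finset.range (Lp lam (K + j)),
        ((if Wd lam π (K + j) a r = Wd lam π K b 0 then 1 else 0) - (Fintype.card A : ℂ)⁻¹) *
          (z0 * ω ^ t) ^ r) atTop (𝓝 (∑ _t ∈ Finset.range (Lp lam K), (0 : ℂ))) := by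
    refine tendsto_finsetSum _ fun t _ => ?_
    have h1 := hM a (Wd lam π K b 0) (z0 * ω ^ t) (by
      rw [norm_mul, norm_pow, hz0n, hωn, one_pow, mul_one])
    have h2 : Tendsto (fun j : ℕ => K + j) atTop atTop :=
      tendsto_atTop_mono (fun j => Nat.le_add_left j K) tendsto_id
    have h3 := h1.comp h2
    refine h3.congr fun j => ?_
    simp only [Function.comp_apply]
  rw [Finset.sum_const_zero] at hlim
  refine hlim.congr fun j => ?_
  set M : ℕ := Lp (fun i => lam (K + i)) j with hMdef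
  have hMpos : 1 ≤ M := Lp_pos (fun i => hlam _) j
  have hlen : Lp lam (K + j) = Lp lam K * M := TA1_len lam K j
  rw [← Finset.mul_sum, Finset.sum_comm]
  have h4 : ∀ r, ∑ t ∈ Finset.range (Lp lam K),
      ((if Wd lam π (K + j) a r = Wd lam π K b 0 then 1 else 0) - (Fintype.card A : ℂ)⁻¹) *
          (z0 * ω ^ t) ^ r =
      if Lp lam K ∣ r then
        ((if Wd lam π (K + j) a r = Wd lam π K b 0 then 1 else 0) - (Fintype.card A : ℂ)⁻¹) *
          z0 ^ r * (Lp lam K : ℂ) else 0 := by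
    intro r
    rw [← Finset.mul_sum]
    have h5 : ∑ t ∈ Finset.range (Lp lam K), (z0 * ω ^ t) ^ r =
        z0 ^ r * ∑ t ∈ Finset.range (Lp lam K), (ω ^ t) ^ r := by
      rw [Finset.mul_sum]
      exact Finset.sum_congr rfl fun t _ => mul_pow _ _ _
    rw [h5, root_sum hω]
    split_ifs <;> ring
  rw [Finset.sum_congr rfl (fun r _ => h4 r), hlen, sum_dvd _ _ hQ]
  have h6 : ∀ v ∈ Finset.range M,
      ((if Wd lam π (K + j) a (Lp lam K * v) = Wd lam π K b 0 then 1 else 0) -
        (Fintype.card A : ℂ)⁻¹) * z0 ^ (Lp lam K * v) * (Lp lam K : ℂ) =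
      (Lp lam K : ℂ) * (((if Wd (fun i => lam (K + i)) (fun i => π (K + i)) j a v = b then 1
        else 0) - (Fintype.card A : ℂ)⁻¹) * z ^ v) := by
    intro v hv
    have h7 : Wd lam π (K + j) a (Lp lam K * v) =
        Wd lam π K (Wd (fun i => lam (K + i)) (fun i => π (K + i)) j a v) 0 := by
      have := TA1_word hlam π K j a (r := 0) (v := v) hQ (Finset.mem_range.1 hv)
      rwa [Nat.zero_add] at this
    have h8 : (Wd lam π (K + j) a (Lp lam K * v) = Wd lam π K b 0) ↔
        (Wd (fun i => lam (K + i)) (fun i => π (K + i)) j a v = b) := by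
      rw [h7]
      constructor
      · intro h
        exact (TA1_bij hlam π K (r := 0) hQ).1 h
      · intro h
        rw [h]
    have h9 : (if Wd lam π (K + j) a (Lp lam K * v) = Wd lam π K b 0 then (1 : ℂ) else 0) =
        (if Wd (fun i => lam (K + i)) (fun i => π (K + i)) j a v = b then (1 : ℂ) else 0) := by
      by_cases hc : Wd (fun i => lam (K + i)) (fun i => π (K + i)) j a v = b
      · rw [if_pos hc, if_pos (h8.2 hc)]
      · rw [if_neg hc, if_neg (fun h => hc (h8.1 h))]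
    rw [h9, pow_mul, hz0]
    ring
  rw [Finset.sum_congr rfl h6, ← Finset.mul_sum]
  have hQc : (Lp lam K : ℂ) ≠ 0 := by exact_mod_cast hQ0
  rw [Nat.cast_mul, mul_inv, mul_comm ((Lp lam K : ℂ)⁻¹), mul_assoc, ← mul_assoc _ (Lp lam K : ℂ),
    inv_mul_cancel₀ hQc, one_mul]

end Pool.Agent.Ef
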