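import Pool.Agent.Ef.TA1

/-! MP_13664e_an (ELFR), module TA2: averages of window functions over long words. -/

set_option autoImplicit false

namespace Pool.Agent.Ef

open Filter Topology

private theorem sum_block (f : ℕ → ℂ) (Q M : ℕ) :
    ∑ r ∈ Finset.range (Q * M), f r =
      ∑ v ∈ Finset.range M, ∑ r ∈ Finset.range Q, f (r + Q * v) := by
  induction M with
  | zero => simp
  | succ M ih =>
    rw [Nat.mul_succ, Finset.sum_range_add, ih, Finset.sum_range_succ]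
    congr 1
    exact Finset.sum_congr rfl fun r _ => by rw [Nat.add_comm]

private theorem Lp_ge {lam : ℕ → ℕ} (hlam : ∀ i, 2 ≤ lam i) (j : ℕ) : 2 ^ j ≤ Lp lam j := by
  induction j with
  | zero => exact le_rfl
  | succ j ih =>
    rw [Lp_succ, pow_succ]
    exact Nat.mul_le_mul ih (hlam j)

private theorem Lp_inv {lam : ℕ → ℕ} (hlam : ∀ i, 2 ≤ lam i) :
    Tendsto (fun j : ℕ => ((Lp lam j : ℝ))⁻¹) atTop (𝓝 0) := by
  have h1 : Tendsto (Lp lam) atTop atTop :=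
    tendsto_atTop_mono (fun j => (Nat.lt_two_pow_self (n := j)).le.trans (Lp_ge hlam j)) tendsto_id
  exact tendsto_inv_atTop_zero.comp (tendsto_natCast_atTop_atTop.comp h1)

open Classical in
/-- the common part: `ℓ` is the limit of the twisted frequencies of all letters -/
private theorem core {X A : Type*} [Fintype A] {T : X → X} {lam : ℕ → ℕ} (hlam : ∀ i, 2 ≤ lam i)
    {π : ℕ → ℕ → Equiv.Perm A} {ph : ℕ → X → ℕ} (hP : Ph T (Lp lam) ph)
    {s : X → A} (hB : BJ T lam π ph s) {k0 w : ℕ} {F : X → ℂ} (hF : Win T ph s k0 w F) {B : ℝ}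
    (hFB : ∀ x, ‖F x‖ ≤ B) {z : ℂ} (hz : ‖z‖ = 1) (ℓ : ℂ)
    (hℓ : ∀ (K : ℕ) (b a : A), Tendsto (fun j : ℕ => (Lp (fun i => lam (K + i)) j : ℂ)⁻¹ *
      ∑ v ∈ Finset.range (Lp (fun i => lam (K + i)) j),
        (if Wd (fun i => lam (K + i)) (fun i => π (K + i)) j b v = a then (1 : ℂ) else 0) *
          (z ^ Lp lam K) ^ v) atTop (𝓝 ℓ)) {ε : ℝ} (hε : 0 < ε) :
    ∃ (K : ℕ) (c : ℂ), ∀ x, ph K x = 0 →
      ‖(Lp lam K : ℂ)⁻¹ * ∑ r ∈ Finset.range (Lp lam K), F (T^[r] x) * z ^ r - c * ℓ‖ ≤ ε := by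
  set B' : ℝ := |B| + 1 with hB'
  have hB'0 : 0 < B' := by positivity
  have hFB' : ∀ x, ‖F x‖ ≤ B' := fun x => (hFB x).trans (by
    have := le_abs_self B
    linarith)
  -- choice of the first level
  obtain ⟨K1, hK1a, hK1b, hK1c⟩ : ∃ K1, k0 ≤ K1 ∧ 2 * w < Lp lam K1 ∧
      (2 * w : ℝ) * B' ≤ ε / 2 * (Lp lam K1 : ℝ) := by
    obtain ⟨N, hN⟩ := exists_nat_ge ((2 * w : ℝ) * B' / (ε / 2))
    have h1 := (hP.lim.eventually_ge_atTop (max N (2 * w + 1))).and (eventually_ge_atTop k0)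
    obtain ⟨K1, h2, h3⟩ := h1.exists
    refine ⟨K1, h3, ?_, ?_⟩
    · have := (le_max_right N (2 * w + 1)).trans h2
      omega
    · have h4 : (N : ℝ) ≤ Lp lam K1 := by exact_mod_cast (le_max_left N (2 * w + 1)).trans h2
      have h5 := (div_le_iff₀ (by positivity)).1 (hN.trans h4)
      linarith
  set Q : ℕ := Lp lam K1 with hQdef
  have hQ1 : 1 ≤ Q := Lp_pos hlam K1
  have hQr : (0 : ℝ) < Q := by exact_mod_cast hQ1
  -- the function of position and letter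
  let Pr : X → A → Prop := fun x a => ph K1 x = 0 ∧ ∀ r < Q, s (T^[r] x) = Wd lam π K1 a r
  let Θ : ℕ → A → ℂ := fun r a => if h : ∃ x, Pr x a then F (T^[r] h.choose) else 0
  have hΘ : ∀ (x : X) (a : A) (r : ℕ), Pr x a → r + 2 * w < Q → F (T^[r] x) = Θ r a := by
    intro x a r hx hr
    have hex : ∃ x, Pr x a := ⟨x, hx⟩
    show F (T^[r] x) = if h : ∃ x, Pr x a then F (T^[r] h.choose) else 0
    rw [dif_pos hex]
    have hy : Pr hex.choose a := hex.choose_spec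
    refine hF _ _ ?_ ?_
    · rw [hP.iter, hP.iter, hP.comp_le hK1a x, hP.comp_le hK1a hex.choose, hx.1, hy.1]
    · intro i hi
      rw [← Function.iterate_add_apply, ← Function.iterate_add_apply, hx.2 (i + r) (by omega),
        hy.2 (i + r) (by omega)]
  have hΘB : ∀ r a, ‖Θ r a‖ ≤ B' := by
    intro r a
    show ‖if h : ∃ x, Pr x a then F (T^[r] h.choose) else 0‖ ≤ B'
    split_ifs with h
    · exact hFB' _
    · rw [norm_zero]
      exact hB'0.le
  -- choice of the second level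
  set η : ℝ := ε / (2 * (B' * (Fintype.card A + 1))) with hη
  have hη0 : 0 < η := by positivity
  have hev : ∀ᶠ j : ℕ in atTop, ∀ b a : A, ‖(Lp (fun i => lam (K1 + i)) j : ℂ)⁻¹ *
      ∑ v ∈ Finset.range (Lp (fun i => lam (K1 + i)) j),
        (if Wd (fun i => lam (K1 + i)) (fun i => π (K1 + i)) j b v = a then (1 : ℂ) else 0) *
          (z ^ Lp lam K1) ^ v - ℓ‖ ≤ η := by
    rw [eventually_all]
    intro b
    rw [eventually_all]
    intro a
    have h1 := (tendsto_iff_norm_sub_tendsto_zero.1 (hℓ K1 b a)).eventually_le_const hη0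
    exact h1
  obtain ⟨j, hj⟩ := hev.exists
  set M : ℕ := Lp (fun i => lam (K1 + i)) j with hMdef
  have hM1 : 1 ≤ M := Lp_pos (fun i => hlam _) j
  have hMr : (0 : ℝ) < M := by exact_mod_cast hM1
  have hlen : Lp lam (K1 + j) = Q * M := TA1_len lam K1 j
  refine ⟨K1 + j, (Q : ℂ)⁻¹ * ∑ r ∈ Finset.range (Q - 2 * w), z ^ r * ∑ a, Θ r a, fun x hx => ?_⟩
  obtain ⟨b, hb⟩ := hB (K1 + j) x hx
  rw [hlen] at hb
  rw [hlen]
  set a : ℕ → A := fun v => Wd (fun i => lam (K1 + i)) (fun i => π (K1 + i)) j b v with ha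
  have hblock : ∀ v < M, Pr (T^[Q * v] x) (a v) := by
    intro v hv
    refine ⟨?_, fun r hr => ?_⟩
    · rw [hP.iter, hP.comp_le (Nat.le_add_right K1 j) x, hx, Nat.zero_mod, Nat.zero_add]
      exact Nat.mul_mod_right _ _
    · rw [← Function.iterate_add_apply, hb (r + Q * v) ?_]
      · exact TA1_word hlam π K1 j b hr hv
      · calc r + Q * v < Q + Q * v := by omega
          _ = Q * (v + 1) := by ring
          _ ≤ Q * M := Nat.mul_le_mul_left _ hv
  set φ : A → ℂ := fun a' => (M : ℂ)⁻¹ * ∑ v ∈ Finset.range M,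
    (if a v = a' then (1 : ℂ) else 0) * (z ^ Q) ^ v with hφ
  have hφη : ∀ a', ‖φ a' - ℓ‖ ≤ η := fun a' => hj b a'
  have hMc : (M : ℂ) ≠ 0 := by exact_mod_cast (by omega : M ≠ 0)
  have hQc : (Q : ℂ) ≠ 0 := by exact_mod_cast (by omega : Q ≠ 0)
  -- main part
  have hmain : ∑ v ∈ Finset.range M, ∑ r ∈ Finset.range (Q - 2 * w),
      F (T^[r + Q * v] x) * z ^ (r + Q * v) =
      (M : ℂ) * ∑ r ∈ Finset.range (Q - 2 * w), z ^ r * ∑ a', Θ r a' * φ a' := by
    rw [Finset.sum_comm, Finset.mul_sum]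
    refine Finset.sum_congr rfl fun r hr => ?_
    have hr' : r + 2 * w < Q := by
      have := Finset.mem_range.1 hr
      omega
    have h1 : ∀ v ∈ Finset.range M, F (T^[r + Q * v] x) * z ^ (r + Q * v) =
        z ^ r * ∑ a', Θ r a' * ((if a v = a' then (1 : ℂ) else 0) * (z ^ Q) ^ v) := by
      intro v hv
      rw [Function.iterate_add_apply, hΘ _ (a v) r (hblock v (Finset.mem_range.1 hv)) hr',
        Finset.sum_eq_single (a v)]
      · rw [if_pos rfl, pow_add, pow_mul]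
        ring
      · intro a' _ ha'
        rw [if_neg (Ne.symm ha'), zero_mul, mul_zero]
      · intro h
        exact absurd (Finset.mem_univ _) h
    rw [Finset.sum_congr rfl h1, ← Finset.mul_sum, Finset.sum_comm, mul_left_comm]
    congr 1
    rw [Finset.mul_sum]
    refine Finset.sum_congr rfl fun a' _ => ?_
    rw [← Finset.mul_sum, hφ]
    simp only
    rw [mul_left_comm, ← mul_assoc (M : ℂ), mul_inv_cancel₀ hMc, one_mul]
  -- the rest
  have hsplit : ∑ r ∈ Finset.range (Q * M), F (T^[r] x) * z ^ r =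
      (M : ℂ) * (∑ r ∈ Finset.range (Q - 2 * w), z ^ r * ∑ a', Θ r a' * φ a') +
      ∑ v ∈ Finset.range M, ∑ i ∈ Finset.range (2 * w),
        F (T^[Q - 2 * w + i + Q * v] x) * z ^ (Q - 2 * w + i + Q * v) := by
    rw [sum_block, ← hmain, ← Finset.sum_add_distrib]
    refine Finset.sum_congr rfl fun v _ => ?_
    have h2 : Q = (Q - 2 * w) + 2 * w := by omega
    conv_lhs => rw [h2]
    rw [Finset.sum_range_add]
    rw [← h2]
  have hrest : ‖∑ v ∈ Finset.range M, ∑ i ∈ Finset.range (2 * w),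
      F (T^[Q - 2 * w + i + Q * v] x) * z ^ (Q - 2 * w + i + Q * v)‖ ≤ M * (2 * w * B') := by
    calc _ ≤ ∑ v ∈ Finset.range M, ∑ i ∈ Finset.range (2 * w), B' := by
          refine norm_sum_le_of_le _ fun v _ => norm_sum_le_of_le _ fun i _ => ?_
          rw [norm_mul, norm_pow, hz, one_pow, mul_one]
          exact hFB' _
      _ = M * (2 * w * B') := by
          simp [Finset.sum_const]
  have hfin : ‖∑ r ∈ Finset.range (Q - 2 * w), z ^ r * ∑ a', Θ r a' * φ a' -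
      (∑ r ∈ Finset.range (Q - 2 * w), z ^ r * ∑ a', Θ r a') * ℓ‖ ≤ Q * (ε / 2) := by
    have h3 : ∑ r ∈ Finset.range (Q - 2 * w), z ^ r * ∑ a', Θ r a' * φ a' -
        (∑ r ∈ Finset.range (Q - 2 * w), z ^ r * ∑ a', Θ r a') * ℓ =
        ∑ r ∈ Finset.range (Q - 2 * w), z ^ r * ∑ a', Θ r a' * (φ a' - ℓ) := by
      rw [Finset.sum_mul, ← Finset.sum_sub_distrib]
      refine Finset.sum_congr rfl fun r _ => ?_
      rw [mul_assoc, ← mul_sub, Finset.sum_mul, ← Finset.sum_sub_distrib]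
      congr 1
      exact Finset.sum_congr rfl fun a' _ => by ring
    rw [h3]
    calc _ ≤ ∑ r ∈ Finset.range (Q - 2 * w), (Fintype.card A : ℝ) * (B' * η) := by
          refine norm_sum_le_of_le _ fun r _ => ?_
          rw [norm_mul, norm_pow, hz, one_pow, one_mul]
          refine (norm_sum_le_of_le (f := fun a' => Θ r a' * (φ a' - ℓ)) (n := fun _ => B' * η)
            _ fun a' _ => ?_).trans ?_
          · rw [norm_mul]
            exact mul_le_mul (hΘB _ _) (hφη a') (norm_nonneg _) hB'0.le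
          · rw [Finset.sum_const, Finset.card_univ, nsmul_eq_mul]
      _ = ((Q - 2 * w : ℕ) : ℝ) * ((Fintype.card A : ℝ) * (B' * η)) := by
          rw [Finset.sum_const, Finset.card_range, nsmul_eq_mul]
      _ ≤ Q * (ε / 2) := by
          have h4 : ((Q - 2 * w : ℕ) : ℝ) ≤ Q := by exact_mod_cast Nat.sub_le _ _
          have h5 : (Fintype.card A : ℝ) * (B' * η) ≤ ε / 2 := by
            have h6 : B' * (Fintype.card A + 1) * η = ε / 2 := by
              rw [hη]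
              field_simp
            have h7 : 0 < B' * η := by positivity
            nlinarith
          exact mul_le_mul h4 h5 (by positivity) hQr.le
  have hgoal : ((Q * M : ℕ) : ℂ)⁻¹ * ∑ r ∈ Finset.range (Q * M), F (T^[r] x) * z ^ r -
      (Q : ℂ)⁻¹ * (∑ r ∈ Finset.range (Q - 2 * w), z ^ r * ∑ a', Θ r a') * ℓ =
      (Q : ℂ)⁻¹ * (∑ r ∈ Finset.range (Q - 2 * w), z ^ r * ∑ a', Θ r a' * φ a' -
        (∑ r ∈ Finset.range (Q - 2 * w), z ^ r * ∑ a', Θ r a') * ℓ) +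
      ((Q : ℂ)⁻¹ * (M : ℂ)⁻¹) * ∑ v ∈ Finset.range M, ∑ i ∈ Finset.range (2 * w),
        F (T^[Q - 2 * w + i + Q * v] x) * z ^ (Q - 2 * w + i + Q * v) := by
    rw [hsplit]
    push_cast
    field_simp
    ring
  rw [hgoal]
  refine (norm_add_le _ _).trans ?_
  have hn1 : ‖(Q : ℂ)⁻¹‖ = (Q : ℝ)⁻¹ := by rw [norm_inv, Complex.norm_natCast]
  have hn2 : ‖(M : ℂ)⁻¹‖ = (M : ℝ)⁻¹ := by rw [norm_inv, Complex.norm_natCast]
  rw [norm_mul, norm_mul, norm_mul, hn1, hn2]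
  have h8 : (Q : ℝ)⁻¹ * ‖∑ r ∈ Finset.range (Q - 2 * w), z ^ r * ∑ a', Θ r a' * φ a' -
      (∑ r ∈ Finset.range (Q - 2 * w), z ^ r * ∑ a', Θ r a') * ℓ‖ ≤ ε / 2 := by
    calc _ ≤ (Q : ℝ)⁻¹ * (Q * (ε / 2)) := mul_le_mul_of_nonneg_left hfin (by positivity)
      _ = ε / 2 := by rw [← mul_assoc, inv_mul_cancel₀ hQr.ne', one_mul]
  have h9 : (Q : ℝ)⁻¹ * (M : ℝ)⁻¹ * ‖∑ v ∈ Finset.range M, ∑ i ∈ Finset.range (2 * w),
      F (T^[Q - 2 * w + i + Q * v] x) * z ^ (Q - 2 * w + i + Q * v)‖ ≤ ε / 2 := by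
    calc _ ≤ (Q : ℝ)⁻¹ * (M : ℝ)⁻¹ * (M * (2 * w * B')) :=
          mul_le_mul_of_nonneg_left hrest (by positivity)
      _ = (Q : ℝ)⁻¹ * (2 * w * B') := by
          rw [mul_assoc, ← mul_assoc (M : ℝ)⁻¹, inv_mul_cancel₀ hMr.ne', one_mul]
      _ ≤ (Q : ℝ)⁻¹ * (ε / 2 * Q) := mul_le_mul_of_nonneg_left hK1c (by positivity)
      _ = ε / 2 := by rw [mul_comm (ε / 2), ← mul_assoc, inv_mul_cancel₀ hQr.ne', one_mul]
  linarith

open Classical in
/-- from the mixing condition to frequencies -/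
private theorem freq {A : Type*} [Fintype A] {lam : ℕ → ℕ} {π : ℕ → ℕ → Equiv.Perm A}
    (hM : Mix lam π) {ζ : ℂ} (hζ : ‖ζ‖ = 1) (m : ℂ)
    (hm : Tendsto (fun j : ℕ => (Lp lam j : ℂ)⁻¹ * ∑ v ∈ Finset.range (Lp lam j), ζ ^ v) atTop
      (𝓝 m)) (b a : A) :
    Tendsto (fun j : ℕ => (Lp lam j : ℂ)⁻¹ * ∑ v ∈ Finset.range (Lp lam j),
      (if Wd lam π j b v = a then (1 : ℂ) else 0) * ζ ^ v) atTop
        (𝓝 ((Fintype.card A : ℂ)⁻¹ * m)) := by
  have h1 := (hM b a ζ hζ).add (hm.const_mul ((Fintype.card A : ℂ)⁻¹))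
  rw [zero_add] at h1
  refine h1.congr fun j => ?_
  rw [mul_left_comm, ← mul_add, Finset.mul_sum, ← Finset.sum_add_distrib]
  congr 1
  refine Finset.sum_congr rfl fun v _ => ?_
  ring

/-- Choose `K ≥ k0` with `2 w B / L_K ≤ ε/4`. For `ph K x = 0` the value `F (T^r x)`, `r + 2 w < L_K`,
depends on `r` and on the letter `a` of the word at `x` only: `Θ r a`. In a block of level `K + j`:
`∑_v Θ(r, a_v) ζ^v`, `ζ = z^(L_K)`, `1[a_v = a] = (1[a_v = a] - 1/|A|) + 1/|A|`, TA1_mix for the first part,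
the geometric sum is bounded for `ζ ≠ 1`. -/
theorem TA2_ne {X A : Type*} [Fintype A] {T : X → X} {lam : ℕ → ℕ} (hlam : ∀ i, 2 ≤ lam i)
    {π : ℕ → ℕ → Equiv.Perm A} (hM : Mix lam π) {ph : ℕ → X → ℕ} (hP : Ph T (Lp lam) ph)
    {s : X → A} (hB : BJ T lam π ph s) {k0 w : ℕ} {F : X → ℂ} (hF : Win T ph s k0 w F) {B : ℝ}
    (hFB : ∀ x, ‖F x‖ ≤ B) {z : ℂ} (hz : ‖z‖ = 1) (hz1 : ∀ k, z ^ Lp lam k ≠ 1) {ε : ℝ}
    (hε : 0 < ε) : ∃ K : ℕ, ∀ x, ph K x = 0 →
      ‖(Lp lam K : ℂ)⁻¹ * ∑ r ∈ Finset.range (Lp lam K), F (T^[r] x) * z ^ r‖ ≤ ε := by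
  classical
  have hℓ : ∀ (K : ℕ) (b a : A), Tendsto (fun j : ℕ => (Lp (fun i => lam (K + i)) j : ℂ)⁻¹ *
      ∑ v ∈ Finset.range (Lp (fun i => lam (K + i)) j),
        (if Wd (fun i => lam (K + i)) (fun i => π (K + i)) j b v = a then (1 : ℂ) else 0) *
          (z ^ Lp lam K) ^ v) atTop (𝓝 0) := by
    intro K b a
    have hζ : ‖z ^ Lp lam K‖ = 1 := by rw [norm_pow, hz, one_pow]
    have hm : Tendsto (fun j : ℕ => (Lp (fun i => lam (K + i)) j : ℂ)⁻¹ *
        ∑ v ∈ Finset.range (Lp (fun i => lam (K + i)) j), (z ^ Lp lam K) ^ v) atTop (𝓝 0) := by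
      rw [tendsto_zero_iff_norm_tendsto_zero]
      have h1 : Tendsto (fun j : ℕ => ((Lp (fun i => lam (K + i)) j : ℝ))⁻¹ *
          (2 / ‖z ^ Lp lam K - 1‖)) atTop (𝓝 (0 * (2 / ‖z ^ Lp lam K - 1‖))) :=
        (Lp_inv fun i => hlam (K + i)).mul_const _
      rw [zero_mul] at h1
      refine squeeze_zero (fun _ => norm_nonneg _) (fun j => ?_) h1
      rw [norm_mul, norm_inv, Complex.norm_natCast, geom_sum_eq (hz1 K), norm_div]
      refine mul_le_mul_of_nonneg_left ?_ (by positivity)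
      refine div_le_div_of_nonneg_right ?_ (norm_nonneg _)
      refine (norm_sub_le _ _).trans ?_
      rw [norm_pow, hζ, one_pow, norm_one]
      norm_num
    have h2 := freq (TA1_mix hlam hM K) hζ 0 hm b a
    rw [mul_zero] at h2
    exact h2
  obtain ⟨K, c, hK⟩ := core hlam hP hB hF hFB hz 0 hℓ hε
  refine ⟨K, fun x hx => ?_⟩
  have := hK x hx
  rwa [mul_zero, sub_zero] at this

/-- the same for `z = 1`, the limit is `(1/L_K) ∑_r (1/|A|) ∑_a Θ r a` up to `ε` -/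
theorem TA2_one {X A : Type*} [Fintype A] {T : X → X} {lam : ℕ → ℕ} (hlam : ∀ i, 2 ≤ lam i)
    {π : ℕ → ℕ → Equiv.Perm A} (hM : Mix lam π) {ph : ℕ → X → ℕ} (hP : Ph T (Lp lam) ph)
    {s : X → A} (hB : BJ T lam π ph s) {k0 w : ℕ} {F : X → ℂ} (hF : Win T ph s k0 w F) {B : ℝ}
    (hFB : ∀ x, ‖F x‖ ≤ B) {ε : ℝ} (hε : 0 < ε) : ∃ (K : ℕ) (c : ℂ), ∀ x, ph K x = 0 →
      ‖(Lp lam K : ℂ)⁻¹ * ∑ r ∈ Finset.range (Lp lam K), F (T^[r] x) - c‖ ≤ ε := by
  classical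
  have hℓ : ∀ (K : ℕ) (b a : A), Tendsto (fun j : ℕ => (Lp (fun i => lam (K + i)) j : ℂ)⁻¹ *
      ∑ v ∈ Finset.range (Lp (fun i => lam (K + i)) j),
        (if Wd (fun i => lam (K + i)) (fun i => π (K + i)) j b v = a then (1 : ℂ) else 0) *
          ((1 : ℂ) ^ Lp lam K) ^ v) atTop (𝓝 ((Fintype.card A : ℂ)⁻¹ * 1)) := by
    intro K b a
    have hζ : ‖(1 : ℂ) ^ Lp lam K‖ = 1 := by rw [one_pow, norm_one]
    refine freq (TA1_mix hlam hM K) hζ 1 ?_ b a
    refine tendsto_const_nhds.congr fun j => ?_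
    have hpos : 1 ≤ Lp (fun i => lam (K + i)) j := Lp_pos (fun i => hlam (K + i)) j
    have hne : (Lp (fun i => lam (K + i)) j : ℂ) ≠ 0 := by
      exact_mod_cast (by omega : Lp (fun i => lam (K + i)) j ≠ 0)
    simp only [one_pow, Finset.sum_const, Finset.card_range, nsmul_eq_mul, mul_one]
    rw [inv_mul_cancel₀ hne]
  obtain ⟨K, c, hK⟩ := core hlam hP hB hF hFB (z := 1) norm_one ((Fintype.card A : ℂ)⁻¹ * 1) hℓ hε
  refine ⟨K, c * ((Fintype.card A : ℂ)⁻¹ * 1), fun x hx => ?_⟩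
  have := hK x hx
  simp only [one_pow, mul_one] at this ⊢
  exact this

end Pool.Agent.Ef
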