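import Pool.Agent.Ef.Defs

/-! MP_13664e_an (ELFR), module TA3: from averages over blocks to uniform averages. -/

set_option autoImplicit false

namespace Pool.Agent.Ef

open Filter Topology

private theorem TA3_triv {X : Type*} {T : X → X} {F : X → ℂ}
    {B : ℝ} (hFB : ∀ x, ‖F x‖ ≤ B) {z : ℂ} (hz : ‖z‖ = 1) (m : ℕ) (x : X) :
    ‖∑ n ∈ Finset.range m, F (T^[n] x) * z ^ n‖ ≤ m * B := by
  refine (norm_sum_le _ _).trans ?_
  have h1 : ∀ n ∈ Finset.range m, ‖F (T^[n] x) * z ^ n‖ ≤ B := by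
    intro n _
    rw [norm_mul, norm_pow, hz, one_pow, mul_one]
    exact hFB _
  refine (Finset.sum_le_sum h1).trans ?_
  simp

private theorem TA3_split {X : Type*} {T : X → X} {F : X → ℂ} {z : ℂ} (m k : ℕ) (x : X) :
    ∑ n ∈ Finset.range (m + k), F (T^[n] x) * z ^ n =
      ∑ n ∈ Finset.range m, F (T^[n] x) * z ^ n +
        z ^ m * ∑ n ∈ Finset.range k, F (T^[n] (T^[m] x)) * z ^ n := by
  rw [Finset.sum_range_add, Finset.mul_sum]
  congr 1
  refine Finset.sum_congr rfl fun n _ => ?_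
  rw [add_comm m n, Function.iterate_add_apply, pow_add]
  ring

private theorem TA3_blocks {X : Type*} {T : X → X} {L : ℕ → ℕ} {ph : ℕ → X → ℕ} (hP : Ph T L ph)
    {F : X → ℂ} {z : ℂ} (hz : ‖z‖ = 1) {ε : ℝ} {K : ℕ}
    (h : ∀ x, ph K x = 0 → ‖∑ r ∈ Finset.range (L K), F (T^[r] x) * z ^ r‖ ≤ L K * ε)
    (q : ℕ) (x : X) (hx : ph K x = 0) :
    ‖∑ n ∈ Finset.range (L K * q), F (T^[n] x) * z ^ n‖ ≤ q * (L K * ε) := by
  induction q with
  | zero => simp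
  | succ q ih =>
    have h1 : ph K (T^[L K * q] x) = 0 := by
      rw [hP.iter, hx]
      simp
    rw [Nat.mul_succ, TA3_split]
    refine (norm_add_le _ _).trans ?_
    rw [norm_mul, norm_pow, hz, one_pow, one_mul]
    have h2 := h _ h1
    push_cast
    linarith

/-- cut `[0, N)` into the `L_K`-blocks (starting at the times of phase zero), two incomplete blocks cost
`2 B L_K / N` -/
theorem TA3_ne {X : Type*} {T : X → X} {L : ℕ → ℕ} {ph : ℕ → X → ℕ} (hP : Ph T L ph) {F : X → ℂ}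
    {B : ℝ} (hFB : ∀ x, ‖F x‖ ≤ B) {z : ℂ} (hz : ‖z‖ = 1) {ε : ℝ} (hε : 0 < ε) {K : ℕ}
    (h : ∀ x, ph K x = 0 → ‖(L K : ℂ)⁻¹ * ∑ r ∈ Finset.range (L K), F (T^[r] x) * z ^ r‖ ≤ ε) :
    ∃ N0 : ℕ, ∀ N ≥ N0, ∀ x,
      ‖(N : ℂ)⁻¹ * ∑ n ∈ Finset.range N, F (T^[n] x) * z ^ n‖ ≤ 2 * ε := by
  have hL : 1 ≤ L K := hP.pos K
  have hL0 : (0 : ℝ) < L K := by exact_mod_cast hL
  have h' : ∀ x, ph K x = 0 →
      ‖∑ r ∈ Finset.range (L K), F (T^[r] x) * z ^ r‖ ≤ L K * ε := by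
    intro x hx
    have h1 := h x hx
    rw [norm_mul, norm_inv, Complex.norm_natCast, inv_mul_le_iff₀ hL0] at h1
    exact h1
  obtain ⟨N1, hN1⟩ := exists_nat_ge (2 * L K * B / ε)
  refine ⟨N1 + L K, fun N hN x => ?_⟩
  have hB : 0 ≤ B := (norm_nonneg _).trans (hFB x)
  have hNpos : (0 : ℝ) < N := by
    have : 0 < N := by omega
    exact_mod_cast this
  rw [norm_mul, norm_inv, Complex.norm_natCast, inv_mul_le_iff₀ hNpos]
  -- first time of phase zero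
  obtain ⟨s, hs, hs0⟩ : ∃ s, s < L K ∧ ph K (T^[s] x) = 0 := by
    have hlt := hP.lt K x
    rcases Nat.eq_zero_or_pos (ph K x) with h0 | h0
    · exact ⟨0, by omega, by simpa using h0⟩
    · refine ⟨L K - ph K x, by omega, ?_⟩
      rw [hP.iter, show ph K x + (L K - ph K x) = L K by omega, Nat.mod_self]
  have hNs : N = s + (L K * ((N - s) / L K) + (N - s) % L K) := by
    rw [Nat.div_add_mod]
    omega
  generalize (N - s) / L K = q at hNs
  have ht : (N - s) % L K < L K := Nat.mod_lt _ hL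
  generalize (N - s) % L K = t at hNs ht
  have hsum : ‖∑ n ∈ Finset.range N, F (T^[n] x) * z ^ n‖ ≤ s * B + (q * (L K * ε) + t * B) := by
    rw [hNs, TA3_split]
    refine (norm_add_le _ _).trans ?_
    refine add_le_add (TA3_triv hFB hz s x) ?_
    rw [norm_mul, norm_pow, hz, one_pow, one_mul, TA3_split]
    refine (norm_add_le _ _).trans ?_
    refine add_le_add (TA3_blocks hP hz h' q _ hs0) ?_
    rw [norm_mul, norm_pow, hz, one_pow, one_mul]
    exact TA3_triv hFB hz t _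
  refine hsum.trans ?_
  have h1 : (q : ℝ) * L K ≤ N := by
    have : q * L K ≤ N := by
      rw [hNs, mul_comm q]
      omega
    exact_mod_cast this
  have h2 : (s : ℝ) ≤ L K := by exact_mod_cast hs.le
  have h3 : (t : ℝ) ≤ L K := by exact_mod_cast ht.le
  have h4 : 2 * L K * B ≤ N * ε := by
    rw [← div_le_iff₀ hε]
    refine hN1.trans ?_
    have : N1 ≤ N := by omega
    exact_mod_cast this
  have h5 : (s : ℝ) * B ≤ L K * B := mul_le_mul_of_nonneg_right h2 hB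
  have h6 : (t : ℝ) * B ≤ L K * B := mul_le_mul_of_nonneg_right h3 hB
  have h7 : (q : ℝ) * L K * ε ≤ N * ε := mul_le_mul_of_nonneg_right h1 hε.le
  nlinarith

theorem TA3_one {X : Type*} {T : X → X} {L : ℕ → ℕ} {ph : ℕ → X → ℕ} (hP : Ph T L ph) {F : X → ℂ}
    {B : ℝ} (hFB : ∀ x, ‖F x‖ ≤ B) {ε : ℝ} (hε : 0 < ε) {K : ℕ} {c : ℂ}
    (h : ∀ x, ph K x = 0 → ‖(L K : ℂ)⁻¹ * ∑ r ∈ Finset.range (L K), F (T^[r] x) - c‖ ≤ ε) :
    ∃ N0 : ℕ, ∀ N ≥ N0, ∀ x,
      ‖(N : ℂ)⁻¹ * ∑ n ∈ Finset.range N, F (T^[n] x) - c‖ ≤ 2 * ε := by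
  have key : ∀ (m : ℕ), m ≠ 0 → ∀ x, (m : ℂ)⁻¹ * ∑ r ∈ Finset.range m, (F (T^[r] x) - c) * 1 ^ r =
      (m : ℂ)⁻¹ * ∑ r ∈ Finset.range m, F (T^[r] x) - c := by
    intro m hm x
    have hm' : (m : ℂ) ≠ 0 := by exact_mod_cast hm
    simp only [one_pow, mul_one, Finset.sum_sub_distrib, Finset.sum_const, Finset.card_range,
      nsmul_eq_mul, mul_sub]
    rw [inv_mul_cancel_left₀ hm']
  obtain ⟨N0, hN0⟩ := TA3_ne hP (F := fun x => F x - c) (B := B + ‖c‖)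
    (fun x => (norm_sub_le _ _).trans (by linarith [hFB x])) (z := 1) (by simp) hε (K := K)
    (fun x hx => by
      rw [key _ (by have := hP.pos K; omega)]
      exact h x hx)
  refine ⟨N0 + 1, fun N hN x => ?_⟩
  rw [← key N (by omega)]
  exact hN0 N (by omega) x

end Pool.Agent.Ef
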