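import Pool.Agent.Ef.TA2
import Pool.Agent.Ef.TA3
import Pool.Agent.Ef.Defs
import Pool.Agent.Sar.E0

/-! MP_13664e_an (ELFR), module TA4: unique ergodicity and eigenvalues. -/

set_option autoImplicit false

namespace Pool.Agent.Ef

open MeasureTheory ProbabilityTheory Filter Topology Pool.Agent.Sar
open scoped ENNReal ComplexConjugate

private theorem TA4_ext {X : Type*} [MetricSpace X] [CompactSpace X] [MeasurableSpace X]
    [BorelSpace X] {μ κ : Measure X} [IsFiniteMeasure μ] [IsFiniteMeasure κ]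
    (h : ∀ g : C(X, ℂ), ∫ y, g y ∂μ = ∫ y, g y ∂κ) : μ = κ := by
  refine ext_of_forall_integral_eq_of_IsFiniteMeasure fun f => ?_
  have h1 := h ⟨fun y => ((f y : ℝ) : ℂ), Complex.continuous_ofReal.comp f.continuous⟩
  simp only [ContinuousMap.coe_mk] at h1
  rw [integral_complex_ofReal, integral_complex_ofReal] at h1
  exact_mod_cast h1

private theorem TA4_small {X : Type*} [MetricSpace X] [CompactSpace X] (g : C(X, ℂ)) (y : ℕ → X)
    (z : X) : Tendsto (fun N : ℕ => (N : ℂ)⁻¹ * (g (y N) - g z)) atTop (𝓝 0) := by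
  have h0 : Tendsto (fun N : ℕ => ((N : ℝ))⁻¹ * (2 * ‖g‖)) atTop (𝓝 (0 * (2 * ‖g‖))) :=
    tendsto_inv_atTop_nhds_zero_nat.mul_const _
  rw [zero_mul] at h0
  refine squeeze_zero_norm (fun N => ?_) h0
  rw [norm_mul, norm_inv, Complex.norm_natCast]
  refine mul_le_mul_of_nonneg_left ?_ (by positivity)
  refine (norm_sub_le _ _).trans ?_
  have h1 := g.norm_coe_le_norm (y N)
  have h2 := g.norm_coe_le_norm z
  linarith

/-- existence of an invariant probability measure (first marginal of Sar.emp_measure, `p₀ = p = 1`) -/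
theorem exists_inv {X : Type*} [MetricSpace X] [CompactSpace X] [MeasurableSpace X]
    [BorelSpace X] [Nonempty X] (T : X ≃ₜ X) :
    ∃ κ : Measure X, IsProbabilityMeasure κ ∧ κ.map T = κ := by
  obtain ⟨x⟩ := ‹Nonempty X›
  have : Nonempty X := ⟨x⟩
  obtain ⟨U, hUle⟩ : ∃ U : Ultrafilter ℕ, (U : Filter ℕ) ≤ atTop :=
    ⟨Ultrafilter.of atTop, Ultrafilter.of_le _⟩
  obtain ⟨ρ, hρ, hlim⟩ := emp_measure T x 1 1 U hUle
  obtain ⟨m, hm⟩ : ∃ m : Measure X, m = ρ.map Prod.fst := ⟨_, rfl⟩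
  have hmp : IsProbabilityMeasure m :=
    hm ▸ Measure.isProbabilityMeasure_map measurable_fst.aemeasurable
  have hconv : ∀ f : C(X, ℂ), Tendsto (fun N : ℕ => (N : ℂ)⁻¹ * ∑ n ∈ Finset.Icc 1 N,
      f ((⇑T)^[n] x)) U (𝓝 (∫ y, f y ∂m)) := by
    intro f
    have h1 := hlim (f.comp ⟨Prod.fst, continuous_fst⟩)
    simp only [ContinuousMap.comp_apply, ContinuousMap.coe_mk, one_mul] at h1
    have h2 : ∫ y, f y ∂m = ∫ z : X × X, f z.1 ∂ρ := by
      rw [hm, integral_map measurable_fst.aemeasurable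
        f.continuous.measurable.aestronglyMeasurable]
    rw [h2]
    exact h1
  refine ⟨m, hmp, ?_⟩
  have hmT : IsProbabilityMeasure (m.map T) :=
    Measure.isProbabilityMeasure_map T.continuous.measurable.aemeasurable
  refine TA4_ext fun f => ?_
  rw [integral_map T.continuous.measurable.aemeasurable
    f.continuous.measurable.aestronglyMeasurable]
  have h1 := hconv (f.comp ⟨T, T.continuous⟩)
  simp only [ContinuousMap.comp_apply, ContinuousMap.coe_mk] at h1
  have h2 := hconv f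
  have h3 : Tendsto (fun N : ℕ => (N : ℂ)⁻¹ * ∑ n ∈ Finset.Icc 1 N, f ((⇑T)^[n] x) +
      (N : ℂ)⁻¹ * (f ((⇑T)^[N + 1] x) - f (T x))) U (𝓝 (∫ y, f y ∂m + 0)) :=
    h2.add ((TA4_small f (fun N => (⇑T)^[N + 1] x) (T x)).mono_left hUle)
  rw [add_zero] at h3
  refine tendsto_nhds_unique h1 (h3.congr fun N => ?_)
  rw [← mul_add]
  congr 1
  have h4 : ∀ N : ℕ, ∑ n ∈ Finset.Icc 1 N, f ((⇑T)^[n] x) +
      (f ((⇑T)^[N + 1] x) - f (T x)) = ∑ n ∈ Finset.Icc 1 N, f (T ((⇑T)^[n] x)) := by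
    intro N
    induction N with
    | zero => simp
    | succ N ih =>
      rw [Finset.sum_Icc_succ_top (by omega), Finset.sum_Icc_succ_top (by omega), ← ih,
        ← Function.iterate_succ_apply' (⇑T) (N + 1) x]
      ring
  exact h4 N

section

variable {X : Type*} [MetricSpace X] [CompactSpace X] [MeasurableSpace X] [BorelSpace X]
  {μ : Measure X} [IsProbabilityMeasure μ]

private theorem TA4_BM (F : C(X, ℂ)) : BM (fun x => F x) :=
  ⟨F.continuous.measurable, ‖F‖, fun x => F.norm_coe_le_norm x⟩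

omit [CompactSpace X] in
/-- moving along the orbit -/
private theorem TA4_iter {T : X → X} (hT : MeasurePreserving T μ μ) {l : ℂ} {e : X → ℂ}
    (he : IsEig μ T l e) (F : C(X, ℂ)) (n : ℕ) :
    ∫ x, F x * conj (e x) ∂μ = ∫ x, F (T^[n] x) * conj l ^ n * conj (e x) ∂μ := by
  have hTn := hT.iterate n
  have h1 := integral_map (μ := μ) hTn.measurable.aemeasurable
    (f := fun x => F x * conj (e x))
    ((F.continuous.measurable.mul
      (Complex.continuous_conj.measurable.comp he.meas)).aestronglyMeasurable)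
  rw [hTn.map_eq] at h1
  rw [h1]
  refine integral_congr_ae ?_
  filter_upwards [eig_iter hT he n] with x hx
  rw [hx, map_mul, map_pow]
  ring

private theorem TA4_av {T : X → X} (hT : MeasurePreserving T μ μ) {l : ℂ} {e : X → ℂ}
    (he : IsEig μ T l e) (F : C(X, ℂ)) {ε : ℝ} {N : ℕ} (hN : 1 ≤ N) {c : ℂ}
    (hF : ∀ x, ‖(N : ℂ)⁻¹ * ∑ n ∈ Finset.range N, F (T^[n] x) * conj l ^ n - c‖ ≤ ε) :
    ‖∫ x, F x * conj (e x) ∂μ - c * ∫ x, conj (e x) ∂μ‖ ≤ ε := by
  have hN0 : (N : ℂ) ≠ 0 := by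
    have : N ≠ 0 := by omega
    exact_mod_cast this
  have heB : BM (fun x => conj (e x)) := K2b_conj ⟨he.meas, 1, fun x => (he.norm x).le⟩
  have hG : ∀ n : ℕ, BM (fun x => F (T^[n] x) * conj l ^ n) := fun n =>
    K2b_mul ⟨F.continuous.measurable.comp (hT.iterate n).measurable, ‖F‖,
      fun x => F.norm_coe_le_norm _⟩ (K2_BM_const _)
  have hi : ∀ n ∈ Finset.range N, Integrable
      (fun x => F (T^[n] x) * conj l ^ n * conj (e x)) μ := fun n _ =>
    K2b_int (K2b_mul (hG n) heB)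
  have h1 : ∫ x, F x * conj (e x) ∂μ =
      ∫ x, ((N : ℂ)⁻¹ * ∑ n ∈ Finset.range N, F (T^[n] x) * conj l ^ n) * conj (e x) ∂μ := by
    have h2 : ∀ x, ((N : ℂ)⁻¹ * ∑ n ∈ Finset.range N, F (T^[n] x) * conj l ^ n) * conj (e x) =
        (N : ℂ)⁻¹ * ∑ n ∈ Finset.range N, F (T^[n] x) * conj l ^ n * conj (e x) := fun x => by
      rw [mul_assoc, Finset.sum_mul]
    simp only [h2]
    rw [integral_const_mul, integral_finsetSum _ hi]
    rw [Finset.sum_congr rfl fun n _ => (TA4_iter hT he F n).symm, Finset.sum_const,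
      Finset.card_range, nsmul_eq_mul, inv_mul_cancel_left₀ hN0]
  have hsB : BM (fun x => (N : ℂ)⁻¹ * ∑ n ∈ Finset.range N, F (T^[n] x) * conj l ^ n) := by
    refine ⟨measurable_const.mul (Finset.measurable_sum _ fun n _ => (hG n).meas), ‖c‖ + ε,
      fun x => ?_⟩
    have h3 := hF x
    calc _ = ‖c + ((N : ℂ)⁻¹ * ∑ n ∈ Finset.range N, F (T^[n] x) * conj l ^ n - c)‖ := by
          rw [add_sub_cancel]
      _ ≤ ‖c‖ + ε := (norm_add_le _ _).trans (add_le_add le_rfl h3)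
  rw [h1, ← integral_const_mul, ← integral_sub (K2b_int (K2b_mul hsB heB))
    ((K2b_int heB).const_mul c)]
  have h4 := norm_integral_le_of_norm_le_const (μ := μ) (C := ε) (f := fun x =>
    ((N : ℂ)⁻¹ * ∑ n ∈ Finset.range N, F (T^[n] x) * conj l ^ n) * conj (e x) - c * conj (e x))
    (ae_of_all _ fun x => by
      rw [← sub_mul, norm_mul, RCLike.norm_conj, he.norm, mul_one]
      exact hF x)
  simpa using h4

private theorem TA4_w {T : X → X} (hT : MeasurePreserving T μ μ) {l : ℂ} {e : X → ℂ}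
    (he : IsEig μ T l e) (g F : C(X, ℂ)) {w : ℕ} {ε : ℝ} (h : ∀ x, ‖g (T^[w] x) - F x‖ ≤ ε) :
    ‖∫ x, g x * conj (e x) ∂μ - conj l ^ w * ∫ x, F x * conj (e x) ∂μ‖ ≤ ε := by
  have hl : ‖l‖ = 1 := EV_norm hT ⟨e, he⟩
  have heB : BM (fun x => conj (e x)) := K2b_conj ⟨he.meas, 1, fun x => (he.norm x).le⟩
  have hgB : BM (fun x => g (T^[w] x) * conj l ^ w) :=
    K2b_mul ⟨g.continuous.measurable.comp (hT.iterate w).measurable, ‖g‖,
      fun x => g.norm_coe_le_norm _⟩ (K2_BM_const _)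
  rw [TA4_iter hT he g w, ← integral_const_mul, ← integral_sub (K2b_int (K2b_mul hgB heB))
    ((K2b_int (K2b_mul (TA4_BM F) heB)).const_mul _)]
  have h4 := norm_integral_le_of_norm_le_const (μ := μ) (C := ε) (f := fun x =>
    g (T^[w] x) * conj l ^ w * conj (e x) - conj l ^ w * (F x * conj (e x)))
    (ae_of_all _ fun x => by
      have h5 : g (T^[w] x) * conj l ^ w * conj (e x) - conj l ^ w * (F x * conj (e x)) =
          (g (T^[w] x) - F x) * conj l ^ w * conj (e x) := by ring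
      rw [h5, norm_mul, norm_mul, norm_pow, RCLike.norm_conj, RCLike.norm_conj, hl, one_pow,
        he.norm, mul_one, mul_one]
      exact h x)
  simpa using h4

omit [MetricSpace X] [CompactSpace X] [BorelSpace X] in
private theorem TA4_one_eig (μ : Measure X) (T : X → X) : IsEig μ T 1 (fun _ => 1) :=
  ⟨measurable_const, fun _ => by simp, Filter.Eventually.of_forall fun _ => by simp⟩

/-- an eigenfunction is not orthogonal to all continuous functions -/
private theorem TA4_dense {T : X → X} {l : ℂ} {e : X → ℂ} (he : IsEig μ T l e)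
    (h : ∀ g : C(X, ℂ), ∫ x, g x * conj (e x) ∂μ = 0) : False := by
  have heB : BM e := ⟨he.meas, 1, fun x => (he.norm x).le⟩
  obtain ⟨g, hg, hgi⟩ := (K2b_int (κ := μ) heB).exists_boundedContinuous_integral_sub_le
    (ε := 1 / 2) (by norm_num)
  have h1 := h g.toContinuousMap
  have hcB : BM (fun x => conj (e x)) := K2b_conj heB
  have hgB : BM (fun x => g x) := ⟨g.continuous.measurable, ‖g‖, fun x => g.norm_coe_le_norm x⟩
  have h2 : ∫ x, e x * conj (e x) ∂μ = 1 := by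
    have h3 : ∀ x, e x * conj (e x) = 1 := fun x => by
      rw [Complex.mul_conj', he.norm]
      norm_num
    simp only [h3]
    simp
  have h4 : ∫ x, (e x - g x) * conj (e x) ∂μ = 1 := by
    have h5 : ∀ x, (e x - g x) * conj (e x) = e x * conj (e x) - g x * conj (e x) := fun x => by
      ring
    simp only [h5]
    rw [integral_sub (K2b_int (K2b_mul heB hcB)) (K2b_int (K2b_mul hgB hcB)), h2]
    have h6 : ∫ x, g x * conj (e x) ∂μ = 0 := h1
    rw [h6, sub_zero]
  have h7 : ‖∫ x, (e x - g x) * conj (e x) ∂μ‖ ≤ ∫ x, ‖e x - g x‖ ∂μ := by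
    refine norm_integral_le_of_norm_le (K2b_int (K2b_sub heB hgB)).norm (ae_of_all _ fun x => ?_)
    rw [norm_mul, RCLike.norm_conj, he.norm, mul_one]
  rw [h4, norm_one] at h7
  linarith

end

/-- WN_dense, TA2, TA3. Uniqueness: for every window function `∫ F dκ` is within `2 ε` of the constant
`c`. Eigenvalues: if `l ^ L_k ≠ 1` for all `k` and `e (T x) = l e x` a.e. then for every window function
`∫ F conj e dν = ∫ ((1/N) ∑_{n<N} conj l ^ n F (T^n x)) conj (e x) dν → 0`, so `e` is orthogonal to the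
continuous functions, contradiction to `|e| = 1`. -/
theorem TA4 {X A : Type*} [MetricSpace X] [CompactSpace X] [MeasurableSpace X] [BorelSpace X]
    [Nonempty X] [Fintype A] [TopologicalSpace A] [DiscreteTopology A] (T : X ≃ₜ X)
    {lam : ℕ → ℕ} (hlam : ∀ i, 2 ≤ lam i) {π : ℕ → ℕ → Equiv.Perm A} (hM : Mix lam π)
    {ph : ℕ → X → ℕ} (hP : Ph T (Lp lam) ph) (hc : ∀ k, Continuous (ph k)) {s : X → A}
    (hs : Continuous s) (hB : BJ T lam π ph s)
    (hsep : ∀ x x' : X, (∀ k, ph k x = ph k x') → (∀ n : ℕ, s ((⇑T)^[n] x) = s ((⇑T)^[n] x')) →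
      (∀ n : ℕ, s ((⇑T.symm)^[n] x) = s ((⇑T.symm)^[n] x')) → x = x') :
    ∃ ν : Measure X, IsProbabilityMeasure ν ∧ Sys ν T (Lp lam) ph := by
  obtain ⟨ν, hν, hinv⟩ := exists_inv T
  have hT : ∀ κ : Measure X, κ.map T = κ → MeasurePreserving T κ κ := fun κ h =>
    ⟨T.continuous.measurable, h⟩
  refine ⟨ν, hν, hinv, ?_, hP, hc, ?_⟩
  · intro κ hκ hκi
    refine TA4_ext fun g => ?_
    have key : ∀ ε : ℝ, 0 < ε → ∃ c : ℂ, ∀ μ : Measure X, IsProbabilityMeasure μ → μ.map T = μ →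
        ‖∫ x, g x ∂μ - c‖ ≤ 3 * ε := by
      intro ε hε
      obtain ⟨k, w, F, hF, hg⟩ := WN_dense T hP hc hs hsep g hε
      obtain ⟨K, c, hK⟩ := TA2_one hlam hM hP hB hF (B := ‖F‖) (fun x => F.norm_coe_le_norm x) hε
      obtain ⟨N0, hN0⟩ := TA3_one hP (B := ‖F‖) (fun x => F.norm_coe_le_norm x) hε hK
      refine ⟨c, fun μ hμ hμi => ?_⟩
      have h1 := TA4_av (hT μ hμi) (TA4_one_eig μ T) F (N := N0 + 1) (by omega) (c := c)
        (ε := 2 * ε) (fun x => by simpa using hN0 (N0 + 1) (by omega) x)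
      have h2 := TA4_w (hT μ hμi) (TA4_one_eig μ T) g F hg
      simp only [map_one, mul_one, one_pow, one_mul] at h1 h2
      rw [integral_const, probReal_univ, one_smul, mul_one] at h1
      calc ‖∫ x, g x ∂μ - c‖ = ‖(∫ x, g x ∂μ - ∫ x, F x ∂μ) + (∫ x, F x ∂μ - c)‖ := by
            rw [sub_add_sub_cancel]
        _ ≤ ε + 2 * ε := (norm_add_le _ _).trans (add_le_add h2 h1)
        _ = 3 * ε := by ring
    rw [← sub_eq_zero, ← norm_le_zero_iff]
    refine le_of_forall_pos_le_add fun ε hε => ?_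
    obtain ⟨c, hcc⟩ := key (ε / 6) (by positivity)
    have h1 := hcc κ hκ hκi
    have h2 := hcc ν hν hinv
    calc ‖∫ x, g x ∂κ - ∫ x, g x ∂ν‖ = ‖(∫ x, g x ∂κ - c) - (∫ x, g x ∂ν - c)‖ := by
          rw [sub_sub_sub_cancel_right]
      _ ≤ 3 * (ε / 6) + 3 * (ε / 6) := (norm_sub_le _ _).trans (add_le_add h1 h2)
      _ = 0 + ε := by ring
  · intro l hl
    by_contra hne
    push Not at hne
    obtain ⟨e, he⟩ := hl
    have hl1 : ‖l‖ = 1 := EV_norm (hT ν hinv) ⟨e, he⟩
    have hz : ‖conj l‖ = 1 := by rw [RCLike.norm_conj, hl1]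
    have hz1 : ∀ k, conj l ^ Lp lam k ≠ 1 := fun k h => by
      apply hne k
      rw [← map_pow] at h
      have h1 := congrArg conj h
      rwa [RCLike.conj_conj, map_one] at h1
    refine TA4_dense he fun g => ?_
    rw [← norm_le_zero_iff]
    refine le_of_forall_pos_le_add fun ε hε => ?_
    obtain ⟨k, w, F, hF, hg⟩ := WN_dense T hP hc hs hsep g (ε := ε / 3) (by positivity)
    obtain ⟨K, hK⟩ := TA2_ne hlam hM hP hB hF (B := ‖F‖) (fun x => F.norm_coe_le_norm x) hz hz1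
      (ε := ε / 3) (by positivity)
    obtain ⟨N0, hN0⟩ := TA3_ne hP (B := ‖F‖) (fun x => F.norm_coe_le_norm x) hz
      (ε := ε / 3) (by positivity) hK
    have h1 := TA4_av (hT ν hinv) he F (N := N0 + 1) (by omega) (c := 0) (ε := 2 * (ε / 3))
      (fun x => by
        rw [sub_zero]
        exact hN0 (N0 + 1) (by omega) x)
    have h2 := TA4_w (hT ν hinv) he g F hg
    rw [zero_mul, sub_zero] at h1
    have h3 : ‖conj l ^ w * ∫ x, F x * conj (e x) ∂ν‖ ≤ 2 * (ε / 3) := by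
      rw [norm_mul, norm_pow, hz, one_pow, one_mul]
      exact h1
    calc ‖∫ x, g x * conj (e x) ∂ν‖ = ‖(∫ x, g x * conj (e x) ∂ν -
          conj l ^ w * ∫ x, F x * conj (e x) ∂ν) + conj l ^ w * ∫ x, F x * conj (e x) ∂ν‖ := by
          rw [sub_add_cancel]
      _ ≤ ε / 3 + 2 * (ε / 3) := (norm_add_le _ _).trans (add_le_add h2 h3)
      _ = 0 + ε := by ring

end Pool.Agent.Ef
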