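import Pool.Agent.Ef.TDefs

/-! MP_13664e_an (ELFR), module TB1: the extension by the offsets. -/

set_option autoImplicit false

namespace Pool.Agent.Ef

open Filter Topology

/-- points of `Y` together with compatible offsets -/
def XH {A : Type*} (lam : ℕ → ℕ) (π : ℕ → ℕ → Equiv.Perm A) (Y : Set (ℤ → A)) :
    Set ((ℤ → A) × (ℕ → ℕ)) :=
  {p | p.1 ∈ Y ∧ (∀ k, p.2 k = p.2 (k + 1) % Lp lam k) ∧ ∀ k, Conc lam π k p.1 (p.2 k)}

variable {A : Type*} [Fintype A] [TopologicalSpace A] [DiscreteTopology A] {lam : ℕ → ℕ}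
  {π : ℕ → ℕ → Equiv.Perm A} {Y : Set (ℤ → A)}

omit [Fintype A] [DiscreteTopology A] in
/-- reading the letter number `c - ρ k` is continuous -/
private theorem TB1_ev (c : ℤ) (k : ℕ) :
    Continuous fun p : (ℤ → A) × (ℕ → ℕ) => p.1 (c - (p.2 k : ℤ)) := by
  have h1 : Continuous fun q : (ℤ → A) × ℕ => q.1 (c - (q.2 : ℤ)) := by
    rw [continuous_prod_of_discrete_right]
    intro b
    exact continuous_apply (A := fun _ : ℤ => A) (c - (b : ℤ))
  have h2 : Continuous fun p : (ℤ → A) × (ℕ → ℕ) => ((p.1, p.2 k) : (ℤ → A) × ℕ) :=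
    continuous_fst.prodMk ((continuous_apply k).comp continuous_snd)
  exact h1.comp h2

/-- the set of the points with offset `ρ k` at level `k` is closed -/
private theorem TB1_cl (k : ℕ) : IsClosed {p : (ℤ → A) × (ℕ → ℕ) | Conc lam π k p.1 (p.2 k)} := by
  have h1 : {p : (ℤ → A) × (ℕ → ℕ) | Conc lam π k p.1 (p.2 k)} =
      {p | p.2 k < Lp lam k} ∩ ⋂ i : ℤ, ⋃ a : A, ⋂ r : ℕ, ⋂ _ : r < Lp lam k,
        {p | p.1 (i * Lp lam k + r - (p.2 k : ℤ)) = Wd lam π k a r} := by
    ext p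
    simp only [Conc, Set.mem_ofPred_eq, Set.mem_inter_iff, Set.mem_iInter, Set.mem_iUnion]
  rw [h1]
  refine IsClosed.inter ?_ (isClosed_iInter fun i => isClosed_iUnion_of_finite fun a =>
    isClosed_iInter fun r => isClosed_iInter fun _ => ?_)
  · have : {p : (ℤ → A) × (ℕ → ℕ) | p.2 k < Lp lam k} =
        (fun p : (ℤ → A) × (ℕ → ℕ) => p.2 k) ⁻¹' {m | m < Lp lam k} := rfl
    rw [this]
    exact (isClosed_discrete _).preimage ((continuous_apply k).comp continuous_snd)
  · exact isClosed_eq (TB1_ev _ k) continuous_const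

omit [Fintype A] [DiscreteTopology A] in
private theorem TB1_cl2 (k : ℕ) :
    IsClosed {p : (ℤ → A) × (ℕ → ℕ) | p.2 k = p.2 (k + 1) % Lp lam k} :=
  isClosed_eq ((continuous_apply k).comp continuous_snd)
    ((continuous_of_discreteTopology (f := fun m : ℕ => m % Lp lam k)).comp
      ((continuous_apply (k + 1)).comp continuous_snd))

/-- closed subset of the compact set of `(x, ρ)` with `ρ k < L_k` -/
theorem XH_compact (hlam : ∀ i, 2 ≤ lam i) (hY : IsClosed Y) : CompactSpace (XH lam π Y) := by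
  have hK : IsCompact ((Set.univ : Set (ℤ → A)) ×ˢ
      (Set.pi Set.univ fun k : ℕ => {m : ℕ | m < Lp lam k})) :=
    isCompact_univ.prod (isCompact_univ_pi fun k => (Set.finite_lt_nat _).isCompact)
  have hcl : IsClosed (XH lam π Y) := by
    have h1 : XH lam π Y = (Prod.fst ⁻¹' Y) ∩
        ((⋂ k, {p : (ℤ → A) × (ℕ → ℕ) | p.2 k = p.2 (k + 1) % Lp lam k}) ∩
        ⋂ k, {p : (ℤ → A) × (ℕ → ℕ) | Conc lam π k p.1 (p.2 k)}) := by
      ext p
      simp only [XH, Set.mem_ofPred_eq, Set.mem_inter_iff, Set.mem_iInter, Set.mem_preimage]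
    rw [h1]
    exact (hY.preimage continuous_fst).inter ((isClosed_iInter fun k => TB1_cl2 k).inter
      (isClosed_iInter fun k => TB1_cl k))
  refine isCompact_iff_compactSpace.1 (hK.of_isClosed_subset hcl fun p hp => ?_)
  refine ⟨Set.mem_univ _, fun k _ => ?_⟩
  exact (hp.2.2 k).1

theorem XH_metrizable : TopologicalSpace.MetrizableSpace (XH lam π Y) := by
  have h1 : SecondCountableTopology (XH lam π Y) := inferInstance
  have h2 : T3Space (XH lam π Y) := inferInstance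
  exact TopologicalSpace.metrizableSpace_of_t3_secondCountable _

omit [Fintype A] [TopologicalSpace A] [DiscreteTopology A] in
/-- translation of the offsets -/
private theorem TB1_conc {k : ℕ} {x x' : ℤ → A} {ρ ρ' : ℕ} (t j : ℤ) (h : Conc lam π k x ρ)
    (hx : ∀ n, x' n = x (n + t)) (hρ : (ρ' : ℤ) = ρ + t + j * Lp lam k) (hlt : ρ' < Lp lam k) :
    Conc lam π k x' ρ' := by
  refine ⟨hlt, fun i => ?_⟩
  obtain ⟨a, ha⟩ := h.2 (i - j)
  refine ⟨a, fun r hr => ?_⟩
  rw [hx, ← ha r hr]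
  congr 1
  rw [hρ]
  ring

omit [Fintype A] [TopologicalSpace A] [DiscreteTopology A] in
private theorem TB1_up (hlam : ∀ i, 2 ≤ lam i) {k : ℕ} {x : ℤ → A} {ρ : ℕ}
    (h : Conc lam π k x ρ) : Conc lam π k (fun n => x (n + 1)) ((ρ + 1) % Lp lam k) := by
  have hL := Lp_pos hlam k
  rcases Nat.lt_or_ge (ρ + 1) (Lp lam k) with h1 | h1
  · rw [Nat.mod_eq_of_lt h1]
    exact TB1_conc 1 0 h (fun n => rfl) (by push_cast; ring) h1
  · have h2 : ρ + 1 = Lp lam k := by have := h.1; omega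
    rw [h2, Nat.mod_self]
    refine TB1_conc 1 (-1) h (fun n => rfl) ?_ (by omega)
    rw [← h2]; push_cast; ring

omit [Fintype A] [TopologicalSpace A] [DiscreteTopology A] in
private theorem TB1_dn (hlam : ∀ i, 2 ≤ lam i) {k : ℕ} {x : ℤ → A} {ρ : ℕ}
    (h : Conc lam π k x ρ) :
    Conc lam π k (fun n => x (n - 1)) ((ρ + Lp lam k - 1) % Lp lam k) := by
  have hL := Lp_pos hlam k
  have hρ := h.1
  rcases Nat.eq_zero_or_pos ρ with h1 | h1
  · subst h1
    rw [Nat.zero_add, Nat.mod_eq_of_lt (by omega)]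
    refine TB1_conc (-1) 1 h (fun n => rfl) ?_ (by omega)
    have : ((Lp lam k - 1 : ℕ) : ℤ) = (Lp lam k : ℤ) - 1 := by omega
    rw [this]; push_cast; ring
  · have h2 : (ρ + Lp lam k - 1) % Lp lam k = ρ - 1 := by
      have : ρ + Lp lam k - 1 = (ρ - 1) + Lp lam k := by omega
      rw [this, Nat.add_mod_right, Nat.mod_eq_of_lt (by omega)]
    rw [h2]
    refine TB1_conc (-1) 0 h (fun n => rfl) ?_ (by omega)
    have : ((ρ - 1 : ℕ) : ℤ) = (ρ : ℤ) - 1 := by omega
    rw [this]; ring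

private theorem TB1_mod1 {L ρ : ℕ} (h : ρ < L) : ((ρ + 1) % L + L - 1) % L = ρ := by
  rcases Nat.lt_or_ge (ρ + 1) L with h1 | h1
  · rw [Nat.mod_eq_of_lt h1]
    have : ρ + 1 + L - 1 = ρ + L := by omega
    rw [this, Nat.add_mod_right, Nat.mod_eq_of_lt h]
  · have h2 : ρ + 1 = L := by omega
    rw [h2, Nat.mod_self, Nat.zero_add, Nat.mod_eq_of_lt (by omega)]
    omega

private theorem TB1_mod2 {L ρ : ℕ} (h : ρ < L) : ((ρ + L - 1) % L + 1) % L = ρ := by
  rcases Nat.eq_zero_or_pos ρ with h1 | h1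
  · subst h1
    rw [Nat.zero_add, Nat.mod_eq_of_lt (by omega : L - 1 < L)]
    have : L - 1 + 1 = L := by omega
    rw [this, Nat.mod_self]
  · have : ρ + L - 1 = (ρ - 1) + L := by omega
    rw [this, Nat.add_mod_right, Nat.mod_eq_of_lt (by omega : ρ - 1 < L)]
    have h2 : ρ - 1 + 1 = ρ := by omega
    rw [h2, Nat.mod_eq_of_lt h]

private theorem TB1_dvd (k : ℕ) : Lp lam k ∣ Lp lam (k + 1) := ⟨lam k, Lp_succ lam k⟩

private theorem TB1_comp1 {k ρ ρ' : ℕ} (h : ρ = ρ' % Lp lam k) :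
    (ρ + 1) % Lp lam k = (ρ' + 1) % Lp lam (k + 1) % Lp lam k := by
  rw [Nat.mod_mod_of_dvd _ (TB1_dvd k), h, Nat.mod_add_mod]

private theorem TB1_comp2 (hlam : ∀ i, 2 ≤ lam i) {k ρ ρ' : ℕ} (h : ρ = ρ' % Lp lam k) :
    (ρ + Lp lam k - 1) % Lp lam k =
      (ρ' + Lp lam (k + 1) - 1) % Lp lam (k + 1) % Lp lam k := by
  have hL := Lp_pos hlam k
  have hL' := Lp_pos hlam (k + 1)
  rw [Nat.mod_mod_of_dvd _ (TB1_dvd k), h]
  obtain ⟨m, hm⟩ := TB1_dvd (lam := lam) k
  have hm1 : 1 ≤ m := by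
    rcases Nat.eq_zero_or_pos m with h0 | h0
    · subst h0; omega
    · exact h0
  have h1 : ρ' % Lp lam k + Lp lam k - 1 = ρ' % Lp lam k + (Lp lam k - 1) := by omega
  have h2 : ρ' + Lp lam (k + 1) - 1 = (ρ' + (Lp lam k - 1)) + Lp lam k * (m - 1) := by
    rw [hm]
    obtain ⟨c, rfl⟩ : ∃ c, m = c + 1 := ⟨m - 1, by omega⟩
    rw [Nat.add_sub_cancel, Nat.mul_succ]
    omega
  rw [h1, h2, Nat.mod_add_mod, Nat.add_mul_mod_self_left]

/-- the shift `(x, ρ) ↦ (x (· + 1), (ρ k + 1) % L_k)` with inverse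
`(x (· - 1), (ρ k + L_k - 1) % L_k)` -/
theorem XH_homeo (hlam : ∀ i, 2 ≤ lam i) (hYs : ∀ x, x ∈ Y ↔ (fun n => x (n + 1)) ∈ Y) :
    ∃ S : XH lam π Y ≃ₜ XH lam π Y,
      (∀ p n, (S p).1.1 n = p.1.1 (n + 1)) ∧ ∀ p k, (S p).1.2 k = (p.1.2 k + 1) % Lp lam k := by
  have hcu : Continuous fun p : (ℤ → A) × (ℕ → ℕ) =>
      (((fun n => p.1 (n + 1)), fun k => (p.2 k + 1) % Lp lam k) : (ℤ → A) × (ℕ → ℕ)) := by
    refine (continuous_pi fun n => (continuous_apply (n + 1)).comp continuous_fst).prodMk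
      (continuous_pi fun k => ?_)
    exact (continuous_of_discreteTopology (f := fun m : ℕ => (m + 1) % Lp lam k)).comp
      ((continuous_apply k).comp continuous_snd)
  have hcd : Continuous fun p : (ℤ → A) × (ℕ → ℕ) =>
      (((fun n => p.1 (n - 1)), fun k => (p.2 k + Lp lam k - 1) % Lp lam k) :
        (ℤ → A) × (ℕ → ℕ)) := by
    refine (continuous_pi fun n => (continuous_apply (n - 1)).comp continuous_fst).prodMk
      (continuous_pi fun k => ?_)
    exact (continuous_of_discreteTopology (f := fun m : ℕ => (m + Lp lam k - 1) % Lp lam k)).comp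
      ((continuous_apply k).comp continuous_snd)
  refine ⟨{
    toFun := fun p => ⟨((fun n => p.1.1 (n + 1)), fun k => (p.1.2 k + 1) % Lp lam k),
      (hYs _).1 p.2.1, fun k => TB1_comp1 (p.2.2.1 k), fun k => TB1_up hlam (p.2.2.2 k)⟩
    invFun := fun p => ⟨((fun n => p.1.1 (n - 1)), fun k => (p.1.2 k + Lp lam k - 1) % Lp lam k),
      (hYs _).2 (by
        have : (fun n : ℤ => p.1.1 (n + 1 - 1)) = p.1.1 := by funext n; rw [add_sub_cancel_right]
        change (fun n : ℤ => p.1.1 (n + 1 - 1)) ∈ Y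
        rw [this]; exact p.2.1),
      fun k => TB1_comp2 hlam (p.2.2.1 k), fun k => TB1_dn hlam (p.2.2.2 k)⟩
    left_inv := fun p => by
      refine Subtype.ext (Prod.ext ?_ ?_)
      · funext n
        change p.1.1 (n - 1 + 1) = p.1.1 n
        rw [sub_add_cancel]
      · funext k
        exact TB1_mod1 (p.2.2.2 k).1
    right_inv := fun p => by
      refine Subtype.ext (Prod.ext ?_ ?_)
      · funext n
        change p.1.1 (n + 1 - 1) = p.1.1 n
        rw [add_sub_cancel_right]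
      · funext k
        exact TB1_mod2 (p.2.2.2 k).1
    continuous_toFun := (hcu.comp continuous_subtype_val).subtype_mk _
    continuous_invFun := (hcd.comp continuous_subtype_val).subtype_mk _ }, fun p n => rfl,
    fun p k => rfl⟩

omit [Fintype A] [TopologicalSpace A] [DiscreteTopology A] in
/-- an offset of level `k + 1` gives one of level `k` -/
private theorem TB1_down (hlam : ∀ i, 2 ≤ lam i) {k : ℕ} {x : ℤ → A} {ρ : ℕ}
    (h : Conc lam π (k + 1) x ρ) : Conc lam π k x (ρ % Lp lam k) := by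
  have hL := Lp_pos hlam k
  refine ⟨Nat.mod_lt _ (by omega), fun i => ?_⟩
  have hl : (0 : ℤ) < lam k := by have := hlam k; omega
  -- the block of level `k + 1`
  set q : ℕ := ρ / Lp lam k with hq
  obtain ⟨a, ha⟩ := h.2 ((i + q) / lam k)
  set s : ℕ := ((i + q) % lam k).toNat with hs
  have hs1 : (s : ℤ) = (i + q) % lam k := by
    rw [hs, Int.toNat_of_nonneg (Int.emod_nonneg _ (by omega))]
  have hs2 : s < lam k := by
    have := Int.emod_lt_of_pos (i + q) hl
    omega
  refine ⟨π k s a, fun r hr => ?_⟩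
  have hrs : s * Lp lam k + r < Lp lam (k + 1) := by
    rw [Lp_succ]
    calc s * Lp lam k + r < s * Lp lam k + Lp lam k := by omega
      _ = (s + 1) * Lp lam k := by ring
      _ ≤ lam k * Lp lam k := Nat.mul_le_mul_right _ hs2
      _ = _ := Nat.mul_comm _ _
  have h1 := ha _ hrs
  have h2 : Wd lam π (k + 1) a (s * Lp lam k + r) = Wd lam π k (π k s a) r := by
    rw [Wd]
    have e1 : (s * Lp lam k + r) / Lp lam k = s := by
      rw [Nat.add_comm, Nat.add_mul_div_right _ _ (by omega), Nat.div_eq_of_lt hr, Nat.zero_add]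
    have e2 : (s * Lp lam k + r) % Lp lam k = r := by
      rw [Nat.add_comm, Nat.add_mul_mod_self_right, Nat.mod_eq_of_lt hr]
    rw [e1, e2]
  rw [← h2, ← h1]
  congr 1
  have h3 : (ρ : ℤ) = Lp lam k * q + (ρ % Lp lam k : ℕ) := by
    have := Nat.div_add_mod ρ (Lp lam k)
    rw [← hq] at this
    exact_mod_cast this.symm
  have h4 : (i + q) = lam k * ((i + q) / lam k) + (i + q) % lam k :=
    (Int.mul_ediv_add_emod _ _).symm
  rw [Lp_succ]
  push_cast
  rw [hs1]
  push_cast at h3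
  linear_combination (Lp lam k : ℤ) * h4 + h3

/-- every point has compatible offsets (if `ρ` is an offset of level `k+1` then `ρ % L_k` is one of
level `k`; inverse limit of nonempty finite sets) -/
theorem XH_lift (hlam : ∀ i, 2 ≤ lam i) {x : ℤ → A} (hx : x ∈ Y)
    (h : ∀ k, ∃ ρ : ℤ, ∀ i : ℤ, ∃ a, ∀ r < Lp lam k, x (ρ + i * Lp lam k + r) = Wd lam π k a r) :
    ∃ ρ : ℕ → ℕ, (x, ρ) ∈ XH lam π Y := by
  -- offsets of one level
  have hO : ∀ k, ∃ ρ : ℕ, Conc lam π k x ρ := by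
    intro k
    obtain ⟨ρ, hρ⟩ := h k
    have hL := Lp_pos hlam k
    have hL0 : (0 : ℤ) < Lp lam k := by omega
    refine ⟨((-ρ) % Lp lam k).toNat, ?_, fun i => ?_⟩
    · have := Int.emod_lt_of_pos (-ρ) hL0
      have := Int.emod_nonneg (-ρ) (by omega : (Lp lam k : ℤ) ≠ 0)
      omega
    · obtain ⟨a, ha⟩ := hρ (i + (-ρ) / Lp lam k)
      refine ⟨a, fun r hr => ?_⟩
      rw [← ha r hr]
      congr 1
      rw [Int.toNat_of_nonneg (Int.emod_nonneg _ (by omega))]
      have h4 : (-ρ) = Lp lam k * ((-ρ) / Lp lam k) + (-ρ) % Lp lam k :=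
        (Int.mul_ediv_add_emod _ _).symm
      linear_combination h4
  set t : ℕ → Set (ℕ → ℕ) := fun n => {ρ | (∀ k, ρ k < Lp lam k) ∧
    (∀ k < n, ρ k = ρ (k + 1) % Lp lam k) ∧ ∀ k ≤ n, Conc lam π k x (ρ k)} with ht
  have hmono : ∀ n, t (n + 1) ⊆ t n := fun n ρ hρ =>
    ⟨hρ.1, fun k hk => hρ.2.1 k (by omega), fun k hk => hρ.2.2 k (by omega)⟩
  have hne : ∀ n, (t n).Nonempty := by
    intro n
    obtain ⟨σ, hσ⟩ := hO n
    have hdv : ∀ j k, j ≤ k → Lp lam j ∣ Lp lam k := by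
      intro j k hjk
      induction k, hjk using Nat.le_induction with
      | base => exact dvd_rfl
      | succ k _ ih => exact ih.trans (TB1_dvd k)
    have hdown : ∀ j, j ≤ n → Conc lam π (n - j) x (σ % Lp lam (n - j)) := by
      intro j
      induction j with
      | zero =>
        intro _
        rw [Nat.sub_zero, Nat.mod_eq_of_lt hσ.1]
        exact hσ
      | succ j ih =>
        intro hj
        have h1 := ih (by omega)
        have h2 : n - j = (n - (j + 1)) + 1 := by omega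
        rw [h2] at h1
        have h3 := TB1_down hlam h1
        rwa [Nat.mod_mod_of_dvd _ (TB1_dvd _)] at h3
    refine ⟨fun k => if k ≤ n then σ % Lp lam k else 0, fun k => ?_, fun k hk => ?_,
      fun k hk => ?_⟩
    · have := Lp_pos hlam k
      by_cases hk : k ≤ n
      · simp only [hk, if_true]; exact Nat.mod_lt _ (by omega)
      · simp only [hk, if_false]; omega
    · have h1 : k ≤ n := by omega
      have h2 : k + 1 ≤ n := by omega
      simp only [h1, h2, if_true]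
      rw [Nat.mod_mod_of_dvd _ (TB1_dvd k)]
    · simp only [hk, if_true]
      have h1 := hdown (n - k) (by omega)
      rwa [Nat.sub_sub_self hk] at h1
  have hcont : ∀ k, Continuous fun ρ : ℕ → ℕ => ρ k := fun k => continuous_apply k
  have hcl : ∀ n, IsClosed (t n) := by
    intro n
    have h1 : t n = (⋂ k, {ρ | ρ k < Lp lam k}) ∩
        ((⋂ k, ⋂ _ : k < n, {ρ | ρ k = ρ (k + 1) % Lp lam k}) ∩
          ⋂ k, ⋂ _ : k ≤ n, {ρ | Conc lam π k x (ρ k)}) := by
      ext ρ
      simp only [ht, Set.mem_ofPred_eq, Set.mem_inter_iff, Set.mem_iInter]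
    rw [h1]
    refine (isClosed_iInter fun k => ?_).inter ((isClosed_iInter fun k => isClosed_iInter fun _ =>
      ?_).inter (isClosed_iInter fun k => isClosed_iInter fun _ => ?_))
    · exact (isClosed_discrete {m : ℕ | m < Lp lam k}).preimage (hcont k)
    · exact isClosed_eq (hcont k)
        ((continuous_of_discreteTopology (f := fun m : ℕ => m % Lp lam k)).comp (hcont (k + 1)))
    · exact (isClosed_discrete {m : ℕ | Conc lam π k x m}).preimage (hcont k)
  have hcp : IsCompact (t 0) :=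
    (isCompact_univ_pi fun k => (Set.finite_lt_nat (Lp lam k)).isCompact).of_isClosed_subset
      (hcl 0) fun ρ hρ k _ => hρ.1 k
  obtain ⟨ρ, hρ⟩ := IsCompact.nonempty_iInter_of_sequence_nonempty_isCompact_isClosed t hmono
    hne hcp hcl
  rw [Set.mem_iInter] at hρ
  exact ⟨ρ, hx, fun k => (hρ (k + 1)).2.1 k (by omega), fun k => (hρ k).2.2 k le_rfl⟩

end Pool.Agent.Ef
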