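import Pool.Agent.Ef.Defs

/-! MP_13664e_an (ELFR), module TB3: bounded sequence entropy passes to factors. -/

set_option autoImplicit false

namespace Pool.Agent.Ef

open Filter Topology Pool.Agent.Sar

/-- the covering numbers of the pulled back cover are the same -/
private theorem TB3_cov {X Y : Type*} [TopologicalSpace X] [TopologicalSpace Y] {f : X → X}
    {g : Y → Y} {φ : X → Y} (hsur : Function.Surjective φ) (h : ∀ x, φ (f x) = g (φ x))
    (a : ℕ → ℕ) {k : ℕ} (U : Fin k → Set Y) (n : ℕ) :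
    covNum g a U n = covNum f a (fun i => φ ⁻¹' U i) n := by
  have hit : ∀ m x, g^[m] (φ x) = φ (f^[m] x) := by
    intro m
    induction m with
    | zero => intro x; rfl
    | succ m ih =>
      intro x
      rw [Function.iterate_succ_apply, Function.iterate_succ_apply, ← h, ih]
  unfold covNum
  congr 1
  ext c
  constructor
  · rintro ⟨W, hW, hc⟩
    refine ⟨W, hW, fun x => ?_⟩
    obtain ⟨w, hw, hi⟩ := hc (φ x)
    refine ⟨w, hw, fun i => ?_⟩
    rw [Set.mem_preimage, ← hit]
    exact hi i
  · rintro ⟨W, hW, hc⟩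
    refine ⟨W, hW, fun y => ?_⟩
    obtain ⟨x, rfl⟩ := hsur y
    obtain ⟨w, hw, hi⟩ := hc x
    refine ⟨w, hw, fun i => ?_⟩
    rw [hit]
    exact hi i

/-- `covNum` of a cover of the factor is at most `covNum` of the pulled back cover (they are equal) -/
theorem TB3 {X Y : Type*} [TopologicalSpace X] [TopologicalSpace Y] {f : X → X} {g : Y → Y}
    {φ : X → Y} (hφ : Continuous φ) (hsur : Function.Surjective φ) (h : ∀ x, φ (f x) = g (φ x))
    (hB : BddSeqEnt f) : BddSeqEnt g := by
  obtain ⟨M, hM⟩ := hB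
  refine ⟨M, fun a ha ha0 k U hU hUc => ?_⟩
  have h1 := hM a ha ha0 k (fun i => φ ⁻¹' U i) (fun i => (hU i).preimage hφ)
    (by rw [← Set.preimage_iUnion, hUc, Set.preimage_univ])
  have h2 : (fun n : ℕ => (((Real.log (covNum g a U n)) / n : ℝ) : EReal)) =
      fun n : ℕ => (((Real.log (covNum f a (fun i => φ ⁻¹' U i) n)) / n : ℝ) : EReal) := by
    funext n
    rw [TB3_cov hsur h a U n]
  rw [h2]
  exact h1

end Pool.Agent.Ef
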