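import Pool.Agent.Ef.WN

/-!
# MP_13664e_an (ELFR), second part: bijective constant-length S-adic systems, definitions

`A` is the alphabet, `lam i` the lengths, `π i v` (`v < lam i`) permutations of `A`. The words
`W_k(a)` are defined by `W_0(a) = a`, `W_{k+1}(a) = W_k(π_{k,0} a) W_k(π_{k,1} a) …`.
-/

set_option autoImplicit false

namespace Pool.Agent.Ef

open Filter Topology

/-- the length of the words of level `k` -/
def Lp (lam : ℕ → ℕ) (k : ℕ) : ℕ := ∏ i ∈ Finset.range k, lam i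

/-- `Wd lam π k a r` is the letter number `r` of the word `W_k(a)` -/
def Wd {A : Type*} (lam : ℕ → ℕ) (π : ℕ → ℕ → Equiv.Perm A) : ℕ → A → ℕ → A
  | 0, a, _ => a
  | k + 1, a, r => Wd lam π k (π k (r / Lp lam k) a) (r % Lp lam k)

open Classical in
/-- the mixing condition: for all letters `a`, `b` and all `z` of modulus one
`(1/L_k) ∑_{r < L_k} (1[W_k(a)_r = b] - 1/|A|) z^r → 0`. -/
def Mix {A : Type*} [Fintype A] (lam : ℕ → ℕ) (π : ℕ → ℕ → Equiv.Perm A) : Prop :=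
  ∀ (a b : A) (z : ℂ), ‖z‖ = 1 → Tendsto (fun k : ℕ => (Lp lam k : ℂ)⁻¹ *
    ∑ r ∈ Finset.range (Lp lam k),
      ((if Wd lam π k a r = b then 1 else 0) - (Fintype.card A : ℂ)⁻¹) * z ^ r) atTop (𝓝 0)

/-- over the base of level `k` one reads one of the words `W_k(a)` -/
def BJ {X A : Type*} (T : X → X) (lam : ℕ → ℕ) (π : ℕ → ℕ → Equiv.Perm A) (ph : ℕ → X → ℕ)
    (s : X → A) : Prop :=
  ∀ k x, ph k x = 0 → ∃ a, ∀ r < Lp lam k, s (T^[r] x) = Wd lam π k a r

/-- the point `x` is a concatenation of words of level `k` with offset `ρ` (the coordinate `0` is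
the letter number `ρ` of its word) -/
def Conc {A : Type*} (lam : ℕ → ℕ) (π : ℕ → ℕ → Equiv.Perm A) (k : ℕ) (x : ℤ → A) (ρ : ℕ) : Prop :=
  ρ < Lp lam k ∧ ∀ i : ℤ, ∃ a, ∀ r < Lp lam k, x (i * Lp lam k + r - ρ) = Wd lam π k a r

theorem Lp_succ (lam : ℕ → ℕ) (k : ℕ) : Lp lam (k + 1) = Lp lam k * lam k :=
  Finset.prod_range_succ _ _

theorem Lp_pos {lam : ℕ → ℕ} (h : ∀ i, 2 ≤ lam i) (k : ℕ) : 1 ≤ Lp lam k :=
  Nat.succ_le_of_lt (Finset.prod_pos fun i _ => lt_of_lt_of_le (by norm_num) (h i))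

end Pool.Agent.Ef
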