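import Pool.Agent.Ef.M1
import Pool.Agent.Ef.TA4
import Pool.Agent.Ef.TB1
import Pool.Agent.Ef.TB3

/-! MP_13664e_an (ELFR), module TM: bijective constant-length S-adic systems, assembly. -/

set_option autoImplicit false

namespace Pool.Agent.Ef

open MeasureTheory ProbabilityTheory Filter Topology Pool.Agent.Sar
open scoped ENNReal ComplexConjugate

private theorem Lp_lim {lam : ℕ → ℕ} (hlam : ∀ i, 2 ≤ lam i) : Tendsto (Lp lam) atTop atTop := by
  have h : ∀ k, k ≤ Lp lam k := by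
    intro k
    induction k with
    | zero => exact Nat.zero_le _
    | succ k ih =>
      rw [Lp_succ]
      have h1 := Lp_pos hlam k
      have h2 := hlam k
      nlinarith
  exact tendsto_atTop_mono h tendsto_id

private theorem Wds_of_BJ {X A : Type*} [Fintype A] {T : X → X} {lam : ℕ → ℕ}
    {π : ℕ → ℕ → Equiv.Perm A} {ph : ℕ → X → ℕ} {s : X → A} (hB : BJ T lam π ph s) :
    Wds T (Lp lam) ph s (Fintype.card A) := by
  classical
  intro k
  refine ⟨Finset.univ.image (fun a : A => fun r : Fin (Lp lam k) => Wd lam π k a r),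
    Finset.card_image_le.trans_eq Finset.card_univ, fun x hx => ?_⟩
  obtain ⟨a, ha⟩ := hB k x hx
  rw [Finset.mem_image]
  exact ⟨a, Finset.mem_univ _, funext fun r => (ha r r.2).symm⟩

theorem TM {A : Type*} [Fintype A] [TopologicalSpace A] [DiscreteTopology A]
    (hLam : Pool.Agent.BGG.SWLam) (hmu : Pool.Agent.BGG.SWmu) {lam : ℕ → ℕ}
    (hlam : ∀ i, 2 ≤ lam i) {π : ℕ → ℕ → Equiv.Perm A} (hM : Mix lam π) {Y : Set (ℤ → A)}
    (hYc : IsClosed Y) (hYs : ∀ x, x ∈ Y ↔ (fun n => x (n + 1)) ∈ Y)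
    (hY : ∀ x ∈ Y, ∀ k, ∃ ρ : ℤ, ∀ i : ℤ, ∃ a, ∀ r < Lp lam k,
      x (ρ + i * Lp lam k + r) = Wd lam π k a r)
    (T : Y → Y) (hT : ∀ (x : Y) (n : ℤ), (T x).1 n = x.1 (n + 1)) :
    BddSeqEnt T ∧ ∀ (g : C(Y, ℂ)) (x : Y),
      Tendsto (fun N : ℕ => (N : ℂ)⁻¹ * ∑ n ∈ Finset.Icc 1 N,
        g (T^[n] x) * ((ArithmeticFunction.moebius n : ℤ) : ℂ)) atTop (𝓝 0) := by
  haveI : CompactSpace (XH lam π Y) := XH_compact hlam hYc
  haveI : TopologicalSpace.MetrizableSpace (XH lam π Y) := XH_metrizable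
  letI : MetricSpace (XH lam π Y) := TopologicalSpace.metrizableSpaceMetric (XH lam π Y)
  letI : MeasurableSpace (XH lam π Y) := borel (XH lam π Y)
  haveI : BorelSpace (XH lam π Y) := ⟨rfl⟩
  obtain ⟨S, hS1, hS2⟩ := XH_homeo (π := π) hlam hYs
  set ph : ℕ → XH lam π Y → ℕ := fun k p => p.1.2 k with hph
  set s : XH lam π Y → A := fun p => p.1.1 0 with hs
  have hPh : Ph (⇑S) (Lp lam) ph := by
    refine ⟨Lp_pos hlam, fun k => ?_, Lp_lim hlam, fun k p => (p.2.2.2 k).1, fun k p => hS2 p k,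
      fun k p => p.2.2.1 k⟩
    rw [Lp_succ]
    exact dvd_mul_right _ _
  have hc : ∀ k, Continuous (ph k) := fun k =>
    (continuous_apply k).comp (continuous_snd.comp continuous_subtype_val)
  have hsc : Continuous s :=
    (continuous_apply (0 : ℤ)).comp (continuous_fst.comp continuous_subtype_val)
  have hit : ∀ (n : ℕ) (p : XH lam π Y) (i : ℤ), ((⇑S)^[n] p).1.1 i = p.1.1 (i + n) := by
    intro n
    induction n with
    | zero => intro p i; simp
    | succ n ih =>
      intro p i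
      rw [Function.iterate_succ_apply, ih, hS1]
      congr 1
      push_cast
      ring
  have hsym : ∀ (p : XH lam π Y) (i : ℤ), (S.symm p).1.1 i = p.1.1 (i - 1) := by
    intro p i
    have := hS1 (S.symm p) (i - 1)
    rw [S.apply_symm_apply, sub_add_cancel] at this
    exact this.symm
  have hits : ∀ (n : ℕ) (p : XH lam π Y) (i : ℤ), ((⇑S.symm)^[n] p).1.1 i = p.1.1 (i - n) := by
    intro n
    induction n with
    | zero => intro p i; simp
    | succ n ih =>
      intro p i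
      rw [Function.iterate_succ_apply, ih, hsym]
      congr 1
      push_cast
      ring
  have hsep : ∀ x x' : XH lam π Y, (∀ k, ph k x = ph k x') →
      (∀ n : ℕ, s ((⇑S)^[n] x) = s ((⇑S)^[n] x')) →
      (∀ n : ℕ, s ((⇑S.symm)^[n] x) = s ((⇑S.symm)^[n] x')) → x = x' := by
    intro x x' h1 h2 h3
    refine Subtype.ext (Prod.ext (funext fun i => ?_) (funext fun k => h1 k))
    obtain ⟨n, rfl | rfl⟩ := i.eq_nat_or_neg
    · have := h2 n
      simp only [hs, hit, zero_add] at this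
      exact this
    · have := h3 n
      simp only [hs, hits, zero_sub] at this
      exact this
  have hBJ : BJ (⇑S) lam π ph s := by
    intro k x hx
    obtain ⟨a, ha⟩ := (x.2.2.2 k).2 0
    refine ⟨a, fun r hr => ?_⟩
    rw [hs]
    simp only
    rw [hit, ← ha r hr]
    have : x.1.2 k = 0 := hx
    rw [this]
    congr 1
    push_cast
    ring
  have hWds := Wds_of_BJ hBJ
  have hBS : BddSeqEnt (⇑S) := BS S hPh hc hsc hsep hWds
  set φ : XH lam π Y → Y := fun p => ⟨p.1.1, p.2.1⟩ with hφ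
  have hφc : Continuous φ :=
    Continuous.subtype_mk (continuous_fst.comp continuous_subtype_val) _
  have hφT : ∀ p, φ (S p) = T (φ p) := by
    intro p
    refine Subtype.ext (funext fun n => ?_)
    rw [hT]
    exact hS1 p n
  have hsur : Function.Surjective φ := by
    intro y
    obtain ⟨ρ, hρ⟩ := XH_lift hlam y.2 (hY y.1 y.2)
    exact ⟨⟨(y.1, ρ), hρ⟩, Subtype.ext rfl⟩
  refine ⟨TB3 hφc hsur hφT hBS, fun g x => ?_⟩
  obtain ⟨p, hp⟩ := hsur x
  haveI : Nonempty (XH lam π Y) := ⟨p⟩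
  obtain ⟨ν, hν, hSys⟩ := TA4 S hlam hM hPh hc hsc hBJ hsep
  haveI := hν
  have key := M1 hLam hmu hSys hsc hsep hWds ⟨fun q => g (φ q), g.continuous.comp hφc⟩ p
  have hφn : ∀ n : ℕ, φ ((⇑S)^[n] p) = T^[n] x := by
    intro n
    have : Function.Semiconj φ (⇑S) T := hφT
    rw [(this.iterate_right n).eq p, hp]
  simp only [ContinuousMap.coe_mk, hφn] at key
  exact key

end Pool.Agent.Ef
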