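import Pool.Agent.Ef.Defs

/-! MP_13664e_an (ELFR), module U1: the components of `ν × ν` over the invariant sets. -/

set_option autoImplicit false
set_option linter.unusedSectionVars false

namespace Pool.Agent.Ef

open MeasureTheory ProbabilityTheory Filter Topology Pool.Agent.Sar
open scoped ENNReal ComplexConjugate

variable {X : Type*} [mX : MeasurableSpace X] [StandardBorelSpace X] [Nonempty X]
  {ν : Measure X} [IsProbabilityMeasure ν]

/-- the components: conditional measures of `ν × ν` over the sigma-algebra of the `T × T`-invariant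
sets (all invariant measurable sets) -/
noncomputable def Om (ν : Measure X) [IsProbabilityMeasure ν] (T : X → X) (w : X × X) :
    Measure (X × X) :=
  condExpKernel (ν.prod ν) (MeasurableSpace.invariants (Prod.map T T)) w

instance (T : X → X) (w : X × X) : IsProbabilityMeasure (Om ν T w) := by
  unfold Om; infer_instance

private theorem U1_le (T : X → X) : MeasurableSpace.invariants (Prod.map T T) ≤
    (inferInstance : MeasurableSpace (X × X)) :=
  MeasurableSpace.invariants_le _

private theorem U1_ce (T : X → X) {φ : X × X → ℂ} (hφ : BM φ) :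
    (ν.prod ν)[φ | MeasurableSpace.invariants (Prod.map T T)] =ᵐ[ν.prod ν]
      fun w => ∫ z, φ z ∂(Om ν T w) :=
  condExp_ae_eq_integral_condExpKernel (U1_le T) (K2b_int hφ)

/-- `∫ ∫ φ dOm_w d(ν×ν)(w) = ∫ φ d(ν×ν)` -/
theorem Om_int (T : X → X) {φ : X × X → ℂ} (hφ : BM φ) :
    ∫ w, ∫ z, φ z ∂(Om ν T w) ∂(ν.prod ν) = ∫ z, φ z ∂(ν.prod ν) := by
  rw [← integral_congr_ae (U1_ce (ν := ν) T hφ), integral_condExp (U1_le T)]

private theorem U1_im {T : X → X} {E : X × X → ℂ} (hE : Measurable E)
    (hi : ∀ z, E (Prod.map T T z) = E z) :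
    Measurable[MeasurableSpace.invariants (Prod.map T T)] E := by
  rw [MeasurableSpace.measurable_invariants_dom]
  refine ⟨hE, fun s _ => ?_⟩
  ext z
  simp only [Set.mem_preimage, Function.comp_apply, hi]

/-- pulling out an exactly invariant function -/
theorem Om_mul {T : X → X} {φ E : X × X → ℂ} (hφ : BM φ) (hE : BM E)
    (hi : ∀ z, E (Prod.map T T z) = E z) :
    ∫ w, (∫ z, φ z ∂(Om ν T w)) * E w ∂(ν.prod ν) = ∫ z, φ z * E z ∂(ν.prod ν) := by
  have hm := U1_im hE.meas hi
  have h1 : (ν.prod ν)[fun x => φ x * E x | MeasurableSpace.invariants (Prod.map T T)]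
      =ᵐ[ν.prod ν] fun x =>
        ((ν.prod ν)[φ | MeasurableSpace.invariants (Prod.map T T)]) x * E x :=
    condExp_bilin_of_stronglyMeasurable_right (ContinuousLinearMap.mul ℝ ℂ)
      hm.stronglyMeasurable (K2b_int (K2b_mul hφ hE)) (K2b_int hφ)
  have h2 : (fun x => ((ν.prod ν)[φ | MeasurableSpace.invariants (Prod.map T T)]) x * E x)
      =ᵐ[ν.prod ν] fun w => (∫ z, φ z ∂(Om ν T w)) * E w := by
    filter_upwards [U1_ce (ν := ν) T hφ] with x hx
    rw [hx]
  rw [← integral_congr_ae (h1.trans h2), integral_condExp (U1_le T)]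

/-- a bounded function which is orthogonal to all invariant functions has mean zero on almost every
component -/
private theorem U1_zero {T : X → X} {φ : X × X → ℂ} (hφ : BM φ)
    (h : ∀ E : X × X → ℂ, BM E → (∀ z, E (Prod.map T T z) = E z) →
      ∫ z, φ z * E z ∂(ν.prod ν) = 0) :
    ∀ᵐ w ∂(ν.prod ν), ∫ z, φ z ∂(Om ν T w) = 0 := by
  set u : X × X → ℂ := fun w => ∫ z, φ z ∂(Om ν T w) with hu
  have hm : Measurable[MeasurableSpace.invariants (Prod.map T T)] u :=
    (hφ.meas.stronglyMeasurable.integral_condExpKernel (μ := ν.prod ν)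
      (m := MeasurableSpace.invariants (Prod.map T T))).measurable
  obtain ⟨C, hC⟩ := hφ.bdd
  have hub : ∀ w, ‖u w‖ ≤ C := fun w => by
    have h := norm_integral_le_of_norm_le_const (μ := Om ν T w) (f := φ) (C := C) (ae_of_all _ hC)
    simpa using h
  have huB : BM u := ⟨hm.mono (U1_le T) le_rfl, C, hub⟩
  have hinv : ∀ z, u (Prod.map T T z) = u z := fun z =>
    congrFun (MeasurableSpace.comp_eq_of_measurable_invariants hm) z
  have hcB : BM (fun z => conj (u z)) := K2b_conj huB
  have h1 := Om_mul (ν := ν) (T := T) hφ hcB (fun z => by simp only [hinv])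
  rw [h _ hcB (fun z => by simp only [hinv])] at h1
  exact K2b_zero huB h1

private theorem U1_eq {T : X → X} {φ ψ : X × X → ℂ} (hφ : BM φ) (hψ : BM ψ)
    (h : ∀ E : X × X → ℂ, BM E → (∀ z, E (Prod.map T T z) = E z) →
      ∫ z, φ z * E z ∂(ν.prod ν) = ∫ z, ψ z * E z ∂(ν.prod ν)) :
    ∀ᵐ w ∂(ν.prod ν), ∫ z, φ z ∂(Om ν T w) = ∫ z, ψ z ∂(Om ν T w) := by
  have h1 := U1_zero (ν := ν) (T := T) (K2b_sub hφ hψ) (fun E hE hi => by
    have h2 : ∀ z, (φ z - ψ z) * E z = φ z * E z - ψ z * E z := fun z => by ring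
    simp only [h2]
    rw [integral_sub (K2b_int (K2b_mul hφ hE)) (K2b_int (K2b_mul hψ hE)), h E hE hi, sub_self])
  filter_upwards [h1] with w hw
  rw [integral_sub (K2b_int hφ) (K2b_int hψ)] at hw
  exact sub_eq_zero.mp hw

private theorem U1_ind {κ : Measure (X × X)} {B : Set (X × X)} (hB : MeasurableSet B) :
    ∫ z, K2c_i B z ∂κ = ((κ.real B : ℝ) : ℂ) := by
  unfold K2c_i
  rw [integral_indicator_const _ hB]
  simp

private theorem U1_indc {B : Set (X × X)} {f : X × X → X × X} (z : X × X) :
    K2c_i B (f z) = K2c_i (f ⁻¹' B) z := rfl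

/-- almost every component is invariant (countable generating algebra) -/
theorem Om_inv {T : X → X} (hT : MeasurePreserving T ν ν) :
    ∀ᵐ w ∂(ν.prod ν), (Om ν T w).map (Prod.map T T) = Om ν T w := by
  have hS : MeasurePreserving (Prod.map T T) (ν.prod ν) (ν.prod ν) := hT.prod hT
  have h1 : ∀ q : ℚ, ∀ᵐ w ∂(ν.prod ν),
      ((Om ν T w).map (Prod.map T T)).real (K2c_B (X × X) q) = (Om ν T w).real (K2c_B (X × X) q) := by
    intro q
    have hB := K2c_meas (X := X × X) q
    have hφ := K2c_i_BM hB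
    have hφS := K2c_i_BM (hS.measurable hB)
    have h2 := U1_eq (ν := ν) (T := T) hφS hφ (fun E hE hi => by
      have h3 : ∀ z, K2c_i (Prod.map T T ⁻¹' K2c_B (X × X) q) z * E z =
          (fun z => K2c_i (K2c_B (X × X) q) z * E z) (Prod.map T T z) := fun z => by
        simp only [hi]
        rfl
      simp only [h3]
      have h4 := integral_map (μ := ν.prod ν) (φ := Prod.map T T) hS.measurable.aemeasurable
        (f := fun z => K2c_i (K2c_B (X × X) q) z * E z)
        (K2b_mul hφ hE).meas.aestronglyMeasurable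
      rw [hS.map_eq] at h4
      exact h4.symm)
    filter_upwards [h2] with w hw
    rw [U1_ind (hS.measurable hB), U1_ind hB] at hw
    have h5 := Complex.ofReal_injective hw
    rw [← h5, measureReal_def, measureReal_def, Measure.map_apply hS.measurable hB]
  filter_upwards [ae_all_iff.mpr h1] with w hw
  have hp : IsProbabilityMeasure ((Om ν T w).map (Prod.map T T)) :=
    Measure.isProbabilityMeasure_map hS.measurable.aemeasurable
  exact K2c_ext hw

omit [StandardBorelSpace X] [Nonempty X] in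
/-- for an invariant `E`, integration against a function of the first coordinate factorizes -/
private theorem U1_fac {T : X → X} (hT : Ergodic T ν) {φ : X → ℂ} (hφ : BM φ) {E : X × X → ℂ}
    (hE : BM E) (hi : ∀ z, E (Prod.map T T z) = E z) :
    ∫ z, φ z.1 * E z ∂(ν.prod ν) = (∫ x, φ x ∂ν) * ∫ z, E z ∂(ν.prod ν) := by
  set G : X → ℂ := fun x => ∫ y, E (x, y) ∂ν with hG
  obtain ⟨C, hC⟩ := hE.bdd
  have hGm : Measurable G :=
    (hE.meas.stronglyMeasurable.integral_prod_right' (ν := ν)).measurable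
  have hGi : ∀ x, G (T x) = G x := by
    intro x
    simp only [hG]
    have h1 := integral_map (μ := ν) (φ := T) hT.measurable.aemeasurable
      (f := fun y => E (T x, y))
      (hE.meas.comp (measurable_const.prodMk measurable_id)).aestronglyMeasurable
    rw [hT.toMeasurePreserving.map_eq] at h1
    rw [h1]
    refine integral_congr_ae (ae_of_all _ fun y => ?_)
    exact hi (x, y)
  obtain ⟨c, hc⟩ : ∃ c : ℂ, G =ᵐ[ν] fun _ => c :=
    hT.quasiErgodic.ae_eq_const_of_ae_eq_comp₀ hGm.nullMeasurable (ae_of_all _ hGi)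
  have hEint : Integrable E (ν.prod ν) := K2b_int hE
  have h3 : ∫ z, E z ∂(ν.prod ν) = c := by
    rw [integral_prod _ hEint]
    have : ∫ x, ∫ y, E (x, y) ∂ν ∂ν = ∫ _x, c ∂ν := integral_congr_ae hc
    rw [this]
    simp
  have hφ1 : BM (fun z : X × X => φ z.1) := ⟨hφ.meas.comp measurable_fst, by
    obtain ⟨D, hD⟩ := hφ.bdd
    exact ⟨D, fun z => hD z.1⟩⟩
  have hprod : Integrable (fun z : X × X => φ z.1 * E z) (ν.prod ν) := K2b_int (K2b_mul hφ1 hE)
  rw [integral_prod _ hprod, h3]
  have h4 : ∀ x, ∫ y, φ x * E (x, y) ∂ν = φ x * G x := fun x => integral_const_mul _ _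
  simp only [h4]
  rw [← integral_mul_const]
  refine integral_congr_ae ?_
  filter_upwards [hc] with x hx
  rw [hx]

/-- almost every component is a coupling: for bounded `g`, `E(g ∘ fst | invariants)` equals
`E((1/N) ∑ g ∘ T^n ∘ fst | invariants)`, which tends to `∫ g dν` in `L²` (ergodicity of `ν`) -/
theorem Om_coup {T : X → X} (hE : Ergodic T ν) : ∀ᵐ w ∂(ν.prod ν), Coup ν (Om ν T w) := by
  have key : ∀ p : X × X → X, Measurable p →
      (∀ φ : X → ℂ, BM φ → ∀ E : X × X → ℂ, BM E → (∀ z, E (Prod.map T T z) = E z) →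
        ∫ z, φ (p z) * E z ∂(ν.prod ν) = (∫ x, φ x ∂ν) * ∫ z, E z ∂(ν.prod ν)) →
      ∀ᵐ w ∂(ν.prod ν), (Om ν T w).map p = ν := by
    intro p hp hfac
    have h1 : ∀ q : ℚ, ∀ᵐ w ∂(ν.prod ν),
        ((Om ν T w).map p).real (K2c_B X q) = ν.real (K2c_B X q) := by
      intro q
      have hB := K2c_meas (X := X) q
      have hφ := K2c_i_BM hB
      have hφp := K2c_i_BM (hp hB)
      have hcst : BM (fun _ : X × X => ∫ x, K2c_i (K2c_B X q) x ∂ν) :=
        ⟨measurable_const, _, fun _ => le_rfl⟩
      have h2 := U1_eq (ν := ν) (T := T) hφp hcst (fun E hE' hi => by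
        have h3 := hfac _ hφ E hE' hi
        rw [integral_const_mul]
        exact h3)
      filter_upwards [h2] with w hw
      rw [U1_ind (hp hB)] at hw
      have h6 : ∫ x, K2c_i (K2c_B X q) x ∂ν = ((ν.real (K2c_B X q) : ℝ) : ℂ) := by
        unfold K2c_i
        rw [integral_indicator_const _ hB]
        simp
      simp only [h6, integral_const, probReal_univ, one_smul] at hw
      have h5 := Complex.ofReal_injective hw
      rw [← h5, measureReal_def, measureReal_def, Measure.map_apply hp hB]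
    filter_upwards [ae_all_iff.mpr h1] with w hw
    have hpr : IsProbabilityMeasure ((Om ν T w).map p) :=
      Measure.isProbabilityMeasure_map hp.aemeasurable
    exact K2c_ext hw
  have hf := key Prod.fst measurable_fst (fun φ hφ E hE' hi => U1_fac hE hφ hE' hi)
  have hs := key Prod.snd measurable_snd (fun φ hφ E hE' hi => by
    have hE2 : BM (fun z : X × X => E z.swap) := ⟨hE'.meas.comp measurable_swap, by
      obtain ⟨D, hD⟩ := hE'.bdd
      exact ⟨D, fun z => hD z.swap⟩⟩
    have h1 := U1_fac (ν := ν) hE hφ hE2 (fun z => hi z.swap)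
    have h2 : ∀ f : X × X → ℂ, ∫ z, f z.swap ∂(ν.prod ν) = ∫ z, f z ∂(ν.prod ν) := fun f =>
      integral_prod_swap f
    rw [h2 E] at h1
    rw [← h1, ← h2]
    rfl)
  filter_upwards [hf, hs] with w h1 h2
  exact ⟨h1, h2⟩

end Pool.Agent.Ef
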