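import Pool.Agent.Ef.R1

/-! MP_13664e_an (ELFR), module UA: average of the quadruple correlation over units. -/

set_option autoImplicit false

namespace Pool.Agent.Ef

open Filter Topology Pool.Agent.Sar
open scoped ComplexConjugate

/-- average over pairs of units -/
noncomputable def uav {Q : ℕ} [NeZero Q] (Φ : (ZMod Q)ˣ → (ZMod Q)ˣ → ℂ) : ℂ :=
  ((Q.totient : ℂ) ^ 2)⁻¹ * ∑ u, ∑ u', Φ u u'

/-- the average of `χ (u e)` over the units `u` -/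
private noncomputable def UA_E {Q : ℕ} [NeZero Q] (χ : AddChar (ZMod Q) ℂ) (e : ℕ) : ℂ :=
  (Q.totient : ℂ)⁻¹ * ∑ u : (ZMod Q)ˣ, χ ((u : ZMod Q) * (e : ZMod Q))

open Classical in
private theorem UA_E_le {Q : ℕ} [NeZero Q] (χ : AddChar (ZMod Q) ℂ) (e : ℕ) {τ : ℝ} (hτ : 0 ≤ τ)
    {R : ℕ} (hR : ∀ r : ℕ, R ≤ r → 1 / (r.totient : ℝ) ≤ τ) :
    ‖UA_E χ e‖ ≤ τ + if orderOf (χ (e : ZMod Q)) < R then 1 else 0 := by
  have hQ : (0 : ℝ) < Q.totient := by exact_mod_cast Nat.totient_pos.2 (NeZero.pos Q)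
  have h1 := (R1_sum χ e).2
  have h0 := (R1_sum χ e).1
  have h2 : ‖UA_E χ e‖ ≤ 1 / ((orderOf (χ (e : ZMod Q))).totient : ℝ) := by
    rw [UA_E, norm_mul, norm_inv, Complex.norm_natCast]
    calc (Q.totient : ℝ)⁻¹ * ‖∑ u : (ZMod Q)ˣ, χ ((u : ZMod Q) * (e : ZMod Q))‖
        ≤ (Q.totient : ℝ)⁻¹ * ((Q.totient : ℝ) / ((orderOf (χ (e : ZMod Q))).totient : ℝ)) :=
          mul_le_mul_of_nonneg_left h1 (by positivity)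
      _ = 1 / ((orderOf (χ (e : ZMod Q))).totient : ℝ) := by
          field_simp
  have h3 : 1 / ((orderOf (χ (e : ZMod Q))).totient : ℝ) ≤ 1 := by
    rw [div_le_one (by exact_mod_cast Nat.totient_pos.2 h0)]
    exact_mod_cast Nat.totient_pos.2 h0
  split_ifs with h
  · linarith
  · have := hR _ (not_lt.1 h)
    linarith

open Classical in
private theorem UA_cnt {Q : ℕ} [NeZero Q] {d : ℕ} (hd : 1 ≤ d) (R : ℕ) :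
    ∑ ψ : AddChar (ZMod Q) ℂ, (if orderOf (ψ (d : ZMod Q)) < R then (1 : ℝ) else 0) ≤
      (d : ℝ) * (R : ℝ) ^ 2 := by
  rw [Finset.sum_boole]
  exact_mod_cast R1_card hd R

private theorem UA_avr {Q : ℕ} [NeZero Q] {W : ZMod Q → ℂ} {B : ℝ} (hW : ∀ z, ‖W z‖ ≤ B) :
    avr (fun z => ‖W z‖ ^ 2) ≤ B ^ 2 := by
  have hQ : (0 : ℝ) < Q := by exact_mod_cast NeZero.pos Q
  rw [avr, inv_mul_le_iff₀ hQ]
  have h1 : ∀ z ∈ (Finset.univ : Finset (ZMod Q)), ‖W z‖ ^ 2 ≤ B ^ 2 := fun z _ =>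
    pow_le_pow_left₀ (norm_nonneg _) (hW z) 2
  have h2 := Finset.sum_le_card_nsmul _ _ _ h1
  rw [Finset.card_univ, ZMod.card, nsmul_eq_mul] at h2
  exact h2

/-- step 3: the average of `|fh U_t χ|²` over `t = w d` -/
private theorem UA_t {B : ℝ} {d : ℕ} (hd : 1 ≤ d) {τ : ℝ} (hτ : 0 ≤ τ)
    {R : ℕ} (hR : ∀ r : ℕ, R ≤ r → 1 / (r.totient : ℝ) ≤ τ)
    {Q : ℕ} [NeZero Q] {W : ZMod Q → ℂ} (hW : ∀ z, ‖W z‖ ≤ B) {s : ℝ}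
    (hs : ∀ χ : AddChar (ZMod Q) ℂ, ‖fh W χ‖ ≤ s) (χ : AddChar (ZMod Q) ℂ) :
    (Q.totient : ℝ)⁻¹ * ∑ w : (ZMod Q)ˣ,
      ‖fh (fun z => conj (W z) * W (z + (w : ZMod Q) * (d : ZMod Q))) χ‖ ^ 2 ≤
      τ * B ^ 4 + (d : ℝ) * (R : ℝ) ^ 2 * (s ^ 2 * B ^ 2) := by
  classical
  have hQ : (0 : ℝ) < Q.totient := by exact_mod_cast Nat.totient_pos.2 (NeZero.pos Q)
  obtain ⟨c, hc⟩ : ∃ c : AddChar (ZMod Q) ℂ → ℂ, c = fun ω =>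
    fh W ω * conj (fh W (ω * χ⁻¹)) := ⟨_, rfl⟩
  have hpar : ∑ ω : AddChar (ZMod Q) ℂ, ‖fh W ω‖ ^ 2 ≤ B ^ 2 := by
    rw [R1_pars]
    exact UA_avr hW
  have hpar' : ∑ ω : AddChar (ZMod Q) ℂ, ‖fh W (ω * χ⁻¹)‖ ^ 2 ≤ B ^ 2 := by
    refine le_trans (le_of_eq ?_) hpar
    exact Equiv.sum_comp (Equiv.mulRight χ⁻¹) fun ω => ‖fh W ω‖ ^ 2
  have hc1 : ∑ ω, ‖c ω‖ ≤ B ^ 2 := by
    have h1 : ∀ ω ∈ (Finset.univ : Finset (AddChar (ZMod Q) ℂ)), ‖c ω‖ ≤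
        (‖fh W ω‖ ^ 2 + ‖fh W (ω * χ⁻¹)‖ ^ 2) / 2 := by
      intro ω _
      rw [hc]
      simp only [norm_mul, RCLike.norm_conj]
      nlinarith [sq_nonneg (‖fh W ω‖ - ‖fh W (ω * χ⁻¹)‖)]
    refine (Finset.sum_le_sum h1).trans ?_
    rw [← Finset.sum_div, Finset.sum_add_distrib]
    linarith
  have hc2 : ∑ ω, ‖c ω‖ ^ 2 ≤ s ^ 2 * B ^ 2 := by
    have h1 : ∀ ω ∈ (Finset.univ : Finset (AddChar (ZMod Q) ℂ)), ‖c ω‖ ^ 2 ≤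
        s ^ 2 * ‖fh W ω‖ ^ 2 := by
      intro ω _
      rw [hc]
      simp only [norm_mul, RCLike.norm_conj]
      rw [mul_pow, mul_comm]
      exact mul_le_mul_of_nonneg_right (pow_le_pow_left₀ (norm_nonneg _) (hs _) 2) (sq_nonneg _)
    refine (Finset.sum_le_sum h1).trans ?_
    rw [← Finset.mul_sum]
    exact mul_le_mul_of_nonneg_left hpar (sq_nonneg _)
  have hc0 : 0 ≤ ∑ ω, ‖c ω‖ := Finset.sum_nonneg fun ω _ => norm_nonneg _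
  -- the identity
  have hid : (((Q.totient : ℝ)⁻¹ * ∑ w : (ZMod Q)ˣ,
      ‖fh (fun z => conj (W z) * W (z + (w : ZMod Q) * (d : ZMod Q))) χ‖ ^ 2 : ℝ) : ℂ) =
      ∑ ω, ∑ ω', c ω * conj (c ω') * UA_E (ω * ω'⁻¹) d := by
    have h1 : ∀ w : (ZMod Q)ˣ,
        ((‖fh (fun z => conj (W z) * W (z + (w : ZMod Q) * (d : ZMod Q))) χ‖ ^ 2 : ℝ) : ℂ) =
        ∑ ω, ∑ ω', c ω * conj (c ω') * (ω * ω'⁻¹) ((w : ZMod Q) * (d : ZMod Q)) := by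
      intro w
      rw [Complex.ofReal_pow, ← Complex.mul_conj', R1_prod, map_sum, Finset.sum_mul_sum]
      refine Finset.sum_congr rfl fun ω _ => Finset.sum_congr rfl fun ω' _ => ?_
      rw [map_mul (starRingEnd ℂ) (fh W ω' * conj (fh W (ω' * χ⁻¹))), AddChar.mul_apply,
        AddChar.inv_apply', AddChar.inv_apply_eq_conj, hc]
      ring
    rw [Complex.ofReal_mul, Complex.ofReal_inv, Complex.ofReal_natCast, Complex.ofReal_sum,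
      Finset.sum_congr rfl fun w _ => h1 w, Finset.sum_comm, Finset.mul_sum]
    refine Finset.sum_congr rfl fun ω _ => ?_
    rw [Finset.sum_comm, Finset.mul_sum]
    refine Finset.sum_congr rfl fun ω' _ => ?_
    rw [UA_E, ← Finset.mul_sum]
    ring
  have hnn : 0 ≤ (Q.totient : ℝ)⁻¹ * ∑ w : (ZMod Q)ˣ,
      ‖fh (fun z => conj (W z) * W (z + (w : ZMod Q) * (d : ZMod Q))) χ‖ ^ 2 := by positivity
  rw [← Complex.norm_of_nonneg hnn, hid]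
  have h2 : ‖∑ ω, ∑ ω', c ω * conj (c ω') * UA_E (ω * ω'⁻¹) d‖ ≤
      ∑ ω, ∑ ω', ‖c ω‖ * ‖c ω'‖ *
        (τ + if orderOf ((ω * ω'⁻¹) (d : ZMod Q)) < R then 1 else 0) := by
    refine (norm_sum_le _ _).trans (Finset.sum_le_sum fun ω _ => ?_)
    refine (norm_sum_le _ _).trans (Finset.sum_le_sum fun ω' _ => ?_)
    rw [norm_mul, norm_mul, RCLike.norm_conj]
    exact mul_le_mul_of_nonneg_left (UA_E_le _ d hτ hR) (by positivity)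
  refine h2.trans ?_
  have h3 : ∀ ω ω' : AddChar (ZMod Q) ℂ, ‖c ω‖ * ‖c ω'‖ *
        (τ + if orderOf ((ω * ω'⁻¹) (d : ZMod Q)) < R then 1 else 0) ≤
      τ * (‖c ω‖ * ‖c ω'‖) +
      ((1 / 2 * ‖c ω‖ ^ 2) * (if orderOf ((ω * ω'⁻¹) (d : ZMod Q)) < R then 1 else 0) +
       (1 / 2 * ‖c ω'‖ ^ 2) * (if orderOf ((ω * ω'⁻¹) (d : ZMod Q)) < R then 1 else 0)) := by
    intro ω ω'
    split_ifs
    · nlinarith [sq_nonneg (‖c ω‖ - ‖c ω'‖)]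
    · nlinarith
  refine (Finset.sum_le_sum fun ω _ => Finset.sum_le_sum fun ω' _ => h3 ω ω').trans ?_
  simp only [Finset.sum_add_distrib]
  have h4 : ∑ ω : AddChar (ZMod Q) ℂ, ∑ ω' : AddChar (ZMod Q) ℂ, τ * (‖c ω‖ * ‖c ω'‖) ≤
      τ * B ^ 4 := by
    have h5 : ∑ ω : AddChar (ZMod Q) ℂ, ∑ ω' : AddChar (ZMod Q) ℂ, τ * (‖c ω‖ * ‖c ω'‖) =
        τ * ((∑ ω, ‖c ω‖) * ∑ ω, ‖c ω‖) := by
      rw [Finset.sum_mul_sum, Finset.mul_sum]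
      exact Finset.sum_congr rfl fun ω _ => by rw [Finset.mul_sum]
    rw [h5]
    refine mul_le_mul_of_nonneg_left ?_ hτ
    calc (∑ ω, ‖c ω‖) * ∑ ω, ‖c ω‖ ≤ B ^ 2 * B ^ 2 :=
          mul_le_mul hc1 hc1 hc0 (sq_nonneg _)
      _ = B ^ 4 := by ring
  have h6 : ∑ ω : AddChar (ZMod Q) ℂ, ∑ ω' : AddChar (ZMod Q) ℂ,
      (1 / 2 * ‖c ω‖ ^ 2) * (if orderOf ((ω * ω'⁻¹) (d : ZMod Q)) < R then (1 : ℝ) else 0) ≤
      1 / 2 * ((d : ℝ) * (R : ℝ) ^ 2 * (s ^ 2 * B ^ 2)) := by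
    have h7 : ∀ ω : AddChar (ZMod Q) ℂ, ∑ ω' : AddChar (ZMod Q) ℂ,
        (1 / 2 * ‖c ω‖ ^ 2) * (if orderOf ((ω * ω'⁻¹) (d : ZMod Q)) < R then (1 : ℝ) else 0) ≤
        (1 / 2 * ‖c ω‖ ^ 2) * ((d : ℝ) * (R : ℝ) ^ 2) := by
      intro ω
      rw [← Finset.mul_sum]
      refine mul_le_mul_of_nonneg_left (le_trans (le_of_eq ?_) (UA_cnt (Q := Q) hd R))
        (by positivity)
      refine Fintype.sum_equiv (Equiv.divLeft ω) _ _ fun ω' => ?_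
      rw [Equiv.divLeft_apply, div_eq_mul_inv]
    refine (Finset.sum_le_sum fun ω _ => h7 ω).trans ?_
    rw [← Finset.sum_mul, ← Finset.mul_sum]
    have h8 : 0 ≤ (d : ℝ) * (R : ℝ) ^ 2 := by positivity
    calc 1 / 2 * (∑ ω, ‖c ω‖ ^ 2) * ((d : ℝ) * (R : ℝ) ^ 2)
        ≤ 1 / 2 * (s ^ 2 * B ^ 2) * ((d : ℝ) * (R : ℝ) ^ 2) :=
          mul_le_mul_of_nonneg_right (mul_le_mul_of_nonneg_left hc2 (by norm_num)) h8
      _ = 1 / 2 * ((d : ℝ) * (R : ℝ) ^ 2 * (s ^ 2 * B ^ 2)) := by ring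
  have h6' : ∑ ω : AddChar (ZMod Q) ℂ, ∑ ω' : AddChar (ZMod Q) ℂ,
      (1 / 2 * ‖c ω'‖ ^ 2) * (if orderOf ((ω * ω'⁻¹) (d : ZMod Q)) < R then (1 : ℝ) else 0) ≤
      1 / 2 * ((d : ℝ) * (R : ℝ) ^ 2 * (s ^ 2 * B ^ 2)) := by
    rw [Finset.sum_comm]
    have h7 : ∀ ω' : AddChar (ZMod Q) ℂ, ∑ ω : AddChar (ZMod Q) ℂ,
        (1 / 2 * ‖c ω'‖ ^ 2) * (if orderOf ((ω * ω'⁻¹) (d : ZMod Q)) < R then (1 : ℝ) else 0) ≤
        (1 / 2 * ‖c ω'‖ ^ 2) * ((d : ℝ) * (R : ℝ) ^ 2) := by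
      intro ω'
      rw [← Finset.mul_sum]
      refine mul_le_mul_of_nonneg_left (le_trans (le_of_eq ?_) (UA_cnt (Q := Q) hd R))
        (by positivity)
      exact Fintype.sum_equiv (Equiv.mulRight ω'⁻¹) _ _ fun ω => rfl
    refine (Finset.sum_le_sum fun ω _ => h7 ω).trans ?_
    rw [← Finset.sum_mul, ← Finset.mul_sum]
    have h8 : 0 ≤ (d : ℝ) * (R : ℝ) ^ 2 := by positivity
    calc 1 / 2 * (∑ ω, ‖c ω‖ ^ 2) * ((d : ℝ) * (R : ℝ) ^ 2)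
        ≤ 1 / 2 * (s ^ 2 * B ^ 2) * ((d : ℝ) * (R : ℝ) ^ 2) :=
          mul_le_mul_of_nonneg_right (mul_le_mul_of_nonneg_left hc2 (by norm_num)) h8
      _ = 1 / 2 * ((d : ℝ) * (R : ℝ) ^ 2 * (s ^ 2 * B ^ 2)) := by ring
  linarith

/-- `(u', u' u⁻¹)` are independent uniformly distributed units. With `U_t z = conj (W z) * W (z+t)`:
`Qd W a t = ∑_χ |fh U_t χ|² conj (χ a)` (R1_corr), the average over `a = u' e` has modulus `≤ τ₁` unless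
`orderOf (χ e) < R₁` (Sar.totient_large, R1_sum), at most `e R₁²` exceptions (R1_card). For the
exceptional `χ`: `fh U_t χ = ∑_ω c_ω ω t`, `c_ω = fh W ω * conj (fh W (ω χ⁻¹))` (R1_prod),
`∑ |c_ω| ≤ B²`, `∑ |c_ω|² ≤ s² B²`, and the average over `t = w d` of `|fh U_t χ|²` is at most
`τ₂ B⁴ + d R₂² s² B²`. -/
theorem UA {B : ℝ} (hB : 0 ≤ B) {e d : ℕ} (he : 1 ≤ e) (hd : 1 ≤ d) {τ : ℝ} (hτ : 0 < τ) :
    ∃ C : ℝ, 0 ≤ C ∧ ∀ (Q : ℕ) [NeZero Q] (W : ZMod Q → ℂ), (∀ z, ‖W z‖ ≤ B) →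
      ∀ s : ℝ, (∀ χ : AddChar (ZMod Q) ℂ, ‖fh W χ‖ ≤ s) →
      ‖uav (fun u u' : (ZMod Q)ˣ => Qd W ((u' : ZMod Q) * (e : ZMod Q))
        ((u' : ZMod Q) * ((u⁻¹ : (ZMod Q)ˣ) : ZMod Q) * (d : ZMod Q)))‖ ≤ τ + C * s ^ 2 := by
  classical
  have hB4 : 0 ≤ B ^ 4 := by positivity
  have hτ1 : 0 < τ / (2 * (B ^ 4 + 1)) := by positivity
  obtain ⟨R₁, hR₁⟩ := totient_large hτ1
  have hτ2 : 0 < τ / (2 * ((e : ℝ) * (R₁ : ℝ) ^ 2 + 1) * (B ^ 4 + 1)) := by positivity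
  obtain ⟨R₂, hR₂⟩ := totient_large hτ2
  refine ⟨(e : ℝ) * (R₁ : ℝ) ^ 2 * ((d : ℝ) * (R₂ : ℝ) ^ 2 * B ^ 2), by positivity,
    fun Q _ W hW s hs => ?_⟩
  obtain ⟨τ₁, hτ₁⟩ : ∃ t, t = τ / (2 * (B ^ 4 + 1)) := ⟨_, rfl⟩
  obtain ⟨τ₂, hτ₂⟩ : ∃ t, t = τ / (2 * ((e : ℝ) * (R₁ : ℝ) ^ 2 + 1) * (B ^ 4 + 1)) := ⟨_, rfl⟩
  rw [← hτ₁] at hR₁ hτ1
  rw [← hτ₂] at hR₂ hτ2
  have hQ : (0 : ℝ) < Q.totient := by exact_mod_cast Nat.totient_pos.2 (NeZero.pos Q)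
  -- the expansion of `Qd`
  have hQd : ∀ a t : ZMod Q, Qd W a t = ∑ χ : AddChar (ZMod Q) ℂ,
      ((‖fh (fun z => conj (W z) * W (z + t)) χ‖ ^ 2 : ℝ) : ℂ) * conj (χ a) := by
    intro a t
    rw [← R1_corr (fun z => conj (W z) * W (z + t)) a, Qd]
    congr 1
    funext z
    simp only [map_mul, Complex.conj_conj]
    ring
  -- the double sum
  have hsum : uav (fun u u' : (ZMod Q)ˣ => Qd W ((u' : ZMod Q) * (e : ZMod Q))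
        ((u' : ZMod Q) * ((u⁻¹ : (ZMod Q)ˣ) : ZMod Q) * (d : ZMod Q))) =
      ∑ χ : AddChar (ZMod Q) ℂ, (((Q.totient : ℝ)⁻¹ * ∑ w : (ZMod Q)ˣ,
        ‖fh (fun z => conj (W z) * W (z + (w : ZMod Q) * (d : ZMod Q))) χ‖ ^ 2 : ℝ) : ℂ) *
        conj (UA_E χ e) := by
    have h1 : ∑ u : (ZMod Q)ˣ, ∑ u' : (ZMod Q)ˣ, Qd W ((u' : ZMod Q) * (e : ZMod Q))
        ((u' : ZMod Q) * ((u⁻¹ : (ZMod Q)ˣ) : ZMod Q) * (d : ZMod Q)) =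
        ∑ u' : (ZMod Q)ˣ, ∑ w : (ZMod Q)ˣ, Qd W ((u' : ZMod Q) * (e : ZMod Q))
          ((w : ZMod Q) * (d : ZMod Q)) := by
      rw [Finset.sum_comm]
      refine Finset.sum_congr rfl fun u' _ => ?_
      refine Fintype.sum_equiv (Equiv.divLeft u') _ _ fun u => ?_
      rw [Equiv.divLeft_apply, div_eq_mul_inv, Units.val_mul]
    rw [uav, h1]
    have h2 : ∀ u' w : (ZMod Q)ˣ, Qd W ((u' : ZMod Q) * (e : ZMod Q))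
          ((w : ZMod Q) * (d : ZMod Q)) = ∑ χ : AddChar (ZMod Q) ℂ,
      ((‖fh (fun z => conj (W z) * W (z + (w : ZMod Q) * (d : ZMod Q))) χ‖ ^ 2 : ℝ) : ℂ) *
        conj (χ ((u' : ZMod Q) * (e : ZMod Q))) := fun u' w => hQd _ _
    have h3 : ∑ u' : (ZMod Q)ˣ, ∑ w : (ZMod Q)ˣ, Qd W ((u' : ZMod Q) * (e : ZMod Q))
          ((w : ZMod Q) * (d : ZMod Q)) = ∑ χ : AddChar (ZMod Q) ℂ,
          (∑ w : (ZMod Q)ˣ,
        ((‖fh (fun z => conj (W z) * W (z + (w : ZMod Q) * (d : ZMod Q))) χ‖ ^ 2 : ℝ) : ℂ)) *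
          ∑ u' : (ZMod Q)ˣ, conj (χ ((u' : ZMod Q) * (e : ZMod Q))) := by
      have h4 : ∀ u' : (ZMod Q)ˣ, ∑ w : (ZMod Q)ˣ, Qd W ((u' : ZMod Q) * (e : ZMod Q))
          ((w : ZMod Q) * (d : ZMod Q)) = ∑ χ : AddChar (ZMod Q) ℂ, (∑ w : (ZMod Q)ˣ,
        ((‖fh (fun z => conj (W z) * W (z + (w : ZMod Q) * (d : ZMod Q))) χ‖ ^ 2 : ℝ) : ℂ)) *
          conj (χ ((u' : ZMod Q) * (e : ZMod Q))) := by
        intro u'
        rw [Finset.sum_congr rfl fun w _ => h2 u' w, Finset.sum_comm]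
        exact Finset.sum_congr rfl fun χ _ => by rw [Finset.sum_mul]
      rw [Finset.sum_congr rfl fun u' _ => h4 u', Finset.sum_comm]
      exact Finset.sum_congr rfl fun χ _ => by rw [Finset.mul_sum]
    rw [h3, Finset.mul_sum]
    refine Finset.sum_congr rfl fun χ _ => ?_
    rw [UA_E, map_mul, map_inv₀, map_natCast, map_sum]
    push_cast
    rw [sq, mul_inv]
    ring
  rw [hsum]
  -- the norm
  obtain ⟨A, hA⟩ : ∃ A : AddChar (ZMod Q) ℂ → ℝ, A = fun χ => (Q.totient : ℝ)⁻¹ *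
    ∑ w : (ZMod Q)ˣ,
        ‖fh (fun z => conj (W z) * W (z + (w : ZMod Q) * (d : ZMod Q))) χ‖ ^ 2 := ⟨_, rfl⟩
  have hA0 : ∀ χ, 0 ≤ A χ := by
    intro χ
    rw [hA]
    positivity
  have hAle : ∀ χ, A χ ≤ τ₂ * B ^ 4 + (d : ℝ) * (R₂ : ℝ) ^ 2 * (s ^ 2 * B ^ 2) := by
    intro χ
    rw [hA]
    exact UA_t hd hτ2.le hR₂ hW hs χ
  have hAsum : ∑ χ, A χ ≤ B ^ 4 := by
    rw [hA, ← Finset.mul_sum, Finset.sum_comm, inv_mul_le_iff₀ hQ]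
    have h1 : ∀ w ∈ (Finset.univ : Finset (ZMod Q)ˣ), ∑ χ : AddChar (ZMod Q) ℂ,
        ‖fh (fun z => conj (W z) * W (z + (w : ZMod Q) * (d : ZMod Q))) χ‖ ^ 2 ≤ B ^ 4 := by
      intro w _
      rw [R1_pars]
      have h2 : ∀ z : ZMod Q, ‖conj (W z) * W (z + (w : ZMod Q) * (d : ZMod Q))‖ ≤ B ^ 2 := by
        intro z
        rw [norm_mul, RCLike.norm_conj, sq]
        exact mul_le_mul (hW _) (hW _) (norm_nonneg _) hB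
      refine (UA_avr h2).trans (le_of_eq ?_)
      ring
    have h2 := Finset.sum_le_card_nsmul _ _ _ h1
    rw [Finset.card_univ, ZMod.card_units_eq_totient, nsmul_eq_mul] at h2
    exact h2
  have h5 : ∀ χ ∈ (Finset.univ : Finset (AddChar (ZMod Q) ℂ)),
      ‖((A χ : ℝ) : ℂ) * conj (UA_E χ e)‖ ≤ τ₁ * A χ +
        (τ₂ * B ^ 4 + (d : ℝ) * (R₂ : ℝ) ^ 2 * (s ^ 2 * B ^ 2)) *
          (if orderOf (χ (e : ZMod Q)) < R₁ then 1 else 0) := by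
    intro χ _
    rw [norm_mul, RCLike.norm_conj, Complex.norm_of_nonneg (hA0 χ)]
    have h6 := UA_E_le χ e hτ1.le hR₁
    have h7 := mul_le_mul_of_nonneg_left h6 (hA0 χ)
    refine h7.trans ?_
    rw [mul_add, mul_comm (A χ) τ₁]
    refine add_le_add le_rfl (mul_le_mul_of_nonneg_right (hAle χ) ?_)
    split_ifs <;> norm_num
  have h8 : ‖∑ χ : AddChar (ZMod Q) ℂ, ((A χ : ℝ) : ℂ) * conj (UA_E χ e)‖ ≤
      τ₁ * B ^ 4 + (τ₂ * B ^ 4 + (d : ℝ) * (R₂ : ℝ) ^ 2 * (s ^ 2 * B ^ 2)) *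
        ((e : ℝ) * (R₁ : ℝ) ^ 2) := by
    refine (norm_sum_le_of_le _ h5).trans ?_
    rw [Finset.sum_add_distrib, ← Finset.mul_sum, ← Finset.mul_sum]
    refine add_le_add (mul_le_mul_of_nonneg_left hAsum hτ1.le) ?_
    exact mul_le_mul_of_nonneg_left (UA_cnt (Q := Q) he R₁) (by positivity)
  have h9 : τ₁ * B ^ 4 ≤ τ / 2 := by
    rw [hτ₁, div_mul_eq_mul_div, div_le_iff₀ (by positivity)]
    nlinarith
  have h10 : τ₂ * B ^ 4 * ((e : ℝ) * (R₁ : ℝ) ^ 2) ≤ τ / 2 := by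
    have h11 : 0 ≤ (e : ℝ) * (R₁ : ℝ) ^ 2 := by positivity
    obtain ⟨k, hk⟩ : ∃ k, k = (e : ℝ) * (R₁ : ℝ) ^ 2 := ⟨_, rfl⟩
    rw [← hk] at h11 ⊢
    rw [hτ₂, ← hk, div_mul_eq_mul_div, div_mul_eq_mul_div, div_le_iff₀ (by positivity)]
    have h12 : τ / 2 * (2 * (k + 1) * (B ^ 4 + 1)) = τ * B ^ 4 * k + τ * (B ^ 4 + k + 1) := by
      ring
    rw [h12]
    have h13 : 0 ≤ τ * (B ^ 4 + k + 1) := by positivity
    linarith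
  rw [hA] at h8
  refine h8.trans ?_
  nlinarith [h9, h10]

end Pool.Agent.Ef
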