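import Pool.Agent.Ef.Defs

/-! MP_13664e_an (ELFR), module V1: van der Corput with unknown labels. -/

set_option autoImplicit false

namespace Pool.Agent.Ef

open Filter Topology
open scoped ComplexConjugate

private theorem V1_dist (c : ℕ → ℝ) (hc : ∀ d, 0 ≤ c d) (t : ℕ) :
    ∑ r ∈ Finset.range t, ∑ s ∈ Finset.range t,
      (if s < r then c (r - s) else if s = r then c 0 else c (s - r)) ≤
      t * (c 0 + 2 * ∑ d ∈ Finset.Ico 1 t, c d) := by
  have key : ∀ r ∈ Finset.range t, ∑ s ∈ Finset.range t,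
      (if s < r then c (r - s) else if s = r then c 0 else c (s - r)) ≤
      c 0 + 2 * ∑ d ∈ Finset.Ico 1 t, c d := by
    intro r hr
    have hr' := Finset.mem_range.1 hr
    have e : ∀ s ∈ Finset.range t,
        (if s < r then c (r - s) else if s = r then c 0 else c (s - r)) =
        (if s < r then c (r - s) else 0) + (if s = r then c 0 else 0) +
          (if r < s then c (s - r) else 0) := by
      intro s _
      rcases lt_trichotomy s r with h | h | h
      · rw [if_pos h, if_pos h, if_neg h.ne, if_neg h.not_gt, add_zero, add_zero]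
      · rw [if_neg h.not_lt, if_pos h, if_neg h.not_lt, if_pos h, if_neg h.not_gt, zero_add,
          add_zero]
      · rw [if_neg h.not_gt, if_neg h.ne', if_neg h.not_gt, if_neg h.ne', if_pos h, zero_add,
          zero_add]
    rw [Finset.sum_congr rfl e, Finset.sum_add_distrib, Finset.sum_add_distrib]
    have h1 : ∑ s ∈ Finset.range t, (if s < r then c (r - s) else 0) ≤
        ∑ d ∈ Finset.Ico 1 t, c d := by
      rw [← Finset.sum_filter]
      have hi : Set.InjOn (fun s => r - s)
          (((Finset.range t).filter (fun s => s < r) : Finset ℕ) : Set ℕ) := by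
        intro a ha b hb hab
        have ha' := (Finset.mem_filter.1 (Finset.mem_coe.1 ha)).2
        have hb' := (Finset.mem_filter.1 (Finset.mem_coe.1 hb)).2
        dsimp only at hab
        omega
      rw [← Finset.sum_image (f := c) (g := fun s => r - s) hi]
      apply Finset.sum_le_sum_of_subset_of_nonneg
      · intro d hd
        obtain ⟨s, hs, rfl⟩ := Finset.mem_image.1 hd
        have hs' := (Finset.mem_filter.1 hs).2
        rw [Finset.mem_Ico]
        omega
      · intro d _ _
        exact hc d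
    have h2 : ∑ s ∈ Finset.range t, (if s = r then c 0 else 0) = c 0 := by
      rw [Finset.sum_ite_eq' (Finset.range t) r (fun _ => c 0), if_pos hr]
    have h3 : ∑ s ∈ Finset.range t, (if r < s then c (s - r) else 0) ≤
        ∑ d ∈ Finset.Ico 1 t, c d := by
      rw [← Finset.sum_filter]
      have hi : Set.InjOn (fun s => s - r)
          (((Finset.range t).filter (fun s => r < s) : Finset ℕ) : Set ℕ) := by
        intro a ha b hb hab
        have ha' := (Finset.mem_filter.1 (Finset.mem_coe.1 ha)).2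
        have hb' := (Finset.mem_filter.1 (Finset.mem_coe.1 hb)).2
        dsimp only at hab
        omega
      rw [← Finset.sum_image (f := c) (g := fun s => s - r) hi]
      apply Finset.sum_le_sum_of_subset_of_nonneg
      · intro d hd
        obtain ⟨s, hs, rfl⟩ := Finset.mem_image.1 hd
        have hs' := (Finset.mem_filter.1 hs).2
        have hs2 := Finset.mem_range.1 (Finset.mem_filter.1 hs).1
        rw [Finset.mem_Ico]
        omega
      · intro d _ _
        exact hc d
    rw [h2]
    linarith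
  calc ∑ r ∈ Finset.range t, ∑ s ∈ Finset.range t,
      (if s < r then c (r - s) else if s = r then c 0 else c (s - r))
      ≤ ∑ r ∈ Finset.range t, (c 0 + 2 * ∑ d ∈ Finset.Ico 1 t, c d) := Finset.sum_le_sum key
    _ = t * (c 0 + 2 * ∑ d ∈ Finset.Ico 1 t, c d) := by
        rw [Finset.sum_const, Finset.card_range, nsmul_eq_mul]

private theorem V1_jen {n : ℕ} [NeZero n] (F : ZMod n → ℂ) :
    ‖av F‖ ^ 2 ≤ avr fun z => ‖F z‖ ^ 2 := by
  have hn : (0 : ℝ) < n := Nat.cast_pos.2 (Nat.pos_of_ne_zero (NeZero.ne n))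
  unfold av avr
  rw [norm_mul, norm_inv, Complex.norm_natCast, mul_pow]
  have h1 : ‖∑ z, F z‖ ≤ ∑ z, ‖F z‖ := norm_sum_le _ _
  have h2 : (∑ z, ‖F z‖) ^ 2 ≤ (n : ℝ) * ∑ z, ‖F z‖ ^ 2 := by
    have := sq_sum_le_card_mul_sum_sq (s := (Finset.univ : Finset (ZMod n)))
      (f := fun z => ‖F z‖)
    rwa [Finset.card_univ, ZMod.card] at this
  have h3 : ‖∑ z, F z‖ ^ 2 ≤ (n : ℝ) * ∑ z, ‖F z‖ ^ 2 :=
    (pow_le_pow_left₀ (norm_nonneg _) h1 2).trans h2
  calc ((n : ℝ)⁻¹) ^ 2 * ‖∑ z, F z‖ ^ 2 ≤ ((n : ℝ)⁻¹) ^ 2 * ((n : ℝ) * ∑ z, ‖F z‖ ^ 2) :=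
        mul_le_mul_of_nonneg_left h3 (by positivity)
    _ = (n : ℝ)⁻¹ * ∑ z, ‖F z‖ ^ 2 := by field_simp

private theorem V1_shift {n : ℕ} [NeZero n] (F : ZMod n → ℂ) (a : ZMod n) :
    av (fun z => F (z + a)) = av F := by
  unfold av
  rw [Equiv.sum_comp (Equiv.addRight a) F |>.symm]
  rfl

private theorem V1_fiber {n q : ℕ} [NeZero n] [NeZero q] (hq : q ∣ n) (g : ZMod q → ℝ) :
    avr (fun z : ZMod n => g (ZMod.castHom hq (ZMod q) z)) = avr g := by
  have hn : (n : ℝ) ≠ 0 := Nat.cast_ne_zero.2 (NeZero.ne n)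
  have hq0 : (q : ℝ) ≠ 0 := Nat.cast_ne_zero.2 (NeZero.ne q)
  have hcard : ∀ w : ZMod q, ((Finset.univ : Finset (ZMod n)).filter
      (fun z => ZMod.castHom hq (ZMod q) z = w)).card =
      ((Finset.univ : Finset (ZMod n)).filter
      (fun z => ZMod.castHom hq (ZMod q) z = 0)).card := by
    intro w
    obtain ⟨z0, hz0⟩ := ZMod.castHom_surjective hq w
    symm
    apply Finset.card_nbij' (fun z => z + z0) (fun z => z - z0)
    · intro z hz
      simp only [Finset.coe_filter, Finset.mem_univ, true_and, Set.mem_ofPred_eq] at hz ⊢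
      rw [map_add, hz, hz0, zero_add]
    · intro z hz
      simp only [Finset.coe_filter, Finset.mem_univ, true_and, Set.mem_ofPred_eq] at hz ⊢
      rw [map_sub, hz, hz0, sub_self]
    · intro z _
      exact add_sub_cancel_right z z0
    · intro z _
      exact sub_add_cancel z z0
  have hsum : ∀ G : ZMod q → ℝ, ∑ z : ZMod n, G (ZMod.castHom hq (ZMod q) z) =
      (((Finset.univ : Finset (ZMod n)).filter
      (fun z => ZMod.castHom hq (ZMod q) z = 0)).card : ℝ) * ∑ w, G w := by
    intro G
    rw [← Finset.sum_fiberwise (Finset.univ : Finset (ZMod n))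
      (fun z => ZMod.castHom hq (ZMod q) z) (fun z => G (ZMod.castHom hq (ZMod q) z)),
      Finset.mul_sum]
    apply Finset.sum_congr rfl
    intro w _
    rw [Finset.sum_congr rfl (g := fun _ => G w) (fun z hz => by
      rw [(Finset.mem_filter.1 hz).2]), Finset.sum_const, hcard w, nsmul_eq_mul]
  have h1 := hsum (fun _ => 1)
  rw [Finset.sum_const, Finset.sum_const, Finset.card_univ, Finset.card_univ, ZMod.card,
    ZMod.card, nsmul_eq_mul, nsmul_eq_mul, mul_one, mul_one] at h1
  unfold avr
  rw [hsum g]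
  rw [h1]
  have hK : (((Finset.univ : Finset (ZMod n)).filter
      (fun z => ZMod.castHom hq (ZMod q) z = 0)).card : ℝ) ≠ 0 := by
    intro h
    rw [h, zero_mul] at h1
    exact hn h1
  field_simp

private theorem V1_val {n q : ℕ} [NeZero n] [NeZero q] (hq : q ∣ n) (z : ZMod n) :
    (ZMod.castHom hq (ZMod q) z).val = z.val % q := by
  rw [ZMod.castHom_apply, ZMod.cast_eq_val, ZMod.val_natCast]

/-- the density of the residues near the end of the block -/
private theorem V1_bad {n q : ℕ} [NeZero n] [NeZero q] (hq : q ∣ n) (t : ℕ) :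
    avr (fun z : ZMod n => if q < z.val % q + t then (16 : ℝ) else 0) ≤ 16 * t / q := by
  have hq0 : (0 : ℝ) < q := Nat.cast_pos.2 (Nat.pos_of_ne_zero (NeZero.ne q))
  have e : (fun z : ZMod n => if q < z.val % q + t then (16 : ℝ) else 0) =
      fun z : ZMod n => (fun w : ZMod q => if q < w.val + t then (16 : ℝ) else 0)
        (ZMod.castHom hq (ZMod q) z) := by
    funext z
    simp only [V1_val]
  rw [e]
  refine (V1_fiber hq (fun w : ZMod q => if q < w.val + t then (16 : ℝ) else 0)).le.trans ?_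
  unfold avr
  rw [← Finset.sum_filter, Finset.sum_const, nsmul_eq_mul]
  have hc : ((Finset.univ : Finset (ZMod q)).filter (fun w => q < w.val + t)).card ≤ t := by
    have h1 : ((Finset.univ : Finset (ZMod q)).filter (fun w => q < w.val + t)).card ≤
        (Finset.Ico (q - t) q).card := by
      apply Finset.card_le_card_of_injOn (fun w : ZMod q => w.val)
      · intro w hw
        have h2 := (Finset.mem_filter.1 (Finset.mem_coe.1 hw)).2
        have h3 := ZMod.val_lt w
        rw [Finset.coe_Ico, Set.mem_Ico]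
        dsimp only
        omega
      · intro a _ b _ hab
        exact ZMod.val_injective q hab
    rw [Nat.card_Ico] at h1
    omega
  have hc' : (((Finset.univ : Finset (ZMod q)).filter (fun w => q < w.val + t)).card : ℝ) ≤ t :=
    Nat.cast_le.2 hc
  rw [inv_mul_eq_div]
  apply div_le_div_of_nonneg_right _ hq0.le
  linarith

/-- `av (H v) = av_z (1/t) ∑_{r<t} (H v)(z+r)`; for `z.val % q + t ≤ q` the inner average is bounded
by the sum over ALL labels `b` of `|(1/t) ∑_r f_b(z+r) v(z+r)|^2`, the other `z` have density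
`≤ t/q` and cost `16`; expand the squares. -/
theorem V1 {n q m : ℕ} [NeZero n] [NeZero q] (hq : q ∣ n) {f : Fin m → ZMod q → ℂ}
    {H : ZMod n → ℂ} (hb : BlkN hq f H) (hf : ∀ b z, ‖f b z‖ ≤ 2) (hH : ∀ z, ‖H z‖ ≤ 2)
    {v : ZMod n → ℂ} (hv : ∀ z, ‖v z‖ ≤ 2) {t : ℕ} (ht : 1 ≤ t) :
    ‖av (fun z => H z * v z)‖ ^ 2 ≤ 16 * t / q + 16 * m / t +
      (2 / t) * ∑ d ∈ Finset.Ico 1 t,
        ‖av (fun z => wd f d (ZMod.castHom hq (ZMod q) z) * v z *
          conj (v (z + (d : ZMod n))))‖ := by
  have ht0 : (0 : ℝ) < t := Nat.cast_pos.2 ht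
  have htC : (t : ℂ) ≠ 0 := Nat.cast_ne_zero.2 (by omega)
  have hn0 : (0 : ℝ) < n := Nat.cast_pos.2 (Nat.pos_of_ne_zero (NeZero.ne n))
  set G : Fin m → ZMod n → ℂ := fun b z => f b (ZMod.castHom hq (ZMod q) z) * v z with hG
  have hG4 : ∀ b z, ‖G b z‖ ≤ 4 := by
    intro b z
    rw [hG]
    dsimp only
    rw [norm_mul]
    calc ‖f b (ZMod.castHom hq (ZMod q) z)‖ * ‖v z‖ ≤ 2 * 2 :=
          mul_le_mul (hf _ _) (hv _) (norm_nonneg _) (by norm_num)
      _ = 4 := by norm_num
  -- the window averages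
  set P : ZMod n → ℂ := fun z => (t : ℂ)⁻¹ * ∑ r ∈ Finset.range t,
    H (z + (r : ZMod n)) * v (z + (r : ZMod n)) with hP
  set PB : Fin m → ZMod n → ℂ := fun b z => (t : ℂ)⁻¹ * ∑ r ∈ Finset.range t,
    G b (z + (r : ZMod n)) with hPB
  have h1 : av (fun z => H z * v z) = av P := by
    have e1 : ∀ r ∈ Finset.range t, av (fun z => H (z + (r : ZMod n)) * v (z + (r : ZMod n))) =
        av (fun z => H z * v z) := fun r _ =>
      V1_shift (fun z => H z * v z) (r : ZMod n)
    have e2 : av P = (t : ℂ)⁻¹ * ∑ r ∈ Finset.range t,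
        av (fun z => H (z + (r : ZMod n)) * v (z + (r : ZMod n))) := by
      rw [hP]
      unfold av
      rw [← Finset.mul_sum, Finset.sum_comm, Finset.mul_sum, Finset.mul_sum, Finset.mul_sum]
      apply Finset.sum_congr rfl
      intro r _
      ring
    rw [e2, Finset.sum_congr rfl e1, Finset.sum_const, Finset.card_range, nsmul_eq_mul,
      ← mul_assoc, inv_mul_cancel₀ htC, one_mul]
  have h2 : ∀ z : ZMod n, ‖P z‖ ^ 2 ≤ (if q < z.val % q + t then (16 : ℝ) else 0) +
      ∑ b, ‖PB b z‖ ^ 2 := by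
    intro z
    have hnn : 0 ≤ ∑ b, ‖PB b z‖ ^ 2 := Finset.sum_nonneg fun b _ => by positivity
    by_cases hz : q < z.val % q + t
    · rw [if_pos hz]
      have h3 : ‖P z‖ ≤ 4 := by
        rw [hP]
        dsimp only
        rw [norm_mul, norm_inv, Complex.norm_natCast]
        have h4 : ‖∑ r ∈ Finset.range t, H (z + (r : ZMod n)) * v (z + (r : ZMod n))‖ ≤
            t * 4 := by
          refine (norm_sum_le _ _).trans ?_
          calc ∑ r ∈ Finset.range t, ‖H (z + (r : ZMod n)) * v (z + (r : ZMod n))‖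
              ≤ ∑ r ∈ Finset.range t, (4 : ℝ) := by
                apply Finset.sum_le_sum
                intro r _
                rw [norm_mul]
                calc ‖H (z + (r : ZMod n))‖ * ‖v (z + (r : ZMod n))‖ ≤ 2 * 2 :=
                      mul_le_mul (hH _) (hv _) (norm_nonneg _) (by norm_num)
                  _ = 4 := by norm_num
            _ = t * 4 := by rw [Finset.sum_const, Finset.card_range, nsmul_eq_mul]
        calc (t : ℝ)⁻¹ * ‖∑ r ∈ Finset.range t, H (z + (r : ZMod n)) * v (z + (r : ZMod n))‖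
            ≤ (t : ℝ)⁻¹ * (t * 4) := mul_le_mul_of_nonneg_left h4 (by positivity)
          _ = 4 := by field_simp
      have h5 : ‖P z‖ ^ 2 ≤ 4 ^ 2 := pow_le_pow_left₀ (norm_nonneg _) h3 2
      linarith
    · rw [if_neg hz, zero_add]
      obtain ⟨b, hb'⟩ := hb z
      have h3 : P z = PB b z := by
        rw [hP, hPB, hG]
        dsimp only
        congr 1
        apply Finset.sum_congr rfl
        intro r hr
        have hr' := Finset.mem_range.1 hr
        rw [hb' r (by omega)]
      rw [h3]
      exact Finset.single_le_sum (f := fun b => ‖PB b z‖ ^ 2) (fun b _ => by positivity)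
        (Finset.mem_univ b)
  set T : ℕ → ℕ → ℂ := fun r s => av fun z =>
    ∑ b, G b (z + (r : ZMod n)) * conj (G b (z + (s : ZMod n))) with hT
  have h3 : ((avr fun z => ∑ b, ‖PB b z‖ ^ 2 : ℝ) : ℂ) =
      (t : ℂ)⁻¹ * (t : ℂ)⁻¹ * ∑ r ∈ Finset.range t, ∑ s ∈ Finset.range t, T r s := by
    have e1 : ∀ (z : ZMod n) (b : Fin m), ((‖PB b z‖ ^ 2 : ℝ) : ℂ) =
        (t : ℂ)⁻¹ * (t : ℂ)⁻¹ * ∑ r ∈ Finset.range t, ∑ s ∈ Finset.range t,
          G b (z + (r : ZMod n)) * conj (G b (z + (s : ZMod n))) := by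
      intro z b
      have e2 : ((‖PB b z‖ ^ 2 : ℝ) : ℂ) = PB b z * conj (PB b z) := by
        rw [Complex.mul_conj, Complex.normSq_eq_norm_sq]
      rw [e2, hPB]
      dsimp only
      rw [map_mul, map_inv₀, Complex.conj_natCast, map_sum, mul_mul_mul_comm,
        Finset.sum_mul_sum]
    have e3 : ((avr fun z => ∑ b, ‖PB b z‖ ^ 2 : ℝ) : ℂ) =
        (n : ℂ)⁻¹ * ∑ z, ∑ b, ((‖PB b z‖ ^ 2 : ℝ) : ℂ) := by
      unfold avr
      push_cast
      rfl
    rw [e3, hT]
    unfold av
    simp only [e1, Finset.mul_sum]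
    calc ∑ z : ZMod n, ∑ b : Fin m, ∑ r ∈ Finset.range t, ∑ s ∈ Finset.range t,
          (n : ℂ)⁻¹ * ((t : ℂ)⁻¹ * (t : ℂ)⁻¹ *
            (G b (z + (r : ZMod n)) * conj (G b (z + (s : ZMod n)))))
        = ∑ z : ZMod n, ∑ r ∈ Finset.range t, ∑ s ∈ Finset.range t, ∑ b : Fin m,
          (n : ℂ)⁻¹ * ((t : ℂ)⁻¹ * (t : ℂ)⁻¹ *
            (G b (z + (r : ZMod n)) * conj (G b (z + (s : ZMod n))))) := by
          apply Finset.sum_congr rfl
          intro z _
          rw [Finset.sum_comm]
          apply Finset.sum_congr rfl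
          intro r _
          rw [Finset.sum_comm]
      _ = ∑ r ∈ Finset.range t, ∑ s ∈ Finset.range t, ∑ z : ZMod n, ∑ b : Fin m,
          (n : ℂ)⁻¹ * ((t : ℂ)⁻¹ * (t : ℂ)⁻¹ *
            (G b (z + (r : ZMod n)) * conj (G b (z + (s : ZMod n))))) := by
          rw [Finset.sum_comm]
          apply Finset.sum_congr rfl
          intro r _
          rw [Finset.sum_comm]
      _ = _ := by
          apply Finset.sum_congr rfl
          intro r _
          apply Finset.sum_congr rfl
          intro s _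
          apply Finset.sum_congr rfl
          intro z _
          apply Finset.sum_congr rfl
          intro b _
          ring
  set c : ℕ → ℝ := fun d => if d = 0 then 16 * (m : ℝ) else
    ‖av (fun z => wd f d (ZMod.castHom hq (ZMod q) z) * v z * conj (v (z + (d : ZMod n))))‖
    with hc
  have hc0 : ∀ d, 0 ≤ c d := by
    intro d
    rw [hc]
    dsimp only
    split_ifs
    · positivity
    · exact norm_nonneg _
  -- the off-diagonal terms
  have hTlt : ∀ r s, r < s → ‖T r s‖ = c (s - r) := by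
    intro r s hrs
    have hd : s - r ≠ 0 := by omega
    rw [hc]
    dsimp only
    rw [if_neg hd, hT]
    dsimp only
    congr 1
    have e1 : (fun z : ZMod n => ∑ b, G b (z + (r : ZMod n)) * conj (G b (z + (s : ZMod n)))) =
        fun z => (fun z => ∑ b, G b z * conj (G b (z + ((s - r : ℕ) : ZMod n))))
          (z + (r : ZMod n)) := by
      funext z
      dsimp only
      have e2 : z + (r : ZMod n) + ((s - r : ℕ) : ZMod n) = z + (s : ZMod n) := by
        rw [Nat.cast_sub hrs.le]
        ring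
      rw [e2]
    rw [e1, V1_shift (fun z => ∑ b, G b z * conj (G b (z + ((s - r : ℕ) : ZMod n))))
      (r : ZMod n)]
    congr 1
    funext z
    unfold wd
    rw [Finset.sum_mul, Finset.sum_mul]
    apply Finset.sum_congr rfl
    intro b _
    rw [hG]
    dsimp only
    rw [map_mul, map_add, map_natCast]
    ring
  have hTgt : ∀ r s, ‖T r s‖ = ‖T s r‖ := by
    intro r s
    have e1 : T r s = conj (T s r) := by
      rw [hT]
      dsimp only
      unfold av
      rw [map_mul, map_inv₀, Complex.conj_natCast, map_sum]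
      congr 1
      apply Finset.sum_congr rfl
      intro z _
      rw [map_sum]
      apply Finset.sum_congr rfl
      intro b _
      generalize G b (z + (r : ZMod n)) = A
      generalize G b (z + (s : ZMod n)) = B
      rw [map_mul, Complex.conj_conj, mul_comm]
    rw [e1, Complex.norm_conj]
  have hTeq : ∀ r, ‖T r r‖ ≤ c 0 := by
    intro r
    rw [hc]
    dsimp only
    rw [if_pos rfl, hT]
    dsimp only
    unfold av
    rw [norm_mul, norm_inv, Complex.norm_natCast]
    have h4 : ‖∑ z : ZMod n, ∑ b, G b (z + (r : ZMod n)) * conj (G b (z + (r : ZMod n)))‖ ≤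
        n * (16 * m) := by
      refine (norm_sum_le _ _).trans ?_
      calc ∑ z : ZMod n, ‖∑ b, G b (z + (r : ZMod n)) * conj (G b (z + (r : ZMod n)))‖
          ≤ ∑ z : ZMod n, (16 * m : ℝ) := by
            apply Finset.sum_le_sum
            intro z _
            refine (norm_sum_le _ _).trans ?_
            calc ∑ b, ‖G b (z + (r : ZMod n)) * conj (G b (z + (r : ZMod n)))‖
                ≤ ∑ b : Fin m, (16 : ℝ) := by
                  apply Finset.sum_le_sum
                  intro b _
                  rw [norm_mul, Complex.norm_conj]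
                  calc ‖G b (z + (r : ZMod n))‖ * ‖G b (z + (r : ZMod n))‖ ≤ 4 * 4 :=
                        mul_le_mul (hG4 _ _) (hG4 _ _) (norm_nonneg _) (by norm_num)
                    _ = 16 := by norm_num
              _ = 16 * m := by
                  rw [Finset.sum_const, Finset.card_univ, Fintype.card_fin, nsmul_eq_mul,
                    mul_comm]
        _ = n * (16 * m) := by
            rw [Finset.sum_const, Finset.card_univ, ZMod.card, nsmul_eq_mul]
    calc (n : ℝ)⁻¹ * ‖∑ z : ZMod n, ∑ b, G b (z + (r : ZMod n)) *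
          conj (G b (z + (r : ZMod n)))‖ ≤ (n : ℝ)⁻¹ * (n * (16 * m)) :=
          mul_le_mul_of_nonneg_left h4 (by positivity)
      _ = 16 * m := by field_simp
  have h4 : avr (fun z => ∑ b, ‖PB b z‖ ^ 2) ≤
      (t : ℝ)⁻¹ * (t : ℝ)⁻¹ * (t * (c 0 + 2 * ∑ d ∈ Finset.Ico 1 t, c d)) := by
    have e1 : avr (fun z => ∑ b, ‖PB b z‖ ^ 2) ≤ ‖((avr fun z => ∑ b, ‖PB b z‖ ^ 2 : ℝ) : ℂ)‖ := by
      rw [Complex.norm_real]
      exact le_abs_self _
    refine e1.trans ?_
    rw [h3, norm_mul, norm_mul, norm_inv, Complex.norm_natCast]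
    apply mul_le_mul_of_nonneg_left _ (by positivity)
    refine le_trans ?_ (V1_dist c hc0 t)
    refine (norm_sum_le _ _).trans ?_
    apply Finset.sum_le_sum
    intro r _
    refine (norm_sum_le _ _).trans ?_
    apply Finset.sum_le_sum
    intro s _
    rcases lt_trichotomy s r with h | h | h
    · rw [if_pos h, hTgt, hTlt s r h]
    · rw [if_neg h.not_lt, if_pos h, h]
      exact hTeq r
    · rw [if_neg h.not_gt, if_neg h.ne', hTlt r s h]
  have h5 : c 0 = 16 * m := by
    rw [hc]
    exact if_pos rfl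
  have h6 : ∑ d ∈ Finset.Ico 1 t, c d = ∑ d ∈ Finset.Ico 1 t,
        ‖av (fun z => wd f d (ZMod.castHom hq (ZMod q) z) * v z *
          conj (v (z + (d : ZMod n))))‖ := by
    apply Finset.sum_congr rfl
    intro d hd
    have hd' := (Finset.mem_Ico.1 hd).1
    rw [hc]
    exact if_neg (by omega)
  rw [h5, h6] at h4
  rw [h1]
  refine (V1_jen P).trans ?_
  have h7 : avr (fun z => ‖P z‖ ^ 2) ≤
      avr (fun z : ZMod n => if q < z.val % q + t then (16 : ℝ) else 0) +
        avr (fun z => ∑ b, ‖PB b z‖ ^ 2) := by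
    unfold avr
    rw [← mul_add, ← Finset.sum_add_distrib]
    exact mul_le_mul_of_nonneg_left (Finset.sum_le_sum fun z _ => h2 z) (by positivity)
  refine h7.trans ?_
  have h8 := V1_bad hq t
  have h9 : (t : ℝ)⁻¹ * (t : ℝ)⁻¹ * (t * (16 * m + 2 * ∑ d ∈ Finset.Ico 1 t,
        ‖av (fun z => wd f d (ZMod.castHom hq (ZMod q) z) * v z *
          conj (v (z + (d : ZMod n))))‖)) = 16 * m / t + (2 / t) * ∑ d ∈ Finset.Ico 1 t,
        ‖av (fun z => wd f d (ZMod.castHom hq (ZMod q) z) * v z *
          conj (v (z + (d : ZMod n))))‖ := by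
    field_simp
  rw [h9] at h4
  linarith

end Pool.Agent.Ef
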